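import Pool.Agent.Work.MP_6cbae3_ch.Interface

/-! # Block ASPL: `E` is Asplund -/

set_option autoImplicit false

namespace Pool.AP.ASPL18

open Filter Topology Set Pool.AP
open scoped Pointwise

/-- Fréchet differentiability is a local property -/
theorem FrechetDiffAt.congr {E : Type*} [AddCommGroup E] [Module ℝ E] [TopologicalSpace E]
    [IsTopologicalAddGroup E] {f g : E → ℝ} {x : E} {W : Set E} (hW : IsOpen W) (hx : x ∈ W)
    (h : ∀ y ∈ W, f y = g y) (hg : FrechetDiffAt g x) : FrechetDiffAt f x := by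
  obtain ⟨f', hf'⟩ := hg
  refine ⟨f', fun B hB ε hε => ?_⟩
  obtain ⟨δ, hδ, hd⟩ := hf' B hB ε hε
  have hV : {v : E | x + v ∈ W} ∈ 𝓝 (0 : E) := by
    have : ContinuousAt (fun v : E => x + v) 0 := (continuous_const.add continuous_id).continuousAt
    exact this.preimage_mem_nhds (by simpa using hW.mem_nhds hx)
  have hab := hB hV
  rw [absorbs_iff_norm] at hab
  obtain ⟨r, hr⟩ := hab
  refine ⟨min δ (1 / (|r| + 1)), lt_min hδ (by positivity), fun t ht htd => ?_⟩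
  have ht1 : |t| < δ := lt_of_lt_of_le htd (min_le_left _ _)
  have ht2 : |t| < 1 / (|r| + 1) := lt_of_lt_of_le htd (min_le_right _ _)
  have ht0 : t ≠ 0 := abs_pos.1 ht
  obtain ⟨s, hs, hs'⟩ := hd t ht ht1
  refine ⟨s, hs, fun b hb => ?_⟩
  have h1 : b ∈ t⁻¹ • {v : E | x + v ∈ W} := by
    refine hr t⁻¹ ?_ hb
    rw [norm_inv, Real.norm_eq_abs]
    have h2 : |t| * (|r| + 1) < 1 := by
      rwa [lt_div_iff₀ (by positivity)] at ht2
    have h3 : |r| + 1 ≤ |t|⁻¹ := by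
      rw [le_inv_comm₀ (by positivity) ht]
      rw [← one_div]
      exact ht2.le
    exact (le_abs_self r).trans (by linarith)
  rw [Set.mem_inv_smul_set_iff₀ ht0] at h1
  have h2 := hs' b hb
  rw [h _ h1, h x hx]
  exact h2

end Pool.AP.ASPL18

namespace Pool.AP

open ASPL18 Set Filter Topology

theorem blk_ASPL (hEXTN : Stmt_EXTN) (hM1 : Stmt_M1) (hFDC : Stmt_FDC) (hBAI : Stmt_BAI)
    (hSEPP : Stmt_SEPP) (hCCC : Stmt_CCC) (hDEN : Stmt_DEN) : Stmt_ASPL := by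
  intro A _ D hD S f _ hSo _ hf hfc
  have : BaireSpace D.E := hBAI A D hD
  have hsep : TopologicalSpace.SeparableSpace ((X × (A → ℝ)) × ℝ) := hSEPP A hD.idx
  have hsep' : TopologicalSpace.SeparableSpace (X × (A → ℝ)) :=
    (Prod.fst_surjective (α := X × (A → ℝ)) (β := ℝ)).denseRange.separableSpace continuous_fst
  have hdense : Dense (D.E : Set (X × (A → ℝ))) := by
    rw [dense_iff_inter_open]
    intro U hU hne
    obtain ⟨α₀, hα₀⟩ := hD.idx.unb ∅ Set.countable_empty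
    obtain ⟨α, -, hα⟩ := hDEN A D hD (U ×ˢ (univ : Set ℝ)) (hU.prod isOpen_univ)
      (hne.prod univ_nonempty) α₀
    exact ⟨D.eh (α, 0), hα.1, (D.ehE (α, 0)).2⟩
  have hex := fun x₀ : S => hEXTN A D S f hSo hf hfc x₀.1 x₀.2
  choose m I G L W hI hG hWo hxW hWS hfG using hex
  have hV : ∀ x₀ : S, ∃ V : Set (X × (A → ℝ)), IsOpen V ∧ Subtype.val ⁻¹' V = W x₀ :=
    fun x₀ => isOpen_induced_iff.1 (hWo x₀)
  choose V hVo hVW using hV
  obtain ⟨J, hJ, hJc⟩ := hCCC (X × (A → ℝ)) (D.E : Set (X × (A → ℝ))) S V hdense hVo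
  have hres : (⋂ j ∈ J, {x : D.E | GD (G j) (D.pr (I j) x) ∧ ∀ η, ∀ κ > 0,
      ¬ Seen (G j) κ (D.pr (I j) x) (D.q η)}) ∈ residual D.E := by
    rw [countable_bInter_mem hJ]
    intro j _
    exact hM1 A D hD (m j) (I j) (G j) (L j) (hI j) (hG j)
  obtain ⟨t, ht, htG, htd⟩ := mem_residual.1 hres
  have hO : IsOpen (⋃ j ∈ J, W j) := isOpen_biUnion fun j _ => hWo j
  refine ⟨(⋃ j ∈ J, W j) ∩ t, ?_, hO.isGδ.inter htG, ?_, ?_⟩
  · rintro x ⟨hx, -⟩
    simp only [mem_iUnion] at hx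
    obtain ⟨j, -, hx⟩ := hx
    exact hWS j hx
  · have h1 : S ⊆ closure (⋃ j ∈ J, W j) := by
      intro x hx
      have h2 : (x : X × (A → ℝ)) ∈ ⋃ i, V i := by
        refine mem_iUnion.2 ⟨⟨x, hx⟩, ?_⟩
        have := hxW ⟨x, hx⟩
        rw [← hVW] at this
        exact this
      have h3 := hJc _ h2
      rw [closure_subtype]
      refine closure_mono ?_ h3
      rintro y ⟨hyE, hy⟩
      simp only [mem_iUnion] at hy
      obtain ⟨j, hj, hy⟩ := hy
      refine ⟨⟨y, hyE⟩, ?_, rfl⟩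
      simp only [mem_iUnion]
      refine ⟨j, hj, ?_⟩
      rw [← hVW j]
      exact hy
    refine h1.trans (closure_minimal ?_ isClosed_closure)
    exact htd.open_subset_closure_inter hO
  · rintro x ⟨hx, hxt⟩
    simp only [mem_iUnion] at hx
    obtain ⟨j, hj, hx⟩ := hx
    have h1 := ht hxt
    simp only [mem_iInter] at h1
    obtain ⟨h2, h3⟩ := h1 j hj
    exact FrechetDiffAt.congr (hWo j) hx (hfG j)
      (hFDC A D hD (m j) (I j) (G j) (L j) (hG j) x h2 h3)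

end Pool.AP
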