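import Pool.Agent.Work.MP_6cbae3_ch.Interface

/-! # Block BAI (helper41) -/

set_option autoImplicit false

namespace Pool.AP

open Filter Topology Set

/-- **Block BAI.** -/
theorem blk_BAI (hNM : Stmt_NM) : Stmt_BAI := by
  intro A _ D hD
  refine ⟨fun f ho hd => ?_⟩
  rw [dense_iff_inter_open]
  intro U hU hUne
  obtain ⟨α, hα, hα'⟩ := hNM A D hD (fun n => f n ×ˢ univ)
    (fun n => ⟨(ho n).prod isOpen_univ, (hd n).prod dense_univ⟩) (U ×ˢ univ)
    (hU.prod isOpen_univ) (hUne.prod univ_nonempty)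
  exact ⟨D.ehE (α, 0), hα.1, mem_iInter.2 fun n => (hα' n).1⟩

end Pool.AP
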