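import Pool.Agent.Work.MP_6cbae3_ch.Interface

/-! # Block BDD (helper65) -/

set_option autoImplicit false

namespace Pool.AP

open Filter Topology Set

/-- from a family which is not uniformly bounded one can choose a sequence which is not
bounded -/
theorem exists_not_TBdd {A : Type} (R : Set ((A × ℕ) →₀ ℝ))
    (h : ∀ (F : Finset A) (C : ℝ), ∃ a ∈ R,
      ¬ ((∀ p ∈ a.support, p.1 ∈ F) ∧ ∑ p ∈ a.support, |a p| ≤ C)) :
    ∃ b : ℕ → (A × ℕ) →₀ ℝ, (∀ n, b n ∈ R) ∧ ¬ TBdd b := by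
  classical
  choose g hgR hg using h
  let st : ((A × ℕ) →₀ ℝ) → Finset A := fun a => a.support.image Prod.fst
  let Fs : ℕ → Finset A := fun n =>
    Nat.rec ∅ (fun k F => F ∪ st (g F (k : ℝ))) n
  have hFs : ∀ n, Fs (n + 1) = Fs n ∪ st (g (Fs n) (n : ℝ)) := fun n => rfl
  refine ⟨fun n => g (Fs n) (n : ℝ), fun n => hgR _ _, ?_⟩
  rintro ⟨F, C, hFC⟩
  have hsub : ∀ n, Fs n ⊆ F := by
    intro n
    induction n with
    | zero => exact Finset.empty_subset _
    | succ n ih =>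
      rw [hFs]
      refine Finset.union_subset ih ?_
      intro α hα
      obtain ⟨p, hp, rfl⟩ := Finset.mem_image.mp hα
      exact (hFC n).1 p hp
  obtain ⟨N, hN⟩ := exists_nat_ge C
  have hgrow : ∀ k, k ≤ (Fs (N + k)).card := by
    intro k
    induction k with
    | zero => exact Nat.zero_le _
    | succ k ih =>
      have h1 := hg (Fs (N + k)) ((N + k : ℕ) : ℝ)
      have h2 : ∑ p ∈ (g (Fs (N + k)) ((N + k : ℕ) : ℝ)).support,
          |g (Fs (N + k)) ((N + k : ℕ) : ℝ) p| ≤ ((N + k : ℕ) : ℝ) := by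
        refine (hFC (N + k)).2.trans (hN.trans ?_)
        push_cast
        have : (0 : ℝ) ≤ k := Nat.cast_nonneg k
        linarith
      have h3 : ¬ ∀ p ∈ (g (Fs (N + k)) ((N + k : ℕ) : ℝ)).support, p.1 ∈ Fs (N + k) :=
        fun h4 => h1 ⟨h4, h2⟩
      push Not at h3
      obtain ⟨p, hp, hpF⟩ := h3
      have h5 : Fs (N + k) ⊂ Fs (N + (k + 1)) := by
        rw [show N + (k + 1) = (N + k) + 1 from rfl, hFs]
        rw [Finset.ssubset_iff_of_subset Finset.subset_union_left]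
        exact ⟨p.1, Finset.mem_union_right _ (Finset.mem_image_of_mem _ hp), hpF⟩
      have h6 := Finset.card_lt_card h5
      omega
  have h7 := hgrow (F.card + 1)
  have h8 := Finset.card_le_card (hsub (N + (F.card + 1)))
  omega

theorem J_snd {A : Type} [LinearOrder A] (D : Data A) (a : (A × ℕ) →₀ ℝ) (i : A) :
    (D.J a).2 i = a.sum fun p r => r * D.phi i p := by
  rw [Data.J, Finsupp.linearCombination_apply, Finsupp.sum, Finsupp.sum, Prod.snd_sum,
    Finset.sum_apply]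
  rfl

theorem blk_BDD : Stmt_BDD := by
  classical
  intro A _ D hD B hB
  have hrep : ∀ x : D.E, ∃ a : (A × ℕ) →₀ ℝ, D.J a = x := fun x => x.2
  choose rep hrep using hrep
  by_contra hcon
  push Not at hcon
  obtain ⟨b, hbR, hb⟩ := exists_not_TBdd (rep '' B) (fun F C => by
    obtain ⟨x, hx, hx2⟩ := hcon F C
    refine ⟨rep x, mem_image_of_mem _ hx, ?_⟩
    rintro ⟨h1, h2⟩
    exact absurd h2 (not_le.mpr (hx2 (rep x) (hrep x) h1)))
  choose x hxB hxb using hbR
  obtain ⟨i, hi1, hi2⟩ := hD.k2 b hb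
  apply hi2
  let φ : D.E →L[ℝ] ℝ := (ContinuousLinearMap.proj i).comp
    ((ContinuousLinearMap.snd ℝ X (A → ℝ)).comp D.E.subtypeL)
  have h1 : Bornology.IsVonNBounded ℝ (φ '' B) := hB.image φ
  rw [NormedSpace.isVonNBounded_iff] at h1
  obtain ⟨C, hC⟩ := h1.exists_norm_le
  refine ⟨C, fun n => ?_⟩
  have h2 := hC (φ (x n)) (mem_image_of_mem _ (hxB n))
  have h3 : φ (x n) = (b n).sum fun p r => r * D.kill i p := by
    have h4 : φ (x n) = (x n).1.2 i := rfl
    rw [h4, ← hrep (x n), hxb, J_snd]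
    refine Finset.sum_congr rfl fun p hp => ?_
    simp only [Data.phi]
    rw [if_pos (hi1 n p hp)]
  rw [← h3]
  exact h2

end Pool.AP
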