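import Pool.Agent.Work.MP_6cbae3_ch.Basic

/-! # Block BSE: many tuples are separated together with the old vectors (helper82) -/

set_option autoImplicit false

namespace Pool.AP

open Filter Topology Set

/-- a map with continuous sections through all points is open -/
theorem bse_open {S T : Type*} [TopologicalSpace S] [TopologicalSpace T] {f : S → T}
    (h : ∀ s, ∃ g : T → S, Continuous g ∧ g (f s) = s ∧ ∀ t, f (g t) = t) : IsOpenMap f := by
  intro U hU
  rw [isOpen_iff_mem_nhds]
  rintro t ⟨s, hs, rfl⟩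
  obtain ⟨g, hg, hgs, hfg⟩ := h s
  have h1 : g ⁻¹' U ∈ 𝓝 (f s) := (hU.preimage hg).mem_nhds (by rw [mem_preimage, hgs]; exact hs)
  exact Filter.mem_of_superset h1 fun t ht => ⟨g t, ht, hfg t⟩

/-- the selected coordinates -/
def bseSel {n m k N : ℕ} {j : Fin n} (e : Fin N ≃ {l : Fin n // l ≠ j} ⊕ (Fin n × Fin k))
    (y : Fin n → Pt m) (s : Fin N) : X :=
  match e s with
  | Sum.inl l => (y l).1.1
  | Sum.inr li => (y li.1).1.2.2 li.2

/-- the selected coordinates, with the bumps -/
noncomputable def bseSel' {n m k N : ℕ} {j : Fin n} (b c : X)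
    (e : Fin N ≃ {l : Fin n // l ≠ j} ⊕ (Fin n × Fin k)) (y : Fin n → Pt m) (s : Fin N) : X :=
  match e s with
  | Sum.inl l => (y l).1.1
  | Sum.inr li => bump (qq b c (y li.1).1) (y li.1).1.2.2 li.2

open Classical in
/-- a section -/
noncomputable def bseSec {n m k N : ℕ} {j : Fin n}
    (e : Fin N ≃ {l : Fin n // l ≠ j} ⊕ (Fin n × Fin k)) (y₀ : Fin n → Pt m) (x : Fin N → X) :
    Fin n → Pt m := fun l =>
  ((if h : l ≠ j then x (e.symm (Sum.inl ⟨l, h⟩)) else (y₀ l).1.1, (y₀ l).1.2.1,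
    fun i => if h : i < k then x (e.symm (Sum.inr (l, ⟨i, h⟩))) else (y₀ l).1.2.2 i), (y₀ l).2)

theorem bse_cont_sec {n m k N : ℕ} {j : Fin n}
    (e : Fin N ≃ {l : Fin n // l ≠ j} ⊕ (Fin n × Fin k)) (y₀ : Fin n → Pt m) :
    Continuous (bseSec e y₀) := by
  refine continuous_pi fun l => ?_
  refine Continuous.prodMk (Continuous.prodMk ?_ (Continuous.prodMk continuous_const
    (continuous_pi fun i => ?_))) continuous_const
  · by_cases h : l ≠ j
    · simp only [dif_pos h]
      exact continuous_apply _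
    · simp only [dif_neg h]
      exact continuous_const
  · by_cases h : i < k
    · simp only [dif_pos h]
      exact continuous_apply _
    · simp only [dif_neg h]
      exact continuous_const

theorem bse_sec_sel {n m k N : ℕ} {j : Fin n}
    (e : Fin N ≃ {l : Fin n // l ≠ j} ⊕ (Fin n × Fin k)) (y₀ : Fin n → Pt m) :
    bseSec e y₀ (bseSel e y₀) = y₀ := by
  funext l
  unfold bseSec
  refine Prod.ext (Prod.ext ?_ (Prod.ext rfl ?_)) rfl
  · by_cases h : l ≠ j
    · simp only [dif_pos h, bseSel, Equiv.apply_symm_apply]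
    · simp only [dif_neg h]
  · funext i
    by_cases h : i < k
    · simp only [dif_pos h, bseSel, Equiv.apply_symm_apply]
    · simp only [dif_neg h]

theorem bse_sel_sec {n m k N : ℕ} {j : Fin n}
    (e : Fin N ≃ {l : Fin n // l ≠ j} ⊕ (Fin n × Fin k)) (y₀ : Fin n → Pt m) (x : Fin N → X) :
    bseSel e (bseSec e y₀ x) = x := by
  funext s
  obtain ⟨r, rfl⟩ := e.symm.surjective s
  rcases r with l | ⟨l, i⟩
  · simp only [bseSel, bseSec, Equiv.apply_symm_apply, dif_pos l.2]
  · simp only [bseSel, bseSec, Equiv.apply_symm_apply, dif_pos i.2]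

theorem bse_cont_sel {n m k N : ℕ} {j : Fin n}
    (e : Fin N ≃ {l : Fin n // l ≠ j} ⊕ (Fin n × Fin k)) :
    Continuous (bseSel (m := m) e) := by
  refine continuous_pi fun s => ?_
  obtain ⟨r, rfl⟩ := e.symm.surjective s
  rcases r with l | ⟨l, i⟩
  · simp only [bseSel, Equiv.apply_symm_apply]
    exact (continuous_apply (l : Fin n)).fst.fst
  · simp only [bseSel, Equiv.apply_symm_apply]
    exact (continuous_apply (i : ℕ)).comp ((continuous_apply l).fst.snd.snd)

theorem blk_BSE (h1 : Stmt_SEPN) (h2 : Stmt_SEPI) : Stmt_BSE := by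
  intro n m k ι _ b c v j hv
  obtain ⟨w, hw, hwl, hwv⟩ := hv
  let e : Fin (Fintype.card ({l : Fin n // l ≠ j} ⊕ (Fin n × Fin k))) ≃
      {l : Fin n // l ≠ j} ⊕ (Fin n × Fin k) := (Fintype.equivFin _).symm
  have h3 := h1 ([b, c] ++ w) (Fintype.card ({l : Fin n // l ≠ j} ⊕ (Fin n × Fin k))) hw
  have h4 : ∀ᶠ y in residual (Fin n → Pt m), Sep (([b, c] ++ w) ++ List.ofFn (bseSel e y)) :=
    residual_preimage (bse_cont_sel e)
      (bse_open fun y₀ => ⟨bseSec e y₀, bse_cont_sec e y₀, bse_sec_sel e y₀, bse_sel_sec e y₀⟩) h3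
  filter_upwards [h4] with y hy
  refine ⟨w ++ List.ofFn (bseSel' b c e y), ?_, ?_, ?_⟩
  · have h5 : [b, c] ++ (w ++ List.ofFn (bseSel' b c e y)) =
        ([b, c] ++ w) ++ List.ofFn (bseSel' b c e y) := by simp
    rw [h5]
    refine h2 _ _ hy (by simp only [List.length_append, List.length_ofFn]) ?_
    intro f hf
    rcases List.mem_append.1 hf with hf | hf
    · exact ⟨f, List.mem_append_left _ hf, 1, 0, one_ne_zero, fun q p _ => by simp⟩
    · obtain ⟨s, rfl⟩ := List.mem_ofFn.1 hf
      refine ⟨bseSel' b c e y s, List.mem_append_right _ (List.mem_ofFn.2 ⟨s, rfl⟩), ?_⟩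
      rcases hs : e s with l | ⟨l, i⟩
      · refine ⟨1, 0, one_ne_zero, fun q p _ => ?_⟩
        have e1 : bseSel' b c e y s = bseSel e y s := by simp only [bseSel, bseSel', hs]
        rw [e1, one_smul, sub_self]
        rfl
      · refine ⟨((2 : ℝ) ^ (i : ℕ) * (1 + ‖(y l).1.2.2 i‖))⁻¹, i, by positivity, fun q p hp => ?_⟩
        have e1 : bseSel' b c e y s - ((2 : ℝ) ^ (i : ℕ) * (1 + ‖(y l).1.2.2 i‖))⁻¹ • bseSel e y s =
            cylf (qq b c (y l).1) i := by
          simp only [bseSel, bseSel', hs, bump]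
          abel
        rw [e1]
        by_cases h : q ∈ cyl (qq b c (y l).1) i
        · rw [cylf_of_mem h, cylf_of_mem]
          rw [← cyl_eq_of_mem h]; exact hp
        · rw [cylf_of_notMem h, cylf_of_notMem]
          intro hp'
          apply h
          rw [← cyl_eq_of_mem hp']
          exact cyl_symm hp
  · rw [List.length_append, List.length_ofFn, hwl]
    simp only [Fintype.card_sum]
    ring
  · intro f hf
    rcases List.mem_append.1 hf with hf | hf
    · obtain ⟨i, hi⟩ := hwv f hf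
      exact ⟨Sum.inr (Sum.inr i), hi⟩
    · obtain ⟨s, rfl⟩ := List.mem_ofFn.1 hf
      rcases hs : e s with l | ⟨l, i⟩
      · refine ⟨Sum.inl l, ?_⟩
        simp only [bseSel', hs, wv, vx]
      · refine ⟨Sum.inr (Sum.inl (l, i)), ?_⟩
        simp only [bseSel', hs, wv, vy]

end Pool.AP
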