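import Pool.Agent.Work.MP_6cbae3_ch.Basic

/-! # MP_6cbae3_an: block CCC (helper7) -/

set_option autoImplicit false

namespace Pool.AP

open Filter Topology Set

theorem blk_CCC : Stmt_CCC := by
  intro S _ _ T ι V hT hV
  obtain ⟨D, hDc, hDd⟩ := TopologicalSpace.exists_countable_dense S
  have hch : ∀ d : {d : S // d ∈ D ∧ d ∈ ⋃ i, V i}, ∃ i, d.1 ∈ V i := fun d => mem_iUnion.1 d.2.2
  choose f hf using hch
  have hcnt : Countable {d : S // d ∈ D ∧ d ∈ ⋃ i, V i} :=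
    (hDc.mono (fun d hd => hd.1 : {d : S | d ∈ D ∧ d ∈ ⋃ i, V i} ⊆ D)).to_subtype
  refine ⟨Set.range f, Set.countable_range f, ?_⟩
  intro x hx
  rw [mem_closure_iff]
  intro W hW hxW
  obtain ⟨i₀, hi₀⟩ := mem_iUnion.1 hx
  obtain ⟨d, hd1, hd2⟩ := hDd.inter_open_nonempty (W ∩ V i₀) (hW.inter (hV i₀)) ⟨x, hxW, hi₀⟩
  let d' : {d : S // d ∈ D ∧ d ∈ ⋃ i, V i} := ⟨d, hd2, mem_iUnion.2 ⟨i₀, hd1.2⟩⟩
  obtain ⟨y, hy1, hy2⟩ := hT.inter_open_nonempty (W ∩ V (f d')) (hW.inter (hV _))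
    ⟨d, hd1.1, hf d'⟩
  exact ⟨y, hy1.1, hy2, mem_iUnion₂.2 ⟨f d', ⟨d', rfl⟩, hy1.2⟩⟩

end Pool.AP
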