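import Pool.Agent.Work.MP_6cbae3_ch.Interface

/-! Block CF1 (helper70): a convex function of one variable with small second differences. -/

set_option autoImplicit false

namespace Pool.AP

open Filter Topology Set

theorem blk_CF1 : Stmt_CF1 := by
  intro r g hr hg hsd
  have h0 : (0 : ℝ) ∈ Ioo (-r) r := ⟨by linarith, hr⟩
  -- monotone slopes
  have mono : ∀ x y : ℝ, x ∈ Ioo (-r) r → y ∈ Ioo (-r) r → x ≠ 0 → y ≠ 0 → x ≤ y →
      (g x - g 0) / x ≤ (g y - g 0) / y := by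
    intro x y hx hy hx0 hy0 hxy
    have := hg.secant_mono h0 hx hy hx0 hy0 hxy
    simpa using this
  set S : Set ℝ := (fun t => (g t - g 0) / t) '' Ioo 0 r with hS
  have hSne : S.Nonempty := ⟨_, ⟨r / 2, ⟨by linarith, by linarith⟩, rfl⟩⟩
  have hSbd : BddBelow S := by
    refine ⟨(g (-(r / 2)) - g 0) / (-(r / 2)), ?_⟩
    rintro _ ⟨t, ht, rfl⟩
    exact mono _ _ ⟨by linarith, by linarith⟩ ⟨by linarith [ht.1], ht.2⟩ (by linarith)
      (by linarith [ht.1]) (by linarith [ht.1])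
  refine ⟨sInf S, fun η hη => ?_⟩
  obtain ⟨_, ⟨t₀, ht₀, rfl⟩, hlt⟩ := exists_lt_of_csInf_lt hSne
    (show sInf S < sInf S + η by linarith)
  obtain ⟨t₁, ht₁, ht₁r, hsec⟩ := hsd η hη
  have hS1 : sInf S ≤ (g t₁ - g 0) / t₁ := csInf_le hSbd ⟨t₁, ⟨ht₁, ht₁r⟩, rfl⟩
  have hS2 : sInf S - η ≤ (g (-t₁) - g 0) / (-t₁) := by
    have e : (g (-t₁) - g 0) / (-t₁) = (g t₁ - g 0) / t₁ - (g t₁ + g (-t₁) - 2 * g 0) / t₁ := by
      field_simp
      ring
    have : (g t₁ + g (-t₁) - 2 * g 0) / t₁ ≤ η := by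
      rw [div_le_iff₀ ht₁]; exact hsec
    rw [e]; linarith
  refine ⟨min t₀ t₁, lt_min ht₀.1 ht₁, lt_of_le_of_lt (min_le_left _ _) ht₀.2, fun t ht => ?_⟩
  rcases lt_trichotomy t 0 with h | h | h
  · have habs : |t| = -t := abs_of_neg h
    rw [habs] at ht ⊢
    have h1 : -t₁ ≤ t := by linarith [ht.trans (min_le_right t₀ t₁)]
    have hm := mono (-t₁) t ⟨by linarith, by linarith⟩ ⟨by linarith, by linarith⟩
      (by linarith) h.ne h1
    have h2 : sInf S - η ≤ (g t - g 0) / t := hS2.trans hm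
    rw [le_div_iff_of_neg h] at h2
    nlinarith
  · subst h
    simp
  · have habs : |t| = t := abs_of_pos h
    rw [habs] at ht ⊢
    have h1 : t ≤ t₀ := ht.trans (min_le_left t₀ t₁)
    have hm := mono t t₀ ⟨by linarith, by linarith [ht₀.2]⟩ ⟨by linarith [ht₀.1], ht₀.2⟩
      h.ne' (by linarith [ht₀.1]) h1
    have h2 : (g t - g 0) / t ≤ sInf S + η := hm.trans hlt.le
    rw [div_le_iff₀ h] at h2
    nlinarith

end Pool.AP
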