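import Pool.Agent.Work.MP_6cbae3_ch.Interface

/-! Block CFN (helper70): a convex function of finitely many variables with small second
differences in the coordinate directions is differentiable. -/

set_option autoImplicit false

namespace Pool.AP

open Filter Topology Set

theorem blk_CFN (h1 : Stmt_CF1) : Stmt_CFN := by
  intro d D g x C hD hDc hx hg hsd hC
  -- a box around `x` inside `D`
  obtain ⟨ρ, hρ, hball⟩ : ∃ ρ > 0, ∀ u : Fin d → ℝ, (∀ i, |u i| < ρ) → x + u ∈ D := by
    obtain ⟨ρ, hρ, h⟩ := Metric.isOpen_iff.1 hD x hx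
    refine ⟨ρ, hρ, fun u hu => h ?_⟩
    rw [Metric.mem_ball, dist_eq_norm, add_sub_cancel_left]
    exact (pi_norm_lt_iff hρ).2 fun i => by rw [Real.norm_eq_abs]; exact hu i
  have hsmall : ∀ (i : Fin d) (t : ℝ), |t| < ρ → x + t • (Pi.single i 1 : Fin d → ℝ) ∈ D := by
    intro i t ht
    refine hball _ fun j => ?_
    rw [Pi.smul_apply, smul_eq_mul]
    by_cases hj : j = i
    · subst hj; simpa using ht
    · rw [Pi.single_eq_of_ne hj]; simpa using hρ
  -- midpoint convexity
  have mid : ∀ u : Fin d → ℝ, x + u ∈ D → x - u ∈ D → 2 * g x ≤ g (x + u) + g (x - u) := by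
    intro u hu hu'
    have := hg.2 hu hu' (by norm_num : (0:ℝ) ≤ 1/2) (by norm_num : (0:ℝ) ≤ 1/2) (by norm_num)
    have e : (1/2 : ℝ) • (x + u) + (1/2 : ℝ) • (x - u) = x := by
      ext j; simp; ring
    rw [e, smul_eq_mul, smul_eq_mul] at this
    linarith
  -- one dimensional derivatives
  have key : ∀ i : Fin d, ∃ ξ : ℝ, ∀ η > 0, ∃ τ, 0 < τ ∧ τ < ρ ∧ ∀ t : ℝ, |t| ≤ τ →
      g (x + t • (Pi.single i 1 : Fin d → ℝ)) ≤ g x + ξ * t + η * |t| := by
    intro i
    have hconv : ConvexOn ℝ (Ioo (-ρ) ρ)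
        (fun t : ℝ => g (x + t • (Pi.single i 1 : Fin d → ℝ))) := by
      refine ⟨convex_Ioo _ _, ?_⟩
      intro s hs t ht a b ha hb hab
      have hs' := hsmall i s (abs_lt.2 hs)
      have ht' := hsmall i t (abs_lt.2 ht)
      have := hg.2 hs' ht' ha hb hab
      have e : a • (x + s • (Pi.single i 1 : Fin d → ℝ)) + b • (x + t • Pi.single i 1) =
          x + (a • s + b • t) • (Pi.single i 1 : Fin d → ℝ) := by
        have hb' : b = 1 - a := by linarith
        subst hb'
        module
      rw [e] at this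
      exact this
    obtain ⟨ξ, hξ⟩ := h1 ρ _ hρ hconv (by
      intro ε hε
      obtain ⟨t, ht0, htρ, hle⟩ := hsd i ε hε ρ hρ
      refine ⟨t, ht0, htρ, ?_⟩
      simpa [sub_eq_add_neg] using hle)
    refine ⟨ξ, fun η hη => ?_⟩
    obtain ⟨τ, hτ, hτρ, h⟩ := hξ η hη
    refine ⟨τ, hτ, hτρ, fun t ht => ?_⟩
    have := h t ht
    simpa using this
  choose ξ hξ using key
  refine ⟨ξ, ?_, ?_⟩
  · intro i
    refine le_of_forall_pos_le_add fun η hη => ?_
    obtain ⟨τ, hτ, hτρ, h⟩ := hξ i η hη
    obtain ⟨t, ht0, htτ, hle⟩ := hC i τ hτ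
    have habs : |t| = t := abs_of_pos ht0
    have hu1 := h t (by rw [habs]; exact htτ.le)
    have hu2 := h (-t) (by rw [abs_neg, habs]; exact htτ.le)
    have hm := mid (t • Pi.single i 1) (hsmall i t (by rw [habs]; linarith))
      (by simpa [sub_eq_add_neg] using hsmall i (-t) (by rw [abs_neg, habs]; linarith))
    have e : x - t • (Pi.single i 1 : Fin d → ℝ) = x + (-t) • (Pi.single i 1 : Fin d → ℝ) := by
      rw [neg_smul, sub_eq_add_neg]
    rw [e] at hm
    rw [abs_neg, habs] at hu2
    rw [habs] at hu1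
    have hl := abs_le.1 hle
    rw [abs_le]
    constructor
    · have : -(C + η) * t ≤ ξ i * t := by nlinarith [hl.1]
      exact le_of_mul_le_mul_right this ht0
    · have : ξ i * t ≤ (C + η) * t := by nlinarith [hl.2]
      exact le_of_mul_le_mul_right this ht0
  · intro η hη
    rcases Nat.eq_zero_or_pos d with hd | hd
    · subst hd
      refine ⟨1, one_pos, fun u _ => ?_⟩
      have : x + u = x := Subsingleton.elim _ _
      rw [this]
      refine ⟨hx, ?_⟩
      simp
    have hd' : (0 : ℝ) < d := by exact_mod_cast hd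
    have hne : Nonempty (Fin d) := ⟨⟨0, hd⟩⟩
    choose τ hτ hτρ hτle using fun i => hξ i η hη
    set T : ℝ := Finset.univ.inf' Finset.univ_nonempty τ with hT
    have hTpos : 0 < T := by
      rw [hT, Finset.lt_inf'_iff]
      exact fun i _ => hτ i
    have hTle : ∀ i, T ≤ τ i := fun i => Finset.inf'_le _ (Finset.mem_univ i)
    -- upper bound
    have upper : ∀ u : Fin d → ℝ, (∀ i, |u i| ≤ T / d) →
        g (x + u) ≤ g x + ∑ i, ξ i * u i + η * ∑ i, |u i| := by
      intro u hu
      have hdu : ∀ i, |(d : ℝ) * u i| ≤ τ i := by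
        intro i
        rw [abs_mul, abs_of_pos hd']
        have := mul_le_mul_of_nonneg_left (hu i) hd'.le
        rw [mul_div_cancel₀ _ hd'.ne'] at this
        exact this.trans (hTle i)
      have hj := hg.map_sum_le (t := Finset.univ) (w := fun _ : Fin d => (d : ℝ)⁻¹)
        (p := fun i => x + ((d : ℝ) * u i) • (Pi.single i 1 : Fin d → ℝ))
        (fun _ _ => by positivity) (by simp [hd'.ne'])
        (fun i _ => hsmall i _ ((hdu i).trans_lt (hτρ i)))
      have e : ∑ i : Fin d, (d : ℝ)⁻¹ • (x + ((d : ℝ) * u i) • (Pi.single i 1 : Fin d → ℝ)) =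
          x + u := by
        have : ∀ i : Fin d, (d : ℝ)⁻¹ • (x + ((d : ℝ) * u i) • (Pi.single i 1 : Fin d → ℝ)) =
            (d : ℝ)⁻¹ • x + Pi.single i (u i) := by
          intro i
          rw [smul_add, smul_smul, ← mul_assoc, inv_mul_cancel₀ hd'.ne', one_mul]
          congr 1
          ext j
          by_cases hj : j = i
          · subst hj; simp
          · simp [Pi.single_eq_of_ne hj]
        rw [Finset.sum_congr rfl fun i _ => this i, Finset.sum_add_distrib]
        congr 1
        · rw [Finset.sum_const, Finset.card_univ, Fintype.card_fin, ← Nat.cast_smul_eq_nsmul ℝ,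
            smul_smul, mul_inv_cancel₀ hd'.ne', one_smul]
        · exact Finset.univ_sum_single u
      rw [e] at hj
      refine hj.trans ?_
      have hi : ∀ i : Fin d, (d : ℝ)⁻¹ • g (x + ((d : ℝ) * u i) • (Pi.single i 1 : Fin d → ℝ)) ≤
          (d : ℝ)⁻¹ * g x + ξ i * u i + η * |u i| := by
        intro i
        have := hτle i _ (hdu i)
        rw [smul_eq_mul]
        have h2 := mul_le_mul_of_nonneg_left this (inv_nonneg.2 hd'.le)
        refine h2.trans (le_of_eq ?_)
        rw [abs_mul, abs_of_pos hd']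
        field_simp
      refine (Finset.sum_le_sum fun i _ => hi i).trans (le_of_eq ?_)
      rw [Finset.sum_add_distrib, Finset.sum_add_distrib, Finset.sum_const, Finset.card_univ,
        Fintype.card_fin, nsmul_eq_mul, ← mul_assoc, mul_inv_cancel₀ hd'.ne', one_mul,
        Finset.mul_sum]
    have hTd : T / d < ρ := by
      obtain ⟨i⟩ := hne
      have h1d : (1 : ℝ) ≤ d := by exact_mod_cast hd
      calc T / d ≤ T := div_le_self hTpos.le h1d
        _ ≤ τ i := hTle i
        _ < ρ := hτρ i
    refine ⟨T / d, by positivity, fun u hu => ?_⟩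
    have hin : x + u ∈ D := hball u fun i => (hu i).trans_lt hTd
    have hin' : x - u ∈ D := by
      rw [sub_eq_add_neg]
      exact hball (-u) fun i => by rw [Pi.neg_apply, abs_neg]; exact (hu i).trans_lt hTd
    refine ⟨hin, ?_⟩
    have hU := upper u hu
    have hL := upper (-u) (fun i => by rw [Pi.neg_apply, abs_neg]; exact hu i)
    rw [← sub_eq_add_neg] at hL
    have hm := mid u hin hin'
    have e1 : ∑ i, ξ i * (-u) i = -∑ i, ξ i * u i := by
      rw [← Finset.sum_neg_distrib]
      exact Finset.sum_congr rfl fun i _ => by simp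
    have e2 : ∑ i, |(-u) i| = ∑ i, |u i| := Finset.sum_congr rfl fun i _ => by simp
    rw [e1, e2] at hL
    rw [abs_le]
    constructor <;> linarith

end Pool.AP
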