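import Pool.Agent.Work.MP_6cbae3_ch.Interface

/-! # Block CHC (helper56): the continuum hypothesis implies `CofM` -/

set_option autoImplicit false

namespace Pool.AP

open Filter Topology Set

/-- a second countable space has at most continuum many closed sets, so continuum many sequences
of closed sets -/
theorem chc_card (Y : Type) [TopologicalSpace Y] [SecondCountableTopology Y] :
    Cardinal.mk (ℕ → {s : Set Y // IsClosed s}) ≤ Cardinal.continuum := by
  classical
  let B := TopologicalSpace.countableBasis Y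
  have hB : TopologicalSpace.IsTopologicalBasis B := TopologicalSpace.isBasis_countableBasis Y
  have hc : B.Countable := TopologicalSpace.countable_countableBasis Y
  have : Countable B := hc.to_subtype
  have h1 : Cardinal.mk {s : Set Y // IsClosed s} ≤ Cardinal.continuum := by
    have hinj : Function.Injective
        (fun s : {s : Set Y // IsClosed s} => {b : B | (b : Set Y) ⊆ (s : Set Y)ᶜ}) := by
      intro s t hst
      have key : ∀ s : {s : Set Y // IsClosed s},
          (s : Set Y)ᶜ = ⋃₀ (Subtype.val '' {b : B | (b : Set Y) ⊆ (s : Set Y)ᶜ}) := by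
        intro s
        ext x
        constructor
        · intro hx
          obtain ⟨b, hb, hxb, hbs⟩ := hB.exists_subset_of_mem_open hx s.2.isOpen_compl
          exact ⟨b, ⟨⟨b, hb⟩, hbs, rfl⟩, hxb⟩
        · rintro ⟨b, ⟨⟨b', hb'⟩, hbs, rfl⟩, hxb⟩
          exact hbs hxb
      have : (s : Set Y)ᶜ = (t : Set Y)ᶜ := by
        rw [key s, key t]
        simp only at hst
        rw [hst]
      exact Subtype.ext (compl_injective this)
    calc Cardinal.mk {s : Set Y // IsClosed s} ≤ Cardinal.mk (Set B) :=
          Cardinal.mk_le_of_injective hinj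
      _ = 2 ^ Cardinal.mk B := Cardinal.mk_set
      _ ≤ 2 ^ Cardinal.aleph0 :=
          Cardinal.power_le_power_left two_ne_zero (Cardinal.mk_le_aleph0)
      _ = Cardinal.continuum := Cardinal.two_power_aleph0
  calc Cardinal.mk (ℕ → {s : Set Y // IsClosed s})
      = Cardinal.mk {s : Set Y // IsClosed s} ^ Cardinal.mk ℕ := by
        rw [Cardinal.power_def]
    _ ≤ Cardinal.continuum ^ Cardinal.aleph0 := by
        rw [Cardinal.mk_nat]
        exact Cardinal.power_le_power_right h1
    _ = Cardinal.continuum := Cardinal.continuum_power_aleph0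

/-- CHC -/
theorem blk_CHC : Stmt_CHC := by
  intro hCH Y _ _
  refine ⟨{s | IsMeagre s ∧ ∃ t : ℕ → {s : Set Y // IsClosed s}, s = ⋃ n, (t n : Set Y)},
    ?_, fun s hs => hs.1, fun s hs => ?_⟩
  · rw [hCH]
    refine le_trans ?_ (chc_card Y)
    let f : {s : Set Y | IsMeagre s ∧ ∃ t : ℕ → {s : Set Y // IsClosed s},
        s = ⋃ n, (t n : Set Y)} → (ℕ → {s : Set Y // IsClosed s}) := fun s => s.2.2.choose
    refine Cardinal.mk_le_of_injective (f := f) ?_
    intro s t hst
    apply Subtype.ext
    rw [s.2.2.choose_spec, t.2.2.choose_spec]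
    have : s.2.2.choose = t.2.2.choose := hst
    rw [this]
  · rw [isMeagre_iff_countable_union_isNowhereDense] at hs
    obtain ⟨S, hS, hSc, hsS⟩ := hs
    obtain ⟨g, hg⟩ : ∃ g : ℕ → Set Y, (∀ n, IsNowhereDense (g n)) ∧ ⋃₀ S ⊆ ⋃ n, g n := by
      rcases S.eq_empty_or_nonempty with rfl | hne
      · exact ⟨fun _ => ∅, fun _ => isNowhereDense_empty, by simp⟩
      · obtain ⟨g, hg⟩ := hSc.exists_eq_range hne
        refine ⟨g, fun n => hS _ (hg ▸ mem_range_self n), ?_⟩
        rw [hg, sUnion_range]
    refine ⟨⋃ n, closure (g n), ⟨?_, fun n => ⟨closure (g n), isClosed_closure⟩, rfl⟩, ?_⟩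
    · exact isMeagre_iUnion fun n => (hg.1 n).closure.isMeagre
    · exact (hsS.trans hg.2).trans (iUnion_mono fun n => subset_closure)

end Pool.AP
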