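import Pool.Agent.Work.MP_6cbae3_ch.Basic

/-! # Block CLOSE: a stage above which everything is generic (helper55) -/

set_option autoImplicit false

namespace Pool.AP

open Filter Topology Set

theorem blk_CLOSE (h1 : Stmt_GOODN) (h2 : Stmt_CLO) (h3 : Stmt_OLDV) : Stmt_CLOSE := by
  classical
  intro A _ D hD m I G L hI hG
  -- a stage above all functionals
  obtain ⟨β, hβ⟩ := hD.idx.unb (range I) (countable_range I)
  have hβ' : ∀ j, I j < β := fun j => hβ _ ⟨j, rfl⟩
  -- the restriction map
  let sel : Fin m → Iio β := fun j => ⟨I j, hβ' j⟩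
  have hsel : Function.Injective sel := by
    intro j j' h
    exact hI (congrArg Subtype.val h)
  let rf : (Iio β → ℝ) → (Fin m → ℝ) := fun z s => z (sel s)
  have hrc : Continuous rf := continuous_select sel
  have hro : IsOpenMap rf := isOpenMap_select sel hsel
  let res : (n : ℕ) → (Fin n → Y0 × (Iio β → ℝ)) → (Fin n → Pt m) :=
    fun n => Pi.map fun _ => Prod.map id rf
  have hresc : ∀ n, Continuous (res n) := by
    intro n
    refine continuous_pi fun i => ?_
    exact (continuous_id.prodMap hrc).comp (continuous_apply i)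
  have hreso : ∀ n, IsOpenMap (res n) := by
    intro n
    refine IsOpenMap.piMap (fun _ => IsOpenMap.id.prodMap hro) ?_
    rw [Filter.cofinite_eq_bot]
    exact Filter.eventually_bot
  -- the stages for the data
  have key : ∀ (F : Finset A) (k n : ℕ), ∃ γ : A, ∀ a : Fin n → A, StrictMono a →
      (∀ i, γ ≤ a i) → (fun i => ((D.y (a i), fun j => D.ζ (a i) (I j)) : Pt m)) ∉
        Bad n D.b D.c G (fun i : F × Fin (k + 1) => D.pr I (D.ehE (i.1.1, i.2.1))) := by
    intro F k n
    have hm : IsMeagre (Bad n D.b D.c G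
        (fun i : F × Fin (k + 1) => D.pr I (D.ehE (i.1.1, i.2.1)))) :=
      h1 n m (F × Fin (k + 1)) D.b D.c G L _ hG (h3 A D hD m I F k)
    have hm' : IsMeagre (res n ⁻¹' Bad n D.b D.c G
        (fun i : F × Fin (k + 1) => D.pr I (D.ehE (i.1.1, i.2.1)))) := by
      have := residual_preimage (hresc n) (hreso n) hm
      exact this
    obtain ⟨γ, hγ⟩ := hD.gp n β _ hm'
    exact ⟨γ, fun a ha ha' => hγ a ha ha'⟩
  choose γ hγ using key
  -- the start
  obtain ⟨α₁, hα₁⟩ := hD.idx.unb (range fun i => D.τ (I i)) (countable_range _)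
  obtain ⟨α₀, hα₀, hcl⟩ := h2 A hD.idx α₁
    (fun F p => γ F (Nat.unpair p).1 (Nat.unpair p).2)
  refine ⟨α₀, fun i => (hα₁ _ ⟨i, rfl⟩).le.trans hα₀, fun F k n hF a ha ha' => ?_⟩
  refine hγ F k n a ha fun i => ?_
  have := hcl F hF (Nat.pair k n)
  rw [Nat.unpair_pair] at this
  exact this.trans (ha' i)

end Pool.AP
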