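import Pool.Agent.Work.MP_6cbae3_ch.Interface

set_option autoImplicit false

namespace Pool.AP

open Filter Topology Set

namespace CONTh64

/-- the function on `X × ℝ` -/
noncomputable def M (b c : X) (z : X × ℝ) : ℝ := (z.1 + z.2 • b + c) (loc b c z.1 z.2)

lemma M_eq (b c : X) (z : X × ℝ) :
    M b c z = z.1 (loc b c z.1 z.2) + z.2 * b (loc b c z.1 z.2) + c (loc b c z.1 z.2) := by
  unfold M
  simp only [ContinuousMap.add_apply, ContinuousMap.smul_apply, smul_eq_mul]

lemma le_M (b c : X) (z : X × ℝ) (r : K) : z.1 r + z.2 * b r + c r ≤ M b c z := by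
  rw [M_eq]
  exact loc_spec b c z.1 z.2 r

lemma M_sub (b c : X) (z z' : X × ℝ) :
    M b c z - M b c z' ≤ ‖z.1 - z'.1‖ + |z.2 - z'.2| * ‖b‖ := by
  have h1 := le_M b c z' (loc b c z.1 z.2)
  have h2 := M_eq b c z
  set q := loc b c z.1 z.2 with hq
  have h3 : z.1 q - z'.1 q ≤ ‖z.1 - z'.1‖ := by
    have := (z.1 - z'.1).norm_coe_le_norm q
    rw [ContinuousMap.sub_apply, Real.norm_eq_abs] at this
    exact le_trans (le_abs_self _) this
  have h4 : z.2 * b q - z'.2 * b q ≤ |z.2 - z'.2| * ‖b‖ := by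
    have h5 := b.norm_coe_le_norm q
    rw [Real.norm_eq_abs] at h5
    calc z.2 * b q - z'.2 * b q = (z.2 - z'.2) * b q := by ring
      _ ≤ |(z.2 - z'.2) * b q| := le_abs_self _
      _ = |z.2 - z'.2| * |b q| := abs_mul _ _
      _ ≤ _ := mul_le_mul_of_nonneg_left h5 (abs_nonneg _)
  linarith

lemma M_cont (b c : X) : Continuous (M b c) := by
  have hL : LipschitzWith ⟨1 + ‖b‖, by positivity⟩ (M b c) := by
    apply LipschitzWith.of_dist_le_mul
    intro z z'
    have h1 := M_sub b c z z'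
    have h2 := M_sub b c z' z
    rw [norm_sub_rev, abs_sub_comm] at h2
    have h3 : ‖z.1 - z'.1‖ ≤ dist z z' := by
      rw [← dist_eq_norm]; exact le_max_left _ _
    have h4 : |z.2 - z'.2| ≤ dist z z' := by
      rw [← Real.dist_eq]; exact le_max_right _ _
    have h5 : ‖z.1 - z'.1‖ + |z.2 - z'.2| * ‖b‖ ≤ (1 + ‖b‖) * dist z z' := by
      have := mul_le_mul_of_nonneg_right h4 (norm_nonneg b)
      linarith
    rw [Real.dist_eq, abs_le]
    constructor
    · show -((1 + ‖b‖) * dist z z') ≤ _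
      linarith
    · show _ ≤ (1 + ‖b‖) * dist z z'
      linarith
  exact hL.continuous

end CONTh64

open CONTh64 in
/-- Block CONT (helper64). -/
theorem blk_CONT : Stmt_CONT := by
  intro A _ D
  have hF : ∀ p : D.E × ℝ, D.F p = M D.b D.c (p.1.1.1, p.2) := fun p => rfl
  refine ⟨⟨convex_univ, ?_⟩, ?_⟩
  · intro x _ y _ a b ha hb hab
    rw [hF, hF, hF, M_eq]
    have e1 : ((a • x + b • y).1.1.1 : X) = a • x.1.1.1 + b • y.1.1.1 := rfl
    have e2 : (a • x + b • y).2 = a * x.2 + b * y.2 := rfl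
    simp only [e1, e2]
    set q := loc D.b D.c (a • x.1.1.1 + b • y.1.1.1) (a * x.2 + b * y.2) with hq
    have h1 := le_M D.b D.c (x.1.1.1, x.2) q
    have h2 := le_M D.b D.c (y.1.1.1, y.2) q
    have h3 := mul_le_mul_of_nonneg_left h1 ha
    have h4 := mul_le_mul_of_nonneg_left h2 hb
    have h5 : D.c q = a * D.c q + b * D.c q := by rw [← add_mul, hab, one_mul]
    simp only [ContinuousMap.add_apply, ContinuousMap.smul_apply, smul_eq_mul] at h3 h4 ⊢
    rw [h5]
    linarith
  · have : D.F = M D.b D.c ∘ fun p : D.E × ℝ => (p.1.1.1, p.2) := by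
      funext p; exact hF p
    rw [this]
    refine (M_cont D.b D.c).comp ?_
    exact (continuous_fst.comp (continuous_subtype_val.comp continuous_fst)).prodMk continuous_snd

end Pool.AP
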