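import Pool.Agent.Work.MP_6cbae3_ch.Interface

/-! # Block COREF of MP_6cbae3_ch (helper3) -/

set_option autoImplicit false

namespace Pool.AP

open Filter Topology Set

namespace Coref

/-- base points of disjoint subcylinders -/
def fq (q₀ : K) (k₀ i : ℕ) : K := Function.update q₀ (k₀ + i) (!q₀ (k₀ + i))

theorem fq_self (q₀ : K) (k₀ i : ℕ) : fq q₀ k₀ i (k₀ + i) = !q₀ (k₀ + i) := by
  simp [fq]

theorem fq_lt (q₀ : K) (k₀ i : ℕ) {l : ℕ} (h : l < k₀ + i) : fq q₀ k₀ i l = q₀ l := by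
  simp [fq, Function.update_of_ne (Nat.ne_of_lt h)]

theorem fq_mem (q₀ : K) (k₀ i : ℕ) : fq q₀ k₀ i ∈ cyl q₀ k₀ := fun l hl =>
  fq_lt q₀ k₀ i (by omega)

theorem fq_disj (q₀ : K) (k₀ : ℕ) {i j : ℕ} (h : i < j) {p : K}
    (hi : p ∈ cyl (fq q₀ k₀ i) (k₀ + i + 1)) (hj : p ∈ cyl (fq q₀ k₀ j) (k₀ + j + 1)) : False := by
  have h1 := hi (k₀ + i) (by omega)
  have h2 := hj (k₀ + i) (by omega)
  rw [fq_self] at h1
  rw [fq_lt _ _ _ (by omega)] at h2
  rw [h1] at h2
  revert h2
  cases q₀ (k₀ + i) <;> simp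

theorem cyl_sub {q q' p : K} {k k' : ℕ} (hk : k ≤ k') (hq : q' ∈ cyl q k) (hp : p ∈ cyl q' k') :
    p ∈ cyl q k := fun i hi => (hp i (by omega)).trans (hq i hi)

/-- the states -/
def St (m : ℕ) (q₀ : K) (k₀ : ℕ) (δ : ℝ) (i : ℕ) (h : Z m) : Prop :=
  h.2 = 0 ∧ (∀ p, |h.1 p| ≤ δ) ∧ ∀ j, i ≤ j → ∀ p ∈ cyl (fq q₀ k₀ j) (k₀ + j + 1), h.1 p = 0

theorem st_zero (m : ℕ) (q₀ : K) (k₀ : ℕ) {δ : ℝ} (hδ : 0 ≤ δ) : St m q₀ k₀ δ 0 0 := by
  refine ⟨rfl, fun p => ?_, fun j _ p _ => rfl⟩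
  simpa using hδ

theorem st_norm {m : ℕ} {q₀ : K} {k₀ : ℕ} {δ : ℝ} {i : ℕ} {h : Z m} (hδ : 0 ≤ δ)
    (H : St m q₀ k₀ δ i h) : ‖h‖ ≤ δ := by
  obtain ⟨h2, h1, -⟩ := H
  rw [Prod.norm_def, h2, norm_zero]
  refine max_le ?_ hδ
  rw [ContinuousMap.norm_le _ hδ]
  exact h1

theorem st_step {m : ℕ} {q₀ : K} {k₀ : ℕ} {δ : ℝ} {i : ℕ} {h : Z m} (_hδ : 0 ≤ δ)
    (H : St m q₀ k₀ δ i h) {q : K} {k : ℕ} (hk : k₀ + i + 1 ≤ k)
    (hq : q ∈ cyl (fq q₀ k₀ i) (k₀ + i + 1)) {ε : ℝ} (hε : |ε| ≤ δ) :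
    St m q₀ k₀ δ (i + 1) (h + ε • ((cylf q k, 0) : Z m)) := by
  obtain ⟨h2, h1, h0⟩ := H
  refine ⟨by simp [h2], fun p => ?_, fun j hj p hp => ?_⟩
  · simp only [Prod.fst_add, Prod.smul_fst, ContinuousMap.add_apply, ContinuousMap.smul_apply,
      smul_eq_mul]
    by_cases hp : p ∈ cyl q k
    · rw [cylf_of_mem hp, h0 i le_rfl p (cyl_sub hk hq hp)]
      simpa using hε
    · rw [cylf_of_notMem hp]
      simpa using h1 p
  · simp only [Prod.fst_add, Prod.smul_fst, ContinuousMap.add_apply, ContinuousMap.smul_apply,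
      smul_eq_mul]
    have hn : p ∉ cyl q k := fun hc => fq_disj q₀ k₀ (Nat.lt_of_succ_le hj)
      (cyl_sub hk hq hc) hp
    rw [cylf_of_notMem hn, h0 j (by omega) p hp]
    simp

theorem norm_c_le {m : ℕ} (q : K) (k : ℕ) : ‖((cylf q k, 0) : Z m)‖ ≤ 1 := by
  rw [Prod.norm_def]
  exact max_le (norm_cylf_le q k) (by simp)

end Coref

open Coref

theorem blk_COREF (hG : Stmt_GRD) (hN : Stmt_NET) : Stmt_COREF := by
  intro m ι _ G L κ R ρ q₀ k₀ v z₀ hCL hκ hR hρ hD
  obtain ⟨hL, hconv, hlip⟩ := hCL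
  classical
  -- the constants
  set δ : ℝ := ρ / 2 with hδ
  have hδ0 : 0 < δ := by positivity
  set V : ℝ := ‖z₀‖ + 2 * δ + ∑ i, ‖v i‖ + 1 with hV
  have hsv : 0 ≤ ∑ i, ‖v i‖ := Finset.sum_nonneg fun i _ => norm_nonneg _
  have hV0 : 0 < V := by positivity
  set μ : ℝ := κ * δ / (16 * (L + 1) * R * V) with hμ
  have hμ0 : 0 < μ := by positivity
  set ε : ℝ := κ * δ / (16 * (L + 1) * R * R) with hε
  have hε0 : 0 < ε := by positivity
  obtain ⟨N, ν, -, hν⟩ := hN (Fintype.card ι + 1) (R + μ) μ hμ0 (by linarith)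
  let e := Fintype.equivFin ι
  let w : Fin N → Z m := fun j => ∑ i, ν j (e i).succ • v i
  let g : Fin N → Z m → ℝ := fun j z => G (ν j 0 • z + w j)
  set B : ℝ := L * δ * ∑ j, |ν j 0| with hB
  have key : ∀ n : ℕ, (n : ℝ) * (κ * δ / (2 * R)) ≤ 2 * N * B := by
    intro n
    refine hG (Z m) N n g z₀ (St m q₀ k₀ δ) (κ * δ / (2 * R)) B (st_zero m q₀ k₀ hδ0.le) ?_ ?_ ?_
    · -- midpoint convexity
      intro j h h'
      have hc := hconv.2 (mem_univ (ν j 0 • (z₀ + (h + h')) + w j))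
        (mem_univ (ν j 0 • (z₀ + (h - h')) + w j)) (by norm_num : (0 : ℝ) ≤ 1 / 2)
        (by norm_num : (0 : ℝ) ≤ 1 / 2) (by norm_num)
      have he : (1 / 2 : ℝ) • (ν j 0 • (z₀ + (h + h')) + w j) +
          (1 / 2 : ℝ) • (ν j 0 • (z₀ + (h - h')) + w j) = ν j 0 • (z₀ + h) + w j := by
        module
      rw [he] at hc
      simp only [smul_eq_mul] at hc
      simp only [g]
      linarith
    · -- the steps
      intro i _ h hP
      have hz : ‖(z₀ + h) - z₀‖ < ρ := by
        rw [add_sub_cancel_left]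
        exact (st_norm hδ0.le hP).trans_lt (by rw [hδ]; linarith)
      obtain ⟨z', q', a, p, hz', hq', ha1, ha2, hp, -, hS⟩ := hD (z₀ + h) hz (fq q₀ k₀ i)
        (fq_mem q₀ k₀ i) (k₀ + i + 1) (by omega) ε hε0
      have ha0 : 0 < a := lt_of_lt_of_le (by positivity) ha1
      obtain ⟨k, hk, hSD⟩ := hS (a * δ) (by positivity) (k₀ + i + 1)
      obtain ⟨j, hj⟩ := hν (Fin.cons a fun l => p (e.symm l)) (by
        intro l
        refine Fin.cases ?_ (fun l => ?_) l
        · simp only [Fin.cons_zero]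
          rw [abs_of_pos ha0]; linarith
        · simp only [Fin.cons_succ]
          exact (hp _).trans (by linarith))
      have hj0 : |a - ν j 0| ≤ μ := by simpa using hj 0
      have hjs : ∀ i, |p i - ν j (e i).succ| ≤ μ := fun i => by simpa using hj (e i).succ
      set c : Z m := (cylf q' k, 0) with hc
      have hcn : ‖c‖ ≤ 1 := norm_c_le q' k
      refine ⟨δ • c, j, ?_, ?_, ?_⟩
      · exact st_step hδ0.le hP hk hq' (abs_of_pos hδ0).le
      · have := st_step hδ0.le hP hk hq' (ε := -δ) (by rw [abs_neg, abs_of_pos hδ0])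
        rwa [neg_smul, ← sub_eq_add_neg] at this
      · -- the second difference
        set y : Z m := a • z' + ∑ i, p i • v i with hy
        -- comparison of the points
        have hcmp : ∀ s : ℝ, |s| ≤ 1 →
            ‖(ν j 0 • (z₀ + (h + s • δ • c)) + w j) - (y + s • (a * δ) • c)‖ ≤
              μ * V + R * ε := by
          intro s hs
          have he : (ν j 0 • (z₀ + (h + s • δ • c)) + w j) - (y + s • (a * δ) • c) =
              (ν j 0 - a) • (z₀ + h + s • δ • c) + a • ((z₀ + h) - z') +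
                ∑ i, (ν j (e i).succ - p i) • v i := by
            simp only [w, hy, sub_smul, Finset.sum_sub_distrib]
            module
          rw [he]
          have h1 : ‖(ν j 0 - a) • (z₀ + h + s • δ • c)‖ ≤ μ * (‖z₀‖ + δ + δ) := by
            rw [norm_smul, Real.norm_eq_abs, abs_sub_comm]
            refine mul_le_mul hj0 ?_ (norm_nonneg _) hμ0.le
            refine (norm_add₃_le).trans ?_
            refine add_le_add (add_le_add le_rfl (st_norm hδ0.le hP)) ?_
            rw [norm_smul, norm_smul, Real.norm_eq_abs, Real.norm_eq_abs, abs_of_pos hδ0]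
            calc |s| * (δ * ‖c‖) ≤ 1 * (δ * 1) := by gcongr
              _ = δ := by ring
          have h2 : ‖a • ((z₀ + h) - z')‖ ≤ R * ε := by
            rw [norm_smul, Real.norm_eq_abs, abs_of_pos ha0, norm_sub_rev]
            exact mul_le_mul ha2 hz'.le (norm_nonneg _) hR.le
          have h3 : ‖∑ i, (ν j (e i).succ - p i) • v i‖ ≤ μ * ∑ i, ‖v i‖ := by
            rw [Finset.mul_sum]
            refine (norm_sum_le _ _).trans (Finset.sum_le_sum fun i _ => ?_)
            rw [norm_smul, Real.norm_eq_abs, abs_sub_comm]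
            exact mul_le_mul_of_nonneg_right (hjs i) (norm_nonneg _)
          refine (norm_add₃_le).trans ((add_le_add (add_le_add h1 h2) h3).trans ?_)
          rw [hV]
          nlinarith
        have h1 := hlip (ν j 0 • (z₀ + (h + (1 : ℝ) • δ • c)) + w j) (y + (1 : ℝ) • (a * δ) • c)
        have h2 := hlip (ν j 0 • (z₀ + (h + (-1 : ℝ) • δ • c)) + w j)
          (y + (-1 : ℝ) • (a * δ) • c)
        have h3 := hlip (ν j 0 • (z₀ + (h + (0 : ℝ) • δ • c)) + w j) (y + (0 : ℝ) • (a * δ) • c)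
        have c1 := mul_le_mul_of_nonneg_left (hcmp 1 (by norm_num)) hL
        have c2 := mul_le_mul_of_nonneg_left (hcmp (-1) (by norm_num)) hL
        have c3 := mul_le_mul_of_nonneg_left (hcmp 0 (by norm_num)) hL
        have d1 := (abs_le.1 (h1.trans c1)).1
        have d2 := (abs_le.1 (h2.trans c2)).1
        have d3 := (abs_le.1 (h3.trans c3)).2
        have e1 : ν j 0 • (z₀ + (h + (1 : ℝ) • δ • c)) + w j =
            ν j 0 • (z₀ + (h + δ • c)) + w j := by rw [one_smul]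
        have e2 : ν j 0 • (z₀ + (h + (-1 : ℝ) • δ • c)) + w j =
            ν j 0 • (z₀ + (h - δ • c)) + w j := by rw [neg_one_smul, ← sub_eq_add_neg]
        have e3 : ν j 0 • (z₀ + (h + (0 : ℝ) • δ • c)) + w j = ν j 0 • (z₀ + h) + w j := by
          rw [zero_smul, add_zero]
        have f1 : y + (1 : ℝ) • (a * δ) • c = y + (a * δ) • c := by rw [one_smul]
        have f2 : y + (-1 : ℝ) • (a * δ) • c = y - (a * δ) • c := by
          rw [neg_one_smul, ← sub_eq_add_neg]
        have f3 : y + (0 : ℝ) • (a * δ) • c = y := by rw [zero_smul, add_zero]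
        rw [e1, f1] at d1
        rw [e2, f2] at d2
        rw [e3, f3] at d3
        have hsd : κ * (a * δ) ≤ G (y + (a * δ) • c) + G (y - (a * δ) • c) - 2 * G y := hSD
        have hk1 : κ * δ / R ≤ κ * (a * δ) := by
          have : κ * δ / R = κ * (1 / R * δ) := by ring
          rw [this]
          gcongr
        have hk2 : L * (μ * V + R * ε) ≤ κ * δ / (8 * R) := by
          have g1 : μ * V = κ * δ / (16 * (L + 1) * R) := by
            rw [hμ]; field_simp
          have g2 : R * ε = κ * δ / (16 * (L + 1) * R) := by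
            rw [hε]; field_simp
          have g3 : L * (μ * V + R * ε) = (L / (L + 1)) * (κ * δ / (8 * R)) := by
            rw [g1, g2]; field_simp; ring
          rw [g3]
          have g4 : L / (L + 1) ≤ 1 := by
            rw [div_le_one (by linarith)]; linarith
          calc (L / (L + 1)) * (κ * δ / (8 * R)) ≤ 1 * (κ * δ / (8 * R)) := by gcongr
            _ = κ * δ / (8 * R) := one_mul _
        have hk3 : κ * δ / R - 4 * (κ * δ / (8 * R)) = κ * δ / (2 * R) := by
          field_simp; ring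
        simp only [g]
        linarith
    · -- the total growth
      intro h hP j
      simp only [g]
      have h1 := (abs_le.1 (hlip (ν j 0 • (z₀ + h) + w j) (ν j 0 • z₀ + w j))).2
      have h2 : (ν j 0 • (z₀ + h) + w j) - (ν j 0 • z₀ + w j) = ν j 0 • h := by module
      rw [h2, norm_smul, Real.norm_eq_abs] at h1
      refine h1.trans ?_
      rw [hB, mul_assoc]
      refine mul_le_mul_of_nonneg_left ?_ hL
      rw [mul_comm δ]
      exact mul_le_mul (Finset.single_le_sum (f := fun j => |ν j 0|) (fun i _ => abs_nonneg _)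
        (Finset.mem_univ j)) (st_norm hδ0.le hP) (norm_nonneg _)
        (Finset.sum_nonneg fun i _ => abs_nonneg _)
  obtain ⟨n, hn⟩ := exists_nat_gt (2 * N * B / (κ * δ / (2 * R)))
  rw [div_lt_iff₀ (by positivity)] at hn
  exact absurd (key n) (not_le.2 hn)

end Pool.AP
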