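import Pool.Agent.Work.MP_6cbae3_ch.Basic2

/-! # MP_6cbae3_an: the core lemma (helper17) -/

set_option autoImplicit false

namespace Pool.AP

open Filter Topology Set

namespace CORET

theorem nsq_le {d : ℕ} (s : Fin d → ℝ) {μ : ℝ} (h : ∀ i, |s i| ≤ μ) : nsq s ≤ d * μ ^ 2 := by
  unfold nsq
  calc ∑ i, s i ^ 2 ≤ ∑ _i : Fin d, μ ^ 2 := by
        refine Finset.sum_le_sum fun i _ => ?_
        rw [← sq_abs]
        exact pow_le_pow_left₀ (abs_nonneg _) (h i) 2
    _ = d * μ ^ 2 := by simp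

theorem nsq_sub_comm {d : ℕ} (s s' : Fin d → ℝ) : nsq (s - s') = nsq (s' - s) := by
  unfold nsq
  refine Finset.sum_congr rfl fun i _ => ?_
  simp only [Pi.sub_apply]
  ring

/-- the gain at one parameter spreads to the nearby parameters -/
theorem gain (hENVP : Stmt_ENVP) (hRB : Stmt_RB) {m M : ℕ} {G : Z m → ℝ} {L : ℝ}
    (v : Fin M → Z m) {l₀ : ℝ} (hG : CL G L) (hl : 0 < l₀) (z h : Z m)
    (s s' : Fin (M + 1) → ℝ) (hs : nsq (s' - s) ≤
      (env G v l₀ (z + h) s + env G v l₀ (z - h) s - 2 * env G v l₀ z s) / 52) :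
    (env G v l₀ (z + h) s + env G v l₀ (z - h) s - 2 * env G v l₀ z s) / 2 ≤
      env G v l₀ (z + h) s' + env G v l₀ (z - h) s' - 2 * env G v l₀ z s' := by
  obtain ⟨-, -, h3, -, h5, h6⟩ := hENVP m M G L v l₀ hG hl
  refine hRB (M + 1) (fun s => env G v l₀ (z + h) s + env G v l₀ (z - h) s -
    2 * env G v l₀ z s) (fun s => by linarith [h3 z h s]) ?_ ?_ s s' hs
  · have hh := (((h5 (z + h)).add (h5 (z - h))).add (h6 z)).add (h6 z)
    have e : (fun s => env G v l₀ (z + h) s + env G v l₀ (z - h) s - 2 * env G v l₀ z s + nsq s) =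
        (((fun s => env G v l₀ (z + h) s) + (fun s => env G v l₀ (z - h) s)) +
          (fun s => nsq s / 2 - env G v l₀ z s)) + (fun s => nsq s / 2 - env G v l₀ z s) := by
      funext s
      simp only [Pi.add_apply]
      ring
    rw [e]
    exact hh
  · have hh := (((h6 (z + h)).add (h6 (z - h))).add (h5 z)).add (h5 z)
    have e : (fun s => nsq s - (env G v l₀ (z + h) s + env G v l₀ (z - h) s -
        2 * env G v l₀ z s)) =
        (((fun s => nsq s / 2 - env G v l₀ (z + h) s) +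
          (fun s => nsq s / 2 - env G v l₀ (z - h) s)) +
          (fun s => env G v l₀ z s)) + (fun s => env G v l₀ z s) := by
      funext s
      simp only [Pi.add_apply]
      ring
    rw [e]
    exact hh

end CORET

open CORET in
theorem blk_CORET (hEXPO : Stmt_EXPO) (hSTEP : Stmt_STEP) (hENVP : Stmt_ENVP) (hRB : Stmt_RB)
    (hNET : Stmt_NET) (hGRD : Stmt_GRD) : Stmt_CORET := by
  classical
  intro m M G L κ R ρ b c v x₀ u₀ t₀ hG hκ hR hρ hsep hD
  have hL : 0 ≤ L := hG.1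
  -- the constants
  set SV : ℝ := ∑ i, ‖v i‖ with hSV
  have hSV0 : 0 ≤ SV := Finset.sum_nonneg fun i _ => norm_nonneg _
  set W : ℝ := 6 + ‖x₀‖ + ‖u₀‖ + SV with hW
  have hx0n : 0 ≤ ‖x₀‖ := norm_nonneg _
  have hu0n : 0 ≤ ‖u₀‖ := norm_nonneg _
  have hWpos : 0 < W := by linarith
  set ρ₁ : ℝ := min 1 (ρ / (2 * W)) with hρ₁
  have hρ₁pos : 0 < ρ₁ := lt_min one_pos (by positivity)
  have hρ₁1 : ρ₁ ≤ 1 := min_le_left _ _
  have hρ₁W : ρ₁ * W ≤ ρ / 2 := by
    have : ρ₁ ≤ ρ / (2 * W) := min_le_right _ _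
    calc ρ₁ * W ≤ ρ / (2 * W) * W := mul_le_mul_of_nonneg_right this hWpos.le
      _ = ρ / 2 := by field_simp
  obtain ⟨q₀, k₁, ε, x₁, hε, hx₁, hexp⟩ := hEXPO M (fun i => (v i).1) b c x₀ t₀ ρ₁ hρ₁pos
  obtain ⟨C, hC, hstep⟩ := hSTEP m M G L κ R ρ b c v x₀ u₀ t₀ hG hκ hR hD (‖x₀‖ + ‖u₀‖ + 3)
  set C' : ℝ := C + 1 with hC'
  set μ₀ : ℝ := Real.sqrt (κ * ε / (104 * (M + 1))) with hμ₀
  have hμ₀pos : 0 < μ₀ := Real.sqrt_pos.2 (by positivity)
  have hμ₀sq : (M + 1 : ℝ) * μ₀ ^ 2 = κ * ε / 104 := by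
    rw [hμ₀, Real.sq_sqrt (by positivity)]
    field_simp
  set Mc : ℝ := 8 * L / κ * (4 * C' / μ₀) ^ (M + 1) with hMc
  have hMc0 : 0 ≤ Mc := by positivity
  set M₀ : ℝ := Mc + 1 + ε / ρ₁ + μ₀ with hM₀
  have hM₀pos : 0 < M₀ := by positivity
  obtain ⟨wl, hwl, hlen, hmem⟩ := hsep
  rw [Fintype.card_fin] at hlen
  obtain ⟨s, hs, hsM, Q, hQ, hcard, hQs⟩ := hwl q₀ k₁ M₀ hM₀pos
  have hs1 : s < 1 := by
    by_contra h
    push Not at h
    have h1 : 1 ≤ M₀ := by
      have : 0 ≤ ε / ρ₁ := by positivity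
      linarith
    nlinarith
  have hsε : s * (ε / ρ₁) < 1 := by
    have h1 : ε / ρ₁ ≤ M₀ := by linarith
    calc s * (ε / ρ₁) ≤ s * M₀ := mul_le_mul_of_nonneg_left h1 hs.le
      _ < 1 := hsM
  have hsμ : s * μ₀ < 1 := by
    have h1 : μ₀ ≤ M₀ := by
      have : 0 ≤ ε / ρ₁ := by positivity
      linarith
    calc s * μ₀ ≤ s * M₀ := mul_le_mul_of_nonneg_left h1 hs.le
      _ < 1 := hsM
  set δ : ℝ := ε * s ^ 2 with hδ
  have hδpos : 0 < δ := by positivity
  have hδρ : δ ≤ ρ₁ := by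
    have h1 : s * ε ≤ ρ₁ := by
      have : s * (ε / ρ₁) * ρ₁ ≤ 1 * ρ₁ := mul_le_mul_of_nonneg_right hsε.le hρ₁pos.le
      rw [one_mul] at this
      calc s * ε = s * (ε / ρ₁) * ρ₁ := by field_simp
        _ ≤ ρ₁ := this
    calc δ = s * (s * ε) := by rw [hδ]; ring
      _ ≤ 1 * (s * ε) := mul_le_mul_of_nonneg_right hs1.le (by positivity)
      _ ≤ ρ₁ := by rw [one_mul]; exact h1
  obtain ⟨N₀, hdisj, hex⟩ := hexp Q s hs hQ (by
    intro p hp p' hp' hne
    obtain ⟨f, hf, hfs⟩ := hQs p hp p' hp' hne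
    refine ⟨f, ?_, hfs⟩
    rcases List.mem_append.1 hf with h | h
    · exact List.mem_append_left _ h
    · obtain ⟨i, hi⟩ := hmem f h
      refine List.mem_append_right _ ?_
      rw [List.mem_ofFn']
      exact ⟨i, hi⟩)
  -- the net
  obtain ⟨Nn, ν, hNn, hν⟩ := hNET (M + 1) C' (s * μ₀) (by positivity) (by linarith)
  -- enumeration of the points
  set n : ℕ := Q.card with hn
  let e : Fin n ≃ Q := Q.equivFin.symm
  let pt : ℕ → K := fun i => if h : i < n then (e ⟨i, h⟩ : K) else q₀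
  have hpt : ∀ i, i < n → pt i ∈ Q := by
    intro i hi
    have : pt i = (e ⟨i, hi⟩ : K) := dif_pos hi
    rw [this]; exact (e ⟨i, hi⟩).2
  have hptinj : ∀ i j, i < n → j < n → i ≠ j → pt i ≠ pt j := by
    intro i j hi hj hij h
    have e1 : pt i = (e ⟨i, hi⟩ : K) := dif_pos hi
    have e2 : pt j = (e ⟨j, hj⟩ : K) := dif_pos hj
    rw [e1, e2] at h
    have := e.injective (Subtype.ext h)
    exact hij (by simpa using this)
  set l₀ : ℝ := 1 / (2 * R) with hl₀
  have hl₀pos : 0 < l₀ := by positivity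
  set P : ℕ → Z m → Prop := fun i h => ∃ h0 : X, h = (h0, 0) ∧ (∀ p', |h0 p'| ≤ δ) ∧
    ∀ p', h0 p' ≠ 0 → ∃ j, j < i ∧ j < n ∧ p' ∈ cyl (pt j) N₀ with hP
  obtain ⟨-, -, hmid, hlip, -, -⟩ := hENVP m M G L v l₀ hG hl₀pos
  have hgrd := hGRD (Z m) Nn n (fun j z => env G v l₀ z (ν j)) (x₁, u₀) P (κ * δ / 4) (L * δ)
    ⟨0, rfl, fun p' => by simpa using hδpos.le, fun p' h => absurd rfl h⟩
    (by
      intro j h h'
      have := hmid ((x₁, u₀) + h) h' (ν j)
      rw [add_assoc, add_sub_assoc] at this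
      exact this)
    (by
      intro i hi h hPh
      obtain ⟨h0, rfl, hh1, hh2⟩ := hPh
      set p : K := pt i with hp
      have hpQ : p ∈ Q := hpt i hi
      set β : ℝ := min ρ₁ (κ * δ / (2 * (16 * L + 1))) with hβ
      have hβpos : 0 < β := lt_min hρ₁pos (by positivity)
      have hβρ : β ≤ ρ₁ := min_le_left _ _
      have hβκ : (16 * L + 1) * β ≤ κ * δ / 2 := by
        have : β ≤ κ * δ / (2 * (16 * L + 1)) := min_le_right _ _
        calc (16 * L + 1) * β ≤ (16 * L + 1) * (κ * δ / (2 * (16 * L + 1))) :=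
              mul_le_mul_of_nonneg_left this (by positivity)
          _ = κ * δ / 2 := by
              have : (16 * L + 1) ≠ 0 := by positivity
              field_simp
      obtain ⟨σ, t, θ, hσ, hσ', ht, hθ, hex'⟩ := hex β hβpos p hpQ
      have hsupp : ∀ p', h0 p' ≠ 0 → ∃ p'' ∈ Q, p'' ≠ p ∧ p' ∈ cyl p'' N₀ := by
        intro p' hp'
        obtain ⟨j, hji, hjn, hj⟩ := hh2 p' hp'
        exact ⟨pt j, hpt j hjn, hptinj j i hjn hi (Nat.ne_of_lt hji), hj⟩
      have hh0n : ‖h0‖ ≤ ρ₁ := by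
        rw [ContinuousMap.norm_le _ hρ₁pos.le]
        intro p'
        exact (hh1 p').trans hδρ
      have hx₁n : ‖x₁ + h0‖ ≤ ‖x₀‖ + 2 * ρ₁ := by
        calc ‖x₁ + h0‖ = ‖x₀ + (x₁ - x₀) + h0‖ := by congr 1; abel
          _ ≤ ‖x₀‖ + ‖x₁ - x₀‖ + ‖h0‖ := by
              refine (norm_add_le _ _).trans ?_
              gcongr
              exact norm_add_le _ _
          _ ≤ ‖x₀‖ + 2 * ρ₁ := by linarith
      have hvi1 : ∀ i, ‖(v i).1‖ ≤ ‖v i‖ := fun i => norm_fst_le (v i)
      have hvi2 : ∀ i, ‖(v i).2‖ ≤ ‖v i‖ := fun i => norm_snd_le (v i)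
      obtain ⟨q, hq, sp, hsp, hgain⟩ := hstep (x₁ + h0) u₀ σ t β θ p N₀ hσ' hβpos
        (hβρ.trans hρ₁1) (fun i => (hθ i).trans hρ₁1) (by linarith) (by linarith)
        (by
          have e1 : ((1 + σ) • (x₁ + h0) + ∑ i, θ i • (v i).1 + β • cylf p N₀) - x₀ =
              (x₁ - x₀) + h0 + σ • (x₁ + h0) + ∑ i, θ i • (v i).1 + β • cylf p N₀ := by
            rw [add_smul, one_smul]; abel
          rw [e1]
          have h1 : ‖σ • (x₁ + h0)‖ ≤ ρ₁ * (‖x₀‖ + 2) := by
            rw [norm_smul, Real.norm_eq_abs]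
            exact mul_le_mul hσ (by linarith) (norm_nonneg _) hρ₁pos.le
          have h2 : ‖∑ i, θ i • (v i).1‖ ≤ ρ₁ * SV := by
            rw [hSV, Finset.mul_sum]
            refine norm_sum_le_of_le _ fun i _ => ?_
            rw [norm_smul, Real.norm_eq_abs]
            exact mul_le_mul (hθ i) (hvi1 i) (norm_nonneg _) hρ₁pos.le
          have h3 : ‖β • cylf p N₀‖ ≤ ρ₁ := by
            rw [norm_smul, Real.norm_eq_abs, abs_of_pos hβpos]
            calc β * ‖cylf p N₀‖ ≤ β * 1 :=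
                  mul_le_mul_of_nonneg_left (norm_cylf_le _ _) hβpos.le
              _ ≤ ρ₁ := by linarith
          calc _ ≤ ‖x₁ - x₀‖ + ‖h0‖ + ‖σ • (x₁ + h0)‖ + ‖∑ i, θ i • (v i).1‖ +
                ‖β • cylf p N₀‖ := by
                refine (norm_add_le _ _).trans (add_le_add_left ?_ _)
                refine (norm_add_le _ _).trans (add_le_add_left ?_ _)
                refine (norm_add_le _ _).trans (add_le_add_left ?_ _)
                exact norm_add_le _ _
            _ ≤ ρ₁ + ρ₁ + ρ₁ * (‖x₀‖ + 2) + ρ₁ * SV + ρ₁ := by linarith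
            _ ≤ ρ₁ * W := by rw [hW]; nlinarith
            _ ≤ ρ / 2 := hρ₁W
            _ < ρ := by linarith)
        (by
          have e1 : ((1 + σ) • u₀ + ∑ i, θ i • (v i).2) - u₀ =
              σ • u₀ + ∑ i, θ i • (v i).2 := by
            rw [add_smul, one_smul]; abel
          rw [e1]
          have h1 : ‖σ • u₀‖ ≤ ρ₁ * ‖u₀‖ := by
            rw [norm_smul, Real.norm_eq_abs]
            exact mul_le_mul_of_nonneg_right hσ (norm_nonneg _)
          have h2 : ‖∑ i, θ i • (v i).2‖ ≤ ρ₁ * SV := by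
            rw [hSV, Finset.mul_sum]
            refine norm_sum_le_of_le _ fun i _ => ?_
            rw [norm_smul, Real.norm_eq_abs]
            exact mul_le_mul (hθ i) (hvi2 i) (norm_nonneg _) hρ₁pos.le
          calc _ ≤ ‖σ • u₀‖ + ‖∑ i, θ i • (v i).2‖ := norm_add_le _ _
            _ ≤ ρ₁ * ‖u₀‖ + ρ₁ * SV := by linarith
            _ ≤ ρ₁ * W := by rw [hW]; nlinarith
            _ ≤ ρ / 2 := hρ₁W
            _ < ρ := by linarith)
        (by
          have : ρ₁ ≤ ρ₁ * W := le_mul_of_one_le_right hρ₁pos.le (by linarith)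
          linarith)
        (by
          intro p' hp'
          exact hex' h0 hh1 hsupp p' hp')
      obtain ⟨k, hk, hkg⟩ := hgain δ hδpos N₀
      set h' : Z m := δ • (cylf q k, 0) with hh'
      have ez : ((x₁ + h0, u₀) : Z m) = (x₁, u₀) + ((h0, 0) : Z m) := by
        rw [Prod.mk_add_mk, add_zero]
      rw [ez] at hkg
      -- the net point
      obtain ⟨j, hj⟩ := hν sp (fun i => (hsp i).trans (by linarith))
      have hnsq : nsq (ν j - sp) ≤ κ * δ / 104 := by
        rw [nsq_sub_comm]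
        refine (nsq_le _ (μ := s * μ₀) hj).trans ?_
        rw [hδ]
        have : ((M + 1 : ℕ) : ℝ) * (s * μ₀) ^ 2 = ((M + 1 : ℝ) * μ₀ ^ 2) * s ^ 2 := by
          push_cast; ring
        rw [this, hμ₀sq]
        apply le_of_eq
        ring
      have hkg2 : κ * δ / 2 ≤ env G v l₀ ((x₁, u₀) + ((h0, 0) : Z m) + h') sp +
          env G v l₀ ((x₁, u₀) + ((h0, 0) : Z m) - h') sp -
          2 * env G v l₀ ((x₁, u₀) + ((h0, 0) : Z m)) sp := by linarith
      have hg2 := gain hENVP hRB v hG hl₀pos ((x₁, u₀) + ((h0, 0) : Z m)) h' sp (ν j) (by linarith)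
      refine ⟨h', j, ?_, ?_, ?_⟩
      · -- `h + h'`
        refine ⟨h0 + δ • cylf q k, ?_, ?_, ?_⟩
        · rw [hh', Prod.smul_mk, smul_zero, Prod.mk_add_mk, add_zero]
        · intro p'
          by_cases hpq : p' ∈ cyl q k
          · have h00 : h0 p' = 0 := by
              by_contra h
              obtain ⟨p'', hp'', hne, hmem'⟩ := hsupp p' h
              have h1 : p' ∈ cyl p N₀ := by
                rw [← cyl_eq_of_mem hq]
                exact cyl_anti hk hpq
              exact Set.disjoint_left.1 (hdisj p'' hp'' p hpQ hne) hmem' h1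
            rw [ContinuousMap.add_apply, ContinuousMap.smul_apply, cylf_of_mem hpq, h00]
            simp [abs_of_pos hδpos]
          · rw [ContinuousMap.add_apply, ContinuousMap.smul_apply, cylf_of_notMem hpq]
            simpa using hh1 p'
        · intro p' hp'
          by_cases hpq : p' ∈ cyl q k
          · refine ⟨i, Nat.lt_succ_self i, hi, ?_⟩
            rw [← hp, ← cyl_eq_of_mem hq]
            exact cyl_anti hk hpq
          · rw [ContinuousMap.add_apply, ContinuousMap.smul_apply, cylf_of_notMem hpq,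
              smul_zero, add_zero] at hp'
            obtain ⟨j', hj1, hj2, hj3⟩ := hh2 p' hp'
            exact ⟨j', Nat.lt_succ_of_lt hj1, hj2, hj3⟩
      · -- `h - h'`
        refine ⟨h0 - δ • cylf q k, ?_, ?_, ?_⟩
        · rw [hh', Prod.smul_mk, smul_zero, Prod.mk_sub_mk, sub_zero]
        · intro p'
          by_cases hpq : p' ∈ cyl q k
          · have h00 : h0 p' = 0 := by
              by_contra h
              obtain ⟨p'', hp'', hne, hmem'⟩ := hsupp p' h
              have h1 : p' ∈ cyl p N₀ := by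
                rw [← cyl_eq_of_mem hq]
                exact cyl_anti hk hpq
              exact Set.disjoint_left.1 (hdisj p'' hp'' p hpQ hne) hmem' h1
            rw [ContinuousMap.sub_apply, ContinuousMap.smul_apply, cylf_of_mem hpq, h00]
            simp [abs_of_pos hδpos]
          · rw [ContinuousMap.sub_apply, ContinuousMap.smul_apply, cylf_of_notMem hpq]
            simpa using hh1 p'
        · intro p' hp'
          by_cases hpq : p' ∈ cyl q k
          · refine ⟨i, Nat.lt_succ_self i, hi, ?_⟩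
            rw [← hp, ← cyl_eq_of_mem hq]
            exact cyl_anti hk hpq
          · rw [ContinuousMap.sub_apply, ContinuousMap.smul_apply, cylf_of_notMem hpq,
              smul_zero, sub_zero] at hp'
            obtain ⟨j', hj1, hj2, hj3⟩ := hh2 p' hp'
            exact ⟨j', Nat.lt_succ_of_lt hj1, hj2, hj3⟩
      · show κ * δ / 4 ≤ _
        rw [← add_assoc, ← add_sub_assoc]
        linarith)
    (by
      intro h hPh j
      obtain ⟨h0, rfl, hh1, -⟩ := hPh
      have h1 := hlip ((x₁, u₀) + (h0, 0)) (x₁, u₀) (ν j)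
      rw [add_sub_cancel_left, norm_pair_zero] at h1
      have h2 : ‖h0‖ ≤ δ := by
        rw [ContinuousMap.norm_le _ hδpos.le]
        exact hh1
      have h3 := (abs_le.1 h1).2
      have h4 : L * ‖h0‖ ≤ L * δ := mul_le_mul_of_nonneg_left h2 hL
      linarith)
  -- the count
  have hcount : (n : ℝ) * κ ≤ 8 * L * Nn := by
    have h1 : ((n : ℝ) * κ) * δ ≤ (8 * L * Nn) * δ := by nlinarith
    exact le_of_mul_le_mul_right h1 hδpos
  have hcount2 : (n : ℝ) ≤ 8 * L / κ * Nn := by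
    rw [div_mul_eq_mul_div, le_div_iff₀ hκ]; exact hcount
  have hfin : (n : ℝ) * s ^ (M + 1) ≤ Mc := by
    have h1 : (n : ℝ) ≤ 8 * L / κ * (4 * C' / (s * μ₀)) ^ (M + 1) :=
      hcount2.trans (mul_le_mul_of_nonneg_left hNn (by positivity))
    calc (n : ℝ) * s ^ (M + 1) ≤ 8 * L / κ * (4 * C' / (s * μ₀)) ^ (M + 1) * s ^ (M + 1) :=
          mul_le_mul_of_nonneg_right h1 (by positivity)
      _ = 8 * L / κ * ((4 * C' / (s * μ₀)) * s) ^ (M + 1) := by rw [mul_pow]; ring
      _ = Mc := by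
          rw [hMc]
          congr 2
          field_simp
  have hlow : M₀ ≤ (n : ℝ) * s ^ (M + 1) := by
    have e1 : ([b, c] ++ wl).length = M + 2 := by simp [hlen]
    rw [e1] at hcard
    have h2 : M₀ * s ≤ (n : ℝ) * s ^ (M + 1) * s := by
      calc M₀ * s ≤ (n : ℝ) * s ^ (M + 2) := hcard
        _ = _ := by ring
    exact le_of_mul_le_mul_right h2 hs
  have : 0 ≤ ε / ρ₁ := by positivity
  linarith

end Pool.AP
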