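import Pool.Agent.Work.MP_6cbae3_ch.Interface

set_option autoImplicit false

namespace Pool.AP

open Filter Topology Set

/-- Block CORTI (helper64). -/
theorem blk_CORTI (h1 : Stmt_CORET) : Stmt_CORTI := by
  intro m ι _ G L κ R ρ b c v x₀ u₀ t₀ hG hκ hR hρ hsep hD
  set e := Fintype.equivFin ι with he
  refine h1 m (Fintype.card ι) G L κ R ρ b c (v ∘ e.symm) x₀ u₀ t₀ hG hκ hR hρ ?_ ?_
  · obtain ⟨w, hw, hl, hv⟩ := hsep
    refine ⟨w, hw, by rw [hl, Fintype.card_fin], ?_⟩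
    intro f hf
    obtain ⟨i, hi⟩ := hv f hf
    exact ⟨e i, by simp [hi]⟩
  · intro x u t hx hu ht ε hε
    obtain ⟨z, q, a, p, h2, h3, h4, h5, h6, h7, h8⟩ := hD x u t hx hu ht ε hε
    have hsum : ∑ i, (p ∘ e.symm) i • (v ∘ e.symm) i = ∑ i, p i • v i :=
      Equiv.sum_comp e.symm (fun i => p i • v i)
    refine ⟨z, q, a, p ∘ e.symm, h2, h3, h4, h5, fun i => h6 _, ?_, ?_⟩
    · rw [hsum]; exact h7
    · rw [hsum]; exact h8

end Pool.AP
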