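import Pool.Agent.Work.MP_6cbae3_ch.Interface

/-! # DEN (helper81) -/

set_option autoImplicit false

namespace Pool.AP

open Filter Topology Set

theorem blk_DEN : Stmt_DEN := by
  intro A _ D hD U hU hne γ
  obtain ⟨⟨⟨x0, f0⟩, t0⟩, h0⟩ := hne
  rw [isOpen_prod_iff] at hU
  obtain ⟨V, W, hV, hW, hxV, htW, hVW⟩ := hU (x0, f0) t0 h0
  obtain ⟨V1, V2, hV1, hV2, hx1, hf2, hV12⟩ := isOpen_prod_iff.1 hV x0 f0 hxV
  obtain ⟨F, u, hu, hF⟩ := isOpen_pi_iff.1 hV2 f0 hf2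
  obtain ⟨γ', hγ, hτ⟩ : ∃ γ', γ ≤ γ' ∧ ∀ i ∈ F, D.τ i ≤ γ' := by
    have hn : (insert γ (F.image D.τ)).Nonempty := ⟨γ, by simp⟩
    refine ⟨(insert γ (F.image D.τ)).max' hn, Finset.le_max' _ _ (by simp), fun i hi => ?_⟩
    exact Finset.le_max' _ _ (Finset.mem_insert_of_mem (Finset.mem_image_of_mem _ hi))
  have hopen : IsOpen {p : Y0 × (A → ℝ) | p.1.1 ∈ V1 ∧ p.1.2.1 ∈ W ∧ p.2 ∈ (F : Set A).pi u} := by
    refine IsOpen.inter ?_ (IsOpen.inter ?_ ?_)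
    · exact hV1.preimage (continuous_fst.comp continuous_fst)
    · exact hW.preimage (continuous_fst.comp (continuous_snd.comp continuous_fst))
    · exact (isOpen_set_pi F.finite_toSet fun i hi => (hu i hi).1).preimage continuous_snd
  obtain ⟨α, hα, h1, h2, h3⟩ := hD.up _ hopen
    ⟨((x0, t0, fun _ => 0), f0), hx1, htW, fun i hi => (hu i hi).2⟩ γ'
  refine ⟨α, hγ.trans hα, hVW ⟨hV12 ⟨?_, hF ?_⟩, h2⟩⟩
  · simpa [Data.eh, Data.vecX] using h1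
  · intro i hi
    have : ¬ α < D.τ i := not_lt.2 ((hτ i hi).trans hα)
    simp only [Data.eh, Data.phi, this, if_false, if_true]
    exact h3 i hi

end Pool.AP
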