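import Pool.Agent.Work.MP_6cbae3_ch.Interface

/-! # Block ENVL (helper48): the envelope grows where `G` sees a point -/

set_option autoImplicit false

namespace Pool.AP

open Filter Topology Set

/-- one side of the estimate -/
theorem envl_side {m M : ℕ} {G : Z m → ℝ} {L : ℝ} {v : Fin M → Z m}
    (conv : ConvexOn ℝ {x : Z m × (Fin (M + 1) → ℝ) | 0 < x.2 0} (fun x => persp G v x.1 x.2))
    (lip : ∀ z z' s, 0 < s 0 → |persp G v z s - persp G v z' s| ≤ L * ‖z - z'‖)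
    {z : Z m} {π ξ : Fin (M + 1) → ℝ} (hπ : 0 < π 0) {η₂ τ θ D : ℝ} (hτ : 0 < τ) (hθ : 0 < θ)
    (hθ1 : θ ≤ 1) (hD : 0 < D) (hη₂ : 0 ≤ η₂) (hL : 0 ≤ L)
    (hd : ∀ u : Fin (M + 1) → ℝ, (∀ i, |u i| ≤ τ) → 0 < (π + u) 0 ∧
      |persp G v z (π + u) - persp G v z π - ∑ i, ξ i * u i| ≤ η₂ * ∑ i, |u i|)
    (h : Z m) {δ : ℝ} (hh : ‖h‖ ≤ δ) (w : Fin (M + 1) → ℝ) (hw : ∀ i, |w i| ≤ D)
    (hw0 : 0 < (π + w) 0) :
    persp G v z π + θ⁻¹ * (persp G v (z + θ • h) π - persp G v z π) + ∑ i, ξ i * w i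
      - η₂ * ((M + 1) * D) - 2 * L * δ * D * θ / τ ≤ persp G v (z + h) (π + w) := by
  -- the two convexity inequalities
  set N : ℝ := τ / (θ * D) with hN
  have hNpos : 0 < N := by positivity
  have hNθ : N * θ = τ / D := by rw [hN]; field_simp
  have hu : ∀ i, |(-(N * θ) • w) i| ≤ τ := by
    intro i
    rw [Pi.smul_apply, smul_eq_mul, abs_mul, abs_neg, abs_of_pos (by positivity : 0 < N * θ), hNθ]
    calc τ / D * |w i| ≤ τ / D * D := by
          exact mul_le_mul_of_nonneg_left (hw i) (by positivity)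
      _ = τ := by field_simp
  obtain ⟨hu0, hud⟩ := hd _ hu
  have hθw0 : 0 < (π + θ • w) 0 := by
    have e : (π + θ • w) 0 = (1 - θ) * π 0 + θ * (π + w) 0 := by
      simp only [Pi.add_apply, Pi.smul_apply, smul_eq_mul]; ring
    rw [e]
    have h1 : 0 ≤ (1 - θ) * π 0 := mul_nonneg (by linarith) hπ.le
    have h2 : 0 < θ * (π + w) 0 := mul_pos hθ hw0
    linarith
  -- convexity 1
  have c1 : persp G v (z + θ • h) (π + θ • w) ≤
      (1 - θ) * persp G v z π + θ * persp G v (z + h) (π + w) := by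
    have := conv.2
      (show (z, π) ∈ {x : Z m × (Fin (M + 1) → ℝ) | 0 < x.2 0} from hπ)
      (show (z + h, π + w) ∈ {x : Z m × (Fin (M + 1) → ℝ) | 0 < x.2 0} from hw0)
      (by linarith : (0 : ℝ) ≤ 1 - θ) hθ.le (by ring)
    have e : (1 - θ) • ((z, π) : Z m × (Fin (M + 1) → ℝ)) + θ • (z + h, π + w) =
        (z + θ • h, π + θ • w) := by
      have e1 : (1 - θ) • z + θ • (z + h) = z + θ • h := by module
      have e2 : (1 - θ) • π + θ • (π + w) = π + θ • w := by module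
      show ((1 - θ) • z + θ • (z + h), (1 - θ) • π + θ • (π + w)) = (z + θ • h, π + θ • w)
      rw [e1, e2]
    rw [e] at this
    simpa only [smul_eq_mul] using this
  -- convexity 2
  have c2 : persp G v (z + θ • h) π ≤ (N / (N + 1)) * persp G v (z + θ • h) (π + θ • w) +
      (1 / (N + 1)) * persp G v (z + θ • h) (π + -(N * θ) • w) := by
    have := conv.2
      (show (z + θ • h, π + θ • w) ∈ {x : Z m × (Fin (M + 1) → ℝ) | 0 < x.2 0} from hθw0)
      (show (z + θ • h, π + -(N * θ) • w) ∈ {x : Z m × (Fin (M + 1) → ℝ) | 0 < x.2 0} from hu0)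
      (by positivity : (0 : ℝ) ≤ N / (N + 1)) (by positivity : (0 : ℝ) ≤ 1 / (N + 1))
      (by field_simp)
    have e : (N / (N + 1)) • ((z + θ • h, π + θ • w) : Z m × (Fin (M + 1) → ℝ)) +
        (1 / (N + 1)) • (z + θ • h, π + -(N * θ) • w) = (z + θ • h, π) := by
      have h1 : N / (N + 1) + 1 / (N + 1) = 1 := by field_simp
      ext1
      · show (N / (N + 1)) • (z + θ • h) + (1 / (N + 1)) • (z + θ • h) = z + θ • h
        rw [← add_smul, h1, one_smul]
      · simp only [Prod.snd_add, Prod.smul_snd]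
        funext i
        simp only [Pi.add_apply, Pi.smul_apply, smul_eq_mul]
        field_simp
        ring
    rw [e] at this
    simpa only [smul_eq_mul] using this
  -- Lipschitz
  have hnorm : ‖θ • h‖ ≤ θ * δ := by
    rw [norm_smul, Real.norm_eq_abs, abs_of_pos hθ]
    exact mul_le_mul_of_nonneg_left hh hθ.le
  have l1 : persp G v z π - L * (θ * δ) ≤ persp G v (z + θ • h) π := by
    have := (abs_le.1 (lip (z + θ • h) z π hπ)).1
    have h2 : L * ‖z + θ • h - z‖ ≤ L * (θ * δ) := by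
      rw [add_sub_cancel_left]
      exact mul_le_mul_of_nonneg_left hnorm hL
    linarith
  have l2 : persp G v (z + θ • h) (π + -(N * θ) • w) ≤
      persp G v z (π + -(N * θ) • w) + L * (θ * δ) := by
    have := (abs_le.1 (lip (z + θ • h) z _ hu0)).2
    have h2 : L * ‖z + θ • h - z‖ ≤ L * (θ * δ) := by
      rw [add_sub_cancel_left]
      exact mul_le_mul_of_nonneg_left hnorm hL
    linarith
  -- differentiability
  have d1 : persp G v z (π + -(N * θ) • w) ≤ persp G v z π - (N * θ) * ∑ i, ξ i * w i +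
      η₂ * ((N * θ) * ((M + 1) * D)) := by
    have h1 := (abs_le.1 hud).2
    have h2 : ∑ i, ξ i * (-(N * θ) • w) i = - ((N * θ) * ∑ i, ξ i * w i) := by
      rw [Finset.mul_sum, ← Finset.sum_neg_distrib]
      refine Finset.sum_congr rfl fun i _ => ?_
      simp only [Pi.smul_apply, smul_eq_mul]; ring
    have h3 : ∑ i, |(-(N * θ) • w) i| ≤ (N * θ) * ((M + 1) * D) := by
      have h4 : ∀ i ∈ (Finset.univ : Finset (Fin (M + 1))), |(-(N * θ) • w) i| ≤ (N * θ) * D := by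
        intro i _
        rw [Pi.smul_apply, smul_eq_mul, abs_mul, abs_neg, abs_of_pos (by positivity : 0 < N * θ)]
        exact mul_le_mul_of_nonneg_left (hw i) (by positivity)
      calc ∑ i, |(-(N * θ) • w) i| ≤ ∑ _i : Fin (M + 1), (N * θ) * D := Finset.sum_le_sum h4
        _ = (N * θ) * ((M + 1) * D) := by
          rw [Finset.sum_const, Finset.card_univ, Fintype.card_fin, nsmul_eq_mul]
          push_cast; ring
    have h5 := mul_le_mul_of_nonneg_left h3 hη₂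
    rw [h2] at h1
    linarith
  -- assemble
  set P0 := persp G v z π
  set P1 := persp G v (z + θ • h) π
  set P2 := persp G v (z + θ • h) (π + θ • w)
  set P3 := persp G v (z + θ • h) (π + -(N * θ) • w)
  set P4 := persp G v (z + h) (π + w)
  set S := ∑ i, ξ i * w i
  have hP3 : P3 ≤ P0 - (N * θ) * S + η₂ * ((N * θ) * ((M + 1) * D)) + L * (θ * δ) := by linarith
  have c2' : (N + 1) * P1 ≤ N * P2 + P3 := by
    have : (N + 1) * P1 ≤ (N + 1) * ((N / (N + 1)) * P2 + (1 / (N + 1)) * P3) :=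
      mul_le_mul_of_nonneg_left c2 (by positivity)
    have e : (N + 1) * ((N / (N + 1)) * P2 + (1 / (N + 1)) * P3) = N * P2 + P3 := by field_simp
    linarith
  have c3 : N * P1 - (2 * (L * (θ * δ))) + (N * θ) * S - η₂ * ((N * θ) * ((M + 1) * D)) ≤
      N * P2 := by linarith
  have c4 : P1 - 2 * (L * (θ * δ)) / N + θ * S - η₂ * (θ * ((M + 1) * D)) ≤ P2 := by
    have : N * (P1 - 2 * (L * (θ * δ)) / N + θ * S - η₂ * (θ * ((M + 1) * D))) ≤ N * P2 := by
      have e : N * (P1 - 2 * (L * (θ * δ)) / N + θ * S - η₂ * (θ * ((M + 1) * D))) =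
          N * P1 - (2 * (L * (θ * δ))) + (N * θ) * S - η₂ * ((N * θ) * ((M + 1) * D)) := by
        field_simp
      linarith
    exact le_of_mul_le_mul_left this hNpos
  have e5 : 2 * (L * (θ * δ)) / N = θ * (2 * L * δ * D * θ / τ) := by
    rw [hN]; field_simp
  rw [e5] at c4
  have c5 : θ * (P0 + θ⁻¹ * (P1 - P0) + S - η₂ * ((M + 1) * D) - 2 * L * δ * D * θ / τ) ≤
      θ * P4 := by
    have e : θ * (P0 + θ⁻¹ * (P1 - P0) + S - η₂ * ((M + 1) * D) - 2 * L * δ * D * θ / τ) =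
        θ * P0 + (P1 - P0) + θ * S - η₂ * (θ * ((M + 1) * D)) - θ * (2 * L * δ * D * θ / τ) := by
      field_simp
    rw [e]
    linarith
  exact le_of_mul_le_mul_left c5 hθ

/-- near-minimizers are bounded -/
theorem envl_bdd {m M : ℕ} {G : Z m → ℝ} {L : ℝ} {v : Fin M → Z m} (hL : 0 ≤ L)
    (low : ∀ z s, 0 < s 0 → -(|G 0| * s 0 + L * ‖z‖ + L * ∑ i : Fin M, |s i.succ| * ‖v i‖) ≤
      persp G v z s) (z : Z m) (s : Fin (M + 1) → ℝ) (C δ : ℝ) :
    ∃ D : ℝ, 0 < D ∧ ∀ (h : Z m), ‖h‖ ≤ δ → ∀ (p : Fin (M + 1) → ℝ), 0 < p 0 →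
      persp G v (z + h) p + nsq (p - s) / 2 ≤ C → ∀ i, |p i - s i| ≤ D := by
  set C₂ : ℝ := |G 0| + L * ∑ i : Fin M, ‖v i‖ with hC₂
  have hC₂0 : 0 ≤ C₂ := by
    have : 0 ≤ ∑ i : Fin M, ‖v i‖ := Finset.sum_nonneg fun i _ => norm_nonneg _
    positivity
  set C₁ : ℝ := C + L * (‖z‖ + δ) + C₂ * ∑ i, |s i| with hC₁
  set X₀ : ℝ := 4 * C₁ + 4 * ((M + 1) * C₂ ^ 2) with hX₀
  refine ⟨1 + |X₀|, by positivity, ?_⟩
  intro h hh p hp0 hp i
  have h1 := low (z + h) p hp0
  have h2 : ‖z + h‖ ≤ ‖z‖ + δ := (norm_add_le _ _).trans (by linarith)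
  have h3 : L * ‖z + h‖ ≤ L * (‖z‖ + δ) := mul_le_mul_of_nonneg_left h2 hL
  have h4 : |G 0| * p 0 + L * ∑ i : Fin M, |p i.succ| * ‖v i‖ ≤ C₂ * ∑ j, |p j| := by
    have e1 : |G 0| * p 0 ≤ |G 0| * ∑ j, |p j| := by
      refine mul_le_mul_of_nonneg_left ?_ (abs_nonneg _)
      exact (le_abs_self _).trans
        (Finset.single_le_sum (f := fun j => |p j|) (fun j _ => abs_nonneg _) (Finset.mem_univ 0))
    have e2 : ∑ i : Fin M, |p i.succ| * ‖v i‖ ≤ (∑ i : Fin M, ‖v i‖) * ∑ j, |p j| := by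
      rw [Finset.sum_mul]
      refine Finset.sum_le_sum fun i _ => ?_
      rw [mul_comm]
      refine mul_le_mul_of_nonneg_left ?_ (norm_nonneg _)
      exact Finset.single_le_sum (f := fun j => |p j|) (fun j _ => abs_nonneg _)
        (Finset.mem_univ i.succ)
    have e3 := mul_le_mul_of_nonneg_left e2 hL
    rw [hC₂]
    nlinarith
  have h5 : ∑ j, |p j| ≤ ∑ j, |p j - s j| + ∑ j, |s j| := by
    rw [← Finset.sum_add_distrib]
    refine Finset.sum_le_sum fun j _ => ?_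
    have := abs_add_le (p j - s j) (s j)
    simpa using this
  have h6 := mul_le_mul_of_nonneg_left h5 hC₂0
  have h7 : nsq (p - s) = ∑ j, |p j - s j| ^ 2 := by
    simp only [nsq, Pi.sub_apply, sq_abs]
  have h8 : nsq (p - s) ≤ 2 * C₁ + 2 * (C₂ * ∑ j, |p j - s j|) := by
    rw [hC₁]
    linarith
  have h9 : 2 * (C₂ * ∑ j, |p j - s j|) ≤ nsq (p - s) / 2 + 2 * ((M + 1) * C₂ ^ 2) := by
    have e1 : ∀ j ∈ (Finset.univ : Finset (Fin (M + 1))),
        2 * C₂ * |p j - s j| ≤ |p j - s j| ^ 2 / 2 + 2 * C₂ ^ 2 := by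
      intro j _
      nlinarith [sq_nonneg (|p j - s j| - 2 * C₂)]
    have e2 := Finset.sum_le_sum e1
    rw [← Finset.mul_sum, Finset.sum_add_distrib, Finset.sum_const, Finset.card_univ,
      Fintype.card_fin, nsmul_eq_mul, ← Finset.sum_div, ← h7] at e2
    push_cast at e2
    linarith
  have h10 : nsq (p - s) ≤ X₀ := by rw [hX₀]; linarith
  have h11 : |p i - s i| ^ 2 ≤ nsq (p - s) := by
    rw [h7]
    exact Finset.single_le_sum (f := fun j => |p j - s j| ^ 2) (fun j _ => sq_nonneg _)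
      (Finset.mem_univ i)
  have h12 : |p i - s i| ≤ 1 + |p i - s i| ^ 2 := by
    nlinarith [sq_nonneg (|p i - s i| - 1), abs_nonneg (p i - s i)]
  have h13 : X₀ ≤ |X₀| := le_abs_self _
  linarith

theorem norm_smul_cyl_le {m : ℕ} (q : K) (k : ℕ) (t : ℝ) :
    ‖(t • (cylf q k, 0) : Z m)‖ ≤ |t| := by
  rw [norm_smul, Real.norm_eq_abs]
  have h1 : ‖((cylf q k, 0) : Z m)‖ ≤ 1 := by
    rw [Prod.norm_mk, norm_zero]
    exact max_le (norm_cylf_le q k) zero_le_one
  calc |t| * ‖((cylf q k, 0) : Z m)‖ ≤ |t| * 1 := mul_le_mul_of_nonneg_left h1 (abs_nonneg _)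
    _ = |t| := mul_one _

theorem blk_ENVL (hPCV : Stmt_PCV) (hPSM : Stmt_PSM) (hENVP : Stmt_ENVP) : Stmt_ENVL := by
  intro m M G L v l₀ κ z π q hG hl₀ hlπ hGD hSeen
  have hL : 0 ≤ L := hG.1
  have hπ : 0 < π 0 := hl₀.trans hlπ
  obtain ⟨conv, lip, low⟩ := hPCV m M G L v hG
  obtain ⟨inf_le, near, -, -, -, -⟩ := hENVP m M G L v l₀ hG hl₀
  obtain ⟨ξ, hξ, hdiff⟩ := hPSM m M G L v z π hG hπ hGD
  set y : Z m := (π 0)⁻¹ • (z + ∑ i : Fin M, π i.succ • v i) with hy
  set s : Fin (M + 1) → ℝ := π + ξ with hs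
  refine ⟨s, fun i => by simpa [hs] using hξ i, ?_⟩
  intro δ hδ η hη k₀
  -- bound for the near-minimizers
  obtain ⟨D₀, hD₀, hD₀'⟩ := envl_bdd (v := v) hL low z s
    (persp G v z π + L * δ + nsq (π - s) / 2 + η / 4) δ
  set D : ℝ := D₀ + ∑ i, |ξ i| with hD
  have hDpos : 0 < D := by
    have : 0 ≤ ∑ i, |ξ i| := Finset.sum_nonneg fun i _ => abs_nonneg _
    linarith
  set η₂ : ℝ := η / (8 * ((M + 1) * D)) with hη₂
  have hη₂pos : 0 < η₂ := by positivity
  obtain ⟨τ, hτ, hd⟩ := hdiff η₂ hη₂pos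
  set θ : ℝ := min 1 (η * τ / (16 * (L + 1) * δ * D)) with hθd
  have hθ : 0 < θ := lt_min one_pos (by positivity)
  have hθ1 : θ ≤ 1 := min_le_left _ _
  have hθ2 : θ ≤ η * τ / (16 * (L + 1) * δ * D) := min_le_right _ _
  -- choose k
  obtain ⟨k, hk, hSk⟩ := hSeen (θ * δ / π 0) (by positivity) k₀
  refine ⟨k, hk, ?_⟩
  set c : Z m := (cylf q k, 0) with hc
  obtain ⟨p₁, hp₁, hp₁'⟩ := near (z + δ • c) s (η / 4) (by positivity)
  obtain ⟨p₂, hp₂, hp₂'⟩ := near (z - δ • c) s (η / 4) (by positivity)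
  have hn₁ : ‖δ • c‖ ≤ δ := by
    have := norm_smul_cyl_le (m := m) q k δ
    rwa [abs_of_pos hδ] at this
  have hn₂ : ‖-(δ • c)‖ ≤ δ := by rwa [norm_neg]
  -- upper bounds for the envelope
  have hub₁ : env G v l₀ (z + δ • c) s ≤ persp G v z π + L * δ + nsq (π - s) / 2 := by
    have h1 := inf_le (z + δ • c) s π hlπ.le
    have h2 := (abs_le.1 (lip (z + δ • c) z π hπ)).2
    have h3 : L * ‖z + δ • c - z‖ ≤ L * δ := by
      rw [add_sub_cancel_left]; exact mul_le_mul_of_nonneg_left hn₁ hL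
    linarith
  have hub₂ : env G v l₀ (z - δ • c) s ≤ persp G v z π + L * δ + nsq (π - s) / 2 := by
    have h1 := inf_le (z - δ • c) s π hlπ.le
    have h2 := (abs_le.1 (lip (z - δ • c) z π hπ)).2
    have h3 : L * ‖z - δ • c - z‖ ≤ L * δ := by
      rw [sub_sub_cancel_left]; exact mul_le_mul_of_nonneg_left hn₂ hL
    linarith
  have hp₁0 : 0 < p₁ 0 := hl₀.trans_le hp₁
  have hp₂0 : 0 < p₂ 0 := hl₀.trans_le hp₂
  have hb₁ := hD₀' (δ • c) hn₁ p₁ hp₁0 (by linarith)
  have hb₂ := hD₀' (-(δ • c)) hn₂ p₂ hp₂0 (by rw [← sub_eq_add_neg]; linarith)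
  have hξle : ∀ i, |ξ i| ≤ ∑ j, |ξ j| := fun i =>
    Finset.single_le_sum (f := fun j => |ξ j|) (fun j _ => abs_nonneg _) (Finset.mem_univ i)
  have hw₁ : ∀ i, |(p₁ - π) i| ≤ D := by
    intro i
    have e : (p₁ - π) i = (p₁ i - s i) + ξ i := by
      simp only [hs, Pi.sub_apply, Pi.add_apply]; ring
    rw [e]
    exact (abs_add_le _ _).trans (add_le_add (hb₁ i) (hξle i))
  have hw₂ : ∀ i, |(p₂ - π) i| ≤ D := by
    intro i
    have e : (p₂ - π) i = (p₂ i - s i) + ξ i := by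
      simp only [hs, Pi.sub_apply, Pi.add_apply]; ring
    rw [e]
    exact (abs_add_le _ _).trans (add_le_add (hb₂ i) (hξle i))
  have s₁ := envl_side conv lip hπ hτ hθ hθ1 hDpos hη₂pos.le hL hd (δ • c) hn₁ (p₁ - π) hw₁
    (by rwa [add_sub_cancel])
  have s₂ := envl_side conv lip hπ hτ hθ hθ1 hDpos hη₂pos.le hL hd (-(δ • c)) hn₂ (p₂ - π) hw₂
    (by rwa [add_sub_cancel])
  rw [add_sub_cancel] at s₁ s₂
  rw [← sub_eq_add_neg] at s₂
  -- the second difference at scale `θ * δ`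
  have hsd : κ * (θ * δ) ≤ persp G v (z + θ • (δ • c)) π + persp G v (z + θ • -(δ • c)) π
      - 2 * persp G v z π := by
    have e1 : persp G v (z + θ • (δ • c)) π = π 0 * G (y + (θ * δ / π 0) • c) := by
      simp only [persp, hy]
      congr 2
      rw [add_right_comm, smul_add]
      congr 1
      rw [smul_smul, smul_smul]
      congr 1
      field_simp
    have e2 : persp G v (z + θ • -(δ • c)) π = π 0 * G (y - (θ * δ / π 0) • c) := by
      simp only [persp, hy]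
      congr 2
      rw [add_right_comm, smul_add, sub_eq_add_neg]
      congr 1
      rw [smul_neg, smul_neg, smul_smul, smul_smul]
      congr 2
      field_simp
    have e3 : persp G v z π = π 0 * G y := by simp only [persp, hy]
    rw [e1, e2, e3]
    have h1 : κ * (θ * δ / π 0) ≤ SD G y c (θ * δ / π 0) := hSk
    have h2 := mul_le_mul_of_nonneg_left h1 hπ.le
    have e4 : π 0 * (κ * (θ * δ / π 0)) = κ * (θ * δ) := by field_simp
    rw [e4] at h2
    simp only [SD] at h2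
    linarith
  have hsd' : κ * δ ≤ θ⁻¹ * (persp G v (z + θ • (δ • c)) π - persp G v z π) +
      θ⁻¹ * (persp G v (z + θ • -(δ • c)) π - persp G v z π) := by
    have h1 := mul_le_mul_of_nonneg_left hsd (inv_nonneg.2 hθ.le)
    have e : θ⁻¹ * (κ * (θ * δ)) = κ * δ := by field_simp
    rw [e] at h1
    linarith
  -- the quadratic terms
  have hq : ∀ p : Fin (M + 1) → ℝ,
      nsq ξ / 2 - ∑ i, ξ i * (p - π) i ≤ nsq (p - s) / 2 := by
    intro p
    have e : nsq (p - s) = nsq (p - π) - 2 * ∑ i, ξ i * (p - π) i + nsq ξ := by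
      simp only [nsq, hs, Pi.sub_apply, Pi.add_apply]
      rw [Finset.mul_sum, ← Finset.sum_sub_distrib, ← Finset.sum_add_distrib]
      refine Finset.sum_congr rfl fun i _ => ?_
      ring
    have h1 : 0 ≤ nsq (p - π) := Finset.sum_nonneg fun i _ => sq_nonneg _
    linarith
  have hq₁ := hq p₁
  have hq₂ := hq p₂
  have henv : env G v l₀ z s ≤ persp G v z π + nsq ξ / 2 := by
    have h1 := inf_le z s π hlπ.le
    have e : nsq (π - s) = nsq ξ := by
      simp only [nsq, hs, Pi.sub_apply, Pi.add_apply]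
      refine Finset.sum_congr rfl fun i _ => ?_
      ring
    rwa [e] at h1
  -- the errors
  have er1 : η₂ * ((M + 1) * D) = η / 8 := by
    rw [hη₂]; field_simp
  have er2 : 2 * L * δ * D * θ / τ ≤ η / 8 := by
    rw [div_le_iff₀ hτ]
    have h1 : 2 * L * δ * D * θ ≤ 2 * (L + 1) * δ * D * θ := by
      have : 0 ≤ δ * D * θ := by positivity
      nlinarith
    have h2 : 2 * (L + 1) * δ * D * θ ≤ 2 * (L + 1) * δ * D * (η * τ / (16 * (L + 1) * δ * D)) :=
      mul_le_mul_of_nonneg_left hθ2 (by positivity)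
    have e : 2 * (L + 1) * δ * D * (η * τ / (16 * (L + 1) * δ * D)) = η / 8 * τ := by
      field_simp
      ring
    linarith
  linarith

end Pool.AP
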