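import Pool.Agent.Work.MP_6cbae3_ch.Interface

/-! # Block ENVP: elementary properties of the envelope -/

set_option autoImplicit false

namespace Pool.AP.ENVP18

open Filter Topology Set Pool.AP

variable {m M : ℕ}

/-- the objective function -/
noncomputable def obj (G : Z m → ℝ) (v : Fin M → Z m) (z : Z m)
    (s π : Fin (M + 1) → ℝ) : ℝ := persp G v z π + nsq (π - s) / 2

theorem env_eq (G : Z m → ℝ) (v : Fin M → Z m) (l₀ : ℝ) (z : Z m) (s : Fin (M + 1) → ℝ) :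
    env G v l₀ z s = ⨅ π : {π : Fin (M + 1) → ℝ // l₀ ≤ π 0}, obj G v z s π.1 := rfl

theorem sq_lb (c p s : ℝ) (hc : 0 ≤ c) :
    -(c * |s| + c ^ 2 / 2) ≤ -(c * |p|) + (p - s) ^ 2 / 2 := by
  have h1 : |p| ≤ |s| + |p - s| := by
    have := abs_add_le s (p - s); simpa using this
  have h2 : c * |p| ≤ c * |s| + c * |p - s| := by nlinarith
  have h3 : 0 ≤ (|p - s| - c) ^ 2 := sq_nonneg _
  have h4 : |p - s| ^ 2 = (p - s) ^ 2 := sq_abs _
  nlinarith

theorem bdd (h : Stmt_PCV) {G : Z m → ℝ} {L : ℝ} (v : Fin M → Z m) {l₀ : ℝ} (hG : CL G L)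
    (hl : 0 < l₀) (z : Z m) (s : Fin (M + 1) → ℝ) :
    BddBelow (range fun π : {π : Fin (M + 1) → ℝ // l₀ ≤ π 0} => obj G v z s π.1) := by
  obtain ⟨-, -, h3⟩ := h m M G L v hG
  have hL : 0 ≤ L := hG.1
  refine ⟨-(L * ‖z‖) - (|G 0| * |s 0| + |G 0| ^ 2 / 2) -
    ∑ i : Fin M, (L * ‖v i‖ * |s i.succ| + (L * ‖v i‖) ^ 2 / 2), ?_⟩
  rintro x ⟨π, rfl⟩
  have hp : 0 < π.1 0 := lt_of_lt_of_le hl π.2
  have hb := h3 z π.1 hp
  have e1 : nsq (π.1 - s) = (π.1 0 - s 0) ^ 2 + ∑ i : Fin M, (π.1 i.succ - s i.succ) ^ 2 := by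
    unfold nsq
    rw [Fin.sum_univ_succ]
    simp
  have e2 : ∑ i : Fin M, -(L * ‖v i‖ * |s i.succ| + (L * ‖v i‖) ^ 2 / 2) ≤
      ∑ i : Fin M, (-(L * ‖v i‖ * |π.1 i.succ|) + (π.1 i.succ - s i.succ) ^ 2 / 2) :=
    Finset.sum_le_sum fun i _ => sq_lb _ _ _ (mul_nonneg hL (norm_nonneg _))
  have e3 : -(|G 0| * |s 0| + |G 0| ^ 2 / 2) ≤ -(|G 0| * |π.1 0|) + (π.1 0 - s 0) ^ 2 / 2 :=
    sq_lb _ _ _ (abs_nonneg _)
  rw [abs_of_pos hp] at e3
  have e4 : ∑ i : Fin M, (-(L * ‖v i‖ * |π.1 i.succ|) + (π.1 i.succ - s i.succ) ^ 2 / 2) =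
      -(L * ∑ i : Fin M, |π.1 i.succ| * ‖v i‖) +
        (∑ i : Fin M, (π.1 i.succ - s i.succ) ^ 2) / 2 := by
    rw [Finset.sum_add_distrib, Finset.mul_sum, Finset.sum_div, ← Finset.sum_neg_distrib]
    congr 1
    refine Finset.sum_congr rfl fun i _ => ?_
    ring
  have e5 : ∑ i : Fin M, -(L * ‖v i‖ * |s i.succ| + (L * ‖v i‖) ^ 2 / 2) =
      -∑ i : Fin M, (L * ‖v i‖ * |s i.succ| + (L * ‖v i‖) ^ 2 / 2) := by
    rw [Finset.sum_neg_distrib]
  show _ ≤ obj G v z s π.1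
  unfold obj
  rw [e1]
  linarith

theorem le_obj (h : Stmt_PCV) {G : Z m → ℝ} {L : ℝ} (v : Fin M → Z m) {l₀ : ℝ} (hG : CL G L)
    (hl : 0 < l₀) (z : Z m) (s π : Fin (M + 1) → ℝ) (hp : l₀ ≤ π 0) :
    env G v l₀ z s ≤ obj G v z s π :=
  ciInf_le (bdd h v hG hl z s) (⟨π, hp⟩ : {π : Fin (M + 1) → ℝ // l₀ ≤ π 0})

theorem near (G : Z m → ℝ) (v : Fin M → Z m) (l₀ : ℝ) (z : Z m) (s : Fin (M + 1) → ℝ)
    (η : ℝ) (hη : 0 < η) : ∃ π : Fin (M + 1) → ℝ, l₀ ≤ π 0 ∧ obj G v z s π ≤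
      env G v l₀ z s + η := by
  have : Nonempty {π : Fin (M + 1) → ℝ // l₀ ≤ π 0} := ⟨⟨fun _ => l₀, le_rfl⟩⟩
  obtain ⟨π, hπ⟩ := exists_lt_of_ciInf_lt
    (show (⨅ π : {π : Fin (M + 1) → ℝ // l₀ ≤ π 0}, obj G v z s π.1) < env G v l₀ z s + η by
      rw [← env_eq]; linarith)
  exact ⟨π.1, π.2, hπ.le⟩

theorem nsq_comb {d : ℕ} (x y : Fin d → ℝ) (a b : ℝ) (ha : 0 ≤ a) (hb : 0 ≤ b)
    (hab : a + b = 1) : nsq (a • x + b • y) ≤ a * nsq x + b * nsq y := by
  unfold nsq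
  rw [Finset.mul_sum, Finset.mul_sum, ← Finset.sum_add_distrib]
  refine Finset.sum_le_sum fun i _ => ?_
  simp only [Pi.add_apply, Pi.smul_apply, smul_eq_mul]
  have hb' : b = 1 - a := by linarith
  subst hb'
  nlinarith [mul_nonneg (mul_nonneg ha hb) (sq_nonneg (x i - y i))]

/-- joint convexity of the objective function -/
theorem obj_comb (h : Stmt_PCV) {G : Z m → ℝ} {L : ℝ} (v : Fin M → Z m) (hG : CL G L)
    (z z' : Z m) (s s' π π' : Fin (M + 1) → ℝ) (hp : 0 < π 0) (hp' : 0 < π' 0) (a b : ℝ)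
    (ha : 0 ≤ a) (hb : 0 ≤ b) (hab : a + b = 1) :
    obj G v (a • z + b • z') (a • s + b • s') (a • π + b • π') ≤
      a * obj G v z s π + b * obj G v z' s' π' := by
  obtain ⟨h1, -, -⟩ := h m M G L v hG
  have h2 := h1.2 (show (z, π) ∈ {x : Z m × (Fin (M + 1) → ℝ) | 0 < x.2 0} from hp)
    (show (z', π') ∈ {x : Z m × (Fin (M + 1) → ℝ) | 0 < x.2 0} from hp') ha hb hab
  have h3 : nsq ((a • π + b • π') - (a • s + b • s')) ≤
      a * nsq (π - s) + b * nsq (π' - s') := by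
    have : (a • π + b • π') - (a • s + b • s') = a • (π - s) + b • (π' - s') := by
      simp only [smul_sub]; abel
    rw [this]
    exact nsq_comb _ _ _ _ ha hb hab
  simp only [smul_eq_mul] at h2
  unfold obj
  have h4 : persp G v (a • z + b • z') (a • π + b • π') ≤
      a * persp G v z π + b * persp G v z' π' := h2
  linarith

theorem nsq_aff {d : ℕ} (π s s' : Fin d → ℝ) (a b : ℝ) (hab : a + b = 1) :
    nsq (π - (a • s + b • s')) - nsq (a • s + b • s') =
      a * (nsq (π - s) - nsq s) + b * (nsq (π - s') - nsq s') := by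
  unfold nsq
  rw [← Finset.sum_sub_distrib, ← Finset.sum_sub_distrib, ← Finset.sum_sub_distrib,
    Finset.mul_sum, Finset.mul_sum, ← Finset.sum_add_distrib]
  refine Finset.sum_congr rfl fun i _ => ?_
  simp only [Pi.add_apply, Pi.sub_apply, Pi.smul_apply, smul_eq_mul]
  have hb' : b = 1 - a := by linarith
  subst hb'
  ring

end Pool.AP.ENVP18

namespace Pool.AP

open ENVP18 Set

theorem blk_ENVP (h : Stmt_PCV) : Stmt_ENVP := by
  intro m M G L v l₀ hG hl
  obtain ⟨hc, hlip, hlow⟩ := h m M G L v hG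
  refine ⟨fun z s π hp => le_obj h v hG hl z s π hp, fun z s η hη => near G v l₀ z s η hη,
    ?_, ?_, ?_, ?_⟩
  · intro z k s
    refine le_of_forall_pos_le_add fun η hη => ?_
    obtain ⟨π, hp, hπ⟩ := near G v l₀ (z + k) s (η / 2) (by linarith)
    obtain ⟨π', hp', hπ'⟩ := near G v l₀ (z - k) s (η / 2) (by linarith)
    have h1 := obj_comb h v hG (z + k) (z - k) s s π π' (lt_of_lt_of_le hl hp)
      (lt_of_lt_of_le hl hp') (1 / 2) (1 / 2) (by norm_num) (by norm_num) (by norm_num)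
    have e1 : (1 / 2 : ℝ) • (z + k) + (1 / 2 : ℝ) • (z - k) = z := by
      rw [← smul_add, show z + k + (z - k) = (2 : ℝ) • z by rw [two_smul]; abel, smul_smul]
      norm_num
    have e2 : (1 / 2 : ℝ) • s + (1 / 2 : ℝ) • s = s := by
      rw [← add_smul]; norm_num
    rw [e1, e2] at h1
    have h2 := le_obj h v hG hl z s ((1 / 2 : ℝ) • π + (1 / 2 : ℝ) • π') (by
      simp only [Pi.add_apply, Pi.smul_apply, smul_eq_mul]; linarith)
    linarith
  · intro z z' s
    have key : ∀ z z' : Z m, env G v l₀ z s - env G v l₀ z' s ≤ L * ‖z - z'‖ := by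
      intro z z'
      refine le_of_forall_pos_le_add fun η hη => ?_
      obtain ⟨π, hp, hπ⟩ := near G v l₀ z' s η hη
      have h1 := le_obj h v hG hl z s π hp
      have h2 := (abs_le.1 (hlip z z' π (lt_of_lt_of_le hl hp))).2
      unfold obj at h1 hπ
      linarith
    rw [abs_le]
    refine ⟨?_, key z z'⟩
    have := key z' z
    rw [norm_sub_rev] at this
    linarith
  · intro z
    refine ⟨convex_univ, fun s _ s' _ a b ha hb hab => ?_⟩
    simp only [smul_eq_mul]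
    refine le_of_forall_pos_le_add fun η hη => ?_
    obtain ⟨π, hp, hπ⟩ := near G v l₀ z s η hη
    obtain ⟨π', hp', hπ'⟩ := near G v l₀ z s' η hη
    have h1 := obj_comb h v hG z z s s' π π' (lt_of_lt_of_le hl hp)
      (lt_of_lt_of_le hl hp') a b ha hb hab
    have e1 : a • z + b • z = z := by rw [← add_smul, hab, one_smul]
    rw [e1] at h1
    have h2 := le_obj h v hG hl z (a • s + b • s') (a • π + b • π') (by
      simp only [Pi.add_apply, Pi.smul_apply, smul_eq_mul]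
      have hb' : b = 1 - a := by linarith
      subst hb'
      nlinarith)
    have h3 := mul_le_mul_of_nonneg_left hπ ha
    have h4 := mul_le_mul_of_nonneg_left hπ' hb
    have h5 : a * η + b * η = η := by rw [← add_mul, hab, one_mul]
    linarith
  · intro z
    refine ⟨convex_univ, fun s _ s' _ a b ha hb hab => ?_⟩
    simp only [smul_eq_mul]
    refine le_of_forall_pos_le_add fun η hη => ?_
    obtain ⟨π, hp, hπ⟩ := near G v l₀ z (a • s + b • s') η hη
    have h1 := le_obj h v hG hl z s π hp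
    have h2 := le_obj h v hG hl z s' π hp
    have h3 := nsq_aff π s s' a b hab
    have h4 := mul_le_mul_of_nonneg_left h1 ha
    have h5 := mul_le_mul_of_nonneg_left h2 hb
    unfold obj at h4 h5 hπ
    have h6 : a * persp G v z π + b * persp G v z π = persp G v z π := by
      rw [← add_mul, hab, one_mul]
    have h7 : a * (persp G v z π + nsq (π - s) / 2) = a * persp G v z π + a * nsq (π - s) / 2 := by
      ring
    have h8 : b * (persp G v z π + nsq (π - s') / 2) =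
        b * persp G v z π + b * nsq (π - s') / 2 := by ring
    rw [h7] at h4
    rw [h8] at h5
    nlinarith

end Pool.AP
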