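import Pool.Agent.Work.MP_6cbae3_ch.Basic

/-! # MP_6cbae3_an: block EXPO (helper98)

The points of a separated set in a small cylinder can be exposed one at a time by a small tilt. -/

set_option autoImplicit false

namespace Pool.AP

open Filter Topology Set

namespace EXPO

/-- gluing two continuous functions along a cylinder -/
theorem exists_glue (q : K) (k : ℕ) (g x : X) :
    ∃ y : X, (∀ p ∈ cyl q k, y p = g p) ∧ ∀ p, p ∉ cyl q k → y p = x p := by
  refine ⟨cylf q k * g + (1 - cylf q k) * x, fun p hp => ?_, fun p hp => ?_⟩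
  · simp [cylf_of_mem hp]
  · simp [cylf_of_notMem hp]

theorem eval_tilt {M : ℕ} (w : Fin M → X) (x h f : X) (a β : ℝ) (θ : Fin M → ℝ) (p : K) :
    (a • (x + h) + ∑ i, θ i • w i + β • f) p =
      a * (x p + h p) + ∑ i, θ i * w i p + β * f p := by
  simp [ContinuousMap.sum_apply, mul_add]

theorem exists_small (S T U ρ : ℝ) (hS : 0 ≤ S) (hT : 0 ≤ T) (hU : 0 ≤ U) (hρ : 0 < ρ) :
    ∃ e : ℝ, 0 < e ∧ e ≤ 1 / 3 ∧ e * (8 * (S + 1)) ≤ ρ ∧ e * (2 * (T + 1)) ≤ ρ ∧
      e * (2 * (U + 2)) ≤ ρ := by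
  have hD : 0 < 3 + 8 * (S + 1) + 2 * (T + 1) + 2 * (U + 2) := by positivity
  have hm : 0 < min 1 ρ := lt_min one_pos hρ
  have h1 : min 1 ρ ≤ 1 := min_le_left _ _
  have h2 : min 1 ρ ≤ ρ := min_le_right _ _
  have key : ∀ Y : ℝ, 0 ≤ Y → Y ≤ 3 + 8 * (S + 1) + 2 * (T + 1) + 2 * (U + 2) →
      min 1 ρ / (3 + 8 * (S + 1) + 2 * (T + 1) + 2 * (U + 2)) * Y ≤ min 1 ρ := by
    intro Y hY0 hY
    rw [div_mul_eq_mul_div, div_le_iff₀ hD]
    exact mul_le_mul_of_nonneg_left hY hm.le
  refine ⟨min 1 ρ / (3 + 8 * (S + 1) + 2 * (T + 1) + 2 * (U + 2)), div_pos hm hD, ?_,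
    (key _ (by positivity) (by linarith)).trans h2,
    (key _ (by positivity) (by linarith)).trans h2,
    (key _ (by positivity) (by linarith)).trans h2⟩
  have := key 3 (by norm_num) (by linarith)
  linarith

/-- one function outside the cylinder -/
theorem aux_out (f : X) (p p' q₀ : K) (h : |f p - f q₀| ≤ 1) :
    -(2 * ‖f‖) ≤ -(f p - f q₀) ^ 2 / 2 + (f p - f q₀) * (f p - f p') := by
  have h1 := f.norm_coe_le_norm p'
  have h2 := f.norm_coe_le_norm q₀
  rw [Real.norm_eq_abs] at h1 h2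
  have h3 : |f p' - f q₀| ≤ 2 * ‖f‖ := (abs_sub _ _).trans (by linarith)
  have h4 : |(f p - f q₀) * (f p' - f q₀)| ≤ 2 * ‖f‖ := by
    rw [abs_mul]
    calc |f p - f q₀| * |f p' - f q₀| ≤ 1 * (2 * ‖f‖) :=
          mul_le_mul h h3 (abs_nonneg _) zero_le_one
      _ = 2 * ‖f‖ := one_mul _
  have h5 := (abs_le.1 h4).2
  nlinarith [sq_nonneg (f p - f q₀)]

end EXPO

open EXPO

theorem blk_EXPO : Stmt_EXPO := by
  intro M w b c x₀ t₀ ρ hρ
  obtain ⟨q₀, hq₀⟩ : ∃ q₀, q₀ = loc b c x₀ t₀ := ⟨_, rfl⟩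
  have hmax : ∀ p, x₀ p + t₀ * b p + c p ≤ x₀ q₀ + t₀ * b q₀ + c q₀ := by
    intro p
    rw [hq₀]
    exact loc_spec b c x₀ t₀ p
  obtain ⟨k₁, hk₁⟩ := osc_list ((x₀ + t₀ • b + c) :: ([b, c] ++ List.ofFn w))
    (ε := min 1 (ρ / 4)) (lt_min one_pos (by linarith))
  have hosc : ∀ f ∈ [b, c] ++ List.ofFn w, ∀ p ∈ cyl q₀ k₁, |f p - f q₀| ≤ 1 := by
    intro f hf p hp
    exact ((hk₁ f (List.mem_cons_of_mem _ hf) q₀ p hp).trans_le (min_le_left _ _)).le
  have hob : ∀ p ∈ cyl q₀ k₁, |b p - b q₀| ≤ 1 := hosc b (by simp)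
  have hoc : ∀ p ∈ cyl q₀ k₁, |c p - c q₀| ≤ 1 := hosc c (by simp)
  have how : ∀ i, ∀ p ∈ cyl q₀ k₁, |w i p - w i q₀| ≤ 1 := fun i => hosc (w i) (by simp)
  have hoF : ∀ p ∈ cyl q₀ k₁,
      |(x₀ p + t₀ * b p + c p) - (x₀ q₀ + t₀ * b q₀ + c q₀)| ≤ ρ / 4 := by
    intro p hp
    have := (hk₁ (x₀ + t₀ • b + c) List.mem_cons_self q₀ p hp).trans_le (min_le_right _ _)
    simpa using this.le
  have hSn : 0 ≤ ∑ i, ‖w i‖ := Finset.sum_nonneg fun i _ => norm_nonneg _
  obtain ⟨e, he, he1, he2, he3, he4⟩ := exists_small (‖b‖ + ‖c‖ + ∑ i, ‖w i‖) |t₀| M ρ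
    (by positivity) (abs_nonneg _) (Nat.cast_nonneg _) hρ
  obtain ⟨x₁, hx₁, hx₁'⟩ := exists_glue q₀ k₁
    ⟨fun p => (x₀ q₀ + t₀ * b q₀ + c q₀) + ρ / 4 - t₀ * b p - c p -
      e / 2 * ((b p - b q₀) ^ 2 + (c p - c q₀) ^ 2 + ∑ i, (w i p - w i q₀) ^ 2),
      by fun_prop⟩ x₀
  simp only [ContinuousMap.coe_mk] at hx₁
  have sqle : ∀ r : ℝ, |r| ≤ 1 → r ^ 2 ≤ 1 := by
    intro r hr
    rw [← sq_abs]
    exact pow_le_one₀ (abs_nonneg _) hr
  refine ⟨q₀, k₁, e / 8, x₁, by positivity, ?_, ?_⟩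
  · -- the distance of x₁ and x₀
    rw [ContinuousMap.norm_le _ hρ.le]
    intro p
    rw [ContinuousMap.sub_apply, Real.norm_eq_abs]
    by_cases hp : p ∈ cyl q₀ k₁
    · rw [hx₁ p hp]
      have h1 := hoF p hp
      have h2 := sqle _ (hob p hp)
      have h3 := sqle _ (hoc p hp)
      have h4 : ∑ i, (w i p - w i q₀) ^ 2 ≤ M := by
        calc ∑ i, (w i p - w i q₀) ^ 2 ≤ ∑ _i : Fin M, (1 : ℝ) :=
              Finset.sum_le_sum fun i _ => sqle _ (how i p hp)
          _ = M := by simp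
      have h5 : 0 ≤ ∑ i, (w i p - w i q₀) ^ 2 := Finset.sum_nonneg fun i _ => sq_nonneg _
      have h6 : e / 2 * ((b p - b q₀) ^ 2 + (c p - c q₀) ^ 2 + ∑ i, (w i p - w i q₀) ^ 2) ≤
          ρ / 4 := by
        calc _ ≤ e / 2 * (1 + 1 + M) := by gcongr
          _ ≤ ρ / 4 := by linarith
      have h7 : 0 ≤ e / 2 *
          ((b p - b q₀) ^ 2 + (c p - c q₀) ^ 2 + ∑ i, (w i p - w i q₀) ^ 2) := by positivity
      rw [abs_le] at h1 ⊢
      constructor <;> linarith [h1.1, h1.2]
    · rw [hx₁' p hp, sub_self, abs_zero]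
      exact hρ.le
  · intro Q s hs hQ hsep
    obtain ⟨N₁, hN₁⟩ := osc_list ([b, c] ++ List.ofFn w) (ε := s / 2) (by positivity)
    have hN : ∀ f ∈ [b, c] ++ List.ofFn w, ∀ q, ∀ p ∈ cyl q (max k₁ N₁), |f p - f q| < s / 2 :=
      fun f hf q p hp => hN₁ f hf q p (cyl_anti (le_max_right _ _) hp)
    have hsub : ∀ q ∈ Q, ∀ p ∈ cyl q (max k₁ N₁), p ∈ cyl q₀ k₁ := by
      intro q hq p hp
      have h1 := cyl_anti (le_max_left k₁ N₁) hp
      rwa [cyl_eq_of_mem (hQ q hq)] at h1
    have hdisj : ∀ p ∈ Q, ∀ p' ∈ Q, p ≠ p' →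
        Disjoint (cyl p (max k₁ N₁)) (cyl p' (max k₁ N₁)) := by
      intro p hp p' hp' hne
      rw [Set.disjoint_left]
      intro r hr hr'
      obtain ⟨f, hf, hfs⟩ := hsep p hp p' hp' hne
      have h1 := hN f hf p r hr
      have h2 := hN f hf p' r hr'
      rw [abs_lt] at h1 h2
      have h3 : |f p - f p'| < s := by
        rw [abs_lt]; constructor <;> linarith [h1.1, h1.2, h2.1, h2.2]
      linarith
    refine ⟨max k₁ N₁, hdisj, ?_⟩
    generalize max k₁ N₁ = N at hN hsub hdisj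
    intro β hβ p hp
    have hpO := hQ p hp
    -- the tilt
    have hγ : |e * (c p - c q₀)| ≤ e := by
      rw [abs_mul, abs_of_pos he]
      calc e * |c p - c q₀| ≤ e * 1 := mul_le_mul_of_nonneg_left (hoc p hpO) he.le
        _ = e := mul_one e
    obtain ⟨γ, hγd⟩ : ∃ γ, γ = e * (c p - c q₀) := ⟨_, rfl⟩
    rw [← hγd] at hγ
    obtain ⟨l, hl⟩ : ∃ l, l = (1 + γ)⁻¹ := ⟨_, rfl⟩
    have hγ' := abs_le.1 hγ
    have h1γ : 0 < 1 + γ := by linarith [hγ'.1]
    have hl0 : 0 < l := by rw [hl]; exact inv_pos.2 h1γ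
    have hl1 : l * (1 + γ) = 1 := by rw [hl]; exact inv_mul_cancel₀ h1γ.ne'
    have hl2 : l ≤ 3 / 2 := by nlinarith [hγ'.1]
    have hσ : |l - 1| ≤ 3 / 2 * e := by
      rw [show l - 1 = -(l * γ) by linarith, abs_neg, abs_mul, abs_of_pos hl0]
      exact mul_le_mul hl2 hγ (abs_nonneg _) (by norm_num)
    have heρ : e * 2 ≤ ρ := by
      have h1 : 0 ≤ e * |t₀| := by positivity
      linarith
    refine ⟨l - 1, l * (t₀ + e * (b p - b q₀)), fun i => l * (e * (w i p - w i q₀)), ?_, ?_, ?_,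
      ?_, ?_⟩
    · linarith
    · linarith
    · rw [show l * (t₀ + e * (b p - b q₀)) - t₀ = (l - 1) * t₀ + l * (e * (b p - b q₀)) by ring]
      have h1 : |(l - 1) * t₀| ≤ 3 / 2 * e * |t₀| := by
        rw [abs_mul]
        exact mul_le_mul_of_nonneg_right hσ (abs_nonneg _)
      have h2 : |l * (e * (b p - b q₀))| ≤ 3 / 2 * (e * 1) := by
        rw [abs_mul, abs_mul, abs_of_pos hl0, abs_of_pos he]
        exact mul_le_mul hl2 (mul_le_mul_of_nonneg_left (hob p hpO) he.le) (by positivity)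
          (by norm_num)
      calc |(l - 1) * t₀ + l * (e * (b p - b q₀))| ≤
            |(l - 1) * t₀| + |l * (e * (b p - b q₀))| := abs_add_le _ _
        _ ≤ 3 / 2 * e * |t₀| + 3 / 2 * (e * 1) := add_le_add h1 h2
        _ ≤ ρ := by nlinarith [abs_nonneg t₀]
    · intro i
      have h2 : |l * (e * (w i p - w i q₀))| ≤ 3 / 2 * (e * 1) := by
        rw [abs_mul, abs_mul, abs_of_pos hl0, abs_of_pos he]
        exact mul_le_mul hl2 (mul_le_mul_of_nonneg_left (how i p hpO) he.le) (by positivity)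
          (by norm_num)
      exact h2.trans (by linarith)
    · intro h hh hhs p' hp'
      rw [eval_tilt, eval_tilt, cylf_of_notMem hp', cylf_of_mem (mem_cyl_self p N)]
      have hhp : h p = 0 := by
        by_contra hne
        obtain ⟨p'', hp'', hne', hmem⟩ := hhs p hne
        exact Set.disjoint_left.1 (hdisj p'' hp'' p hp hne') hmem (mem_cyl_self p N)
      rw [hhp, show (1 : ℝ) + (l - 1) = l by ring]
      have hθ : ∑ i, l * (e * (w i p - w i q₀)) * w i p -
          ∑ i, l * (e * (w i p - w i q₀)) * w i p' =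
          l * (e * ∑ i, (w i p - w i q₀) * (w i p - w i p')) := by
        rw [← Finset.sum_sub_distrib, Finset.mul_sum, Finset.mul_sum]
        exact Finset.sum_congr rfl fun i _ => by ring
      by_cases hO : p' ∈ cyl q₀ k₁
      · -- inside the cylinder
        have hs1 : ∑ i, (w i p' - w i q₀) ^ 2 - ∑ i, (w i p - w i q₀) ^ 2 +
            2 * ∑ i, (w i p - w i q₀) * (w i p - w i p') = ∑ i, (w i p' - w i p) ^ 2 := by
          rw [Finset.mul_sum, ← Finset.sum_sub_distrib, ← Finset.sum_add_distrib]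
          exact Finset.sum_congr rfl fun i _ => by ring
        have hh' : h p' ≤ e / 2 * ((b p' - b p) ^ 2 + (c p' - c p) ^ 2 +
            ∑ i, (w i p' - w i p) ^ 2) := by
          by_cases hz : h p' = 0
          · rw [hz]
            have h5 : 0 ≤ ∑ i, (w i p' - w i p) ^ 2 := Finset.sum_nonneg fun i _ => sq_nonneg _
            positivity
          · obtain ⟨p'', hp'', hne, hmem⟩ := hhs p' hz
            obtain ⟨f, hf, hfs⟩ := hsep p'' hp'' p hp hne
            have h1 := hN f hf p'' p' hmem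
            have h2 : s / 2 < |f p' - f p| := by
              have h3 : |f p'' - f p| ≤ |f p' - f p''| + |f p' - f p| := by
                rw [abs_sub_comm (f p') (f p'')]
                calc |f p'' - f p| = |(f p'' - f p') + (f p' - f p)| := by
                      rw [sub_add_sub_cancel]
                  _ ≤ _ := abs_add_le _ _
              linarith
            have h3 : (s / 2) ^ 2 ≤ (f p' - f p) ^ 2 := by
              rw [← sq_abs (f p' - f p)]
              exact pow_le_pow_left₀ (by positivity) h2.le 2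
            have h4 : (f p' - f p) ^ 2 ≤ (b p' - b p) ^ 2 + (c p' - c p) ^ 2 +
                ∑ i, (w i p' - w i p) ^ 2 := by
              have h5 : 0 ≤ ∑ i, (w i p' - w i p) ^ 2 :=
                Finset.sum_nonneg fun i _ => sq_nonneg _
              rw [List.mem_append, List.mem_ofFn] at hf
              rcases hf with hf | ⟨i, rfl⟩
              · rw [List.mem_cons, List.mem_singleton] at hf
                rcases hf with rfl | rfl
                · nlinarith [sq_nonneg (c p' - c p)]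
                · nlinarith [sq_nonneg (b p' - b p)]
              · have h6 : (w i p' - w i p) ^ 2 ≤ ∑ i, (w i p' - w i p) ^ 2 :=
                  Finset.single_le_sum (f := fun i => (w i p' - w i p) ^ 2)
                    (fun i _ => sq_nonneg _) (Finset.mem_univ i)
                nlinarith [sq_nonneg (c p' - c p), sq_nonneg (b p' - b p)]
            have h7 : h p' ≤ e / 8 * s ^ 2 := (le_abs_self _).trans (hh p')
            have h8 : e / 2 * (s / 2) ^ 2 ≤ e / 2 * ((b p' - b p) ^ 2 + (c p' - c p) ^ 2 +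
                ∑ i, (w i p' - w i p) ^ 2) :=
              mul_le_mul_of_nonneg_left (h3.trans h4) (by positivity)
            nlinarith
        have hlh := mul_le_mul_of_nonneg_left hh' hl0.le
        rw [hx₁ p hpO, hx₁ p' hO]
        have hcc : l * γ * (c p - c p') = (1 - l) * (c p - c p') := by
          have : l * γ = 1 - l := by linarith
          rw [this]
        rw [hγd] at hcc
        generalize ∑ i, l * (e * (w i p - w i q₀)) * w i p = S1 at hθ ⊢
        generalize ∑ i, l * (e * (w i p - w i q₀)) * w i p' = S2 at hθ ⊢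
        generalize ∑ i, (w i p - w i q₀) * (w i p - w i p') = S3 at hθ hs1
        generalize ∑ i, (w i p' - w i q₀) ^ 2 = S4 at hs1 ⊢
        generalize ∑ i, (w i p - w i q₀) ^ 2 = S5 at hs1 ⊢
        generalize ∑ i, (w i p' - w i p) ^ 2 = S6 at hs1 hlh
        subst hs1
        have hS1 : S1 = S2 + l * (e * S3) := by linarith
        subst hS1
        linear_combination hlh + hcc
      · -- outside the cylinder
        have hhp' : h p' = 0 := by
          by_contra hne
          obtain ⟨p'', hp'', -, hmem⟩ := hhs p' hne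
          exact hO (hsub p'' hp'' p' hmem)
        rw [hx₁ p hpO, hx₁' p' hO, hhp']
        have h1 := aux_out b p p' q₀ (hob p hpO)
        have h2 := aux_out c p p' q₀ (hoc p hpO)
        have h3 : -(2 * ∑ i, ‖w i‖) ≤ -(∑ i, (w i p - w i q₀) ^ 2) / 2 +
            ∑ i, (w i p - w i q₀) * (w i p - w i p') := by
          have h4 : ∑ i, -(2 * ‖w i‖) ≤ ∑ i, (-(w i p - w i q₀) ^ 2 / 2 +
              (w i p - w i q₀) * (w i p - w i p')) :=
            Finset.sum_le_sum fun i _ => aux_out (w i) p p' q₀ (how i p hpO)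
          rw [Finset.sum_add_distrib, ← Finset.sum_div, Finset.sum_neg_distrib,
            Finset.sum_neg_distrib, ← Finset.mul_sum] at h4
          exact h4
        have h5 := hmax p'
        have hcc : l * γ * (c p - c p') = (1 - l) * (c p - c p') := by
          have : l * γ = 1 - l := by linarith
          rw [this]
        rw [hγd] at hcc
        generalize ∑ i, l * (e * (w i p - w i q₀)) * w i p = S1 at hθ ⊢
        generalize ∑ i, l * (e * (w i p - w i q₀)) * w i p' = S2 at hθ ⊢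
        generalize ∑ i, (w i p - w i q₀) * (w i p - w i p') = S3 at hθ h3
        generalize ∑ i, (w i p - w i q₀) ^ 2 = S5 at h3 ⊢
        have hS1 : S1 = S2 + l * (e * S3) := by linarith
        subst hS1
        have h6 : 0 ≤ (x₀ q₀ + t₀ * b q₀ + c q₀) + ρ / 4 - (x₀ p' + t₀ * b p' + c p') +
            e * ((-(b p - b q₀) ^ 2 / 2 + (b p - b q₀) * (b p - b p')) +
              (-(c p - c q₀) ^ 2 / 2 + (c p - c q₀) * (c p - c p')) +
              (-S5 / 2 + S3)) := by
          have h7 : e * (-(2 * ‖b‖) + -(2 * ‖c‖) + -(2 * ∑ i, ‖w i‖)) ≤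
            e * ((-(b p - b q₀) ^ 2 / 2 + (b p - b q₀) * (b p - b p')) +
              (-(c p - c q₀) ^ 2 / 2 + (c p - c q₀) * (c p - c p')) +
              (-S5 / 2 + S3)) :=
            mul_le_mul_of_nonneg_left (add_le_add (add_le_add h1 h2) h3) he.le
          nlinarith
        have h8 := mul_nonneg hl0.le h6
        linear_combination h8 + hcc

end Pool.AP
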