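import Pool.Agent.Work.MP_6cbae3_ch.Interface

/-! # Block EXTN (helper41): local extension of convex functions -/

set_option autoImplicit false

namespace Pool.AP

open Filter Topology Set

namespace EXTN41

variable {A : Type} [LinearOrder A] (D : Data A)

theorem pr_add {m : ℕ} (I : Fin m → A) (x y : D.E) : D.pr I (x + y) = D.pr I x + D.pr I y := rfl

theorem pr_sub {m : ℕ} (I : Fin m → A) (x y : D.E) : D.pr I (x - y) = D.pr I x - D.pr I y := rfl

theorem pr_smul {m : ℕ} (I : Fin m → A) (a : ℝ) (x : D.E) : D.pr I (a • x) = a • D.pr I x := rfl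

theorem continuous_pr {m : ℕ} (I : Fin m → A) : Continuous (D.pr I) := by
  unfold Data.pr
  refine Continuous.prodMk (continuous_fst.comp continuous_subtype_val) ?_
  refine continuous_pi fun i => ?_
  exact (continuous_apply (I i)).comp (continuous_snd.comp continuous_subtype_val)

/-- a neighbourhood of `x₀` contains a ball for one of the seminorms -/
theorem exists_ball (x₀ : D.E) (V : Set D.E) (hV : V ∈ 𝓝 x₀) :
    ∃ (m : ℕ) (I : Fin m → A) (r : ℝ), Function.Injective I ∧ 0 < r ∧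
      ∀ x, ‖D.pr I x - D.pr I x₀‖ < r → x ∈ V := by
  classical
  rw [nhds_subtype_eq_comap, Filter.mem_comap] at hV
  obtain ⟨U, hU, hUV⟩ := hV
  rw [nhds_prod_eq, Filter.mem_prod_iff] at hU
  obtain ⟨U1, hU1, U2, hU2, hU12⟩ := hU
  rw [nhds_pi, Filter.mem_pi] at hU2
  obtain ⟨F, hF, t, ht, htU⟩ := hU2
  obtain ⟨r1, hr1, hb1⟩ := Metric.mem_nhds_iff.1 hU1
  have h2 : ∀ i, ∃ r > 0, Metric.ball (x₀.1.2 i) r ⊆ t i := fun i => Metric.mem_nhds_iff.1 (ht i)
  choose ρ hρ hbρ using h2
  obtain ⟨m, I, hI, hIF⟩ : ∃ (m : ℕ) (I : Fin m → A), Function.Injective I ∧ ∀ a ∈ F, ∃ i, I i = a := by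
    refine ⟨hF.toFinset.card, fun i => (hF.toFinset.equivFin.symm i).1, ?_, ?_⟩
    · intro i j hij
      have := Subtype.ext hij
      exact hF.toFinset.equivFin.symm.injective this
    · intro a ha
      refine ⟨hF.toFinset.equivFin ⟨a, hF.mem_toFinset.2 ha⟩, ?_⟩
      simp
  obtain ⟨r, hr, hrr⟩ : ∃ r > 0, r ≤ r1 ∧ ∀ i : Fin m, r ≤ ρ (I i) := by
    have hne : (insert r1 (Finset.univ.image fun i => ρ (I i))).Nonempty :=
      ⟨r1, Finset.mem_insert_self _ _⟩
    refine ⟨(insert r1 (Finset.univ.image fun i => ρ (I i))).min' hne, ?_, ?_, ?_⟩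
    · rw [gt_iff_lt, Finset.lt_min'_iff]
      intro y hy
      rw [Finset.mem_insert, Finset.mem_image] at hy
      rcases hy with rfl | ⟨i, -, rfl⟩
      · exact hr1
      · exact hρ _
    · exact Finset.min'_le _ _ (Finset.mem_insert_self _ _)
    · intro i
      exact Finset.min'_le _ _ (Finset.mem_insert_of_mem (Finset.mem_image_of_mem _ (Finset.mem_univ i)))
  refine ⟨m, I, r, hI, hr, ?_⟩
  intro x hx
  apply hUV
  apply hU12
  have hx1 : ‖x.1.1 - x₀.1.1‖ < r := lt_of_le_of_lt (norm_fst_le (D.pr I x - D.pr I x₀)) hx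
  have hx2 : ‖(fun i => x.1.2 (I i)) - fun i => x₀.1.2 (I i)‖ < r :=
    lt_of_le_of_lt (norm_snd_le (D.pr I x - D.pr I x₀)) hx
  rw [pi_norm_lt_iff hr] at hx2
  refine ⟨hb1 ?_, htU ?_⟩
  · rw [Metric.mem_ball, dist_eq_norm]
    exact lt_of_lt_of_le hx1 hrr.1
  · intro a ha
    obtain ⟨i, rfl⟩ := hIF a ha
    apply hbρ
    rw [Metric.mem_ball, dist_eq_norm]
    exact lt_of_lt_of_le (hx2 i) (hrr.2 i)

end EXTN41

open EXTN41 in
/-- **Block EXTN.** -/
theorem blk_EXTN : Stmt_EXTN := by
  intro A _ D S f hS hf hc x₀ hx₀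
  have hfc : ContinuousAt f x₀ := hc.continuousAt (hS.mem_nhds hx₀)
  have hV : S ∩ {x | |f x - f x₀| < 1} ∈ 𝓝 x₀ := by
    refine Filter.inter_mem (hS.mem_nhds hx₀) ?_
    have := Metric.tendsto_nhds.1 hfc 1 one_pos
    filter_upwards [this] with x hx
    rwa [Real.dist_eq] at hx
  obtain ⟨m, I, r, hI, hr, hB⟩ := exists_ball D x₀ _ hV
  set p : D.E → ℝ := fun x => ‖D.pr I x‖ with hp
  have hpsub : ∀ x y, ‖D.pr I x - D.pr I y‖ = p (x - y) := fun x y => rfl
  -- the Lipschitz estimate
  have lip : ∀ x y, p (x - x₀) < r / 2 → p (y - x₀) < r / 2 → f y - f x ≤ 4 / r * p (y - x) := by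
    intro x y hx hy
    have key : ∀ s, p (y - x) < s → f y - f x ≤ 4 / r * s := by
      intro s hs
      have hs0 : 0 < s := lt_of_le_of_lt (norm_nonneg _) hs
      have hxB : x ∈ S ∩ {x | |f x - f x₀| < 1} := hB x (by
        show p (x - x₀) < r
        linarith)
      have hyB : y ∈ S ∩ {x | |f x - f x₀| < 1} := hB y (by
        show p (y - x₀) < r
        linarith)
      set z : D.E := y + (r / (2 * s)) • (y - x) with hz
      have hzB : z ∈ S ∩ {x | |f x - f x₀| < 1} := hB z (by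
        have h1 : D.pr I z - D.pr I x₀ = D.pr I (y - x₀) + (r / (2 * s)) • D.pr I (y - x) := by
          rw [hz, pr_add, pr_smul, pr_sub, pr_sub]; abel
        rw [h1]
        refine lt_of_le_of_lt (norm_add_le _ _) ?_
        rw [norm_smul, Real.norm_of_nonneg (by positivity)]
        have h2 : r / (2 * s) * ‖D.pr I (y - x)‖ ≤ r / 2 := by
          have : r / (2 * s) * ‖D.pr I (y - x)‖ ≤ r / (2 * s) * s :=
            mul_le_mul_of_nonneg_left hs.le (by positivity)
          refine this.trans (le_of_eq ?_)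
          field_simp
        have h3 : ‖D.pr I (y - x₀)‖ < r / 2 := hy
        linarith)
      have hden : 0 < 2 * s + r := by positivity
      have hy' : y = (2 * s / (2 * s + r)) • z + (r / (2 * s + r)) • x := by
        have e1 : (2 * s / (2 * s + r)) * (r / (2 * s)) = r / (2 * s + r) := by
          field_simp
        have e2 : (2 * s / (2 * s + r)) + r / (2 * s + r) = 1 := by
          field_simp
        rw [hz, smul_add, smul_smul, e1, smul_sub]
        calc y = ((2 * s / (2 * s + r)) + r / (2 * s + r)) • y := by rw [e2, one_smul]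
          _ = _ := by rw [add_smul]; abel
      have hconv := hf.2 hzB.1 hxB.1 (show 0 ≤ 2 * s / (2 * s + r) by positivity)
        (show 0 ≤ r / (2 * s + r) by positivity)
        (show 2 * s / (2 * s + r) + r / (2 * s + r) = 1 by field_simp)
      rw [← hy'] at hconv
      simp only [smul_eq_mul] at hconv
      have hzx : f z - f x ≤ 2 := by
        have h01 : |f z - f x₀| < 1 := hzB.2
        have h02 : |f x - f x₀| < 1 := hxB.2
        have h1 := (abs_lt.1 h01).2
        have h2 := (abs_lt.1 h02).1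
        linarith
      have h3 : f y - f x ≤ 2 * s / (2 * s + r) * (f z - f x) := by
        have e3 : r / (2 * s + r) = 1 - 2 * s / (2 * s + r) := by field_simp; ring
        rw [e3] at hconv
        linarith
      have h4 : 2 * s / (2 * s + r) * (f z - f x) ≤ 2 * s / (2 * s + r) * 2 :=
        mul_le_mul_of_nonneg_left hzx (by positivity)
      have h5 : 2 * s / (2 * s + r) * 2 ≤ 4 / r * s := by
        rw [div_mul_eq_mul_div, div_mul_eq_mul_div, div_le_div_iff₀ hden hr]
        nlinarith [mul_pos hs0 hs0]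
      linarith
    refine le_of_forall_pos_le_add fun ε hε => ?_
    have hre : 0 < ε * r / 4 := by positivity
    have := key (p (y - x) + ε * r / 4) (by linarith)
    have e : 4 / r * (p (y - x) + ε * r / 4) = 4 / r * p (y - x) + ε := by
      field_simp
    linarith
  set L : ℝ := 4 / r with hL
  have hL0 : 0 ≤ L := by positivity
  set W : Set D.E := {x | ‖D.pr I x - D.pr I x₀‖ < r / 2} with hW
  have hWS : ∀ x ∈ W, x ∈ S ∩ {x | |f x - f x₀| < 1} := fun x hx => hB x (by
    have : ‖D.pr I x - D.pr I x₀‖ < r / 2 := hx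
    linarith)
  have hWx : x₀ ∈ W := by
    show ‖D.pr I x₀ - D.pr I x₀‖ < r / 2
    rw [sub_self, norm_zero]; positivity
  have hne : Nonempty W := ⟨⟨x₀, hWx⟩⟩
  set G : Z m → ℝ := fun z => ⨅ y : W, (f y + L * ‖z - D.pr I y‖) with hG
  have hbdd : ∀ z, BddBelow (Set.range fun y : W => f y + L * ‖z - D.pr I y‖) := by
    intro z
    refine ⟨f x₀ - 1, ?_⟩
    rintro _ ⟨y, rfl⟩
    have h0 : |f y.1 - f x₀| < 1 := (hWS y.1 y.2).2
    have h1 := (abs_lt.1 h0).1
    have h2 : 0 ≤ L * ‖z - D.pr I y‖ := by positivity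
    show f x₀ - 1 ≤ f y + L * ‖z - D.pr I y‖
    linarith
  have hGle : ∀ z, ∀ y : W, G z ≤ f y + L * ‖z - D.pr I y‖ := fun z y => ciInf_le (hbdd z) y
  have hlip : ∀ z z', G z ≤ G z' + L * ‖z - z'‖ := by
    intro z z'
    rw [← sub_le_iff_le_add]
    refine le_ciInf fun y => ?_
    have h1 := hGle z y
    have h2 : ‖z - D.pr I y‖ ≤ ‖z - z'‖ + ‖z' - D.pr I y‖ := norm_sub_le_norm_sub_add_norm_sub _ _ _
    have h3 := mul_le_mul_of_nonneg_left h2 hL0
    rw [mul_add] at h3
    linarith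
  refine ⟨m, I, G, L, W, hI, ⟨hL0, ?_, ?_⟩, ?_, hWx, fun x hx => (hWS x hx).1, ?_⟩
  · -- convexity
    refine ⟨convex_univ, ?_⟩
    intro z _ z' _ a b ha hb hab
    simp only [smul_eq_mul]
    refine le_of_forall_pos_le_add fun ε hε => ?_
    obtain ⟨y, hy⟩ := exists_lt_of_ciInf_lt (show G z < G z + ε by linarith)
    obtain ⟨y', hy'⟩ := exists_lt_of_ciInf_lt (show G z' < G z' + ε by linarith)
    have hmem : a • y.1 + b • y'.1 ∈ W := by
      show ‖D.pr I (a • y.1 + b • y'.1) - D.pr I x₀‖ < r / 2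
      have h1 : D.pr I (a • y.1 + b • y'.1) - D.pr I x₀ =
          a • (D.pr I y.1 - D.pr I x₀) + b • (D.pr I y'.1 - D.pr I x₀) := by
        rw [pr_add, pr_smul, pr_smul, smul_sub, smul_sub]
        have : D.pr I x₀ = a • D.pr I x₀ + b • D.pr I x₀ := by rw [← add_smul, hab, one_smul]
        nth_rewrite 1 [this]
        abel
      rw [h1]
      refine lt_of_le_of_lt (norm_add_le _ _) ?_
      rw [norm_smul, norm_smul, Real.norm_of_nonneg ha, Real.norm_of_nonneg hb]
      have h2 : ‖D.pr I y.1 - D.pr I x₀‖ < r / 2 := y.2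
      have h3 : ‖D.pr I y'.1 - D.pr I x₀‖ < r / 2 := y'.2
      rcases ha.eq_or_lt with rfl | ha'
      · have hb1 : b = 1 := by linarith
        subst hb1
        linarith
      · have h4 : a * ‖D.pr I y.1 - D.pr I x₀‖ < a * (r / 2) := mul_lt_mul_of_pos_left h2 ha'
        have h5 : b * ‖D.pr I y'.1 - D.pr I x₀‖ ≤ b * (r / 2) := mul_le_mul_of_nonneg_left h3.le hb
        have h6 : a * (r / 2) + b * (r / 2) = r / 2 := by rw [← add_mul, hab, one_mul]
        linarith
    have h1 := hGle (a • z + b • z') ⟨_, hmem⟩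
    have h2 := hf.2 (hWS y.1 y.2).1 (hWS y'.1 y'.2).1 ha hb hab
    simp only [smul_eq_mul] at h2
    have h3 : a • z + b • z' - D.pr I (a • y.1 + b • y'.1) =
        a • (z - D.pr I y.1) + b • (z' - D.pr I y'.1) := by
      rw [pr_add, pr_smul, pr_smul, smul_sub, smul_sub]; abel
    have h4 : ‖a • z + b • z' - D.pr I (a • y.1 + b • y'.1)‖ ≤
        a * ‖z - D.pr I y.1‖ + b * ‖z' - D.pr I y'.1‖ := by
      rw [h3]
      refine (norm_add_le _ _).trans ?_
      rw [norm_smul, norm_smul, Real.norm_of_nonneg ha, Real.norm_of_nonneg hb]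
    have h5 := mul_le_mul_of_nonneg_left h4 hL0
    have h6 : a * (f y + L * ‖z - D.pr I y.1‖) ≤ a * (G z + ε) :=
      mul_le_mul_of_nonneg_left hy.le ha
    have h7 : b * (f y' + L * ‖z' - D.pr I y'.1‖) ≤ b * (G z' + ε) :=
      mul_le_mul_of_nonneg_left hy'.le hb
    have h8 : a * ε + b * ε = ε := by rw [← add_mul, hab, one_mul]
    have h1' : G (a • z + b • z') ≤ f (a • y.1 + b • y'.1) +
        L * ‖a • z + b • z' - D.pr I (a • y.1 + b • y'.1)‖ := h1
    nlinarith
  · intro z z'
    rw [abs_le]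
    have h1 := hlip z z'
    have h2 := hlip z' z
    rw [norm_sub_rev] at h2
    constructor <;> linarith
  · have : W = (fun x => D.pr I x - D.pr I x₀) ⁻¹' Metric.ball 0 (r / 2) := by
      ext x
      simp [hW]
    rw [this]
    exact Metric.isOpen_ball.preimage ((continuous_pr D I).sub continuous_const)
  · intro x hx
    apply le_antisymm
    · refine le_ciInf fun y => ?_
      have h1 := lip y.1 x y.2 hx
      have h2 : ‖D.pr I x - D.pr I y.1‖ = p (x - y.1) := rfl
      rw [h2]
      linarith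
    · have h1 := hGle (D.pr I x) ⟨x, hx⟩
      simpa using h1

end Pool.AP
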