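import Pool.Agent.Work.MP_6cbae3_ch.Interface

/-! # MP_6cbae3_an, block FDC: the conditions imply Fréchet differentiability (helper79) -/

set_option autoImplicit false

namespace Pool.AP

open Filter Topology Set

namespace FDC

section general

variable {E : Type*} [AddCommGroup E] [Module ℝ E]

theorem cvx {G : E → ℝ} (hG : ConvexOn ℝ univ G) (x y : E) {a b : ℝ} (ha : 0 ≤ a) (hb : 0 ≤ b)
    (hab : a + b = 1) : G (a • x + b • y) ≤ a * G x + b * G y :=
  hG.2 (mem_univ x) (mem_univ y) ha hb hab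

theorem slope_mono {G : E → ℝ} (hG : ConvexOn ℝ univ G) (z h : E) {s t : ℝ} (hs : 0 < s)
    (hst : s ≤ t) : (G (z + s • h) - G z) / s ≤ (G (z + t • h) - G z) / t := by
  have ht : 0 < t := hs.trans_le hst
  have h1 := cvx hG z (z + t • h) (a := 1 - s / t) (b := s / t)
    (by rw [sub_nonneg, div_le_one ht]; exact hst) (by positivity) (by ring)
  have h2 : (1 - s / t) • z + (s / t) • (z + t • h) = z + s • h := by
    rw [smul_add, smul_smul, div_mul_cancel₀ _ ht.ne', sub_smul, one_smul]; abel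
  rw [h2] at h1
  rw [div_le_div_iff₀ hs ht]
  have h4 : G (z + s • h) - G z ≤ s / t * (G (z + t • h) - G z) := by linarith
  calc (G (z + s • h) - G z) * t ≤ (s / t * (G (z + t • h) - G z)) * t := by gcongr
    _ = (G (z + t • h) - G z) * s := by field_simp

/-- directional derivative -/
noncomputable def dd (G : E → ℝ) (z h : E) : ℝ :=
  ⨅ t : {t : ℝ // 0 < t}, (G (z + t.1 • h) - G z) / t.1

theorem dd_bdd {G : E → ℝ} (hG : ConvexOn ℝ univ G) (z h : E) :
    BddBelow (range fun t : {t : ℝ // 0 < t} => (G (z + t.1 • h) - G z) / t.1) := by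
  refine ⟨G z - G (z - h), ?_⟩
  rintro _ ⟨⟨t, ht⟩, rfl⟩
  simp only
  have h1 := cvx hG (z + t • h) (z - h) (a := 1 / (1 + t)) (b := t / (1 + t))
    (by positivity) (by positivity) (by field_simp)
  have h2 : (1 / (1 + t)) • (z + t • h) + (t / (1 + t)) • (z - h) = z := by
    have : (1 / (1 + t)) • (z + t • h) + (t / (1 + t)) • (z - h) =
        (1 / (1 + t) + t / (1 + t)) • z + (1 / (1 + t) * t - t / (1 + t)) • h := by
      module
    rw [this]
    have e1 : 1 / (1 + t) + t / (1 + t) = 1 := by field_simp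
    have e2 : 1 / (1 + t) * t - t / (1 + t) = 0 := by ring
    rw [e1, e2]; simp
  rw [h2] at h1
  have h3 : 1 / (1 + t) * G (z + t • h) + t / (1 + t) * G (z - h) =
      (G (z + t • h) + t * G (z - h)) / (1 + t) := by ring
  rw [h3, le_div_iff₀ (by positivity)] at h1
  rw [le_div_iff₀ ht]
  linarith

theorem dd_le {G : E → ℝ} (hG : ConvexOn ℝ univ G) (z h : E) {t : ℝ} (ht : 0 < t) :
    dd G z h ≤ (G (z + t • h) - G z) / t :=
  ciInf_le (dd_bdd hG z h) ⟨t, ht⟩

instance : Nonempty {t : ℝ // 0 < t} := ⟨⟨1, one_pos⟩⟩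

theorem dd_smul_le {G : E → ℝ} (hG : ConvexOn ℝ univ G) (z h : E) {c : ℝ} (hc : 0 < c) :
    dd G z (c • h) ≤ c * dd G z h := by
  rw [mul_comm, ← div_le_iff₀ hc]
  refine le_ciInf fun t => ?_
  obtain ⟨t, ht⟩ := t
  rw [div_le_iff₀ hc]
  have h1 := dd_le hG z (c • h) (t := t / c) (by positivity)
  rw [smul_smul, div_mul_cancel₀ _ hc.ne'] at h1
  refine h1.trans (le_of_eq ?_)
  field_simp

theorem dd_smul {G : E → ℝ} (hG : ConvexOn ℝ univ G) (z h : E) {c : ℝ} (hc : 0 < c) :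
    dd G z (c • h) = c * dd G z h := by
  refine le_antisymm (dd_smul_le hG z h hc) ?_
  have h1 := dd_smul_le hG z (c • h) (inv_pos.2 hc)
  rw [smul_smul, inv_mul_cancel₀ hc.ne', one_smul] at h1
  calc c * dd G z h ≤ c * (c⁻¹ * dd G z (c • h)) := by gcongr
    _ = dd G z (c • h) := by rw [← mul_assoc, mul_inv_cancel₀ hc.ne', one_mul]

theorem dd_add {G : E → ℝ} (hG : ConvexOn ℝ univ G) (z h₁ h₂ : E) :
    dd G z (h₁ + h₂) ≤ dd G z h₁ + dd G z h₂ := by
  refine le_of_forall_pos_le_add fun ε hε => ?_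
  obtain ⟨⟨s, hs⟩, h1⟩ := exists_lt_of_ciInf_lt
    (show (⨅ t : {t : ℝ // 0 < t}, (G (z + t.1 • h₁) - G z) / t.1) < dd G z h₁ + ε / 2 by
      change dd G z h₁ < _; linarith)
  obtain ⟨⟨t, ht⟩, h2⟩ := exists_lt_of_ciInf_lt
    (show (⨅ t : {t : ℝ // 0 < t}, (G (z + t.1 • h₂) - G z) / t.1) < dd G z h₂ + ε / 2 by
      change dd G z h₂ < _; linarith)
  simp only at h1 h2
  have hu : 0 < min s t := lt_min hs ht
  have h3 := slope_mono hG z h₁ hu (min_le_left s t)
  have h4 := slope_mono hG z h₂ hu (min_le_right s t)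
  set u := min s t
  have h5 := cvx hG (z + u • h₁) (z + u • h₂) (a := 1 / 2) (b := 1 / 2)
    (by norm_num) (by norm_num) (by norm_num)
  have h6 : (1 / 2 : ℝ) • (z + u • h₁) + (1 / 2 : ℝ) • (z + u • h₂) =
      z + (u / 2) • (h₁ + h₂) := by module
  rw [h6] at h5
  have h7 := dd_le hG z (h₁ + h₂) (t := u / 2) (by positivity)
  have h8 : (G (z + (u / 2) • (h₁ + h₂)) - G z) / (u / 2) ≤
      (G (z + u • h₁) - G z) / u + (G (z + u • h₂) - G z) / u := by
    rw [← add_div, div_le_div_iff₀ (by positivity) hu]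
    nlinarith
  linarith

theorem exists_sub {G : E → ℝ} (hG : ConvexOn ℝ univ G) (z : E) :
    ∃ g : E →ₗ[ℝ] ℝ, ∀ h, G z + g h ≤ G (z + h) := by
  obtain ⟨g, -, hg⟩ := exists_extension_of_le_sublinear (⊥ : E →ₗ.[ℝ] ℝ) (dd G z)
    (fun c hc x => dd_smul hG z x hc) (fun x y => dd_add hG z x y) (by
      rintro ⟨x, hx⟩
      have hx0 : x = 0 := (Submodule.mem_bot ℝ).1 hx
      subst hx0
      have h1 : dd G z (0 : E) = 0 := by
        have : (fun t : {t : ℝ // 0 < t} => (G (z + t.1 • (0 : E)) - G z) / t.1) = fun _ => 0 := by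
          funext t; simp
        rw [dd, this]; exact ciInf_const
      rw [h1]
      have h2 : (⟨0, hx⟩ : (⊥ : E →ₗ.[ℝ] ℝ).domain) = 0 := rfl
      rw [h2]
      exact le_of_eq (LinearPMap.map_zero _))
  refine ⟨g, fun h => ?_⟩
  have h1 := dd_le hG z h one_pos
  have h2 := hg h
  rw [one_smul, div_one] at h1
  linarith

theorem SD_mono' {G : E → ℝ} (hG : ConvexOn ℝ univ G) (z h : E) {s t ε : ℝ} (hs : 0 < s)
    (hst : s ≤ t) (H : SD G z h t ≤ ε * t) : SD G z h s ≤ ε * s := by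
  have ht : 0 < t := hs.trans_le hst
  have h1 := slope_mono hG z h hs hst
  have h2 := slope_mono hG z (-h) hs hst
  rw [smul_neg, smul_neg, ← sub_eq_add_neg, ← sub_eq_add_neg] at h2
  have h3 : SD G z h t / t ≤ ε := by rw [div_le_iff₀ ht]; exact H
  rw [← div_le_iff₀ hs]
  refine le_trans ?_ h3
  unfold SD
  have e1 : (G (z + s • h) + G (z - s • h) - 2 * G z) / s =
      (G (z + s • h) - G z) / s + (G (z - s • h) - G z) / s := by ring
  have e2 : (G (z + t • h) + G (z - t • h) - 2 * G z) / t =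
      (G (z + t • h) - G z) / t + (G (z - t • h) - G z) / t := by ring
  rw [e1, e2]
  exact add_le_add h1 h2

theorem SD_conv {G : E → ℝ} (hG : ConvexOn ℝ univ G) (z : E) (t r : ℝ) :
    Convex ℝ {h | SD G z h t ≤ r} := by
  intro h₁ H₁ h₂ H₂ a b ha hb hab
  simp only [mem_ofPred_eq, SD] at *
  have h1 := hG.2 (mem_univ (z + t • h₁)) (mem_univ (z + t • h₂)) ha hb hab
  have h2 := hG.2 (mem_univ (z - t • h₁)) (mem_univ (z - t • h₂)) ha hb hab
  have e1 : a • (z + t • h₁) + b • (z + t • h₂) = z + t • (a • h₁ + b • h₂) := by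
    have : z = (a + b) • z := by rw [hab, one_smul]
    nth_rewrite 3 [this]; module
  have e2 : a • (z - t • h₁) + b • (z - t • h₂) = z - t • (a • h₁ + b • h₂) := by
    have : z = (a + b) • z := by rw [hab, one_smul]
    nth_rewrite 3 [this]; module
  rw [e1] at h1
  rw [e2] at h2
  simp only [smul_eq_mul] at h1 h2
  have h3 : 2 * G z = a * (2 * G z) + b * (2 * G z) := by rw [← add_mul, hab, one_mul]
  have h4 : r = a * r + b * r := by rw [← add_mul, hab, one_mul]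
  have h5 := mul_le_mul_of_nonneg_left H₁ ha
  have h6 := mul_le_mul_of_nonneg_left H₂ hb
  linarith

theorem SD_neg (G : E → ℝ) (z h : E) (t : ℝ) : SD G z (-h) t = SD G z h t := by
  simp only [SD, smul_neg, sub_neg_eq_add, ← sub_eq_add_neg]; ring

theorem SD_smul (G : E → ℝ) (z h : E) (c t : ℝ) : SD G z (c • h) t = SD G z h (t * c) := by
  simp only [SD, smul_smul]

theorem SD_zero (G : E → ℝ) (z : E) (t : ℝ) : SD G z 0 t = 0 := by
  simp only [SD, smul_zero, add_zero, sub_zero]; ring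

theorem SD_sum {G : E → ℝ} (hG : ConvexOn ℝ univ G) (z : E) {t r : ℝ} (hr : 0 ≤ r) {ι : Type*}
    (s : Finset ι) (a : ι → ℝ) (v : ι → E) (hv : ∀ i ∈ s, SD G z (v i) t ≤ r)
    (ha : ∑ i ∈ s, |a i| ≤ 1) : SD G z (∑ i ∈ s, a i • v i) t ≤ r := by
  have hK := SD_conv hG z t r
  rcases eq_or_lt_of_le (Finset.sum_nonneg fun i (_ : i ∈ s) => abs_nonneg (a i)) with h0 | h0
  · have h1 : ∀ i ∈ s, a i = 0 := by
      intro i hi
      have := (Finset.sum_eq_zero_iff_of_nonneg fun i _ => abs_nonneg (a i)).1 h0.symm i hi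
      exact abs_eq_zero.1 this
    have h2 : ∑ i ∈ s, a i • v i = 0 := Finset.sum_eq_zero fun i hi => by rw [h1 i hi, zero_smul]
    rw [h2, SD_zero]; exact hr
  · set S := ∑ i ∈ s, |a i| with hS
    have h1 : ∑ i ∈ s, (|a i| / S) • ((SignType.sign (a i) : ℝ) • v i) ∈
        {h | SD G z h t ≤ r} := by
      refine hK.sum_mem (fun i _ => by positivity) ?_ ?_
      · rw [← Finset.sum_div]; exact div_self h0.ne'
      · intro i hi
        rcases lt_trichotomy (a i) 0 with h | h | h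
        · simp only [mem_ofPred_eq, sign_neg h, SignType.coe_neg, SignType.coe_one, neg_smul,
            one_smul, SD_neg]
          exact hv i hi
        · simp only [mem_ofPred_eq, h, sign_zero, SignType.coe_zero, zero_smul, SD_zero]
          exact hr
        · simp only [mem_ofPred_eq, sign_pos h, SignType.coe_one, one_smul]
          exact hv i hi
    have h2 : ∑ i ∈ s, a i • v i =
        S • ∑ i ∈ s, (|a i| / S) • ((SignType.sign (a i) : ℝ) • v i) := by
      rw [Finset.smul_sum]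
      refine Finset.sum_congr rfl fun i _ => ?_
      rw [smul_smul, smul_smul, mul_div_cancel₀ _ h0.ne', abs_mul_sign]
    rw [h2]
    have h3 : (0 : E) ∈ {h | SD G z h t ≤ r} := by
      simp only [mem_ofPred_eq, SD_zero]; exact hr
    exact hK.smul_mem_of_zero_mem h3 h1 ⟨h0.le, ha⟩

/-- uniformly small second differences -/
def Sm (G : E → ℝ) (z : E) (S : Set E) : Prop :=
  ∀ ε > 0, ∃ δ > 0, ∀ h ∈ S, SD G z h δ ≤ ε * δ

theorem Sm.biUnion {G : E → ℝ} (hG : ConvexOn ℝ univ G) {z : E} {ι : Type*} (F : Finset ι)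
    (S : ι → Set E) (hS : ∀ i ∈ F, Sm G z (S i)) : Sm G z (⋃ i ∈ F, S i) := by
  classical
  induction F using Finset.induction_on with
  | empty => intro ε _; exact ⟨1, one_pos, by simp⟩
  | insert i F _ ih =>
    intro ε hε
    obtain ⟨δ₁, h1, H1⟩ := hS i (Finset.mem_insert_self i F) ε hε
    obtain ⟨δ₂, h2, H2⟩ := ih (fun j hj => hS j (Finset.mem_insert_of_mem hj)) ε hε
    refine ⟨min δ₁ δ₂, lt_min h1 h2, ?_⟩
    intro h hh
    simp only [Finset.mem_insert, iUnion_iUnion_eq_or_left, mem_union] at hh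
    rcases hh with hh | hh
    · exact SD_mono' hG z h (lt_min h1 h2) (min_le_left _ _) (H1 h hh)
    · exact SD_mono' hG z h (lt_min h1 h2) (min_le_right _ _) (H2 h hh)

theorem Sm.union {G : E → ℝ} (hG : ConvexOn ℝ univ G) {z : E} {S T : Set E} (hS : Sm G z S)
    (hT : Sm G z T) : Sm G z (S ∪ T) := by
  intro ε hε
  obtain ⟨δ₁, h1, H1⟩ := hS ε hε
  obtain ⟨δ₂, h2, H2⟩ := hT ε hε
  refine ⟨min δ₁ δ₂, lt_min h1 h2, ?_⟩
  rintro h (hh | hh)
  · exact SD_mono' hG z h (lt_min h1 h2) (min_le_left _ _) (H1 h hh)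
  · exact SD_mono' hG z h (lt_min h1 h2) (min_le_right _ _) (H2 h hh)

theorem Sm.mono {G : E → ℝ} {z : E} {S T : Set E} (hT : Sm G z T) (hST : S ⊆ T) : Sm G z S := by
  intro ε hε
  obtain ⟨δ, h1, H1⟩ := hT ε hε
  exact ⟨δ, h1, fun h hh => H1 h (hST hh)⟩

theorem Sm.sum {G : E → ℝ} (hG : ConvexOn ℝ univ G) {z : E} {S : Set E} (hS : Sm G z S) {C : ℝ}
    (hC : 0 < C) : Sm G z {h | ∃ (ι : Type) (s : Finset ι) (a : ι → ℝ) (v : ι → E),
      (∀ i ∈ s, v i ∈ S) ∧ ∑ i ∈ s, |a i| ≤ C ∧ h = ∑ i ∈ s, a i • v i} := by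
  intro ε hε
  obtain ⟨δ, h1, H1⟩ := hS (ε / C) (by positivity)
  refine ⟨δ / C, by positivity, ?_⟩
  rintro h ⟨ι, s, a, v, hv, ha, rfl⟩
  have h2 := SD_sum hG z (t := δ) (r := ε / C * δ) (by positivity) s (fun i => a i / C) v
    (fun i hi => H1 _ (hv i hi)) (by
      have : ∀ i ∈ s, |a i / C| = |a i| / C := fun i _ => by rw [abs_div, abs_of_pos hC]
      rw [Finset.sum_congr rfl this, ← Finset.sum_div, div_le_one hC]; exact ha)
  have h3 : ∑ i ∈ s, a i • v i = C • ∑ i ∈ s, (a i / C) • v i := by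
    rw [Finset.smul_sum]
    refine Finset.sum_congr rfl fun i _ => ?_
    rw [smul_smul, mul_div_cancel₀ _ hC.ne']
  rw [h3, SD_smul, div_mul_cancel₀ _ hC.ne']
  refine h2.trans (le_of_eq ?_)
  ring

end general

theorem SD_lip' {E : Type*} [NormedAddCommGroup E] [NormedSpace ℝ E] {G : E → ℝ} {L : ℝ}
    (hG : CL G L) (z h h' : E) {t : ℝ} (ht : 0 ≤ t) :
    SD G z h t ≤ SD G z h' t + 2 * L * t * ‖h - h'‖ := by
  have h1 := le_of_abs_le (hG.2.2 (z + t • h) (z + t • h'))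
  have h2 := le_of_abs_le (hG.2.2 (z - t • h) (z - t • h'))
  have e1 : ‖z + t • h - (z + t • h')‖ = t * ‖h - h'‖ := by
    rw [add_sub_add_left_eq_sub, ← smul_sub, norm_smul, Real.norm_of_nonneg ht]
  have e2 : ‖z - t • h - (z - t • h')‖ = t * ‖h - h'‖ := by
    rw [sub_sub_sub_cancel_left, ← smul_sub, norm_smul, Real.norm_of_nonneg ht, norm_sub_rev]
  rw [e1] at h1
  rw [e2] at h2
  unfold SD
  linarith

theorem Sm.single {E : Type*} [AddCommGroup E] [Module ℝ E] {G : E → ℝ} {z : E} (hz : GD G z)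
    (h : E) : Sm G z {h} := by
  intro ε hε
  obtain ⟨t, ht, H⟩ := hz h ε hε
  exact ⟨t, ht, fun h' hh' => by rw [mem_singleton_iff.1 hh']; exact H⟩

/-- bounded sets of the finite dimensional part -/
theorem Sm.fin {m : ℕ} {G : Z m → ℝ} (hG : ConvexOn ℝ univ G) {z : Z m} (hz : GD G z) (C : ℝ) :
    Sm G z {h | ∃ u : Fin m → ℝ, (∀ i, |u i| ≤ C) ∧ h = (0, u)} := by
  have h1 : Sm G z (⋃ i ∈ (Finset.univ : Finset (Fin m)), {((0 : X), Pi.single i (1 : ℝ))}) :=
    Sm.biUnion hG _ _ fun i _ => Sm.single hz _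
  have h2 := h1.sum hG (C := m * |C| + 1) (by positivity)
  refine h2.mono ?_
  rintro h ⟨u, hu, rfl⟩
  refine ⟨Fin m, Finset.univ, u, fun i => (0, Pi.single i 1), ?_, ?_, ?_⟩
  · intro i _
    simp only [Finset.mem_univ, iUnion_true, mem_iUnion, mem_singleton_iff]
    exact ⟨i, rfl⟩
  · have : ∑ i : Fin m, |u i| ≤ ∑ _i : Fin m, |C| :=
      Finset.sum_le_sum fun i _ => (hu i).trans (le_abs_self C)
    rw [Finset.sum_const, Finset.card_univ, Fintype.card_fin, nsmul_eq_mul] at this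
    linarith
  · refine Prod.ext ?_ ?_
    · simp [Prod.fst_sum]
    · rw [Prod.snd_sum]
      funext j
      rw [Finset.sum_apply]
      simp [Pi.single_apply]

theorem norm_small (r : X) (k : ℕ) : ‖((2 : ℝ) ^ k * (1 + ‖r‖))⁻¹ • r‖ ≤ (1 / 2) ^ k := by
  rw [norm_smul, norm_inv, norm_mul, norm_pow, Real.norm_of_nonneg (by norm_num : (0 : ℝ) ≤ 2),
    Real.norm_of_nonneg (by positivity : 0 ≤ 1 + ‖r‖), mul_inv, one_div, inv_pow, mul_assoc]
  have : (1 + ‖r‖)⁻¹ * ‖r‖ ≤ 1 := by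
    rw [inv_mul_le_one₀ (by positivity)]; linarith
  calc ((2 : ℝ) ^ k)⁻¹ * ((1 + ‖r‖)⁻¹ * ‖r‖) ≤ ((2 : ℝ) ^ k)⁻¹ * 1 := by gcongr
    _ = _ := mul_one _

/-- the bumps of one stage -/
theorem Sm.bumps {m : ℕ} {G : Z m → ℝ} {L : ℝ} (hG : CL G L) {z : Z m} (hz : GD G z) (q : K)
    (hq : ∀ κ > 0, ¬ Seen G κ z q) (r : ℕ → X) (u : ℕ → Fin m → ℝ) (C : ℝ)
    (hu : ∀ k i, |u k i| ≤ C) : Sm G z (range fun k => ((bump q r k, u k) : Z m)) := by
  intro ε hε
  have hε' : 0 < ε / 4 := by positivity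
  have h1 := hq (ε / 4) hε'
  simp only [Seen] at h1
  push Not at h1
  obtain ⟨t₁, ht₁, k₁, H1⟩ := h1
  obtain ⟨t₂, ht₂, H2⟩ := Sm.fin hG.2.1 hz C (ε / 4) hε'
  obtain ⟨k₂, H3⟩ : ∃ k₂ : ℕ, ∀ k ≥ k₂, 2 * L * (1 / 2) ^ k ≤ ε / 4 := by
    have hL : 0 ≤ L := hG.1
    obtain ⟨k₂, hk₂⟩ := exists_pow_lt_of_lt_one (show 0 < ε / 4 / (2 * L + 1) by positivity)
      (show (1 / 2 : ℝ) < 1 by norm_num)
    refine ⟨k₂, fun k hk => ?_⟩
    have h5 : (1 / 2 : ℝ) ^ k ≤ (1 / 2) ^ k₂ :=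
      pow_le_pow_of_le_one (by norm_num) (by norm_num) hk
    rw [lt_div_iff₀ (by positivity)] at hk₂
    have h6 : 0 < (1 / 2 : ℝ) ^ k := by positivity
    nlinarith
  obtain ⟨t₃, ht₃, H4⟩ := Sm.biUnion hG.2.1 (z := z) (Finset.range (max k₁ k₂))
    (fun k => {((bump q r k, u k) : Z m)}) (fun k _ => Sm.single hz _) ε hε
  have hm : 0 < min t₁ t₂ := lt_min ht₁ ht₂
  refine ⟨min (min t₁ t₂ / 2) t₃, lt_min (by positivity) ht₃, ?_⟩
  rintro _ ⟨k, rfl⟩
  simp only
  by_cases hk : k < max k₁ k₂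
  · refine SD_mono' hG.2.1 z _ (lt_min (by positivity) ht₃) (min_le_right _ _) (H4 _ ?_)
    simp only [Finset.mem_range, mem_iUnion, mem_singleton_iff, exists_prop]
    exact ⟨k, hk, rfl⟩
  · push Not at hk
    refine SD_mono' hG.2.1 z _ (lt_min (by positivity) ht₃) (min_le_left _ _) ?_
    set δ := min t₁ t₂ / 2 with hδ
    have hδ0 : 0 < δ := by positivity
    have h2δ : 2 * δ = min t₁ t₂ := by rw [hδ]; ring
    have h5 : SD G z (cylf q k, 0) (2 * δ) ≤ ε / 4 * (2 * δ) :=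
      SD_mono' hG.2.1 z _ (by positivity) (h2δ ▸ min_le_left _ _)
        (H1 k ((le_max_left _ _).trans hk)).le
    have h6 : SD G z ((0 : X), u k) (2 * δ) ≤ ε / 4 * (2 * δ) :=
      SD_mono' hG.2.1 z _ (by positivity) (h2δ ▸ min_le_right _ _) (H2 _ ⟨u k, hu k, rfl⟩)
    have h7 := SD_lip' hG z (((2 : ℝ) ^ k * (1 + ‖r k‖))⁻¹ • r k, u k) ((0 : X), u k)
      (t := 2 * δ) (by positivity)
    have h8 : ‖((((2 : ℝ) ^ k * (1 + ‖r k‖))⁻¹ • r k, u k) : Z m) - ((0 : X), u k)‖ ≤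
        (1 / 2) ^ k := by
      rw [Prod.mk_sub_mk, sub_zero, sub_self, Prod.norm_def]
      simp only [norm_zero]
      exact max_le (norm_small _ _) (by positivity)
    have h9 : SD G z (((2 : ℝ) ^ k * (1 + ‖r k‖))⁻¹ • r k, u k) (2 * δ) ≤
        ε / 2 * (2 * δ) := by
      have h10 := H3 k ((le_max_right _ _).trans hk)
      have h11 : 2 * L * (2 * δ) * ‖((((2 : ℝ) ^ k * (1 + ‖r k‖))⁻¹ • r k, u k) : Z m) -
          ((0 : X), u k)‖ ≤ 2 * L * (2 * δ) * (1 / 2) ^ k := by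
        have := hG.1
        gcongr
      have h12 : 2 * L * (2 * δ) * (1 / 2) ^ k ≤ ε / 4 * (2 * δ) := by
        calc 2 * L * (2 * δ) * (1 / 2) ^ k = (2 * L * (1 / 2) ^ k) * (2 * δ) := by ring
          _ ≤ _ := by gcongr
      linarith
    have h13 := SD_conv hG.2.1 z (2 * δ) (ε / 2 * (2 * δ))
      (show ((cylf q k, 0) : Z m) ∈ _ from (h5.trans (by nlinarith) : _))
      (show ((((2 : ℝ) ^ k * (1 + ‖r k‖))⁻¹ • r k, u k) : Z m) ∈ _ from h9)
      (a := 1 / 2) (b := 1 / 2) (by norm_num) (by norm_num) (by norm_num)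
    have h14 : (1 / 2 : ℝ) • ((cylf q k, 0) : Z m) +
        (1 / 2 : ℝ) • ((((2 : ℝ) ^ k * (1 + ‖r k‖))⁻¹ • r k, u k) : Z m) =
        (1 / 2 : ℝ) • ((bump q r k, u k) : Z m) := by
      rw [← smul_add, Prod.mk_add_mk, zero_add]; rfl
    rw [h14] at h13
    simp only [mem_ofPred_eq, SD_smul] at h13
    have h15 : 2 * δ * (1 / 2) = δ := by ring
    rw [h15] at h13
    refine h13.trans (le_of_eq ?_)
    ring

section main

variable {A : Type} [LinearOrder A] (D : Data A) {m : ℕ} (I : Fin m → A)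

/-- the restriction on the whole product -/
noncomputable def PR : X × (A → ℝ) →L[ℝ] Z m :=
  (ContinuousLinearMap.fst ℝ X (A → ℝ)).prod
    (ContinuousLinearMap.pi fun i => (ContinuousLinearMap.proj (I i)).comp
      (ContinuousLinearMap.snd ℝ X (A → ℝ)))

theorem pr_eq (x : D.E) : D.pr I x = PR I x.1 := rfl

theorem pr_J (x : D.E) (a : (A × ℕ) →₀ ℝ) (h : D.J a = x) :
    D.pr I x = ∑ p ∈ a.support, a p • PR I (D.eh p) := by
  rw [pr_eq, ← h, Data.J, Finsupp.linearCombination_apply, Finsupp.sum, map_sum]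
  refine Finset.sum_congr rfl fun p _ => ?_
  rw [map_smul]

end main

end FDC

open FDC in
theorem blk_FDC (hBDD : Stmt_BDD) : Stmt_FDC := by
  intro A _ D hD m I G L hG x hx hq
  obtain ⟨g, hg⟩ := exists_sub hG.2.1 (D.pr I x)
  have hgL : ∀ h, ‖g h‖ ≤ L * ‖h‖ := by
    intro h
    rw [Real.norm_eq_abs, abs_le]
    have h1 := hg h
    have h2 := hg (-h)
    have h3 := hG.2.2 (D.pr I x + h) (D.pr I x)
    have h4 := hG.2.2 (D.pr I x + -h) (D.pr I x)
    rw [add_sub_cancel_left] at h3 h4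
    rw [norm_neg] at h4
    rw [map_neg] at h2
    have h5 := le_of_abs_le h3
    have h6 := le_of_abs_le h4
    constructor <;> linarith
  refine ⟨((g.mkContinuous L hgL).comp (PR I)).comp D.E.subtypeL, ?_⟩
  intro B hB ε hε
  obtain ⟨F, C, hBC⟩ := hBDD A D hD B hB
  -- uniform smallness
  have hS : Sm G (D.pr I x) (⋃ α ∈ F, range fun k => PR I (D.eh (α, k))) := by
    refine Sm.biUnion hG.2.1 F _ fun α _ => ?_
    obtain ⟨C₁, hC₁⟩ : ∃ C₁ : ℝ, ∀ k i, |D.phi (I i) (α, k + 1)| ≤ C₁ := by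
      choose c hc using fun i => hD.k1 (I i) α
      refine ⟨∑ i, |c i|, fun k i => ?_⟩
      have h1 : |c i| ≤ ∑ i, |c i| :=
        Finset.single_le_sum (fun i _ => abs_nonneg (c i)) (Finset.mem_univ i)
      refine le_trans ?_ h1
      unfold Data.phi
      by_cases h2 : α < D.τ (I i)
      · rw [if_pos h2]; exact (hc i (k + 1)).trans (le_abs_self _)
      · rw [if_neg h2, if_neg (Nat.succ_ne_zero k), abs_zero]; exact abs_nonneg _
    have h1 := Sm.bumps hG hx (D.q α) (hq α) (D.y α).2.2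
      (fun k i => D.phi (I i) (α, k + 1)) C₁ hC₁
    refine ((Sm.single hx (PR I (D.eh (α, 0)))).union hG.2.1 h1).mono ?_
    rintro _ ⟨k, rfl⟩
    rcases k with _ | k
    · exact Or.inl rfl
    · refine Or.inr ⟨k, ?_⟩
      rfl
  obtain ⟨δ, hδ, H⟩ := hS.sum hG.2.1 (C := max C 1) (by positivity) (ε / 2) (by positivity)
  refine ⟨δ, hδ, fun t ht htδ => ⟨ε / 2, by linarith, fun x' hx' => ?_⟩⟩
  obtain ⟨a, hax, haF, haC⟩ := hBC x' hx'
  have h1 : SD G (D.pr I x) (D.pr I x') δ ≤ ε / 2 * δ := by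
    refine H _ ⟨A × ℕ, a.support, a, fun p => PR I (D.eh p), ?_, haC.trans (le_max_left _ _),
      pr_J D I x' a hax⟩
    intro p hp
    simp only [mem_iUnion]
    exact ⟨p.1, haF p hp, p.2, rfl⟩
  have h2 := SD_mono' hG.2.1 _ _ ht htδ.le h1
  have h3 : D.pr I (x + t • x') = D.pr I x + t • D.pr I x' := by
    rw [pr_eq, pr_eq, pr_eq, Submodule.coe_add, Submodule.coe_smul, map_add, map_smul]
  have h4 : (((g.mkContinuous L hgL).comp (PR I)).comp D.E.subtypeL) x' = g (D.pr I x') := rfl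
  rw [h4]
  simp only
  rw [h3]
  set z := D.pr I x
  set h := D.pr I x'
  have h5 : SD G z h |t| = SD G z h t := by
    rcases abs_choice t with h6 | h6
    · rw [h6]
    · rw [h6]; simp only [SD, neg_smul, sub_neg_eq_add, ← sub_eq_add_neg]; ring
  rw [h5] at h2
  have h6 := hg (t • h)
  have h7 := hg (-(t • h))
  rw [map_neg, map_smul, smul_eq_mul, ← sub_eq_add_neg, ← sub_eq_add_neg] at h7
  rw [map_smul, smul_eq_mul] at h6
  have ht0 : t ≠ 0 := abs_pos.1 ht
  have h8 : (G (z + t • h) - G z) / t - g h = (G (z + t • h) - G z - t * g h) / t := by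
    field_simp
  rw [h8, abs_div, div_le_iff₀ ht, abs_of_nonneg (by linarith)]
  unfold SD at h2
  linarith

end Pool.AP
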