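import Pool.Agent.Work.MP_6cbae3_ch.Basic

/-! # MP_6cbae3_an: block GDR (helper7) -/

set_option autoImplicit false

namespace Pool.AP

open Filter Topology Set MeasureTheory

/-- along a line a convex Lipschitz function has small second differences somewhere near -/
theorem exists_small_SD {E : Type*} [NormedAddCommGroup E] [NormedSpace ℝ E] {G : E → ℝ} {L : ℝ}
    (hG : CL G L) (z h : E) {δ ε : ℝ} (hδ : 0 < δ) (hε : 0 < ε) :
    ∃ s : ℝ, |s| < δ ∧ ∃ t > 0, SD G (z + s • h) h t < ε * t := by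
  have hL : 0 ≤ L * ‖h‖ := mul_nonneg hG.1 (norm_nonneg _)
  have hlip : LipschitzWith (Real.toNNReal (L * ‖h‖)) (fun s : ℝ => G (z + s • h)) := by
    refine LipschitzWith.of_dist_le_mul fun x y => ?_
    rw [Real.dist_eq, Real.dist_eq]
    refine (hG.2.2 _ _).trans (le_of_eq ?_)
    rw [add_sub_add_left_eq_sub, ← sub_smul, norm_smul, Real.norm_eq_abs,
      Real.coe_toNNReal _ hL]
    ring
  have hae : ∀ᵐ s : ℝ, DifferentiableAt ℝ (fun s : ℝ => G (z + s • h)) s :=
    hlip.ae_differentiableAt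
  obtain ⟨s, hs, hd⟩ : ∃ s ∈ Ioo (-δ) δ, DifferentiableAt ℝ (fun s : ℝ => G (z + s • h)) s := by
    by_contra hcon
    have hsub : Ioo (-δ) δ ⊆ {s | ¬ DifferentiableAt ℝ (fun s : ℝ => G (z + s • h)) s} :=
      fun s hs hd => hcon ⟨s, hs, hd⟩
    have h0 : volume (Ioo (-δ) δ) = 0 := measure_mono_null hsub (ae_iff.1 hae)
    rw [Real.volume_Ioo] at h0
    have := ENNReal.ofReal_eq_zero.1 h0
    linarith
  refine ⟨s, abs_lt.2 hs, ?_⟩
  have hder := hd.hasDerivAt
  have hlo := (hasDerivAt_iff_isLittleO.1 hder).def (show 0 < ε / 4 by positivity)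
  rw [Metric.eventually_nhds_iff] at hlo
  obtain ⟨r, hr, hlo⟩ := hlo
  refine ⟨r / 2, by positivity, ?_⟩
  have h1 := @hlo (s + r / 2) (by
    rw [Real.dist_eq, add_sub_cancel_left, abs_of_pos (by positivity)]; linarith)
  have h2 := @hlo (s - r / 2) (by
    rw [Real.dist_eq, sub_sub_cancel_left, abs_neg, abs_of_pos (by positivity)]; linarith)
  rw [add_sub_cancel_left, Real.norm_eq_abs, Real.norm_eq_abs,
    abs_of_pos (show (0 : ℝ) < r / 2 by positivity)] at h1
  rw [sub_sub_cancel_left, Real.norm_eq_abs, Real.norm_eq_abs, abs_neg,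
    abs_of_pos (show (0 : ℝ) < r / 2 by positivity)] at h2
  simp only [smul_eq_mul] at h1 h2
  rw [abs_le] at h1 h2
  unfold SD
  rw [show z + s • h + (r / 2) • h = z + (s + r / 2) • h by module,
    show z + s • h - (r / 2) • h = z + (s - r / 2) • h by module]
  nlinarith [h1.2, h2.2]

theorem continuous_SD {E : Type*} [NormedAddCommGroup E] [NormedSpace ℝ E] {G : E → ℝ} {L : ℝ}
    (hG : CL G L) (h : E) (t : ℝ) : Continuous fun z => SD G z h t := by
  have hc := hG.continuous
  unfold SD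
  fun_prop

theorem blk_GDR : Stmt_GDR := by
  intro m G L hG
  obtain ⟨u, hu⟩ := TopologicalSpace.exists_dense_seq (Z m)
  have key : ∀ n k : ℕ, {z : Z m | ∃ t > 0, SD G z (u n) t < 1 / ((k : ℝ) + 1) * t} ∈
      residual (Z m) := by
    intro n k
    have hε : (0 : ℝ) < 1 / ((k : ℝ) + 1) := by positivity
    refine residual_of_dense_open ?_ ?_
    · have : {z : Z m | ∃ t > 0, SD G z (u n) t < 1 / ((k : ℝ) + 1) * t} =
          ⋃ t : {t : ℝ // 0 < t}, {z | SD G z (u n) t < 1 / ((k : ℝ) + 1) * t} := by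
        ext z
        simp only [mem_ofPred_eq, mem_iUnion, Subtype.exists, gt_iff_lt, exists_prop]
      rw [this]
      exact isOpen_iUnion fun t => isOpen_lt (continuous_SD hG _ _) continuous_const
    · rw [Metric.dense_iff]
      intro z r hr
      have hpos : 0 < r / (‖u n‖ + 1) := by positivity
      obtain ⟨s, hs, t, ht, h⟩ := exists_small_SD hG z (u n) hpos hε
      refine ⟨z + s • u n, ?_, t, ht, h⟩
      rw [Metric.mem_ball, dist_eq_norm, add_sub_cancel_left, norm_smul, Real.norm_eq_abs]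
      rw [lt_div_iff₀ (by positivity)] at hs
      nlinarith [norm_nonneg (u n), abs_nonneg s]
  have h2 : ∀ᶠ z in residual (Z m), ∀ n k : ℕ, ∃ t > 0, SD G z (u n) t < 1 / ((k : ℝ) + 1) * t :=
    eventually_countable_forall.2 fun n => eventually_countable_forall.2 fun k => key n k
  filter_upwards [h2] with z hz h ε hε
  have hL := hG.1
  obtain ⟨k, hk⟩ := exists_nat_one_div_lt (show 0 < ε / 2 by positivity)
  obtain ⟨v, hn, ⟨n, rfl⟩⟩ := Metric.dense_iff.1 hu h (ε / (4 * (L + 1))) (by positivity)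
  obtain ⟨t, ht, hlt⟩ := hz n k
  refine ⟨t, ht, ?_⟩
  have hd := hG.SD_dir z h (u n) t
  rw [abs_of_pos ht] at hd
  rw [Metric.mem_ball, dist_comm, dist_eq_norm, lt_div_iff₀ (by positivity)] at hn
  have h3 : 2 * L * t * ‖h - u n‖ ≤ ε / 2 * t := by
    nlinarith [norm_nonneg (h - u n), mul_nonneg ht.le (norm_nonneg (h - u n))]
  have h4 : 1 / ((k : ℝ) + 1) * t ≤ ε / 2 * t := mul_le_mul_of_nonneg_right hk.le ht.le
  have h5 := (abs_le.1 hd).2
  linarith

end Pool.AP
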