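import Pool.Agent.Work.MP_6cbae3_ch.Interface

set_option autoImplicit false

namespace Pool.AP

open Filter Topology Set

/-- GEN: recursion for generic sequences. -/
theorem blk_GEN : Stmt_GEN := by
  intro A _ hI Y _ _ U hU P hP0 hP
  have : WellFoundedLT A := hI.wf
  have wf : WellFounded ((· < ·) : A → A → Prop) := hI.wf.wf
  -- one step
  have step : ∀ (α : A) (f : ∀ β, β < α → Y), ∃ w : Y, w ∈ U α ∧
      ∀ (γ : Iic α) (l : List (Iio α)), (∀ a ∈ l, γ.1 ≤ a.1) →
        (l.map Subtype.val).Pairwise (· < ·) →
        P γ.1 (l.map fun a => (a.1, f a.1 a.2)) →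
        P γ.1 ((l.map fun a => (a.1, f a.1 a.2)) ++ [(α, w)]) := by
    intro α f
    have : Countable (Iio α) := (hI.cnt α).to_subtype
    have : Countable (Iic α) := by
      have h : (Iic α).Countable := by
        rw [← Iio_insert]
        exact (hI.cnt α).insert α
      exact h.to_subtype
    have hev : ∀ᶠ w in residual Y, ∀ (γ : Iic α) (l : List (Iio α)), (∀ a ∈ l, γ.1 ≤ a.1) →
        (l.map Subtype.val).Pairwise (· < ·) →
        P γ.1 (l.map fun a => (a.1, f a.1 a.2)) →
        P γ.1 ((l.map fun a => (a.1, f a.1 a.2)) ++ [(α, w)]) := by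
      rw [eventually_countable_forall]
      intro γ
      rw [eventually_countable_forall]
      intro l
      by_cases h1 : ∀ a ∈ l, γ.1 ≤ a.1
      · by_cases h2 : (l.map Subtype.val).Pairwise (· < ·)
        · by_cases h3 : P γ.1 (l.map fun a => (a.1, f a.1 a.2))
          · have := hP γ.1 (l.map fun a => (a.1, f a.1 a.2)) α γ.2 (by
              intro p hp
              obtain ⟨a, ha, rfl⟩ := List.mem_map.1 hp
              exact ⟨h1 a ha, a.2⟩) (by
              rw [List.map_map]
              exact h2) h3
            exact this.mono fun w hw _ _ _ => hw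
          · exact Eventually.of_forall fun w _ _ h => absurd h h3
        · exact Eventually.of_forall fun w _ h _ => absurd h h2
      · exact Eventually.of_forall fun w h _ _ => absurd h h1
    have hd := dense_of_mem_residual hev
    obtain ⟨w, hwU, hw⟩ := hd.inter_open_nonempty (U α) (hU α).1 (hU α).2
    exact ⟨w, hwU, hw⟩
  choose F hF using step
  let w : A → Y := wf.fix F
  have hw : ∀ α, w α = F α (fun β _ => w β) := fun α => wf.fix_eq F α
  refine ⟨w, fun α => ?_, ?_⟩
  · rw [hw α]
    exact (hF α _).1
  · intro γ l
    induction l using List.reverseRecOn with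
    | nil => intro _ _; exact hP0 γ
    | append_singleton l α ih =>
      intro h1 h2
      rw [List.pairwise_append] at h2
      obtain ⟨h2a, -, h2c⟩ := h2
      have hlt : ∀ a ∈ l, a ∈ Iio α := fun a ha => h2c a ha α (by simp)
      have hγ : ∀ a ∈ l, γ ≤ a := fun a ha => h1 a (by simp [ha])
      have hγα : γ ≤ α := h1 α (by simp)
      have ihl := ih hγ h2a
      lift l to List (Iio α) using hlt
      have key := (hF α (fun β _ => w β)).2 ⟨γ, hγα⟩ l (by
        intro a ha
        exact hγ a.1 (List.mem_map.2 ⟨a, ha, rfl⟩)) h2a (by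
        rw [List.map_map] at ihl
        exact ihl)
      rw [← hw α] at key
      rw [List.map_append, List.map_map]
      exact key

end Pool.AP
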