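import Pool.Agent.Work.MP_6cbae3_ch.Basic

/-! # Block GOODN (helper4): the bad tuples form a meagre set -/

set_option autoImplicit false

namespace Pool.AP

open Filter Topology Set

theorem zz_neg {n m k : ℕ} {ι : Type} [Fintype ι] (b c : X) (v : ι → Z m)
    (y : Fin n → Pt m) (a : Fin n → ℝ) (d : Fin n → Fin k → ℝ) (p : ι → ℝ) :
    zz b c v y (-a) (fun l i => -d l i) (-p) = -zz b c v y a d p := by
  unfold zz
  simp only [Pi.neg_apply, neg_smul, Finset.sum_neg_distrib, neg_add]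

theorem Seen.mono {m : ℕ} {G : Z m → ℝ} {κ κ' : ℝ} {z : Z m} {q : K} (h : Seen G κ z q)
    (hκ : κ' ≤ κ) : Seen G κ' z q := by
  intro t ht k₀
  obtain ⟨k, hk, h1⟩ := h t ht k₀
  exact ⟨k, hk, le_trans (by gcongr) h1⟩

theorem blk_GOODN (hT : Stmt_NDT) (hF : Stmt_NDF) : Stmt_GOODN := by
  intro n m ι _ b c G L v hG hS
  classical
  set G' : Z m → ℝ := fun x => G (-x) with hG'
  have hGn : CL G' L := hG.comp_neg
  have cover : Bad n b c G v ⊆
      ⋃ (k : ℕ) (R : ℕ) (j : Fin n),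
        (BadT n k b c G v (1 / ((R : ℝ) + 1)) ((R : ℝ) + 1) j ∪
          BadT n k b c G' v (1 / ((R : ℝ) + 1)) ((R : ℝ) + 1) j ∪
          ⋃ (l : {l : Fin n // j ≠ l}), (BadF n k b c G v (1 / ((R : ℝ) + 1)) ((R : ℝ) + 1) j l ∪
            BadF n k b c G' v (1 / ((R : ℝ) + 1)) ((R : ℝ) + 1) j l)) := by
    rintro y ⟨k, a, d, p, j, κ, ha, hκ, hgd, hseen⟩
    have hl0 : ∃ l, a l ≠ 0 ∧ (a j ≠ 0 → l = j) := by
      by_cases h : a j = 0
      · obtain ⟨l, hl⟩ := Function.ne_iff.1 ha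
        exact ⟨l, hl, fun h' => absurd h h'⟩
      · exact ⟨j, h, fun _ => rfl⟩
    obtain ⟨l, hl, hlj⟩ := hl0
    obtain ⟨R, hR⟩ := exists_nat_ge (1 / κ + 1 / |a l| + ∑ i, |a i| + ∑ i, ∑ i', |d i i'| +
      ∑ i, |p i|)
    have hκ' : 0 < 1 / κ := by positivity
    have hal : 0 < 1 / |a l| := by positivity
    have hsa : 0 ≤ ∑ i, |a i| := Finset.sum_nonneg fun _ _ => abs_nonneg _
    have hsd : 0 ≤ ∑ i, ∑ i', |d i i'| :=
      Finset.sum_nonneg fun _ _ => Finset.sum_nonneg fun _ _ => abs_nonneg _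
    have hsp : 0 ≤ ∑ i, |p i| := Finset.sum_nonneg fun _ _ => abs_nonneg _
    have hR1 : (0 : ℝ) < (R : ℝ) + 1 := by positivity
    have e1 : 1 / ((R : ℝ) + 1) ≤ κ := by
      rw [div_le_iff₀ hR1]
      have : 1 / κ ≤ (R : ℝ) + 1 := by linarith
      rw [div_le_iff₀ hκ] at this
      linarith
    have e2 : 1 / ((R : ℝ) + 1) ≤ |a l| := by
      rw [div_le_iff₀ hR1]
      have h1 : 1 / |a l| ≤ (R : ℝ) + 1 := by linarith
      rw [div_le_iff₀ (abs_pos.2 hl)] at h1
      linarith
    have e3 : ∀ i, |a i| ≤ (R : ℝ) + 1 := by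
      intro i
      have := Finset.single_le_sum (f := fun i => |a i|) (fun _ _ => abs_nonneg _)
        (Finset.mem_univ i)
      linarith
    have e4 : ∀ i i', |d i i'| ≤ (R : ℝ) + 1 := by
      intro i i'
      have h1 := Finset.single_le_sum (f := fun i' => |d i i'|) (fun _ _ => abs_nonneg _)
        (Finset.mem_univ i')
      have h2 := Finset.single_le_sum (f := fun i => ∑ i', |d i i'|)
        (fun _ _ => Finset.sum_nonneg fun _ _ => abs_nonneg _) (Finset.mem_univ i)
      linarith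
    have e5 : ∀ i, |p i| ≤ (R : ℝ) + 1 := by
      intro i
      have := Finset.single_le_sum (f := fun i => |p i|) (fun _ _ => abs_nonneg _)
        (Finset.mem_univ i)
      linarith
    have hseen' := hseen.mono e1
    -- the negated data
    have ngd : GD G' (zz b c v y (-a) (fun l i => -d l i) (-p)) := by
      rw [zz_neg]; exact GD_comp_neg hgd
    have nseen : Seen G' (1 / ((R : ℝ) + 1)) (zz b c v y (-a) (fun l i => -d l i) (-p))
        (qq b c (y j).1) := by
      rw [zz_neg]; exact Seen_comp_neg hseen'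
    have n3 : ∀ i, |(-a) i| ≤ (R : ℝ) + 1 := fun i => by
      rw [Pi.neg_apply, abs_neg]; exact e3 i
    have n4 : ∀ i i', |(fun l i => -d l i) i i'| ≤ (R : ℝ) + 1 := fun i i' => by
      simp only [abs_neg]; exact e4 i i'
    have n5 : ∀ i, |(-p) i| ≤ (R : ℝ) + 1 := fun i => by
      rw [Pi.neg_apply, abs_neg]; exact e5 i
    simp only [mem_iUnion]
    refine ⟨k, R, j, ?_⟩
    by_cases hj : a j = 0
    · have hne : j ≠ l := by
        rintro rfl; exact hl hj
      right
      rw [mem_iUnion]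
      refine ⟨⟨l, hne⟩, ?_⟩
      rcases lt_or_gt_of_ne hl with h | h
      · right
        refine ⟨-a, fun l i => -d l i, -p, by simp [hj], ?_, n3, n4, n5, ngd, nseen⟩
        rw [abs_of_neg h] at e2
        exact e2
      · left
        refine ⟨a, d, p, hj, ?_, e3, e4, e5, hgd, hseen'⟩
        rw [abs_of_pos h] at e2
        exact e2
    · obtain rfl := hlj hj
      left
      rcases lt_or_gt_of_ne hl with h | h
      · right
        refine ⟨-a, fun l i => -d l i, -p, ?_, n3, n4, n5, ngd, nseen⟩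
        rw [abs_of_neg h] at e2
        exact e2
      · left
        refine ⟨a, d, p, ?_, e3, e4, e5, hgd, hseen'⟩
        rw [abs_of_pos h] at e2
        exact e2
  refine IsMeagre.mono cover ?_
  refine isMeagre_iUnion fun k => isMeagre_iUnion fun R => isMeagre_iUnion fun j => ?_
  have hR : (0 : ℝ) < (R : ℝ) + 1 := by positivity
  have hκ : (0 : ℝ) < 1 / ((R : ℝ) + 1) := by positivity
  refine IsMeagre.union (IsMeagre.union ?_ ?_) (isMeagre_iUnion fun l => IsMeagre.union ?_ ?_)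
  · exact (hT n m k ι b c G L _ _ v j hG hκ hR hS).isMeagre
  · exact (hT n m k ι b c G' L _ _ v j hGn hκ hR hS).isMeagre
  · exact (hF n m k ι b c G L _ _ v j l.1 l.2 hG hκ hR).isMeagre
  · exact (hF n m k ι b c G' L _ _ v j l.1 l.2 hGn hκ hR).isMeagre

end Pool.AP
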