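import Pool.Agent.Work.MP_6cbae3_ch.Interface

/-! # GRD (helper81) -/

set_option autoImplicit false

namespace Pool.AP

theorem blk_GRD : Stmt_GRD := by
  intro E _ N n g z P κ B h0 hmid hstep hB
  have key : ∀ i ≤ n, ∃ h, P i h ∧ ∑ ν, g ν z + (i : ℝ) * (κ / 2) ≤ ∑ ν, g ν (z + h) := by
    intro i
    induction i with
    | zero => intro _; exact ⟨0, h0, by simp⟩
    | succ i ih =>
      intro hi
      obtain ⟨h, hP, hs⟩ := ih (by omega)
      obtain ⟨h', ν, hp, hm, hk⟩ := hstep i (by omega) h hP
      have hsum : 2 * ∑ ν, g ν (z + h) + κ ≤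
          ∑ ν, g ν (z + (h + h')) + ∑ ν, g ν (z + (h - h')) := by
        have h1 : ∑ μ : Fin N, (if μ = ν then κ else 0) = κ := by simp
        rw [Finset.mul_sum]
        nth_rewrite 1 [← h1]
        rw [← Finset.sum_add_distrib, ← Finset.sum_add_distrib]
        refine Finset.sum_le_sum fun μ _ => ?_
        by_cases hμ : μ = ν
        · subst hμ
          rw [if_pos rfl]
          linarith
        · rw [if_neg hμ]
          have := hmid μ h h'
          linarith
      by_cases hc : ∑ ν, g ν (z + h) + κ / 2 ≤ ∑ ν, g ν (z + (h + h'))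
      · exact ⟨h + h', hp, by push_cast; linarith⟩
      · push Not at hc
        exact ⟨h - h', hm, by push_cast; linarith⟩
  obtain ⟨h, hP, hs⟩ := key n le_rfl
  have h2 := Finset.sum_le_sum (fun ν (_ : ν ∈ (Finset.univ : Finset (Fin N))) => hB h hP ν)
  rw [Finset.sum_sub_distrib] at h2
  simp only [Finset.sum_const, Finset.card_univ, Fintype.card_fin, nsmul_eq_mul] at h2
  linarith

end Pool.AP
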