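import Pool.Agent.Work.MP_6cbae3_ch.Basic2

/-! # MP_6cbae3_an: the generic sequence (helper17) -/

set_option autoImplicit false

namespace Pool.AP

open Filter Topology Set

namespace GSQ

/-- the task predicate -/
def Qn {W : Type} {n : ℕ} (M : Set (Fin n → W)) (s : List W) : Prop :=
  ∀ x : Fin n → W, List.ofFn x = s → x ∉ M

/-- the point of a stage seen by the first functionals -/
def pj {A : Type} [LinearOrder A] (e : A → A → ℕ) (β : A) (p : A × (Y0 × (ℕ → ℝ))) :
    Y0 × (Iio β → ℝ) := (p.2.1, fun i => p.2.2 (e p.1 i))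

/-- the separation task -/
def PS (b c : X) {A : Type} (l : List (A × (Y0 × (ℕ → ℝ)))) : Prop :=
  ∀ k, Sep ([b, c] ++ l.flatMap fun p => raw p.2.1 k)

/-- the category task -/
def PG {A : Type} [LinearOrder A] (e : A → A → ℕ) (γ : A)
    (t : Option (Σ nβ : ℕ × A, {M : Set (Fin nβ.1 → Y0 × (Iio nβ.2 → ℝ)) // IsMeagre M}))
    (l : List (A × (Y0 × (ℕ → ℝ)))) : Prop :=
  match t with
  | none => True
  | some ⟨nβ, M⟩ => nβ.2 ≤ γ → l.length ≤ nβ.1 → It (Qn M.1) (nβ.1 - l.length) (l.map (pj e nβ.2))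

theorem PG_nil (hKUL : Stmt_KUL) {A : Type} [LinearOrder A] (hA : Idx A) (e : A → A → ℕ) (γ : A)
    (t : Option (Σ nβ : ℕ × A, {M : Set (Fin nβ.1 → Y0 × (Iio nβ.2 → ℝ)) // IsMeagre M})) :
    PG e γ t [] := by
  rcases t with _ | ⟨⟨n, β⟩, M, hM⟩
  · trivial
  · intro _ _
    have : Countable (Iio β) := hA.cnt β
    refine hKUL (Y0 × (Iio β → ℝ)) n M hM _ _ ?_
    intro x hx x' hx'
    have : x' = x := List.ofFn_injective (by simpa using hx')
    rw [this]
    exact hx

theorem PG_step {A : Type} [LinearOrder A] (e : A → A → ℕ)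
    (he : ∀ α, InjOn (e α) (Iic α)) (γ : A)
    (t : Option (Σ nβ : ℕ × A, {M : Set (Fin nβ.1 → Y0 × (Iio nβ.2 → ℝ)) // IsMeagre M}))
    (l : List (A × (Y0 × (ℕ → ℝ)))) (α : A) (hα : γ ≤ α) (h : PG e γ t l) :
    ∀ᶠ w in residual (Y0 × (ℕ → ℝ)), PG e γ t (l ++ [(α, w)]) := by
  rcases t with _ | ⟨⟨n, β⟩, M, hM⟩
  · exact Filter.Eventually.of_forall fun _ => trivial
  · by_cases hβ : β ≤ γ
    swap
    · exact Filter.Eventually.of_forall fun _ h' => absurd h' hβ
    by_cases hl : l.length + 1 ≤ n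
    swap
    · refine Filter.Eventually.of_forall fun w _ h' => absurd ?_ hl
      simpa using h'
    have h1 := h hβ (by simp only; omega)
    simp only at h1
    obtain ⟨r, hr⟩ : ∃ r, n = l.length + 1 + r := ⟨n - (l.length + 1), by omega⟩
    have e1 : n - l.length = r + 1 := by omega
    rw [e1] at h1
    have hc : Continuous (fun w : Y0 × (ℕ → ℝ) => ((w.1, fun i => w.2 (e α i)) :
        Y0 × (Iio β → ℝ))) :=
      continuous_fst.prodMk (continuous_pi fun i => (continuous_apply _).comp continuous_snd)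
    have hinj : Function.Injective (fun i : Iio β => e α i) := by
      intro i j hij
      have hi : (i : A) ∈ Iic α := le_trans (le_of_lt i.2) (le_trans hβ hα)
      have hj : (j : A) ∈ Iic α := le_trans (le_of_lt j.2) (le_trans hβ hα)
      exact Subtype.ext (he α hi hj hij)
    have ho : IsOpenMap (fun w : Y0 × (ℕ → ℝ) => ((w.1, fun i => w.2 (e α i)) :
        Y0 × (Iio β → ℝ))) :=
      IsOpenMap.id.prodMap (isOpenMap_select (V := fun _ => ℝ) (fun i : Iio β => e α i) hinj)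
    have h2 : ∀ᶠ w in residual (Y0 × (ℕ → ℝ)), It (Qn M) r
        (l.map (pj e β) ++ [((w.1, fun i => w.2 (e α i)) : Y0 × (Iio β → ℝ))]) :=
      (tendsto_residual_of_isOpenMap hc ho).eventually h1
    filter_upwards [h2] with w hw
    intro _ _
    simp only [List.length_append, List.length_singleton, List.map_append, List.map_cons,
      List.map_nil]
    rw [show n - (l.length + 1) = r by omega]
    exact hw

theorem PS_step (hSEPR : Stmt_SEPR) (b c : X) {A : Type} (l : List (A × (Y0 × (ℕ → ℝ)))) (α : A)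
    (h : PS b c l) : ∀ᶠ w in residual (Y0 × (ℕ → ℝ)), PS b c (l ++ [(α, w)]) := by
  have h1 : ∀ k, ∀ᶠ w in residual (Y0 × (ℕ → ℝ)),
      Sep (([b, c] ++ l.flatMap fun p => raw p.2.1 k) ++ raw w.1 k) := by
    intro k
    have h2 := hSEPR _ (h k)
    have h3 := (tendsto_residual_of_isOpenMap (continuous_fst (X := Y0) (Y := ℕ → ℝ))
      isOpenMap_fst).eventually h2
    filter_upwards [h3] with w hw
    exact hw k
  have h2 := eventually_countable_forall.2 h1
  filter_upwards [h2] with w hw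
  intro k
  have := hw k
  simpa [List.flatMap_append, List.append_assoc] using this

end GSQ

open GSQ in
theorem blk_GSQ (hKUL : Stmt_KUL) (hGEN : Stmt_GEN) (hSEPR : Stmt_SEPR) (hSEPN : Stmt_SEPN) :
    Stmt_GSQ := by
  classical
  intro hC A _ hA
  -- the functions `b` and `c`
  obtain ⟨b, c, hbc⟩ : ∃ b c, Sep [b, c] := by
    have h1 := hSEPN [] 2 Sep_nil
    have h2 : Dense {x : Fin 2 → X | Sep ([] ++ List.ofFn x)} := dense_of_mem_residual h1
    obtain ⟨x, hx⟩ := h2.nonempty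
    exact ⟨x 0, x 1, by simpa using hx⟩
  have he : ∀ α : A, ∃ f : A → ℕ, InjOn f (Iic α) :=
    fun α => Set.countable_iff_exists_injOn.1 (hA.countable_Iic α)
  choose e he using he
  -- the cofinal families
  have hF : ∀ nβ : ℕ × A, ∃ F : Set (Set (Fin nβ.1 → Y0 × (Iio nβ.2 → ℝ))),
      Cardinal.mk F ≤ Cardinal.aleph 1 ∧ (∀ s ∈ F, IsMeagre s) ∧
        ∀ s, IsMeagre s → ∃ t ∈ F, s ⊆ t := by
    intro nβ
    have : Countable (Iio nβ.2) := hA.cnt nβ.2
    exact hC (Fin nβ.1 → Y0 × (Iio nβ.2 → ℝ))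
  choose F hFc hFm hFs using hF
  -- enumeration of the tasks
  obtain ⟨f2, hf2⟩ := hA.srj (Option (Σ nβ : ℕ × A, F nβ))
    (card_option_le (card_sigma_le (card_prod_le card_countable_le hA.card) hFc))
  let g2 : A → Option (Σ nβ : ℕ × A, {M : Set (Fin nβ.1 → Y0 × (Iio nβ.2 → ℝ)) // IsMeagre M}) :=
    fun γ => (f2 γ).map fun p => ⟨p.1, ⟨p.2.1, hFm _ _ p.2.2⟩⟩
  -- enumeration of the open sets
  have hB : ∀ G : Finset A, ∃ B : ℕ → Set (Y0 × (G → ℝ)), (∀ n, IsOpen (B n)) ∧
      ∀ U : Set (Y0 × (G → ℝ)), IsOpen U → ∀ p ∈ U, ∃ n, p ∈ B n ∧ B n ⊆ U :=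
    fun G => exists_seq_basis _
  choose B hBo hBs using hB
  obtain ⟨f1, hf1⟩ := hA.srj (Finset A × ℕ) (card_prod_le (card_finset_le hA.card)
    card_countable_le)
  let pre : A → Finset A × ℕ → Set (Y0 × (ℕ → ℝ)) := fun α t =>
    {w | (w.1, fun i : t.1 => w.2 (e α i)) ∈ B t.1 t.2}
  have hpo : ∀ α t, IsOpen (pre α t) := by
    intro α t
    have hc : Continuous (fun w : Y0 × (ℕ → ℝ) => ((w.1, fun i => w.2 (e α i)) :
        Y0 × (t.1 → ℝ))) :=
      continuous_fst.prodMk (continuous_pi fun i => (continuous_apply _).comp continuous_snd)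
    exact (hBo t.1 t.2).preimage hc
  let U : A → Set (Y0 × (ℕ → ℝ)) := fun α => if (pre α (f1 α)).Nonempty then pre α (f1 α) else univ
  have hU : ∀ α, IsOpen (U α) ∧ (U α).Nonempty := by
    intro α
    by_cases h : (pre α (f1 α)).Nonempty
    · have : U α = pre α (f1 α) := if_pos h
      rw [this]; exact ⟨hpo _ _, h⟩
    · have : U α = univ := if_neg h
      rw [this]; exact ⟨isOpen_univ, univ_nonempty⟩
  obtain ⟨w, hwU, hwP⟩ := hGEN A hA (Y0 × (ℕ → ℝ)) U hU
    (fun γ l => PS b c l ∧ PG e γ (g2 γ) l)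
    (fun γ => ⟨fun k => by simpa using hbc, PG_nil hKUL hA e γ _⟩)
    (fun γ l α hα _ _ hP => (PS_step hSEPR b c l α hP.1).and (PG_step e he γ _ l α hα hP.2))
  refine ⟨b, c, fun α => (w α).1, fun α j => (w α).2 (e α j), ?_, ?_, ?_⟩
  · -- GP
    intro n β M hM
    obtain ⟨M', hM', hMM'⟩ := hFs (n, β) M hM
    obtain ⟨γ, hγ, hfγ⟩ := hf2 (some ⟨(n, β), ⟨M', hM'⟩⟩) β
    refine ⟨γ, fun a ha hγa hmem => ?_⟩
    have h1 := (hwP γ (List.ofFn a) (by
      intro x hx
      obtain ⟨i, rfl⟩ := (List.mem_ofFn' a x).1 hx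
      exact hγa i) (by
        rw [List.pairwise_ofFn]
        intro i j hij
        exact ha hij)).2
    have h2 : g2 γ = some ⟨(n, β), ⟨M', hFm _ _ hM'⟩⟩ := by
      simp only [g2, hfγ, Option.map_some]
    rw [h2] at h1
    have h3 := h1 hγ (by simp)
    simp only [List.length_map, List.length_ofFn, Nat.sub_self, List.map_map] at h3
    have h4 := h3 (fun i => (((w (a i)).1, fun j : Iio β => (w (a i)).2 (e (a i) j)) :
      Y0 × (Iio β → ℝ))) (by
        rw [List.map_ofFn]
        rfl)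
    exact h4 (hMM' hmem)
  · -- UP
    intro U' hU' hne γ
    obtain ⟨p, hp⟩ := hne
    obtain ⟨G, V, hV, hpV, hVU⟩ := exists_finset_cylinder hU' hp
    obtain ⟨n, hpn, hnV⟩ := hBs G V hV _ hpV
    obtain ⟨δ, hδ, hGδ⟩ := exists_ge_finset γ G
    obtain ⟨α, hα, hfα⟩ := hf1 (G, n) δ
    refine ⟨α, hδ.trans hα, ?_⟩
    have hne : (pre α (f1 α)).Nonempty := by
      have hinj : Function.Injective (fun i : G => e α i) := by
        intro i j hij
        exact Subtype.ext (he α ((hGδ i i.2).trans hα) ((hGδ j j.2).trans hα) hij)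
      obtain ⟨z, hz⟩ : ∃ z : ℕ → ℝ, ∀ i : G, z (e α i) = p.2 i := by
        refine ⟨fun m => if h : ∃ i : G, e α i = m then p.2 h.choose else 0, fun i => ?_⟩
        have h : ∃ i' : G, e α i' = e α i := ⟨i, rfl⟩
        change (if h : ∃ i' : G, e α i' = e α i then p.2 h.choose else 0) = p.2 i
        have h2 : h.choose = i := hinj h.choose_spec
        rw [dif_pos h, h2]
      refine ⟨(p.1, z), ?_⟩
      rw [hfα]
      change (p.1, fun i : G => z (e α i)) ∈ B G n
      simp only [hz]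
      exact hpn
    have h1 : w α ∈ pre α (f1 α) := by
      have := hwU α
      have h2 : U α = pre α (f1 α) := if_pos hne
      rwa [h2] at this
    rw [hfα] at h1
    exact hVU _ (hnV h1)
  · -- SP
    intro l hl k
    rcases l with _ | ⟨a, l⟩
    · simpa using hbc
    · have h1 := (hwP a (a :: l) (by
        intro x hx
        rcases List.mem_cons.1 hx with rfl | hx
        · exact le_rfl
        · exact le_of_lt ((List.pairwise_cons.1 hl).1 x hx)) hl).1 k
      rw [List.flatMap_map] at h1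
      exact h1

end Pool.AP
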