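import Pool.Agent.Work.MP_6cbae3_ch.Interface

/-! # Block IDX (helper1): the index set exists -/

set_option autoImplicit false

namespace Pool.AP

open Filter Topology Set

theorem blk_IDX : Stmt_IDX := by
  refine ⟨(Cardinal.aleph 1 : Cardinal.{0}).ord.ToType, inferInstance, ?_⟩
  have hcard : Cardinal.mk (Cardinal.aleph 1 : Cardinal.{0}).ord.ToType = Cardinal.aleph 1 :=
    Cardinal.mk_ord_toType _
  have hcnt : ∀ a : (Cardinal.aleph 1 : Cardinal.{0}).ord.ToType, (Iio a).Countable := by
    intro a
    have h := Cardinal.mk_Iio_ord_toType a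
    exact Cardinal.countable_iff_lt_aleph_one _ |>.2 h
  have hunc : ¬ (univ : Set (Cardinal.aleph 1 : Cardinal.{0}).ord.ToType).Countable := by
    intro h
    rw [Cardinal.countable_iff_lt_aleph_one, Cardinal.mk_univ, hcard] at h
    exact lt_irrefl _ h
  refine ⟨hcard.le, inferInstance, hcnt, ?_, ?_⟩
  · intro S hS
    by_contra hcon
    push Not at hcon
    apply hunc
    have : (univ : Set (Cardinal.aleph 1 : Cardinal.{0}).ord.ToType) ⊆ ⋃ s ∈ S, (Iio s ∪ {s}) := by
      intro a _
      obtain ⟨s, hs, hle⟩ := hcon a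
      rw [mem_iUnion₂]
      refine ⟨s, hs, ?_⟩
      rcases hle.lt_or_eq with h | h
      · exact Or.inl h
      · exact Or.inr h
    refine Countable.mono this (hS.biUnion fun s _ => ?_)
    exact (hcnt s).union (countable_singleton s)
  · intro T _ hT
    have hle : Cardinal.mk (T × (Cardinal.aleph 1 : Cardinal.{0}).ord.ToType) ≤
        Cardinal.mk (Cardinal.aleph 1 : Cardinal.{0}).ord.ToType := by
      rw [Cardinal.mk_prod, hcard, Cardinal.lift_id, Cardinal.lift_id]
      calc Cardinal.mk T * Cardinal.aleph 1 ≤ Cardinal.aleph 1 * Cardinal.aleph 1 :=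
            mul_le_mul_left hT _
        _ = Cardinal.aleph 1 := Cardinal.mul_eq_self (Cardinal.aleph0_le_aleph 1)
    have hne : Nonempty (Cardinal.aleph 1 : Cardinal.{0}).ord.ToType := by
      rw [← Cardinal.mk_ne_zero_iff, hcard]
      exact (Cardinal.aleph_pos 1).ne'
    obtain ⟨g⟩ := Cardinal.le_def _ _ |>.1 hle
    have hsurj : Function.Surjective (Function.invFun g) :=
      Function.invFun_surjective g.injective
    refine ⟨fun a => (Function.invFun g a).1, fun t γ => ?_⟩
    by_contra hcon
    push Not at hcon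
    apply hunc
    have hsub : {a | (Function.invFun g a).1 = t} ⊆ Iio γ := by
      intro a ha
      by_contra hlt
      exact hcon a (not_lt.1 hlt) ha
    have h1 : {a | (Function.invFun g a).1 = t}.Countable := (hcnt γ).mono hsub
    have h2 : (univ : Set (Cardinal.aleph 1 : Cardinal.{0}).ord.ToType) ⊆
        (fun a => (Function.invFun g a).2) '' {a | (Function.invFun g a).1 = t} := by
      intro b _
      obtain ⟨a, ha⟩ := hsurj (t, b)
      exact ⟨a, by simp [ha], by simp [ha]⟩
    exact (h1.image _).mono h2

end Pool.AP
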