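import Pool.Agent.Work.MP_6cbae3_ch.Interface

/-! Block INJ (helper70): the basis vectors are linearly independent. -/

set_option autoImplicit false

namespace Pool.AP

open Filter Topology Set

theorem J_snd_inj {A : Type} [LinearOrder A] (D : Data A) (a : (A × ℕ) →₀ ℝ) (i : A) :
    (D.J a).2 i = a.sum fun p r => r * D.phi i p := by
  simp [Data.J, Data.eh, Finsupp.linearCombination_apply, Finsupp.sum, Prod.snd_sum,
    Finset.sum_apply]

theorem blk_INJ : Stmt_INJ := by
  intro A _ D hD
  rw [injective_iff_map_eq_zero]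
  intro a ha
  by_contra hne
  -- the sum of the absolute values of the coefficients is positive
  have hpos : 0 < ∑ p ∈ a.support, |a p| := by
    obtain ⟨p, hp⟩ := Finsupp.support_nonempty_iff.2 hne
    exact Finset.sum_pos' (fun _ _ => abs_nonneg _)
      ⟨p, hp, abs_pos.2 (Finsupp.mem_support_iff.1 hp)⟩
  have hb : ¬ TBdd fun n : ℕ => (n : ℝ) • a := by
    rintro ⟨F, C, h⟩
    obtain ⟨n, hn⟩ := exists_nat_gt (C / ∑ p ∈ a.support, |a p|)
    rw [div_lt_iff₀ hpos] at hn
    have h2 := (h (n + 1)).2
    have hsupp : (((n + 1 : ℕ) : ℝ) • a).support = a.support :=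
      Finsupp.support_smul_eq (by positivity)
    simp only [hsupp] at h2
    have e : ∑ p ∈ a.support, |(((n + 1 : ℕ) : ℝ) • a) p| =
        ((n + 1 : ℕ) : ℝ) * ∑ p ∈ a.support, |a p| := by
      rw [Finset.mul_sum]
      refine Finset.sum_congr rfl fun p _ => ?_
      rw [Finsupp.smul_apply, smul_eq_mul, abs_mul, abs_of_nonneg (by positivity)]
    rw [e] at h2
    push_cast at h2
    nlinarith
  obtain ⟨i, hi, hun⟩ := hD.k2 _ hb
  apply hun
  refine ⟨0, fun n => ?_⟩
  have hsum : (a.sum fun p r => r * D.kill i p) = 0 := by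
    have h0 : (D.J a).2 i = 0 := by rw [ha]; rfl
    rw [J_snd_inj] at h0
    rw [← h0]
    refine Finset.sum_congr rfl fun p hp => ?_
    have hlt : p.1 < D.τ i := hi 1 p (by simpa using hp)
    simp only [Data.phi, if_pos hlt]
  have e : (((n : ℝ) • a).sum fun p r => r * D.kill i p) =
      (n : ℝ) * a.sum fun p r => r * D.kill i p := by
    rw [Finsupp.sum_smul_index (by simp), Finsupp.mul_sum]
    refine Finset.sum_congr rfl fun p _ => ?_
    ring
  rw [e, hsum, mul_zero, abs_zero]

end Pool.AP
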