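import Pool.Agent.Work.MP_6cbae3_ch.Interface

/-! # Block KIL: the killing functionals (helper82) -/

set_option autoImplicit false

namespace Pool.AP

open Filter Topology Set

theorem kil_mk_le {A : Type} [LinearOrder A] (hI : Idx A) :
    Cardinal.mk A ≤ Cardinal.aleph 1 := by
  have := hI.wf
  by_contra hlt
  push Not at hlt
  have h1 : (Cardinal.aleph 1).ord < Ordinal.type (fun a b : A => a < b) :=
    lt_of_lt_of_le (Cardinal.ord_lt_ord.2 hlt) (Cardinal.ord_le_type _)
  obtain ⟨a, ha⟩ := Ordinal.typein_surj (fun a b : A => a < b) h1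
  have h2 : Cardinal.mk {y : A // y < a} = Cardinal.aleph 1 := by
    have h3 := Ordinal.card_typein (r := fun a b : A => a < b) a
    rw [ha, Cardinal.card_ord] at h3
    exact h3.symm
  have h4 : Cardinal.mk {y : A // y < a} ≤ Cardinal.aleph0 := by
    have : Countable {y : A // y < a} := (hI.cnt a).to_subtype
    exact Cardinal.mk_le_aleph0
  rw [h2] at h4
  exact absurd h4 (not_le.2 Cardinal.aleph0_lt_aleph_one)

theorem kil_kap_le {S : Type} (θ : S → ℝ × (ℕ → ℝ)) (β : S) (k : ℕ) :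
    |kap θ β k| ≤ |(θ β).1| := by
  unfold kap
  rw [abs_mul, abs_div]
  have h0 : (0 : ℝ) < 1 + |(θ β).2 k| := by positivity
  rw [abs_of_pos h0]
  have h1 : |(θ β).2 k| / (1 + |(θ β).2 k|) ≤ 1 := by
    rw [div_le_one h0]; linarith
  calc |(θ β).1| * (|(θ β).2 k| / (1 + |(θ β).2 k|)) ≤ |(θ β).1| * 1 :=
        mul_le_mul_of_nonneg_left h1 (abs_nonneg _)
    _ = _ := mul_one _

theorem blk_KIL (hKM : Stmt_KILLM) : Stmt_KIL := by
  intro hC A _ hI
  classical
  have hcnt : ∀ α : A, Countable (Iio α) := fun α => (hI.cnt α).to_subtype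
  -- cofinal families of meagre sets
  have hfam : ∀ α : A, ∃ F : Set (Set (Iio α → ℝ × (ℕ → ℝ))),
      Cardinal.mk F ≤ Cardinal.aleph 1 ∧ (∀ s ∈ F, IsMeagre s) ∧
      ∀ s : Set (Iio α → ℝ × (ℕ → ℝ)), IsMeagre s → ∃ t ∈ F, s ⊆ t := fun α => hC _
  choose F hF1 hF2 hF3 using hfam
  have hθ : ∀ (α : A) (t : F α), ∃ θ : Iio α → ℝ × (ℕ → ℝ), θ ∉ t.1 := by
    intro α t
    by_contra hcon
    push Not at hcon
    have h1 : t.1 = univ := eq_univ_of_forall hcon
    have h2 := hF2 α t.1 t.2
    rw [h1] at h2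
    exact not_isMeagre_of_isOpen isOpen_univ univ_nonempty h2
  choose θ hθ using hθ
  have hcard : Cardinal.mk (Option (Σ α : A, F α)) ≤ Cardinal.aleph 1 := by
    rw [Cardinal.mk_option, Cardinal.mk_sigma]
    have h1 : Cardinal.sum (fun α : A => Cardinal.mk (F α)) ≤ Cardinal.aleph 1 := by
      calc Cardinal.sum (fun α : A => Cardinal.mk (F α))
          ≤ Cardinal.sum (fun _ : A => Cardinal.aleph 1) := Cardinal.sum_le_sum _ _ hF1
        _ = Cardinal.mk A * Cardinal.aleph 1 := by
            rw [Cardinal.sum_const']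
        _ ≤ Cardinal.aleph 1 * Cardinal.aleph 1 := mul_le_mul_left (kil_mk_le hI) _
        _ = Cardinal.aleph 1 := Cardinal.mul_eq_self (Cardinal.aleph0_le_aleph 1)
    exact Cardinal.add_le_of_le (Cardinal.aleph0_le_aleph 1) h1
      ((Cardinal.one_le_aleph0).trans (Cardinal.aleph0_le_aleph 1))
  obtain ⟨f, hf⟩ := hI.srj (Option (Σ α : A, F α)) hcard
  let kill : A → A × ℕ → ℝ := fun i p => match f i with
    | none => 0
    | some s => if h : p.1 < s.1 then kap (θ s.1 s.2) ⟨p.1, h⟩ p.2 else 0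
  let τ : A → A := fun i => match f i with
    | none => i
    | some s => max i s.1
  have kill_some : ∀ i s p, f i = some s →
      kill i p = if h : p.1 < s.1 then kap (θ s.1 s.2) ⟨p.1, h⟩ p.2 else 0 := by
    intro i s p h
    simp only [kill, h]
  have kill_none : ∀ i p, f i = none → kill i p = 0 := by
    intro i p h
    simp only [kill, h]
  refine ⟨kill, τ, ?_, ?_, ?_, ?_⟩
  · intro i
    rcases h : f i with _ | s
    · simp only [τ, h]; exact le_refl i
    · simp only [τ, h]; exact le_max_left _ _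
  · intro i β
    rcases h : f i with _ | s
    · exact ⟨0, fun k => by rw [kill_none i _ h]; simp⟩
    · by_cases hb : β < s.1
      · refine ⟨|(θ s.1 s.2 ⟨β, hb⟩).1|, fun k => ?_⟩
        rw [kill_some i s _ h, dif_pos hb]
        exact kil_kap_le _ _ _
      · refine ⟨0, fun k => ?_⟩
        rw [kill_some i s _ h, dif_neg hb]
        simp
  · intro b hb
    -- a bound for all supports
    obtain ⟨α, hα⟩ := hI.unb (⋃ n, Prod.fst '' ((b n).support : Set (A × ℕ)))
      (countable_iUnion fun n => ((b n).support.countable_toSet).image _)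
    have hα' : ∀ n, ∀ p ∈ (b n).support, p.1 < α := fun n p hp =>
      hα p.1 (mem_iUnion.2 ⟨n, ⟨p, hp, rfl⟩⟩)
    have hM := hKM A α b (hI.cnt α) hα' hb
    obtain ⟨t, ht, hMt⟩ := hF3 α _ hM
    obtain ⟨i, -, hi⟩ := hf (some ⟨α, ⟨t, ht⟩⟩) α
    refine ⟨i, ?_, ?_⟩
    · intro n p hp
      have : τ i = max i α := by simp only [τ, hi]
      rw [this]
      exact lt_of_lt_of_le (hα' n p hp) (le_max_right _ _)
    · rintro ⟨C, hCb⟩
      apply hθ α ⟨t, ht⟩
      apply hMt
      refine ⟨C, fun n => ?_⟩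
      have h2 := hCb n
      have h3 : ((b n).sum fun p r => r * kill i p) = (b n).sum fun p r =>
          r * if h : p.1 < α then kap (θ α ⟨t, ht⟩) ⟨p.1, h⟩ p.2 else 0 := by
        refine Finsupp.sum_congr fun p _ => ?_
        rw [kill_some i _ p hi]
      rw [h3] at h2
      exact h2
  · intro γ
    obtain ⟨i, hi, hfi⟩ := hf none γ
    exact ⟨i, hi, fun p => kill_none i p hfi⟩

end Pool.AP
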