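import Pool.Agent.Work.MP_6cbae3_ch.Interface

set_option autoImplicit false

namespace Pool.AP

open Filter Topology Set

namespace KILLMaux

/-- the squeezing function -/
noncomputable def rho (y : ℝ) : ℝ := y / (1 + |y|)

theorem continuous_rho : Continuous rho :=
  continuous_id.div (continuous_const.add continuous_abs) fun y => by positivity

theorem rho_sub {a b Y : ℝ} (hab : a < b) (ha : |a| ≤ Y) (hb : |b| ≤ Y) :
    (b - a) / (1 + Y) ^ 2 ≤ rho b - rho a := by
  have h1 : 0 < 1 + |a| := by positivity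
  have h2 : 0 < 1 + |b| := by positivity
  have hY : 0 ≤ Y := (abs_nonneg a).trans ha
  have h3 : rho b - rho a = (b - a + (b * |a| - a * |b|)) / ((1 + |a|) * (1 + |b|)) := by
    unfold rho
    field_simp
    ring
  have h4 : 0 ≤ b * |a| - a * |b| := by
    rcases le_total 0 a with h | h
    · rw [abs_of_nonneg h, abs_of_nonneg (h.trans hab.le)]; linarith
    · rcases le_total 0 b with h' | h'
      · rw [abs_of_nonpos h, abs_of_nonneg h']; nlinarith
      · rw [abs_of_nonpos h, abs_of_nonpos h']; linarith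
  rw [h3]
  have h5 : (1 + |a|) * (1 + |b|) ≤ (1 + Y) ^ 2 := by
    rw [pow_two]; gcongr
  have h6 : 0 < b - a := by linarith
  calc (b - a) / (1 + Y) ^ 2 ≤ (b - a) / ((1 + |a|) * (1 + |b|)) := by gcongr
    _ ≤ _ := by gcongr; linarith

/-- sign of a truth value -/
noncomputable def sg (b : Bool) : ℝ := if b then 1 else -1

theorem sg_not (b : Bool) : sg (!b) = -sg b := by cases b <;> simp [sg]

theorem exists_min {S : Type*} (F : Finset S) (g : S → ℝ) (hg : ∀ x ∈ F, 0 < g x) :
    ∃ m > 0, ∀ x ∈ F, m ≤ g x := by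
  classical
  induction F using Finset.induction_on with
  | empty => exact ⟨1, one_pos, by simp⟩
  | insert a F ha ih =>
    obtain ⟨m, hm, hmF⟩ := ih fun x hx => hg x (Finset.mem_insert_of_mem hx)
    refine ⟨min m (g a), lt_min hm (hg a (Finset.mem_insert_self a F)), fun x hx => ?_⟩
    rcases Finset.mem_insert.1 hx with rfl | hx
    · exact min_le_right _ _
    · exact (min_le_left _ _).trans (hmF x hx)

/-- nonzero scalars and bounded sequences are dense -/
theorem dense_bdd {U : Set (ℝ × (ℕ → ℝ))} (hU : IsOpen U) {z : ℝ × (ℕ → ℝ)} (hz : z ∈ U) :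
    ∃ z' ∈ U, z'.1 ≠ 0 ∧ ∃ Y, ∀ k, |z'.2 k| ≤ Y := by
  have h1 : Tendsto (fun j : ℕ => ((z.1 + 1 / ((j : ℝ) + 1), fun k => if k < j then z.2 k else 0) :
      ℝ × (ℕ → ℝ))) atTop (𝓝 z) := by
    have ha : Tendsto (fun j : ℕ => z.1 + 1 / ((j : ℝ) + 1)) atTop (𝓝 (z.1 + 0)) :=
      tendsto_const_nhds.add tendsto_one_div_add_atTop_nhds_zero_nat
    rw [add_zero] at ha
    refine ha.prodMk_nhds (tendsto_pi_nhds.2 fun k => ?_)
    refine tendsto_const_nhds.congr' ?_
    filter_upwards [eventually_gt_atTop k] with j hj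
    rw [if_pos hj]
  have h2 := h1.eventually (hU.mem_nhds hz)
  rw [eventually_atTop] at h2
  obtain ⟨J, hJ⟩ := h2
  have h3 : ∃ j ≥ J, z.1 + 1 / ((j : ℝ) + 1) ≠ 0 := by
    by_contra hcon
    push Not at hcon
    have h4 := hcon J le_rfl
    have h5 := hcon (J + 1) (Nat.le_succ J)
    have h6 : (1 : ℝ) / ((J : ℝ) + 1) = 1 / (((J + 1 : ℕ) : ℝ) + 1) := by linarith
    have h7 : (0 : ℝ) < (J : ℝ) + 1 := by positivity
    have h8 : (0 : ℝ) < ((J + 1 : ℕ) : ℝ) + 1 := by positivity
    rw [div_eq_div_iff h7.ne' h8.ne'] at h6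
    push_cast at h6
    linarith
  obtain ⟨j, hj, hne⟩ := h3
  refine ⟨_, hJ j hj, hne, ∑ i ∈ Finset.range j, |z.2 i|, fun k => ?_⟩
  simp only
  split_ifs with h
  · exact Finset.single_le_sum (f := fun i => |z.2 i|) (fun i _ => abs_nonneg _)
      (Finset.mem_range.2 h)
  · rw [abs_zero]; exact Finset.sum_nonneg fun i _ => abs_nonneg _

end KILLMaux

open KILLMaux in
theorem blk_KILLM : Stmt_KILLM := by
  classical
  intro A _ α b _ hsupp hT
  -- the functionals
  set Lf : ℕ → (Iio α → ℝ × (ℕ → ℝ)) → ℝ := fun n θ =>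
    (b n).sum fun p r => r * if h : p.1 < α then kap θ ⟨p.1, h⟩ p.2 else 0 with hLf
  have hkap : ∀ (θ : Iio α → ℝ × (ℕ → ℝ)) β k, kap θ β k = (θ β).1 * rho ((θ β).2 k) :=
    fun _ _ _ => rfl
  have hcont : ∀ n, Continuous (Lf n) := by
    intro n
    simp only [hLf, Finsupp.sum]
    refine continuous_finsetSum _ fun p _ => continuous_const.mul ?_
    by_cases h : p.1 < α
    · simp only [h, dif_pos]
      simp only [hkap]
      have h1 : Continuous fun θ : Iio α → ℝ × (ℕ → ℝ) => θ ⟨p.1, h⟩ := continuous_apply _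
      have h2 : Continuous fun θ : Iio α → ℝ × (ℕ → ℝ) => (θ ⟨p.1, h⟩).2 p.2 :=
        (continuous_apply p.2).comp (continuous_snd.comp h1)
      exact (continuous_fst.comp h1).mul (continuous_rho.comp h2)
    · simp only [h, dif_neg, not_false_iff]
      exact continuous_const
  have hset : {θ : Iio α → ℝ × (ℕ → ℝ) | ∃ C, ∀ n, |Lf n θ| ≤ C} =
      ⋃ C : ℕ, {θ | ∀ n, |Lf n θ| ≤ C} := by
    ext θ
    simp only [mem_ofPred_eq, mem_iUnion]
    constructor
    · rintro ⟨C, hC⟩
      obtain ⟨N, hN⟩ := exists_nat_ge C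
      exact ⟨N, fun n => (hC n).trans hN⟩
    · rintro ⟨C, hC⟩
      exact ⟨C, hC⟩
  rw [hset]
  refine isMeagre_iUnion fun C => ?_
  have hclosed : IsClosed {θ : Iio α → ℝ × (ℕ → ℝ) | ∀ n, |Lf n θ| ≤ C} := by
    rw [ofPred_forall]
    exact isClosed_iInter fun n => isClosed_le (hcont n).abs continuous_const
  refine IsNowhereDense.isMeagre ?_
  rw [IsNowhereDense, hclosed.closure_eq]
  by_contra hne
  obtain ⟨θ₀, hθ₀⟩ := nonempty_iff_ne_empty.2 hne
  rw [mem_interior] at hθ₀
  obtain ⟨U, hUS, hUo, hθU⟩ := hθ₀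
  obtain ⟨F, u, hu, hFU⟩ := isOpen_pi_iff.1 hUo θ₀ hθU
  -- first case
  by_cases hcase : ∃ n, ∃ p ∈ (b n).support, ∀ h : p.1 < α, (⟨p.1, h⟩ : Iio α) ∉ F
  · obtain ⟨n, p, hp, hpF⟩ := hcase
    have hpα : p.1 < α := hsupp n p hp
    set β : Iio α := ⟨p.1, hpα⟩ with hβ
    have hβF : β ∉ F := hpF hpα
    set v : ℕ → ℝ := fun k => if 0 ≤ b n (p.1, k) then 1 else -1 with hv
    set θ : ℝ → Iio α → ℝ × (ℕ → ℝ) := fun c => Function.update θ₀ β (c, v) with hθ
    have hθU : ∀ c, θ c ∈ U := by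
      intro c
      apply hFU
      intro γ hγ
      have hγβ : γ ≠ β := fun h => hβF (h ▸ hγ)
      simp only [hθ]
      rw [Function.update_of_ne hγβ]
      exact (hu γ hγ).2
    -- values
    have hval : ∀ c, Lf n (θ c) = Lf n (θ 0) + c * ∑ q ∈ (b n).support with q.1 = p.1,
        |b n q| / 2 := by
      intro c
      simp only [hLf, Finsupp.sum]
      rw [Finset.mul_sum, Finset.sum_filter, ← Finset.sum_add_distrib]
      refine Finset.sum_congr rfl fun q hq => ?_
      have hqα : q.1 < α := hsupp n q hq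
      simp only [hqα, dif_pos, hkap]
      by_cases hqp : q.1 = p.1
      · have h1 : (⟨q.1, hqα⟩ : Iio α) = β := Subtype.ext hqp
        rw [if_pos hqp, h1]
        simp only [hθ, Function.update_self]
        have h2 : b n q * rho (v q.2) = |b n q| / 2 := by
          have h3 : (p.1, q.2) = q := by rw [← hqp]
          simp only [hv, h3]
          split_ifs with h4
          · rw [abs_of_nonneg h4]; unfold rho; norm_num; ring
          · rw [abs_of_neg (not_le.1 h4)]; unfold rho; norm_num; ring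
        rw [← h2]; ring
      · have h1 : (⟨q.1, hqα⟩ : Iio α) ≠ β := fun h => hqp (congrArg Subtype.val h)
        rw [if_neg hqp]
        simp only [hθ, Function.update_of_ne h1, add_zero]
    have hpos : 0 < ∑ q ∈ (b n).support with q.1 = p.1, |b n q| / 2 := by
      refine Finset.sum_pos (fun q hq => ?_) ⟨p, Finset.mem_filter.2 ⟨hp, rfl⟩⟩
      have := Finsupp.mem_support_iff.1 (Finset.mem_filter.1 hq).1
      positivity
    set σ := ∑ q ∈ (b n).support with q.1 = p.1, |b n q| / 2 with hσ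
    have h1 := hUS (hθU ((2 * C + 1) / σ)) n
    have h2 := hUS (hθU 0) n
    rw [hval, div_mul_cancel₀ _ hpos.ne'] at h1
    rw [abs_le] at h1 h2
    linarith [h1.2, h2.1]
  · -- second case
    push Not at hcase
    apply hT
    have hch : ∀ β : Iio α, ∃ z : ℝ × (ℕ → ℝ), (β ∈ F → z ∈ u β) ∧ z.1 ≠ 0 ∧
        ∃ Y, ∀ k, |z.2 k| ≤ Y := by
      intro β
      by_cases hβ : β ∈ F
      · obtain ⟨z, hz, hz1, hz2⟩ := dense_bdd (hu β hβ).1 (hu β hβ).2
        exact ⟨z, fun _ => hz, hz1, hz2⟩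
      · exact ⟨(1, 0), fun h => absurd h hβ, one_ne_zero, 0, by simp⟩
    choose θ₁ hθ₁ hθ₁c Y hY using hch
    have hθ₁U : θ₁ ∈ U := hFU fun β hβ => hθ₁ β hβ
    -- perturbation
    set Φ : ℝ × (Iio α → ℕ → Bool) → (Iio α → ℝ × (ℕ → ℝ)) := fun q β =>
      ((θ₁ β).1, fun k => (θ₁ β).2 k + q.1 * sg (q.2 β k)) with hΦ
    have hΦc : Continuous Φ := by
      refine continuous_pi fun β => Continuous.prodMk continuous_const (continuous_pi fun k => ?_)
      refine continuous_const.add (continuous_fst.mul ?_)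
      have h1 : Continuous sg := continuous_of_discreteTopology
      exact h1.comp ((continuous_apply k).comp ((continuous_apply β).comp continuous_snd))
    have hev : ∀ᶠ t in 𝓝 (0 : ℝ), ∀ s ∈ (univ : Set (Iio α → ℕ → Bool)), Φ (t, s) ∈ U := by
      refine isCompact_univ.eventually_forall_of_forall_eventually fun s _ => ?_
      refine hΦc.continuousAt.eventually (hUo.mem_nhds ?_)
      have : Φ (0, s) = θ₁ := by
        ext β k <;> simp [hΦ]
      rw [this]
      exact hθ₁U
    obtain ⟨t, ht0, htΦ⟩ : ∃ t > 0, ∀ s, Φ (t, s) ∈ U := by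
      obtain ⟨ε, hε, hball⟩ := Metric.eventually_nhds_iff.1 hev
      refine ⟨ε / 2, half_pos hε, fun s => hball ?_ s (mem_univ s)⟩
      rw [Real.dist_eq, sub_zero, abs_of_pos (half_pos hε)]
      linarith
    obtain ⟨m, hm, hmF⟩ := exists_min F (fun β => |(θ₁ β).1| * (2 * t / (1 + (Y β + t)) ^ 2)) (by
      intro β _
      have h1 : 0 ≤ Y β := (abs_nonneg _).trans (hY β 0)
      have h2 := abs_pos.2 (hθ₁c β)
      positivity)
    refine ⟨F.map (Function.Embedding.subtype _), 2 * C / m, fun n => ⟨fun p hp => ?_, ?_⟩⟩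
    · obtain ⟨h, hF⟩ := hcase n p hp
      exact Finset.mem_map.2 ⟨⟨p.1, h⟩, hF, rfl⟩
    · rw [le_div_iff₀ hm]
      set s : Iio α → ℕ → Bool := fun β k => decide (0 ≤ b n (β.1, k) * (θ₁ β).1) with hs
      have h1 := hUS (htΦ s) n
      have h2 := hUS (htΦ fun β k => !(s β k)) n
      have h3 : (∑ p ∈ (b n).support, |b n p|) * m ≤ Lf n (Φ (t, s)) -
          Lf n (Φ (t, fun β k => !(s β k))) := by
        simp only [hLf, Finsupp.sum]
        rw [Finset.sum_mul, ← Finset.sum_sub_distrib]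
        refine Finset.sum_le_sum fun p hp => ?_
        have hpα : p.1 < α := hsupp n p hp
        obtain ⟨_, hpF⟩ := hcase n p hp
        simp only [hpα, dif_pos, hkap, hΦ]
        set β : Iio α := ⟨p.1, hpα⟩ with hβ
        have hm' := hmF β hpF
        have hy : |(θ₁ β).2 p.2| ≤ Y β := hY β p.2
        have h5 : 2 * t / (1 + (Y β + t)) ^ 2 ≤
            rho ((θ₁ β).2 p.2 + t) - rho ((θ₁ β).2 p.2 - t) := by
          have h6 := rho_sub (a := (θ₁ β).2 p.2 - t) (b := (θ₁ β).2 p.2 + t) (Y := Y β + t)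
            (by linarith) (by rw [abs_le] at hy ⊢; constructor <;> linarith [hy.1, hy.2])
            (by rw [abs_le] at hy ⊢; constructor <;> linarith [hy.1, hy.2])
          have h7 : (θ₁ β).2 p.2 + t - ((θ₁ β).2 p.2 - t) = 2 * t := by ring
          rw [h7] at h6
          exact h6
        have h8 : |b n p| * m ≤ |b n p| * (|(θ₁ β).1| *
            (rho ((θ₁ β).2 p.2 + t) - rho ((θ₁ β).2 p.2 - t))) := by
          refine mul_le_mul_of_nonneg_left (hm'.trans ?_) (abs_nonneg _)
          exact mul_le_mul_of_nonneg_left h5 (abs_nonneg _)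
        refine h8.trans (le_of_eq ?_)
        have h9 : s β p.2 = decide (0 ≤ b n p * (θ₁ β).1) := by simp [hs, hβ]
        rw [sg_not, h9]
        by_cases h10 : 0 ≤ b n p * (θ₁ β).1
        · have h11 : |b n p| * |(θ₁ β).1| = b n p * (θ₁ β).1 := by
            rw [← abs_mul, abs_of_nonneg h10]
          have h12 : sg (decide (0 ≤ b n p * (θ₁ β).1)) = 1 := by
            rw [decide_eq_true h10]; rfl
          rw [h12, ← mul_assoc, h11, mul_one, mul_neg, mul_one, ← sub_eq_add_neg]
          ring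
        · have h11 : |b n p| * |(θ₁ β).1| = -(b n p * (θ₁ β).1) := by
            rw [← abs_mul, abs_of_neg (not_le.1 h10)]
          have h12 : sg (decide (0 ≤ b n p * (θ₁ β).1)) = -1 := by
            rw [decide_eq_false h10]; rfl
          rw [h12, ← mul_assoc, h11, mul_neg, mul_one, neg_neg, mul_one, ← sub_eq_add_neg]
          ring
      rw [abs_le] at h1 h2
      linarith [h1.2, h2.1]

end Pool.AP
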