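import Pool.Agent.Work.MP_6cbae3_ch.Basic

/-! # MP_6cbae3_an: block KU (helper89) -/

set_option autoImplicit false

namespace Pool.AP

open Filter Topology Set

/-- the sections of an open dense set -/
theorem ku_open_dense {Y W : Type*} [TopologicalSpace Y] [TopologicalSpace W]
    [SecondCountableTopology W] {O : Set (Y × W)} (ho : IsOpen O) (hd : Dense O) :
    ∀ᶠ y in residual Y, Dense {w | (y, w) ∈ O} := by
  have hB := TopologicalSpace.isBasis_countableBasis W
  have hc := TopologicalSpace.countable_countableBasis W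
  have h1 : ∀ᶠ y in residual Y, ∀ V ∈ TopologicalSpace.countableBasis W, V.Nonempty →
      ∃ w ∈ V, (y, w) ∈ O := by
    rw [eventually_countable_ball hc]
    intro V hV
    by_cases hne : V.Nonempty
    · have hVo : IsOpen V := hB.isOpen hV
      have e : {y : Y | V.Nonempty → ∃ w ∈ V, (y, w) ∈ O} = Prod.fst '' (O ∩ univ ×ˢ V) := by
        ext y
        constructor
        · intro h
          obtain ⟨w, hw, hyw⟩ := h hne
          exact ⟨(y, w), ⟨hyw, ⟨mem_univ _, hw⟩⟩, rfl⟩
        · rintro ⟨⟨y', w⟩, ⟨h1, h2⟩, rfl⟩ _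
          exact ⟨w, h2.2, h1⟩
      change {y : Y | V.Nonempty → ∃ w ∈ V, (y, w) ∈ O} ∈ residual Y
      rw [e]
      refine residual_of_dense_open (isOpenMap_fst _ (ho.inter (isOpen_univ.prod hVo))) ?_
      rw [dense_iff_inter_open]
      intro U hU hUne
      obtain ⟨y, hy⟩ := hUne
      obtain ⟨w, hw⟩ := hne
      obtain ⟨⟨y', w'⟩, h1, h2⟩ := hd.inter_open_nonempty (U ×ˢ V) (hU.prod hVo)
        ⟨(y, w), ⟨hy, hw⟩⟩
      exact ⟨y', h1.1, ⟨(y', w'), ⟨h2, ⟨mem_univ _, h1.2⟩⟩, rfl⟩⟩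
    · exact Eventually.of_forall fun y h => absurd h hne
  filter_upwards [h1] with y hy
  rw [hB.dense_iff]
  intro V hV hne
  obtain ⟨w, hw, h⟩ := hy V hV hne
  exact ⟨w, hw, h⟩

theorem blk_KU : Stmt_KU := by
  intro Y W _ _ _ s hs
  rw [mem_residual_iff] at hs
  obtain ⟨S, hSo, hSd, hSc, hSs⟩ := hs
  have h2 : ∀ᶠ y in residual Y, ∀ O ∈ S, Dense {w | (y, w) ∈ O} :=
    (eventually_countable_ball hSc).2 fun O hO => ku_open_dense (hSo O hO) (hSd O hO)
  filter_upwards [h2] with y hy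
  have h3 : ∀ᶠ w in residual W, ∀ O ∈ S, (y, w) ∈ O :=
    (eventually_countable_ball hSc).2 fun O hO =>
      residual_of_dense_open ((hSo O hO).preimage (by fun_prop)) (hy O hO)
  filter_upwards [h3] with w hw
  exact hSs (mem_sInter.2 hw)

end Pool.AP
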