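import Pool.Agent.Work.MP_6cbae3_ch.B_KU

/-! # MP_6cbae3_an: block KUL (helper89) -/

set_option autoImplicit false

namespace Pool.AP

open Filter Topology Set

theorem blk_KUL (hKU : Stmt_KU) : Stmt_KUL := by
  intro W _ _ n
  induction n with
  | zero =>
    intro M hM Q s h
    have hd : Dense (Mᶜ : Set (Fin 0 → W)) := dense_of_mem_residual hM
    obtain ⟨x, hx⟩ := hd.nonempty
    have := h x hx
    rw [List.ofFn_zero, List.append_nil] at this
    exact this
  | succ n ih =>
    intro M hM Q s h
    let e : W × (Fin n → W) ≃ₜ (Fin (n + 1) → W) :=
      { toFun := fun p => Fin.cons p.1 p.2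
        invFun := fun x => (x 0, Fin.tail x)
        left_inv := fun p => by simp
        right_inv := fun x => by simp
        continuous_toFun := by
          refine continuous_pi fun i => ?_
          refine Fin.cases ?_ (fun j => ?_) i
          · simpa using continuous_fst
          · have h3 : Continuous (fun a : W × (Fin n → W) => a.2 j) :=
              (continuous_apply j).comp continuous_snd
            simpa using h3
        continuous_invFun :=
          (continuous_apply 0).prodMk (continuous_pi fun i => continuous_apply i.succ) }
    have h1 : e ⁻¹' Mᶜ ∈ residual (W × (Fin n → W)) := residual_preimage e.continuous e.isOpenMap hM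
    have h2 := hKU W (Fin n → W) _ h1
    change ∀ᶠ w in residual W, It Q n (s ++ [w])
    filter_upwards [h2] with w hw
    refine ih {x | e (w, x) ∈ M} ?_ Q (s ++ [w]) ?_
    · exact hw
    · intro x hx
      have := h (e (w, x)) hx
      have e2 : List.ofFn (e (w, x)) = w :: List.ofFn x := by
        change List.ofFn (Fin.cons w x : Fin (n + 1) → W) = _
        rw [List.ofFn_succ]
        simp
      rw [e2] at this
      rw [List.append_assoc]
      exact this

end Pool.AP
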