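import Pool.Agent.Work.MP_6cbae3_ch.Basic

/-! # Block M1 (helper4): generically all conditions for differentiability hold -/

set_option autoImplicit false

namespace Pool.AP

open Filter Topology Set

theorem blk_M1 (hM1A : Stmt_M1A) (hCLOSE : Stmt_CLOSE) (hGDR : Stmt_GDR) (hFIXQ : Stmt_FIXQ)
    (hRESP : Stmt_RESP) : Stmt_M1 := by
  intro A _ D hD m I G L hI hG
  obtain ⟨α₀, hα₀, hclose⟩ := hCLOSE A D hD m I G L hI hG
  obtain ⟨i0, hi0, hkill⟩ := hD.k3 α₀
  -- the three generic conditions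
  have h1 : ∀ᶠ x in residual D.E, GD G (D.pr I x) := hRESP A D hD m I hI _ (hGDR m G L hG)
  have h2 : ∀ᶠ x in residual D.E, ∀ η ∈ Iio α₀, ∀ κ > 0, ¬ Seen G κ (D.pr I x) (D.q η) := by
    rw [eventually_countable_ball (hD.idx.cnt α₀)]
    intro η _
    exact hRESP A D hD m I hI _ (hFIXQ m G L (D.q η) hG)
  have h3 : ∀ᶠ x in residual D.E, x.1.2 i0 ≠ 0 := by
    have hs : {z : Z 1 | z.2 0 ≠ 0} ∈ residual (Z 1) := by
      refine residual_of_dense_open ?_ ?_
      · exact isOpen_ne.preimage ((continuous_apply 0).comp continuous_snd)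
      · have h : Dense {t : ℝ | t ≠ 0} := dense_compl_singleton 0
        have ho : IsOpenMap (fun z : Z 1 => z.2 0) :=
          (isOpenMap_eval (0 : Fin 1)).comp isOpenMap_snd
        exact h.preimage ho
    have := hRESP A D hD 1 (fun _ => i0) (Function.injective_of_subsingleton _) _ hs
    exact this
  filter_upwards [h1, h2, h3] with x hx1 hx2 hx3
  refine ⟨hx1, fun η κ hκ hseen => ?_⟩
  rcases lt_or_ge η α₀ with hη | hη
  · exact hx2 η hη κ hκ hseen
  obtain ⟨e, he⟩ := x.2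
  have hx : x = ⟨D.J e, ⟨e, rfl⟩⟩ := Subtype.ext he.symm
  have hmain : ∃ p, α₀ ≤ p ∧ e (p, 0) ≠ 0 := by
    have h4 : x.1.2 i0 = e.sum fun p r => r * D.phi i0 p := by
      rw [← he]
      unfold Data.J
      rw [Finsupp.linearCombination_apply, Finsupp.sum, Finsupp.sum, Prod.snd_sum, Finset.sum_apply]
      rfl
    rw [h4, Finsupp.sum] at hx3
    obtain ⟨p, hp, hp0⟩ := Finset.exists_ne_zero_of_sum_ne_zero hx3
    have hep : e p ≠ 0 := left_ne_zero_of_mul hp0
    have hphi : D.phi i0 p ≠ 0 := right_ne_zero_of_mul hp0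
    unfold Data.phi at hphi
    by_cases hlt : p.1 < D.τ i0
    · rw [if_pos hlt, hkill p] at hphi
      exact absurd rfl hphi
    · rw [if_neg hlt] at hphi
      by_cases hp2 : p.2 = 0
      · refine ⟨p.1, hi0.trans ((hD.le i0).trans (not_lt.1 hlt)), ?_⟩
        rw [← hp2]
        exact hep
      · rw [if_neg hp2] at hphi
        exact absurd rfl hphi
  obtain ⟨F, k, n, a, j, r, d, p, hF, ha, ha0, haj, hr, hpr⟩ :=
    hM1A A D hD m I α₀ η hα₀ hη e hmain
  refine hclose F k n hF a ha ha0 ⟨k, r, d, p, j, κ, hr, hκ, ?_, ?_⟩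
  · rw [← hpr, ← hx]
    exact hx1
  · rw [← hpr, ← hx]
    have : qq D.b D.c (D.y (a j)) = D.q η := by rw [haj]; rfl
    rw [this]
    exact hseen

end Pool.AP
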