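import Pool.Agent.Work.MP_6cbae3_ch.Interface

/-! # Block M1A (helper48): an element of `E` in terms of old and new stages -/

set_option autoImplicit false

namespace Pool.AP

open Filter Topology Set

/-- restriction of a vector to finitely many functionals, as a linear map -/
def prL {A : Type} {m : ℕ} (I : Fin m → A) : X × (A → ℝ) →ₗ[ℝ] Z m where
  toFun x := (x.1, fun i => x.2 (I i))
  map_add' _ _ := rfl
  map_smul' _ _ := rfl

theorem m1a_new_main {A : Type} [LinearOrder A] (D : Data A) {m : ℕ} (I : Fin m → A) {α : A}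
    (h : ∀ i, D.τ (I i) ≤ α) :
    prL I (D.eh (α, 0)) = vx ((D.y α, fun j => D.ζ α (I j)) : Pt m) := by
  show (D.vecX (α, 0), fun i => D.phi (I i) (α, 0)) = ((D.y α).1, fun j => D.ζ α (I j))
  have h1 : D.vecX (α, 0) = (D.y α).1 := if_pos rfl
  have h2 : (fun i => D.phi (I i) (α, 0)) = fun j => D.ζ α (I j) := by
    funext i
    show (if α < D.τ (I i) then D.kill (I i) (α, 0) else if (0 : ℕ) = 0 then D.ζ α (I i) else 0) = _
    rw [if_neg (not_lt.2 (h i)), if_pos rfl]
  rw [h1, h2]

theorem m1a_new_bump {A : Type} [LinearOrder A] (D : Data A) {m : ℕ} (I : Fin m → A) {α : A}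
    (h : ∀ i, D.τ (I i) ≤ α) (k : ℕ) :
    prL I (D.eh (α, k + 1)) = vy D.b D.c ((D.y α, fun j => D.ζ α (I j)) : Pt m) k := by
  show (D.vecX (α, k + 1), fun i => D.phi (I i) (α, k + 1)) =
    (bump (qq D.b D.c (D.y α)) (D.y α).2.2 k, (0 : Fin m → ℝ))
  have h1 : D.vecX (α, k + 1) = bump (qq D.b D.c (D.y α)) (D.y α).2.2 k := by
    show (if k + 1 = 0 then (D.y α).1 else bump (D.q α) (D.y α).2.2 (k + 1 - 1)) = _
    rw [if_neg (Nat.succ_ne_zero k)]
    rfl
  have h2 : (fun i => D.phi (I i) (α, k + 1)) = (0 : Fin m → ℝ) := by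
    funext i
    show (if α < D.τ (I i) then D.kill (I i) (α, k + 1) else
      if k + 1 = 0 then D.ζ α (I i) else 0) = _
    rw [if_neg (not_lt.2 (h i)), if_neg (Nat.succ_ne_zero k)]
    rfl
  rw [h1, h2]

theorem blk_M1A : Stmt_M1A := by
  intro A _ D _ m I α₀ η hτ hη e he
  classical
  set S₁ : Finset A := e.support.image Prod.fst with hS₁
  set F : Finset A := S₁.filter (fun α => α < α₀) with hF
  set S : Finset A := insert η (S₁.filter (fun α => α₀ ≤ α)) with hS
  set k : ℕ := e.support.sup Prod.snd with hk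
  have hkb : ∀ p ∈ e.support, p.2 < k + 1 := fun p hp =>
    Nat.lt_succ_of_le (Finset.le_sup (f := Prod.snd) hp)
  have hFlt : ∀ a ∈ F, a < α₀ := fun a ha => (Finset.mem_filter.1 ha).2
  have hSge : ∀ a ∈ S, α₀ ≤ a := by
    intro a ha
    rcases Finset.mem_insert.1 ha with rfl | ha
    · exact hη
    · exact (Finset.mem_filter.1 ha).2
  have hdisj : Disjoint F S := by
    rw [Finset.disjoint_left]
    intro a ha hb
    exact absurd (hFlt a ha) (not_lt.2 (hSge a hb))
  set n : ℕ := S.card with hn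
  set a : Fin n ↪o A := S.orderEmbOfFin rfl with ha
  have hmem : ∀ i, a i ∈ S := fun i => Finset.orderEmbOfFin_mem S rfl i
  have hsurj : ∀ α ∈ S, ∃ i, a i = α := by
    intro α hα
    have h1 : Set.range a = (S : Set A) := Finset.range_orderEmbOfFin S rfl
    have h2 : α ∈ Set.range a := by rw [h1]; exact hα
    exact h2
  obtain ⟨j, hj⟩ := hsurj η (Finset.mem_insert_self _ _)
  obtain ⟨p₀, hp₀, hp₀'⟩ := he
  have hp₀S : p₀ ∈ S := by
    refine Finset.mem_insert_of_mem (Finset.mem_filter.2 ⟨?_, hp₀⟩)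
    exact Finset.mem_image.2 ⟨(p₀, 0), Finsupp.mem_support_iff.2 hp₀', rfl⟩
  obtain ⟨j₀, hj₀⟩ := hsurj p₀ hp₀S
  refine ⟨F, k, n, a, j, fun l => e (a l, 0), fun l i => e (a l, (i : ℕ) + 1),
    fun i => e (i.1.1, i.2.1), hFlt, a.strictMono, fun i => hSge _ (hmem i), hj, ?_, ?_⟩
  · intro h0
    have := congrFun h0 j₀
    simp only [Pi.zero_apply] at this
    rw [hj₀] at this
    exact hp₀' this
  · -- the main computation
    set f : A × ℕ → Z m := fun p => e p • prL I (D.eh p) with hf
    have h1 : D.pr I ⟨D.J e, ⟨e, rfl⟩⟩ = ∑ p ∈ e.support, f p := by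
      show prL I (D.J e) = _
      rw [Data.J, Finsupp.linearCombination_apply, Finsupp.sum, map_sum]
      refine Finset.sum_congr rfl fun p _ => ?_
      rw [map_smul]
    have h2 : ∑ p ∈ e.support, f p = ∑ p ∈ (F ∪ S) ×ˢ Finset.range (k + 1), f p := by
      refine Finset.sum_subset ?_ ?_
      · intro p hp
        rw [Finset.mem_product]
        refine ⟨?_, Finset.mem_range.2 (hkb p hp)⟩
        have hp1 : p.1 ∈ S₁ := Finset.mem_image.2 ⟨p, hp, rfl⟩
        rcases lt_or_ge p.1 α₀ with h | h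
        · exact Finset.mem_union_left _ (Finset.mem_filter.2 ⟨hp1, h⟩)
        · exact Finset.mem_union_right _
            (Finset.mem_insert_of_mem (Finset.mem_filter.2 ⟨hp1, h⟩))
      · intro p _ hp
        have : e p = 0 := Finsupp.notMem_support_iff.1 hp
        simp only [hf, this, zero_smul]
    have h3 : ∑ p ∈ (F ∪ S) ×ˢ Finset.range (k + 1), f p =
        ∑ α ∈ F, ∑ i ∈ Finset.range (k + 1), f (α, i) +
          ∑ α ∈ S, ∑ i ∈ Finset.range (k + 1), f (α, i) := by
      rw [Finset.sum_product, Finset.sum_union hdisj]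
    have h4 : ∑ α ∈ F, ∑ i ∈ Finset.range (k + 1), f (α, i) =
        ∑ i : F × Fin (k + 1), e (i.1.1, i.2.1) • D.pr I (D.ehE (i.1.1, i.2.1)) := by
      rw [Fintype.sum_prod_type]
      rw [← Finset.sum_coe_sort F (fun α => ∑ i ∈ Finset.range (k + 1), f (α, i))]
      refine Finset.sum_congr rfl fun α _ => ?_
      rw [← Fin.sum_univ_eq_sum_range (fun i => f (α, i)) (k + 1)]
      rfl
    have h5 : ∑ α ∈ S, ∑ i ∈ Finset.range (k + 1), f (α, i) =
        ∑ l : Fin n, (e (a l, 0) • vx ((D.y (a l), fun j => D.ζ (a l) (I j)) : Pt m) +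
          ∑ i : Fin k, e (a l, (i : ℕ) + 1) •
            vy D.b D.c ((D.y (a l), fun j => D.ζ (a l) (I j)) : Pt m) i) := by
      have h6 : ∀ l : Fin n, ∀ i, D.τ (I i) ≤ a l := fun l i => (hτ i).trans (hSge _ (hmem l))
      have h7 : ∀ l : Fin n, (e (a l, 0) • vx ((D.y (a l), fun j => D.ζ (a l) (I j)) : Pt m) +
          ∑ i : Fin k, e (a l, (i : ℕ) + 1) •
            vy D.b D.c ((D.y (a l), fun j => D.ζ (a l) (I j)) : Pt m) i) =
          ∑ i ∈ Finset.range (k + 1), f (a l, i) := by
        intro l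
        rw [Finset.sum_range_succ', add_comm]
        congr 1
        · rw [← Fin.sum_univ_eq_sum_range (fun i => f (a l, i + 1)) k]
          refine Finset.sum_congr rfl fun i _ => ?_
          simp only [hf]
          rw [m1a_new_bump D I (h6 l)]
        · simp only [hf]
          rw [m1a_new_main D I (h6 l)]
      rw [Finset.sum_congr rfl fun l _ => h7 l]
      rw [← Finset.sum_image (s := Finset.univ) (g := a)
        (f := fun α => ∑ i ∈ Finset.range (k + 1), f (α, i)) (fun x _ y _ h => a.injective h)]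
      congr 1
      ext α
      constructor
      · intro hα
        obtain ⟨i, hi⟩ := hsurj α hα
        exact Finset.mem_image.2 ⟨i, Finset.mem_univ _, hi⟩
      · intro hα
        obtain ⟨i, _, hi⟩ := Finset.mem_image.1 hα
        rw [← hi]
        exact hmem i
    rw [h1, h2, h3, h4, h5, Finset.sum_add_distrib, add_comm]
    rfl

end Pool.AP
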