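import Pool.Agent.Work.MP_6cbae3_ch.Interface

/-! # Block NDIF: the function on `E × ℝ` is not Fréchet differentiable at `(x α, t α)` -/

set_option autoImplicit false

namespace Pool.AP.NDIF18

open Filter Topology Set Pool.AP

theorem abs_rough_le (r : ℕ → X) (k : ℕ) (p : K) :
    |(((2 : ℝ) ^ k * (1 + ‖r k‖))⁻¹ • r k) p| ≤ ((2 : ℝ) ^ k)⁻¹ := by
  have h1 : |r k p| ≤ ‖r k‖ := (r k).norm_coe_le_norm p
  have h2 : 0 ≤ ‖r k‖ := norm_nonneg _
  have h3 : (0 : ℝ) < 2 ^ k := by positivity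
  simp only [ContinuousMap.smul_apply, smul_eq_mul, abs_mul]
  rw [abs_of_pos (by positivity), mul_inv, mul_assoc]
  have h4 : (1 + ‖r k‖)⁻¹ * |r k p| ≤ 1 := by
    rw [inv_mul_le_one₀ (by linarith)]
    linarith
  calc ((2 : ℝ) ^ k)⁻¹ * ((1 + ‖r k‖)⁻¹ * |r k p|) ≤ ((2 : ℝ) ^ k)⁻¹ * 1 :=
        mul_le_mul_of_nonneg_left h4 (by positivity)
    _ = _ := mul_one _

theorem norm_bump_le (q : K) (r : ℕ → X) (k : ℕ) : ‖bump q r k‖ ≤ 2 := by
  unfold bump
  refine (norm_add_le _ _).trans ?_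
  have h1 := norm_cylf_le q k
  have h2 : ‖((2 : ℝ) ^ k * (1 + ‖r k‖))⁻¹ • r k‖ ≤ 1 := by
    rw [ContinuousMap.norm_le _ zero_le_one]
    intro p
    refine (abs_rough_le r k p).trans ?_
    exact inv_le_one_of_one_le₀ (one_le_pow₀ (by norm_num))
  linarith

variable {A : Type} [LinearOrder A] (D : Data A)

/-- the set of bumps of a stage -/
def B (α : A) : Set (D.E × ℝ) := range fun k : ℕ => (D.ehE (α, k + 1), (0 : ℝ))

theorem bounded_B (hD : D.Good) (α : A) : Bornology.IsVonNBounded ℝ (B D α) := by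
  refine Bornology.isVonNBounded_of_smul_tendsto_zero (l := atTop)
    (ε := fun n : ℕ => ((n : ℝ) + 1)⁻¹) (Eventually.of_forall fun n => by positivity) ?_
  intro x hx
  choose k hk using hx
  have hε : Tendsto (fun n : ℕ => ((n : ℝ) + 1)⁻¹) atTop (𝓝 0) := by
    simpa using tendsto_one_div_add_atTop_nhds_zero_nat (𝕜 := ℝ)
  have hx' : x = fun n => (D.ehE (α, k n + 1), (0 : ℝ)) := by
    funext n; exact (hk n).symm
  subst hx'
  have hreal : ∀ (u : ℕ → ℝ) (C : ℝ), (∀ n, |u n| ≤ C) →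
      Tendsto (fun n : ℕ => ((n : ℝ) + 1)⁻¹ * u n) atTop (𝓝 0) := by
    intro u C hu
    refine squeeze_zero_norm (a := fun n : ℕ => ((n : ℝ) + 1)⁻¹ * C) (fun n => ?_) ?_
    · rw [Real.norm_eq_abs, abs_mul, abs_of_pos (by positivity)]
      exact mul_le_mul_of_nonneg_left (hu n) (by positivity)
    · simpa using hε.mul_const C
  have h1 : Tendsto (fun n : ℕ => ((n : ℝ) + 1)⁻¹ • D.vecX (α, k n + 1)) atTop (𝓝 0) := by
    rw [tendsto_zero_iff_norm_tendsto_zero]
    have : ∀ n : ℕ, ‖((n : ℝ) + 1)⁻¹ • D.vecX (α, k n + 1)‖ =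
        ((n : ℝ) + 1)⁻¹ * ‖D.vecX (α, k n + 1)‖ := by
      intro n
      rw [norm_smul, Real.norm_eq_abs, abs_of_pos (by positivity)]
    simp only [this]
    refine hreal _ 2 fun n => ?_
    rw [abs_norm]
    unfold Data.vecX
    rw [if_neg (by simp)]
    exact norm_bump_le _ _ _
  have h2 : Tendsto (fun n : ℕ => ((n : ℝ) + 1)⁻¹ • (fun i => D.phi i (α, k n + 1))) atTop
      (𝓝 (0 : A → ℝ)) := by
    rw [tendsto_pi_nhds]
    intro i
    obtain ⟨C, hC⟩ := hD.k1 i α
    refine hreal (fun n => D.phi i (α, k n + 1)) (max C 0) fun n => ?_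
    show |D.phi i (α, k n + 1)| ≤ max C 0
    by_cases h : α < D.τ i
    · have : D.phi i (α, k n + 1) = D.kill i (α, k n + 1) := if_pos h
      rw [this]
      exact (hC _).trans (le_max_left _ _)
    · have : D.phi i (α, k n + 1) = 0 := by
        unfold Data.phi
        rw [if_neg h, if_neg (by simp)]
      rw [this]
      simp
  have h3 : Tendsto (fun n : ℕ => ((n : ℝ) + 1)⁻¹ • D.ehE (α, k n + 1)) atTop (𝓝 0) := by
    rw [tendsto_subtype_rng]
    exact h1.prodMk_nhds h2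
  have h4 : Tendsto (fun n : ℕ => ((n : ℝ) + 1)⁻¹ • (0 : ℝ)) atTop (𝓝 0) := by
    simp
  exact h3.prodMk_nhds h4

theorem F_ge (p : D.E × ℝ) (p' : K) :
    p.1.1.1 p' + p.2 * D.b p' + D.c p' ≤ D.F p := by
  have h := loc_spec D.b D.c p.1.1.1 p.2 p'
  unfold Data.F
  simp only [ContinuousMap.add_apply, ContinuousMap.smul_apply, smul_eq_mul]
  exact h

theorem F_eq (α : A) : D.F (D.ehE (α, 0), (D.y α).2.1) =
    (D.y α).1 (D.q α) + (D.y α).2.1 * D.b (D.q α) + D.c (D.q α) := by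
  unfold Data.F
  simp only [ContinuousMap.add_apply, ContinuousMap.smul_apply, smul_eq_mul]
  have h : (D.ehE (α, 0)).1.1 = (D.y α).1 := by
    show D.vecX (α, 0) = _
    unfold Data.vecX
    rw [if_pos rfl]
  rw [h]
  rfl

end Pool.AP.NDIF18

namespace Pool.AP

open NDIF18 Set Filter Topology

theorem blk_NDIF : Stmt_NDIF := by
  intro A _ D hD α ⟨f', hf'⟩
  obtain ⟨δ, hδ, h⟩ := hf' (B D α) (bounded_B D hD α) (1 / 8) (by norm_num)
  set s : ℝ := δ / 2 with hs
  have hs0 : 0 < s := by positivity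
  set q := D.q α with hq
  set x := (D.y α).1 with hx
  set t := (D.y α).2.1 with ht
  -- points near `q`
  have hp : Tendsto (fun k : ℕ => Function.update q k (!(q k))) atTop (𝓝 q) := by
    rw [tendsto_pi_nhds]
    intro i
    refine tendsto_const_nhds.congr' ?_
    filter_upwards [eventually_gt_atTop i] with k hk
    rw [Function.update_of_ne (by omega)]
  have hg : Tendsto (fun k : ℕ => (x + t • D.b + D.c) (Function.update q k (!(q k)))) atTop
      (𝓝 ((x + t • D.b + D.c) q)) := ((x + t • D.b + D.c).continuous.tendsto q).comp hp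
  have h2 : Tendsto (fun k : ℕ => ((2 : ℝ) ^ (k + 1))⁻¹) atTop (𝓝 0) := by
    have := tendsto_pow_atTop_nhds_zero_of_lt_one (r := (1 / 2 : ℝ)) (by norm_num) (by norm_num)
    have h3 := this.comp (tendsto_add_atTop_nat 1)
    refine h3.congr fun k => ?_
    simp [one_div, inv_pow]
  obtain ⟨k, hk1, hk2⟩ := ((hg.eventually (lt_mem_nhds (show (x + t • D.b + D.c) q - s / 4 <
    (x + t • D.b + D.c) q by linarith))).and (h2.eventually (gt_mem_nhds
    (show (0 : ℝ) < 1 / 8 by norm_num)))).exists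
  set p := Function.update q k (!(q k)) with hpk
  simp only [ContinuousMap.add_apply, ContinuousMap.smul_apply, smul_eq_mul] at hk1
  -- the direction
  set e : D.E × ℝ := (D.ehE (α, k + 1 + 1), (0 : ℝ)) with he
  have heB : e ∈ B D α := ⟨k + 1, rfl⟩
  set x₀ : D.E × ℝ := (D.ehE (α, 0), t) with hx₀
  have hv0 : x₀.1.1.1 = x := by
    show D.vecX (α, 0) = _
    unfold Data.vecX
    rw [if_pos rfl]
  have hve : e.1.1.1 = bump q (D.y α).2.2 (k + 1) := by
    show D.vecX (α, k + 1 + 1) = _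
    unfold Data.vecX
    rw [if_neg (by simp)]
    rfl
  obtain ⟨r₁, hr₁, h1⟩ := h s (by rw [abs_of_pos hs0]; exact hs0) (by
    rw [abs_of_pos hs0]; linarith)
  obtain ⟨r₂, hr₂, h1'⟩ := h (-s) (by rw [abs_neg, abs_of_pos hs0]; exact hs0) (by
    rw [abs_neg, abs_of_pos hs0]; linarith)
  have ha := (abs_le.1 (h1 e heB)).2
  have hb := (abs_le.1 (h1' e heB)).1
  have hF0 : D.F x₀ = x q + t * D.b q + D.c q := F_eq D α
  have hq1 : x q + s * bump q (D.y α).2.2 (k + 1) q + t * D.b q + D.c q ≤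
      D.F (x₀ + s • e) := by
    have := F_ge D (x₀ + s • e) q
    have e1 : (x₀ + s • e).1.1.1 = x + s • bump q (D.y α).2.2 (k + 1) := by
      rw [← hv0, ← hve]; rfl
    have e2 : (x₀ + s • e).2 = t := by
      show t + s • (0 : ℝ) = t
      simp
    rw [e1, e2] at this
    simpa using this
  have hq2 : x p - s * bump q (D.y α).2.2 (k + 1) p + t * D.b p + D.c p ≤
      D.F (x₀ + (-s) • e) := by
    have := F_ge D (x₀ + (-s) • e) p
    have e1 : (x₀ + (-s) • e).1.1.1 = x + (-s) • bump q (D.y α).2.2 (k + 1) := by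
      rw [← hv0, ← hve]; rfl
    have e2 : (x₀ + (-s) • e).2 = t := by
      show t + (-s) • (0 : ℝ) = t
      simp
    rw [e1, e2] at this
    simp only [ContinuousMap.add_apply, ContinuousMap.smul_apply, smul_eq_mul] at this
    linarith
  have hbq : 1 - 1 / 8 ≤ bump q (D.y α).2.2 (k + 1) q := by
    unfold bump
    simp only [ContinuousMap.add_apply]
    rw [cylf_of_mem (mem_cyl_self q (k + 1))]
    have := (abs_le.1 (abs_rough_le (D.y α).2.2 (k + 1) q)).1
    linarith
  have hbp : bump q (D.y α).2.2 (k + 1) p ≤ 1 / 8 := by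
    unfold bump
    simp only [ContinuousMap.add_apply]
    rw [cylf_of_notMem (show p ∉ cyl q (k + 1) by
      intro hp'
      have := hp' k (by omega)
      rw [hpk, Function.update_self] at this
      simp at this)]
    have := (abs_le.1 (abs_rough_le (D.y α).2.2 (k + 1) p)).2
    linarith
  rw [hF0] at ha hb
  have ha' : D.F (x₀ + s • e) - (x q + t * D.b q + D.c q) ≤ s * (f' e + 1 / 8) := by
    have : (D.F (x₀ + s • e) - (x q + t * D.b q + D.c q)) / s ≤ f' e + 1 / 8 := by linarith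
    rw [div_le_iff₀ hs0] at this
    linarith
  have hb' : D.F (x₀ + (-s) • e) - (x q + t * D.b q + D.c q) ≤ s * (1 / 8 - f' e) := by
    have : f' e - 1 / 8 ≤ (D.F (x₀ + (-s) • e) - (x q + t * D.b q + D.c q)) / (-s) := by
      linarith
    rw [div_neg, le_neg] at this
    rw [div_le_iff₀ hs0] at this
    linarith
  nlinarith

end Pool.AP
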