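import Pool.Agent.Work.MP_6cbae3_ch.Interface

/-! # Block NDT of MP_6cbae3_ch (helper3) -/

set_option autoImplicit false

namespace Pool.AP

open Filter Topology Set

namespace Ndt

theorem baire_pt (n m : ℕ) : BaireSpace (Fin n → Pt m) := by
  have h1 : PolishSpace Y0 := instPolishProd (S := X) (T := ℝ × (ℕ → X))
  have h2 : PolishSpace (Pt m) := instPolishProd (S := Y0) (T := Fin m → ℝ)
  have h3 : PolishSpace (Fin n → Pt m) := instPolishPi
  infer_instance

/-- residually many tuples are stable -/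
theorem ev_stab (hSt : Stmt_STAB) (n m k : ℕ) (b c : X) :
    ∀ᶠ y in residual (Fin n → Pt m), ∀ l, Stab b c k (y l).1 := by
  rw [eventually_all]
  intro l
  have hop : IsOpenMap (fun y : Fin n → Pt m => (y l).1) :=
    isOpenMap_fst.comp (isOpenMap_eval l)
  have hc : Continuous (fun y : Fin n → Pt m => (y l).1) := continuous_fst.comp (continuous_apply l)
  exact residual_of_dense_open ((hSt b c k).1.preimage hc) ((hSt b c k).2.preimage hop)

/-- closeness of two tuples, up to the rough part `k` -/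
def Near {n m : ℕ} (k : ℕ) (η : ℝ) (y y' : Fin n → Pt m) : Prop :=
  ∀ l, ‖(y' l).1.1 - (y l).1.1‖ < η ∧ |(y' l).1.2.1 - (y l).1.2.1| < η ∧
    ‖(y' l).2 - (y l).2‖ < η ∧ ∀ i : Fin k, ‖(y' l).1.2.2 i - (y l).1.2.2 i‖ < η

theorem ev_near {n m : ℕ} (k : ℕ) {η : ℝ} (hη : 0 < η) (y : Fin n → Pt m) :
    ∀ᶠ y' in 𝓝 y, Near k η y y' := by
  unfold Near
  rw [eventually_all]
  intro l
  have aux : ∀ {E : Type} [NormedAddCommGroup E] (f : (Fin n → Pt m) → E), Continuous f →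
      ∀ᶠ y' in 𝓝 y, ‖f y' - f y‖ < η := by
    intro E _ f hf
    have h1 : Tendsto (fun y' => ‖f y' - f y‖) (𝓝 y) (𝓝 ‖f y - f y‖) :=
      ((hf.sub continuous_const).norm).tendsto y
    rw [sub_self, norm_zero] at h1
    exact h1.eventually (gt_mem_nhds hη)
  refine (aux (fun y => (y l).1.1) (by fun_prop)).and
    ((aux (fun y => (y l).1.2.1) (by fun_prop)).and
      ((aux (fun y => (y l).2) (by fun_prop)).and ?_))
  rw [eventually_all]
  intro i
  exact aux (fun y => (y l).1.2.2 i) (by fun_prop)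

/-- almost maxima -/
theorem almost_max (b c x x' : X) (t t' : ℝ) (q' : K) :
    x q' + t * b q' + c q' ≤ x (loc b c x' t') + t * b (loc b c x' t') + c (loc b c x' t') +
      2 * (‖x' - x‖ + |t' - t| * ‖b‖) := by
  have h1 := loc_spec b c x' t' q'
  set q := loc b c x' t'
  have hx : ∀ p, |x' p - x p| ≤ ‖x' - x‖ := fun p => by
    have := ContinuousMap.norm_coe_le_norm (x' - x) p
    simpa using this
  have hb : ∀ p, |t' * b p - t * b p| ≤ |t' - t| * ‖b‖ := fun p => by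
    rw [← sub_mul, abs_mul]
    exact mul_le_mul_of_nonneg_left (ContinuousMap.norm_coe_le_norm b p) (abs_nonneg _)
  have h2 := (abs_le.1 (hx q')).1
  have h3 := (abs_le.1 (hx q)).2
  have h4 := (abs_le.1 (hb q')).1
  have h5 := (abs_le.1 (hb q)).2
  linarith

theorem abs_cf_le {n k : ℕ} {ι : Type} {a : Fin n → ℝ} {d : Fin n → Fin k → ℝ} {p : ι → ℝ}
    {j : Fin n} {R : ℝ} (ha : ∀ l, |a l| ≤ R) (hd : ∀ l i, |d l i| ≤ R) (hp : ∀ i, |p i| ≤ R) :
    ∀ i, |cf a d p j i| ≤ R := by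
  rintro (l | li | i)
  · exact ha _
  · exact hd _ _
  · exact hp _

end Ndt

open Ndt

theorem blk_NDT (hC : Stmt_CORTI) (hSt : Stmt_STAB) (hW : Stmt_WVC) (hZ : Stmt_ZZS)
    (hB : Stmt_BSE) : Stmt_NDT := by
  intro n m k ι _ b c G L κ R v j hCL hκ hR hSep
  classical
  rw [IsNowhereDense]
  by_contra hne
  rw [← ne_eq, ← nonempty_iff_ne_empty] at hne
  set U := interior (closure (BadT n k b c G v κ R j)) with hU
  have hUo : IsOpen U := isOpen_interior
  -- the base point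
  have := baire_pt n m
  obtain ⟨y₀, hyU, hyS, hyP⟩ := (dense_of_mem_residual ((ev_stab hSt n m k b c).and
    (hB n m k ι b c v j hSep))).inter_open_nonempty U hUo hne
  -- the neighbourhood
  choose ρ₀ hρ₀ hw using fun l => hW b c k (y₀ l).1 (hyS l)
  let Φ : X × (Fin m → ℝ) × ℝ → Fin n → Pt m := fun x =>
    Function.update y₀ j ((x.1, x.2.2, (y₀ j).1.2.2), x.2.1)
  have hΦc : Continuous Φ := by
    refine Continuous.update continuous_const j ?_
    fun_prop
  have hΦ0 : Φ ((y₀ j).1.1, (y₀ j).2, (y₀ j).1.2.1) = y₀ := Function.update_eq_self j y₀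
  have hnb : ∀ᶠ x in 𝓝 ((y₀ j).1.1, (y₀ j).2, (y₀ j).1.2.1), Φ x ∈ U := by
    refine (hΦc.tendsto _).eventually ?_
    rw [hΦ0]
    exact hUo.mem_nhds hyU
  obtain ⟨ρ₁, hρ₁, hball⟩ := Metric.eventually_nhds_iff.1 hnb
  set ρ : ℝ := min ρ₁ (ρ₀ j / 2) with hρ
  have hρ0 : 0 < ρ := lt_min hρ₁ (half_pos (hρ₀ j))
  refine hC m _ G L κ R ρ b c (wv k b c v y₀ j) (y₀ j).1.1 (y₀ j).2 (y₀ j).1.2.1 hCL hκ hR hρ0 hyP ?_
  intro x u t hx hu ht ε hε
  have hyU' : Φ (x, u, t) ∈ U := by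
    apply hball
    rw [Prod.dist_eq, Prod.dist_eq, dist_eq_norm, dist_eq_norm, dist_eq_norm]
    exact max_lt (hx.trans_le (min_le_left _ _))
      (max_lt (hu.trans_le (min_le_left _ _)) (ht.trans_le (min_le_left _ _)))
  set y := Φ (x, u, t) with hy
  have hyj : y j = ((x, t, (y₀ j).1.2.2), u) := Function.update_self j _ y₀
  have hyl : ∀ l, l ≠ j → y l = y₀ l := fun l hl => Function.update_of_ne hl _ y₀
  have hyr : ∀ l, (y l).1.2.2 = (y₀ l).1.2.2 := by
    intro l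
    by_cases hl : l = j
    · subst hl; rw [hyj]
    · rw [hyl l hl]
  -- the number of vectors
  set T : ℝ := (Fintype.card ({l : Fin n // l ≠ j} ⊕ (Fin n × Fin k) ⊕ ι) : ℝ) with hT
  have hT0 : 0 ≤ T := Nat.cast_nonneg _
  set ε₁ : ℝ := ε / (2 * (R * R * (T + 1))) with hε₁
  have hε₁0 : 0 < ε₁ := by positivity
  choose ρ₂ hρ₂ hw₂ using fun l => hw l ε₁ hε₁0
  -- a small number below everything
  obtain ⟨η, hη0, hη1, hη2, hη3, hη4, hη5⟩ : ∃ η : ℝ, 0 < η ∧ (∀ l, η ≤ ρ₀ l / 2) ∧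
      (∀ l, η ≤ ρ₂ l) ∧ η ≤ ε₁ ∧ η ≤ ε / 2 / 2 ∧ 2 * (η + η * ‖b‖) ≤ ε := by
    have h1 : ∀ᶠ η in 𝓝[>] (0 : ℝ), 0 < η := self_mem_nhdsWithin
    have hev : ∀ r : ℝ, 0 < r → ∀ᶠ η in 𝓝[>] (0 : ℝ), η ≤ r := fun r hr =>
      (eventually_le_nhds hr).filter_mono nhdsWithin_le_nhds
    have h2 : ∀ᶠ η in 𝓝[>] (0 : ℝ), ∀ l, η ≤ ρ₀ l / 2 := by
      rw [eventually_all]; exact fun l => hev _ (half_pos (hρ₀ l))
    have h3 : ∀ᶠ η in 𝓝[>] (0 : ℝ), ∀ l, η ≤ ρ₂ l := by
      rw [eventually_all]; exact fun l => hev _ (hρ₂ l)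
    have h6 : ∀ᶠ η in 𝓝[>] (0 : ℝ), 2 * (η + η * ‖b‖) ≤ ε := by
      have : Tendsto (fun η : ℝ => 2 * (η + η * ‖b‖)) (𝓝 0) (𝓝 (2 * (0 + 0 * ‖b‖))) :=
        Continuous.tendsto (by fun_prop) 0
      rw [zero_mul, add_zero, mul_zero] at this
      exact ((this.eventually (ge_mem_nhds hε))).filter_mono nhdsWithin_le_nhds
    obtain ⟨η, h⟩ := (h1.and (h2.and (h3.and ((hev ε₁ hε₁0).and
      ((hev (ε / 2 / 2) (by positivity)).and h6))))).exists
    exact ⟨η, h.1, h.2.1, h.2.2.1, h.2.2.2.1, h.2.2.2.2.1, h.2.2.2.2.2⟩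
  -- a bad tuple near `y`
  have hcl : y ∈ closure (BadT n k b c G v κ R j) := interior_subset hyU'
  obtain ⟨y', hbad, hnear⟩ := ((mem_closure_iff_frequently.1 hcl).and_eventually
    (ev_near k hη0 y)).exists
  obtain ⟨a, d, p, ha1, ha, hd, hp, hGD, hSeen⟩ := hbad
  have ha0 : 0 < a j := lt_of_lt_of_le (by positivity) ha1
  rw [hZ n m k ι b c v y' a d p j] at hGD hSeen
  -- the comparison of the vectors
  have hcmp : ∀ i, ‖wv k b c v y' j i - wv k b c v y₀ j i‖ ≤ ε₁ := by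
    rintro (⟨l, hl⟩ | ⟨l, i⟩ | i)
    · have h1 := hnear l
      rw [hyl l hl] at h1
      show ‖((y' l).1.1, (y' l).2) - ((y₀ l).1.1, (y₀ l).2)‖ ≤ ε₁
      rw [Prod.mk_sub_mk, Prod.norm_def]
      exact max_le (h1.1.le.trans hη3) (h1.2.2.1.le.trans hη3)
    · show ‖(bump (qq b c (y' l).1) (y' l).1.2.2 i, (0 : Fin m → ℝ)) -
        (bump (qq b c (y₀ l).1) (y₀ l).1.2.2 i, 0)‖ ≤ ε₁
      rw [Prod.mk_sub_mk, Prod.norm_def]
      refine max_le ?_ (by simpa using hε₁0.le)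
      have h1 := hnear l
      have h2 : ‖(y' l).1.1 - (y₀ l).1.1‖ < ρ₀ l ∧ |(y' l).1.2.1 - (y₀ l).1.2.1| < ρ₀ l := by
        by_cases hl : l = j
        · subst hl
          rw [hyj] at h1
          have g1 : ‖(y' l).1.1 - (y₀ l).1.1‖ ≤ ‖(y' l).1.1 - x‖ + ‖x - (y₀ l).1.1‖ := by
            simpa [dist_eq_norm] using dist_triangle (y' l).1.1 x (y₀ l).1.1
          have g2 : |(y' l).1.2.1 - (y₀ l).1.2.1| ≤ |(y' l).1.2.1 - t| + |t - (y₀ l).1.2.1| :=
            abs_sub_le _ _ _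
          have g3 := h1.1
          have g4 := h1.2.1
          have g5 : ρ ≤ ρ₀ l / 2 := min_le_right _ _
          have g6 := hη1 l
          simp only at g3 g4
          constructor <;> linarith
        · rw [hyl l hl] at h1
          have g6 := hη1 l
          have g7 := hρ₀ l
          exact ⟨h1.1.trans (by linarith), h1.2.1.trans (by linarith)⟩
      refine (hw₂ l (y' l).1 h2.1 h2.2).2 i i.2 ?_
      have h3 := h1.2.2.2 i
      rw [hyr l] at h3
      exact h3.trans_le (hη2 l)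
    · show ‖v i - v i‖ ≤ ε₁
      rw [sub_self, norm_zero]
      exact hε₁0.le
  have hcf := abs_cf_le (j := j) ha hd hp
  refine ⟨vx (y' j) + ∑ i, (cf a d p j i / a j) • (wv k b c v y' j i - wv k b c v y₀ j i),
    qq b c (y' j).1, a j, cf a d p j, ?_, ?_, ha1, (le_abs_self _).trans (ha j), hcf, ?_⟩
  · -- closeness
    have h1 : ‖vx (y' j) - (x, u)‖ ≤ ε / 2 / 2 := by
      have h1 := hnear j
      rw [hyj] at h1
      show ‖((y' j).1.1, (y' j).2) - (x, u)‖ ≤ ε / 2 / 2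
      rw [Prod.mk_sub_mk, Prod.norm_def]
      exact max_le (h1.1.le.trans hη4) (h1.2.2.1.le.trans hη4)
    have h2 : ‖∑ i, (cf a d p j i / a j) • (wv k b c v y' j i - wv k b c v y₀ j i)‖ ≤ ε / 2 := by
      refine (norm_sum_le _ _).trans ?_
      have h3 : ∀ i ∈ (Finset.univ : Finset ({l : Fin n // l ≠ j} ⊕ (Fin n × Fin k) ⊕ ι)),
          ‖(cf a d p j i / a j) • (wv k b c v y' j i - wv k b c v y₀ j i)‖ ≤ R * R * ε₁ := by
        intro i _
        rw [norm_smul, Real.norm_eq_abs, abs_div, abs_of_pos ha0]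
        refine mul_le_mul ?_ (hcmp i) (norm_nonneg _) (by positivity)
        rw [div_le_iff₀ ha0]
        calc |cf a d p j i| ≤ R := hcf i
          _ = R * R * (1 / R) := by field_simp
          _ ≤ R * R * a j := by gcongr
      refine (Finset.sum_le_card_nsmul _ _ _ h3).trans ?_
      rw [Finset.card_univ, nsmul_eq_mul, ← hT]
      have h4 : T * (R * R * ε₁) = T / (T + 1) * (ε / 2) := by
        rw [hε₁]; field_simp
      rw [h4]
      have h5 : T / (T + 1) ≤ 1 := by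
        rw [div_le_one (by linarith)]; linarith
      calc T / (T + 1) * (ε / 2) ≤ 1 * (ε / 2) := by gcongr
        _ = ε / 2 := one_mul _
    have h6 : vx (y' j) + ∑ i, (cf a d p j i / a j) • (wv k b c v y' j i - wv k b c v y₀ j i) -
        (x, u) = (vx (y' j) - (x, u)) +
          ∑ i, (cf a d p j i / a j) • (wv k b c v y' j i - wv k b c v y₀ j i) := by abel
    rw [h6]
    have := norm_add_le (vx (y' j) - (x, u))
      (∑ i, (cf a d p j i / a j) • (wv k b c v y' j i - wv k b c v y₀ j i))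
    linarith
  · -- the location
    intro q'
    have h1 := almost_max b c x (y' j).1.1 t (y' j).1.2.1 q'
    have h2 := hnear j
    rw [hyj] at h2
    have h3 : ‖(y' j).1.1 - x‖ + |(y' j).1.2.1 - t| * ‖b‖ ≤ η + η * ‖b‖ :=
      add_le_add h2.1.le (mul_le_mul_of_nonneg_right h2.2.1.le (norm_nonneg _))
    refine h1.trans ?_
    show _ ≤ x (loc b c (y' j).1.1 (y' j).1.2.1) + t * b (loc b c (y' j).1.1 (y' j).1.2.1) +
      c (loc b c (y' j).1.1 (y' j).1.2.1) + ε
    linarith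
  · -- the point
    have h1 : a j • (vx (y' j) +
        ∑ i, (cf a d p j i / a j) • (wv k b c v y' j i - wv k b c v y₀ j i)) +
        ∑ i, cf a d p j i • wv k b c v y₀ j i =
        a j • vx (y' j) + ∑ i, cf a d p j i • wv k b c v y' j i := by
      rw [smul_add, Finset.smul_sum, add_assoc, ← Finset.sum_add_distrib]
      congr 1
      refine Finset.sum_congr rfl fun i _ => ?_
      rw [smul_smul, mul_div_cancel₀ _ ha0.ne', smul_sub, sub_add_cancel]
    rw [h1]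
    exact ⟨hGD, hSeen⟩

end Pool.AP
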