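import Pool.Agent.Work.MP_6cbae3_ch.Interface

/-! Blocks NET and CLO (helper29): finite nets in boxes, closing off. -/

set_option autoImplicit false

namespace Pool.AP

open Filter Topology Set

theorem blk_NET : Stmt_NET := by
  intro d C μ hμ hC
  have hCpos : 0 < C := lt_of_lt_of_le hμ hC
  have hq1 : 1 ≤ C / μ := (one_le_div hμ).2 hC
  set n : ℕ := ⌈C / μ⌉₊ with hn
  have hn1 : (C / μ) ≤ n := Nat.le_ceil _
  have hn2 : (n : ℝ) < C / μ + 1 := Nat.ceil_lt_add_one (by positivity)
  have hnpos : 0 < n := Nat.ceil_pos.2 (by positivity)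
  refine ⟨n ^ d, fun j i => -C + μ * (2 * ((finFunctionFinEquiv.symm j i : Fin n) : ℕ) + 1),
    ?_, fun s hs => ?_⟩
  · push_cast
    refine pow_le_pow_left₀ (by positivity) ?_ d
    have : 4 * C / μ = 4 * (C / μ) := by ring
    rw [this]
    linarith
  · have key : ∀ i : Fin d, ∃ t : Fin n, |s i - (-C + μ * (2 * ((t : ℕ) : ℝ) + 1))| ≤ μ := by
      intro i
      have hsi := abs_le.1 (hs i)
      set y : ℝ := (s i + C) / (2 * μ) with hy
      have hy0 : 0 ≤ y := div_nonneg (by linarith) (by linarith)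
      have hyμ : s i + C = 2 * μ * y := by
        rw [hy]; field_simp
      by_cases hlt : ⌊y⌋₊ < n
      · refine ⟨⟨⌊y⌋₊, hlt⟩, ?_⟩
        have h1 : (⌊y⌋₊ : ℝ) ≤ y := Nat.floor_le hy0
        have h2 : y < ⌊y⌋₊ + 1 := Nat.lt_floor_add_one y
        have h3 : μ * (⌊y⌋₊ : ℝ) ≤ μ * y := mul_le_mul_of_nonneg_left h1 hμ.le
        have h4 : μ * y ≤ μ * (⌊y⌋₊ + 1) := mul_le_mul_of_nonneg_left h2.le hμ.le
        rw [abs_le]
        constructor <;> (simp only; nlinarith)
      · push Not at hlt
        have h5 : (n : ℝ) ≤ y := by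
          have : (n : ℝ) ≤ (⌊y⌋₊ : ℝ) := by exact_mod_cast hlt
          exact this.trans (Nat.floor_le hy0)
        have h6 : y ≤ C / μ := by
          rw [hy, div_le_div_iff₀ (by linarith) hμ]
          nlinarith
        have h7 : y = n := le_antisymm (h6.trans hn1) h5
        refine ⟨⟨n - 1, by omega⟩, ?_⟩
        have h8 : ((n - 1 : ℕ) : ℝ) = (n : ℝ) - 1 := by
          rw [Nat.cast_sub hnpos]; simp
        simp only
        rw [h8]
        have h9 : s i - (-C + μ * (2 * ((n : ℝ) - 1) + 1)) = μ := by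
          have : s i = 2 * μ * n - C := by rw [← h7]; linarith
          rw [this]; ring
        rw [h9, abs_of_pos hμ]
    choose t ht using key
    refine ⟨finFunctionFinEquiv t, fun i => ?_⟩
    simpa using ht i

theorem blk_CLO : Stmt_CLO := by
  intro A _ hA α₀ γ
  have := hA.wf
  -- one step
  have hstep : ∀ a : A, ∃ b : A, a < b ∧ ∀ F : Finset A, (∀ x ∈ F, x < a) → ∀ k, γ F k < b := by
    intro a
    have hc : (Iio a).Countable := hA.cnt a
    have hc2 : {F : Finset A | ∀ x ∈ F, x < a}.Countable := by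
      have := Set.countable_ofPred_finite_subset hc
      have h3 : {F : Finset A | ∀ x ∈ F, x < a} =
          (fun F : Finset A => (F : Set A)) ⁻¹' {t : Set A | t.Finite ∧ t ⊆ Iio a} := by
        ext F
        simp [Set.subset_def]
      rw [h3]
      exact this.preimage Finset.coe_injective
    have hc3 : ({a} ∪ ⋃ F ∈ {F : Finset A | ∀ x ∈ F, x < a}, range (γ F)).Countable :=
      (countable_singleton a).union (hc2.biUnion fun F _ => countable_range _)
    obtain ⟨b, hb⟩ := hA.unb _ hc3
    refine ⟨b, hb a (Or.inl rfl), fun F hF k => hb _ (Or.inr ?_)⟩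
    exact mem_biUnion (show F ∈ {F : Finset A | ∀ x ∈ F, x < a} from hF) ⟨k, rfl⟩
  choose nx hnx1 hnx2 using hstep
  let a : ℕ → A := fun i => Nat.rec α₀ (fun _ x => nx x) i
  have ha0 : a 0 = α₀ := rfl
  have has : ∀ i, a (i + 1) = nx (a i) := fun i => rfl
  have hmono : StrictMono a := strictMono_nat_of_lt_succ fun i => by rw [has]; exact hnx1 _
  have hub : {x : A | ∀ i, a i ≤ x}.Nonempty := by
    obtain ⟨b, hb⟩ := hA.unb (range a) (countable_range a)
    exact ⟨b, fun i => (hb _ ⟨i, rfl⟩).le⟩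
  set α := WellFounded.min (wellFounded_lt (α := A)) {x : A | ∀ i, a i ≤ x} hub with hα
  have hα1 : ∀ i, a i ≤ α := WellFounded.min_mem (wellFounded_lt (α := A)) _ hub
  have hα2 : ∀ x, x < α → ∃ i, x < a i := by
    intro x hx
    by_contra hcon
    push Not at hcon
    exact WellFounded.not_lt_min (wellFounded_lt (α := A)) {x : A | ∀ i, a i ≤ x} hcon hx
  refine ⟨α, by rw [← ha0]; exact hα1 0, fun F hF k => ?_⟩
  have : ∃ i, ∀ x ∈ F, x < a i := by
    clear_value α
    induction F using Finset.induction_on with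
    | empty => exact ⟨0, by simp⟩
    | insert x F hx ih =>
      obtain ⟨i, hi⟩ := ih fun y hy => hF y (Finset.mem_insert_of_mem hy)
      obtain ⟨j, hj⟩ := hα2 x (hF x (Finset.mem_insert_self _ _))
      refine ⟨max i j, fun y hy => ?_⟩
      rcases Finset.mem_insert.1 hy with rfl | hy
      · exact hj.trans_le (hmono.monotone (le_max_right _ _))
      · exact (hi y hy).trans_le (hmono.monotone (le_max_left _ _))
  obtain ⟨i, hi⟩ := this
  have hfin : nx (a i) ≤ α := by
    have := hα1 (i + 1)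
    rwa [has] at this
  exact (hnx2 (a i) F hi k).le.trans hfin

end Pool.AP
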