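import Pool.Agent.Work.MP_6cbae3_ch.Interface

/-! # MP_6cbae3_an, block NM: the main points meet countable intersections (helper79) -/

set_option autoImplicit false

namespace Pool.AP

open Filter Topology Set

namespace NM

variable {A : Type} [LinearOrder A]

/-- the ambient space -/
abbrev SS (A : Type) : Type := (X × (A → ℝ)) × ℝ

/-- the inclusion -/
def jj (D : Data A) (p : D.E × ℝ) : SS A := (p.1.1, p.2)

theorem jj_ind (D : Data A) : IsInducing (jj D) :=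
  IsInducing.prodMap IsInducing.subtypeVal IsInducing.id

/-- the set depends on the coordinates in `F` only -/
def Dep (F : Set A) (V : Set (SS A)) : Prop :=
  ∀ x y : SS A, x.1.1 = y.1.1 → x.2 = y.2 → (∀ i ∈ F, x.1.2 i = y.1.2 i) → x ∈ V → y ∈ V

omit [LinearOrder A] in
/-- basic sets -/
theorem basic (V : Set (SS A)) (hV : IsOpen V) (x : SS A) (hx : x ∈ V) :
    ∃ (F : Finset A) (W : Set (SS A)), IsOpen W ∧ x ∈ W ∧ W ⊆ V ∧ Dep (F : Set A) W := by
  obtain ⟨⟨x, f⟩, t⟩ := x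
  obtain ⟨u, v, hu, hv, hxu, htv, huv⟩ := isOpen_prod_iff.1 hV (x, f) t hx
  obtain ⟨u₁, u₂, hu₁, hu₂, hx₁, hf₂, hu₁₂⟩ := isOpen_prod_iff.1 hu x f hxu
  obtain ⟨F, w, hw, hFw⟩ := isOpen_pi_iff.1 hu₂ f hf₂
  refine ⟨F, (u₁ ×ˢ (F : Set A).pi w) ×ˢ v, ?_, ?_, ?_, ?_⟩
  · exact (hu₁.prod (isOpen_set_pi F.finite_toSet fun a ha => (hw a ha).1)).prod hv
  · exact ⟨⟨hx₁, fun a ha => (hw a ha).2⟩, htv⟩
  · rintro ⟨⟨y, g⟩, s⟩ ⟨⟨h1, h2⟩, h3⟩
    exact huv ⟨hu₁₂ ⟨h1, hFw h2⟩, h3⟩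
  · rintro ⟨⟨y, g⟩, s⟩ ⟨⟨y', g'⟩, s'⟩ h1 h2 h3 ⟨⟨h4, h5⟩, h6⟩
    simp only at h1 h2 h3
    subst h1 h2
    refine ⟨⟨h4, fun a ha => ?_⟩, h6⟩
    simp only
    rw [← h3 a ha]
    exact h5 a ha

/-- extension by zero -/
noncomputable def ext0 (β : A) (w : (X × (Iio β → ℝ)) × ℝ) : SS A :=
  ((w.1.1, fun i => if h : i < β then w.1.2 ⟨i, h⟩ else 0), w.2)

theorem ext0_cont (β : A) : Continuous (ext0 β) := by
  unfold ext0
  refine ((continuous_fst.comp continuous_fst).prodMk ?_).prodMk continuous_snd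
  refine continuous_pi fun i => ?_
  by_cases h : i < β
  · simp only [h, dite_true]
    exact (continuous_apply _).comp (continuous_snd.comp continuous_fst)
  · simp only [h, dite_false]
    exact continuous_const

/-- restriction -/
def res (β : A) (x : SS A) : (X × (Iio β → ℝ)) × ℝ := ((x.1.1, fun i => x.1.2 i), x.2)

theorem res_cont (β : A) : Continuous (res β) := by
  unfold res
  refine ((continuous_fst.comp continuous_fst).prodMk ?_).prodMk continuous_snd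
  exact continuous_pi fun i => (continuous_apply _).comp (continuous_snd.comp continuous_fst)

theorem ext0_res (β : A) (W : Set (SS A)) (hW : Dep (Iio β) W) (x : SS A) :
    ext0 β (res β x) ∈ W ↔ x ∈ W := by
  have h1 : ∀ i ∈ Iio β, (ext0 β (res β x)).1.2 i = x.1.2 i := by
    intro i hi
    simp only [ext0, res, mem_Iio] at *
    rw [dif_pos hi]
  exact ⟨fun h => hW (ext0 β (res β x)) x rfl rfl h1 h,
    fun h => hW x (ext0 β (res β x)) rfl rfl (fun i hi => (h1 i hi).symm) h⟩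

theorem res_ext0 (β : A) (w : (X × (Iio β → ℝ)) × ℝ) : res β (ext0 β w) = w := by
  obtain ⟨⟨x, f⟩, t⟩ := w
  simp only [res, ext0, Prod.mk.injEq, true_and, and_true]
  funext i
  exact dif_pos (mem_Iio.1 i.2)

/-- the map from one stage -/
def gg (β : A) (y : Fin 1 → Y0 × (Iio β → ℝ)) : (X × (Iio β → ℝ)) × ℝ :=
  (((y 0).1.1, (y 0).2), (y 0).1.2.1)

theorem gg_cont (β : A) : Continuous (gg β) := by
  unfold gg
  fun_prop

theorem gg_open (β : A) : IsOpenMap (gg β) := by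
  -- a continuous section through every point
  rw [isOpenMap_iff_nhds_le]
  intro y
  have h1 : gg β = (fun p : Y0 × (Iio β → ℝ) => ((p.1.1, p.2), p.1.2.1)) ∘ fun y => y 0 := rfl
  set s : (X × (Iio β → ℝ)) × ℝ → Fin 1 → Y0 × (Iio β → ℝ) :=
    fun w _ => ((w.1.1, w.2, (y 0).1.2.2), w.1.2) with hs
  have h2 : Continuous s := by rw [hs]; fun_prop
  have h3 : s (gg β y) = y := by
    funext i
    have : i = 0 := Subsingleton.elim _ _
    subst this
    rfl
  have h4 : ∀ w, gg β (s w) = w := fun w => rfl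
  have h5 : Tendsto s (𝓝 (gg β y)) (𝓝 y) := by
    have := h2.tendsto (gg β y)
    rwa [h3] at this
  intro N hN
  rw [mem_map] at hN
  have h6 := h5 hN
  rw [mem_map] at h6
  refine mem_of_superset h6 fun w hw => ?_
  have : gg β (s w) ∈ N := hw
  rwa [h4] at this

end NM

open NM in
theorem blk_NM (hCCC : Stmt_CCC) (hSEPP : Stmt_SEPP) (hDEN : Stmt_DEN) : Stmt_NM := by
  intro A _ D hD O hO U hU hUne
  have hidx := hD.idx
  obtain ⟨γ₀, -⟩ := hidx.unb ∅ countable_empty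
  have := hSEPP A hidx
  set T : Set (SS A) := range (jj D) with hT
  have hTd : Dense T := by
    rw [dense_iff_inter_open]
    intro N hN hNne
    obtain ⟨α, -, hα⟩ := hDEN A D hD N hN hNne γ₀
    exact ⟨_, hα, ⟨(D.ehE (α, 0), (D.y α).2.1), rfl⟩⟩
  -- the open sets in the ambient space
  choose O' hO' hOO' using fun n => (jj_ind D).isOpen_iff.1 (hO n).1
  obtain ⟨U', hU', hUU'⟩ := (jj_ind D).isOpen_iff.1 hU
  have key : ∀ n, ∃ (W : Set (SS A)) (C : Set A), IsOpen W ∧ Dense W ∧ C.Countable ∧ Dep C W ∧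
      jj D ⁻¹' W ⊆ O n := by
    intro n
    let ι : Type := {p : Finset A × Set (SS A) // IsOpen p.2 ∧ p.2 ⊆ O' n ∧ Dep (p.1 : Set A) p.2}
    obtain ⟨J, hJ, hJc⟩ := hCCC (SS A) T ι (fun i => i.1.2) hTd (fun i => i.2.1)
    refine ⟨⋃ i ∈ J, i.1.2, ⋃ i ∈ J, (i.1.1 : Set A), ?_, ?_, ?_, ?_, ?_⟩
    · exact isOpen_biUnion fun i _ => i.2.1
    · rw [dense_iff_inter_open]
      intro N hN hNne
      obtain ⟨x, hxN, p, rfl⟩ := hTd.inter_open_nonempty N hN hNne
      obtain ⟨p', hp'N, hp'O⟩ := (hO n).2.inter_open_nonempty (jj D ⁻¹' N)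
        (hN.preimage (jj_ind D).continuous) ⟨p, hxN⟩
      rw [← hOO' n] at hp'O
      obtain ⟨F, W, hW, hxW, hWV, hdep⟩ := basic (O' n) (hO' n) (jj D p') hp'O
      have h1 := hJc (jj D p') (mem_iUnion.2 ⟨⟨(F, W), hW, hWV, hdep⟩, hxW⟩)
      rw [mem_closure_iff] at h1
      obtain ⟨y, hyN, -, hy⟩ := h1 N hN hp'N
      exact ⟨y, hyN, hy⟩
    · exact hJ.biUnion fun i _ => i.1.1.countable_toSet
    · intro x y h1 h2 h3 hx
      simp only [mem_iUnion, exists_prop] at hx h3 ⊢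
      obtain ⟨i, hi, hxi⟩ := hx
      exact ⟨i, hi, i.2.2.2 x y h1 h2 (fun j hj => h3 j ⟨i, hi, hj⟩) hxi⟩
    · intro p hp
      simp only [mem_preimage, mem_iUnion, exists_prop] at hp
      obtain ⟨i, hi, hpi⟩ := hp
      rw [← hOO' n]
      exact i.2.2.1 hpi
  choose W C hWo hWd hC hdep hWO using key
  obtain ⟨β, hβ⟩ := hidx.unb (⋃ n, C n) (countable_iUnion hC)
  have hdepβ : ∀ n, Dep (Iio β) (W n) := fun n x y h1 h2 h3 hx =>
    hdep n x y h1 h2 (fun i hi => h3 i (hβ i (mem_iUnion.2 ⟨n, hi⟩))) hx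
  -- dense open sets in the restricted space
  have hW' : ∀ n, IsOpen (ext0 β ⁻¹' W n) ∧ Dense (ext0 β ⁻¹' W n) := by
    intro n
    refine ⟨(hWo n).preimage (ext0_cont β), ?_⟩
    rw [dense_iff_inter_open]
    intro N hN hNne
    obtain ⟨w, hw⟩ := hNne
    obtain ⟨x, hxN, hxW⟩ := (hWd n).inter_open_nonempty (res β ⁻¹' N) (hN.preimage (res_cont β))
      ⟨ext0 β w, by rw [mem_preimage, res_ext0]; exact hw⟩
    exact ⟨res β x, hxN, (ext0_res β (W n) (hdepβ n) x).2 hxW⟩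
  have hM : IsMeagre (⋃ n, (gg β ⁻¹' (ext0 β ⁻¹' W n))ᶜ) := by
    refine isMeagre_iUnion fun n => ?_
    unfold IsMeagre
    rw [compl_compl]
    exact residual_of_dense_open ((hW' n).1.preimage (gg_cont β)) ((hW' n).2.preimage (gg_open β))
  obtain ⟨γ, hγ⟩ := hD.gp 1 β _ hM
  obtain ⟨γ', hγ'⟩ := hidx.unb (D.τ '' Iio β) ((hidx.cnt β).image _)
  obtain ⟨α, hα, hαU⟩ := hDEN A D hD U' hU' (by
    obtain ⟨p, hp⟩ := hUne
    rw [← hUU'] at hp
    exact ⟨_, hp⟩) (max γ γ')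
  refine ⟨α, ?_, fun n => ?_⟩
  · rw [← hUU']; exact hαU
  · have h1 := hγ (fun _ => α) (fun i j hij => absurd hij (by simp [Subsingleton.elim i j]))
      (fun _ => (le_max_left _ _).trans hα)
    simp only [mem_iUnion, mem_compl_iff, mem_preimage, not_exists, not_not] at h1
    apply hWO n
    change jj D (D.ehE (α, 0), (D.y α).2.1) ∈ W n
    refine hdepβ n _ _ ?_ ?_ ?_ (h1 n)
    · rfl
    · rfl
    · intro i hi
      have h2 : ¬ α < D.τ i := not_lt.2 (((hγ' _ ⟨i, hi, rfl⟩).le.trans (le_max_right _ _)).trans hα)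
      change (if h : i < β then D.ζ α i else 0) = D.phi i (α, 0)
      rw [dif_pos (mem_Iio.1 hi), Data.phi, if_neg h2, if_pos rfl]

end Pool.AP
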