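import Pool.Agent.Work.MP_6cbae3_ch.Basic

/-! # Block OLDV (helper1): blocks of old vectors are separated -/

set_option autoImplicit false

namespace Pool.AP

open Filter Topology Set

theorem blk_OLDV (h1 : Stmt_SEPI) : Stmt_OLDV := by
  intro A _ D hD m I F k
  classical
  have hl : (F.sort (· ≤ ·)).Pairwise (· < ·) := Finset.sortedLT_sort F |>.pairwise
  have hsep := hD.sp (F.sort (· ≤ ·)) hl k
  refine ⟨(F.sort (· ≤ ·)).flatMap fun α => (List.range (k + 1)).map fun i => D.vecX (α, i),
    ?_, ?_, ?_⟩
  · refine h1 _ _ hsep ?_ ?_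
    · simp only [List.length_append, List.length_flatMap, List.length_map, List.length_range, raw,
        List.length_cons]
    · intro f hf
      rw [List.mem_append] at hf
      rcases hf with hf | hf
      · refine ⟨f, List.mem_append_left _ hf, 1, 0, one_ne_zero, fun q p _ => ?_⟩
        simp
      · rw [List.mem_flatMap] at hf
        obtain ⟨α, hα, hf⟩ := hf
        rw [raw, List.mem_cons, List.mem_map] at hf
        rcases hf with rfl | ⟨i, hi, rfl⟩
        · refine ⟨(D.y α).1, List.mem_append_right _ ?_, 1, 0, one_ne_zero, fun q p _ => ?_⟩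
          · rw [List.mem_flatMap]
            refine ⟨α, hα, ?_⟩
            rw [List.mem_map]
            exact ⟨0, by simp, by simp [Data.vecX]⟩
          · simp
        · rw [List.mem_range] at hi
          refine ⟨D.vecX (α, i + 1), List.mem_append_right _ ?_,
            ((2 : ℝ) ^ i * (1 + ‖(D.y α).2.2 i‖))⁻¹, i, ?_, fun q p hp => ?_⟩
          · rw [List.mem_flatMap]
            refine ⟨α, hα, ?_⟩
            rw [List.mem_map]
            exact ⟨i + 1, by simp [hi], rfl⟩
          · have : 0 ≤ ‖(D.y α).2.2 i‖ := norm_nonneg _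
            positivity
          · have hv : D.vecX (α, i + 1) = bump (D.q α) (D.y α).2.2 i := by
              simp [Data.vecX]
            rw [hv, bump, add_sub_cancel_right]
            by_cases hq : q ∈ cyl (D.q α) i
            · have hp' : p ∈ cyl (D.q α) i := fun j hj => (hp j hj).trans (hq j hj)
              rw [cylf_of_mem hq, cylf_of_mem hp']
            · have hp' : p ∉ cyl (D.q α) i := fun h => hq fun j hj => (hp j hj).symm.trans (h j hj)
              rw [cylf_of_notMem hq, cylf_of_notMem hp']
  · simp [List.length_flatMap, Fintype.card_prod]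
  · intro f hf
    rw [List.mem_flatMap] at hf
    obtain ⟨α, hα, hf⟩ := hf
    rw [List.mem_map] at hf
    obtain ⟨i, hi, rfl⟩ := hf
    rw [List.mem_range] at hi
    exact ⟨(⟨α, (Finset.mem_sort _).1 hα⟩, ⟨i, hi⟩), rfl⟩

end Pool.AP
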