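import Pool.Agent.Work.MP_6cbae3_ch.Interface

set_option autoImplicit false

namespace Pool.AP

open Filter Topology Set

/-- Block PCV (helper64). -/
theorem blk_PCV : Stmt_PCV := by
  intro m M G L v hG
  obtain ⟨hL, hconv, hlip⟩ := hG
  refine ⟨⟨?_, ?_⟩, ?_, ?_⟩
  · -- the domain is convex
    intro x hx y hy a b ha hb hab
    show 0 < (a • x + b • y).2 0
    have hx' : 0 < x.2 0 := hx
    have hy' : 0 < y.2 0 := hy
    have e : (a • x + b • y).2 0 = a * x.2 0 + b * y.2 0 := by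
      simp [Prod.snd_add, Prod.smul_snd]
    rw [e]
    rcases eq_or_lt_of_le ha with h | h
    · have hb1 : b = 1 := by linarith
      rw [← h, hb1]; linarith
    · have : 0 ≤ b * y.2 0 := mul_nonneg hb hy'.le
      have : 0 < a * x.2 0 := mul_pos h hx'
      linarith
  · intro x hx y hy a b ha hb hab
    have hx' : 0 < x.2 0 := hx
    have hy' : 0 < y.2 0 := hy
    set lam : ℝ := a * x.2 0 + b * y.2 0 with hlam
    have e : (a • x + b • y).2 0 = lam := by
      simp [Prod.snd_add, Prod.smul_snd, hlam]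
    have hlampos : 0 < lam := by
      rw [hlam]
      rcases eq_or_lt_of_le ha with h | h
      · have hb1 : b = 1 := by linarith
        rw [← h, hb1]; linarith
      · have : 0 ≤ b * y.2 0 := mul_nonneg hb hy'.le
        have : 0 < a * x.2 0 := mul_pos h hx'
        linarith
    set Nx : Z m := x.1 + ∑ i : Fin M, x.2 i.succ • v i with hNx
    set Ny : Z m := y.1 + ∑ i : Fin M, y.2 i.succ • v i with hNy
    have hN : (a • x + b • y).1 + ∑ i : Fin M, (a • x + b • y).2 i.succ • v i =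
        a • Nx + b • Ny := by
      rw [hNx, hNy, smul_add, smul_add, Finset.smul_sum, Finset.smul_sum]
      have h1 : ∑ i : Fin M, (a • x + b • y).2 i.succ • v i =
          ∑ i : Fin M, a • x.2 i.succ • v i + ∑ i : Fin M, b • y.2 i.succ • v i := by
        rw [← Finset.sum_add_distrib]
        apply Finset.sum_congr rfl
        intro i _
        have : (a • x + b • y).2 i.succ = a * x.2 i.succ + b * y.2 i.succ := by
          simp [Prod.snd_add, Prod.smul_snd]
        rw [this, add_smul, mul_smul, mul_smul]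
      rw [h1]
      have h2 : (a • x + b • y).1 = a • x.1 + b • y.1 := by simp
      rw [h2]
      abel
    have hkey := hconv.2 (mem_univ ((x.2 0)⁻¹ • Nx)) (mem_univ ((y.2 0)⁻¹ • Ny))
      (show 0 ≤ a * x.2 0 / lam by positivity) (show 0 ≤ b * y.2 0 / lam by positivity)
      (by rw [← add_div, ← hlam, div_self hlampos.ne'])
    have hpt : (a * x.2 0 / lam) • (x.2 0)⁻¹ • Nx + (b * y.2 0 / lam) • (y.2 0)⁻¹ • Ny =
        lam⁻¹ • (a • Nx + b • Ny) := by
      rw [smul_smul, smul_smul, smul_add lam⁻¹ (a • Nx) (b • Ny), smul_smul, smul_smul]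
      have q1 : a * x.2 0 / lam * (x.2 0)⁻¹ = lam⁻¹ * a := by field_simp
      have q2 : b * y.2 0 / lam * (y.2 0)⁻¹ = lam⁻¹ * b := by field_simp
      rw [q1, q2]
    rw [hpt] at hkey
    simp only [persp]
    rw [e, hN, ← hNx, ← hNy]
    calc lam * G (lam⁻¹ • (a • Nx + b • Ny)) ≤ lam * ((a * x.2 0 / lam) • G ((x.2 0)⁻¹ • Nx) +
          (b * y.2 0 / lam) • G ((y.2 0)⁻¹ • Ny)) := mul_le_mul_of_nonneg_left hkey hlampos.le
      _ = a • (x.2 0 * G ((x.2 0)⁻¹ • Nx)) + b • (y.2 0 * G ((y.2 0)⁻¹ • Ny)) := by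
          simp only [smul_eq_mul]
          field_simp
  · intro z z' s hs
    simp only [persp]
    rw [← mul_sub, abs_mul, abs_of_pos hs]
    have h1 := hlip ((s 0)⁻¹ • (z + ∑ i : Fin M, s i.succ • v i))
      ((s 0)⁻¹ • (z' + ∑ i : Fin M, s i.succ • v i))
    have h2 : (s 0)⁻¹ • (z + ∑ i : Fin M, s i.succ • v i) -
        (s 0)⁻¹ • (z' + ∑ i : Fin M, s i.succ • v i) = (s 0)⁻¹ • (z - z') := by
      rw [← smul_sub]
      congr 1
      abel
    rw [h2, norm_smul, norm_inv, Real.norm_eq_abs, abs_of_pos hs] at h1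
    calc s 0 * |G ((s 0)⁻¹ • (z + ∑ i : Fin M, s i.succ • v i)) -
          G ((s 0)⁻¹ • (z' + ∑ i : Fin M, s i.succ • v i))| ≤ s 0 * (L * ((s 0)⁻¹ * ‖z - z'‖)) :=
          mul_le_mul_of_nonneg_left h1 hs.le
      _ = L * ‖z - z'‖ := by field_simp
  · intro z s hs
    simp only [persp]
    set N : Z m := z + ∑ i : Fin M, s i.succ • v i with hN
    have h1 := hlip ((s 0)⁻¹ • N) 0
    rw [sub_zero, norm_smul, norm_inv, Real.norm_eq_abs, abs_of_pos hs] at h1
    have h2 : -(|G 0|) - L * ((s 0)⁻¹ * ‖N‖) ≤ G ((s 0)⁻¹ • N) := by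
      have := (abs_le.1 h1).1
      have := neg_abs_le (G 0)
      linarith
    have h3 : ‖N‖ ≤ ‖z‖ + ∑ i : Fin M, |s i.succ| * ‖v i‖ := by
      rw [hN]
      refine le_trans (norm_add_le _ _) ?_
      gcongr
      refine le_trans (norm_sum_le _ _) ?_
      apply Finset.sum_le_sum
      intro i _
      rw [norm_smul, Real.norm_eq_abs]
    calc -(|G 0| * s 0 + L * ‖z‖ + L * ∑ i : Fin M, |s i.succ| * ‖v i‖)
        ≤ -(|G 0| * s 0 + L * ‖N‖) := by
          have := mul_le_mul_of_nonneg_left h3 hL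
          rw [mul_add] at this
          linarith
      _ = s 0 * (-(|G 0|) - L * ((s 0)⁻¹ * ‖N‖)) := by field_simp; ring
      _ ≤ s 0 * G ((s 0)⁻¹ • N) := mul_le_mul_of_nonneg_left h2 hs.le

end Pool.AP
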