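import Pool.Agent.Work.MP_6cbae3_ch.Basic

/-! # Block PSM: the perspective is differentiable in the parameters (helper55) -/

set_option autoImplicit false

namespace Pool.AP

open Filter Topology Set

namespace PSM55

variable {m M : ℕ}

theorem persp_succ (G : Z m → ℝ) (v : Fin M → Z m) (z : Z m) (π : Fin (M + 1) → ℝ)
    (i : Fin M) (t : ℝ) :
    persp G v z (π + t • Pi.single i.succ 1) =
      π 0 * G ((π 0)⁻¹ • (z + ∑ i : Fin M, π i.succ • v i) + (t / π 0) • v i) := by
  unfold persp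
  have e0 : (π + t • (Pi.single i.succ 1 : Fin (M + 1) → ℝ)) 0 = π 0 := by
    simp [(Fin.succ_ne_zero i).symm]
  have e1 : ∑ j : Fin M, (π + t • (Pi.single i.succ 1 : Fin (M + 1) → ℝ)) j.succ • v j =
      ∑ j : Fin M, π j.succ • v j + t • v i := by
    have : ∀ j : Fin M, (π + t • (Pi.single i.succ 1 : Fin (M + 1) → ℝ)) j.succ • v j =
        π j.succ • v j + (if j = i then t • v j else 0) := by
      intro j
      by_cases hj : j = i
      · subst hj
        simp [add_smul]
      · have : (Pi.single i.succ 1 : Fin (M + 1) → ℝ) j.succ = 0 := by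
          rw [Pi.single_apply, if_neg]
          exact fun h => hj (Fin.succ_injective _ h)
        simp [hj]
    rw [Finset.sum_congr rfl fun j _ => this j, Finset.sum_add_distrib]
    simp
  rw [e0, e1]
  congr 2
  rw [← add_assoc, smul_add (π 0)⁻¹ _ (t • v i), smul_smul, inv_mul_eq_div]

theorem persp_zero (G : Z m → ℝ) (v : Fin M → Z m) (z : Z m) (π : Fin (M + 1) → ℝ)
    (t : ℝ) (h : 0 < π 0) (ht : 0 < π 0 + t) :
    persp G v z (π + t • Pi.single 0 1) =
      (π 0 + t) * G ((π 0)⁻¹ • (z + ∑ i : Fin M, π i.succ • v i) -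
        (t / (π 0 + t)) • ((π 0)⁻¹ • (z + ∑ i : Fin M, π i.succ • v i))) := by
  unfold persp
  have e0 : (π + t • (Pi.single 0 1 : Fin (M + 1) → ℝ)) 0 = π 0 + t := by
    simp
  have e1 : ∑ j : Fin M, (π + t • (Pi.single 0 1 : Fin (M + 1) → ℝ)) j.succ • v j =
      ∑ j : Fin M, π j.succ • v j := by
    refine Finset.sum_congr rfl fun j _ => ?_
    simp
  rw [e0, e1, smul_smul, ← sub_smul]
  congr 3
  field_simp
  ring

end PSM55

open PSM55 in
theorem blk_PSM (h1 : Stmt_PCV) (h2 : Stmt_CFN) : Stmt_PSM := by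
  intro m M G L v z π hG hπ hGD
  obtain ⟨hL, hconv, hlip⟩ := hG
  set y : Z m := (π 0)⁻¹ • (z + ∑ i : Fin M, π i.succ • v i) with hy
  set D : Set (Fin (M + 1) → ℝ) := {s | 0 < s 0} with hD
  have hDo : IsOpen D := isOpen_lt continuous_const (continuous_apply 0)
  have hDc : Convex ℝ D := by
    intro s hs s' hs' a b ha hb hab
    have h1 : 0 < s 0 := hs
    have h2 : 0 < s' 0 := hs'
    show 0 < (a • s + b • s') 0
    simp only [Pi.add_apply, Pi.smul_apply, smul_eq_mul]
    rcases ha.eq_or_lt with rfl | ha'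
    · rw [zero_add] at hab; subst hab; linarith
    · have : 0 < a * s 0 := mul_pos ha' h1
      have : 0 ≤ b * s' 0 := mul_nonneg hb h2.le
      linarith
  have hgc : ConvexOn ℝ D (fun s => persp G v z s) := by
    obtain ⟨hc, -, -⟩ := h1 m M G L v ⟨hL, hconv, hlip⟩
    refine ⟨hDc, fun s hs s' hs' a b ha hb hab => ?_⟩
    have := hc.2 (x := (z, s)) (y := (z, s')) hs hs' ha hb hab
    have e : a • ((z, s) : Z m × (Fin (M + 1) → ℝ)) + b • ((z, s') : Z m × (Fin (M + 1) → ℝ)) =
        (z, a • s + b • s') := by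
      refine Prod.ext ?_ rfl
      show a • z + b • z = z
      rw [← add_smul, hab, one_smul]
    rw [e] at this
    exact this
  have hgx : persp G v z π = π 0 * G y := rfl
  have hS : ∀ i, ‖v i‖ ≤ ∑ i, ‖v i‖ :=
    fun i => Finset.single_le_sum (fun j _ => norm_nonneg (v j)) (Finset.mem_univ i)
  have hS0 : 0 ≤ ∑ i, ‖v i‖ := Finset.sum_nonneg fun i _ => norm_nonneg _
  have hGy : |G y| ≤ |G 0| + L * ‖y‖ := by
    have h := hlip y 0
    rw [sub_zero] at h
    have h' := abs_sub_abs_le_abs_sub (G y) (G 0)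
    linarith
  clear_value y
  have hA : ∀ i : Fin (M + 1), ∀ ε > 0, ∀ t₀ > 0, ∃ t, 0 < t ∧ t < t₀ ∧
      persp G v z (π + t • Pi.single i 1) + persp G v z (π - t • Pi.single i 1) -
        2 * persp G v z π ≤ ε * t := by
    intro i ε hε t₀ ht₀
    refine Fin.cases ?_ (fun i => ?_) i
    · obtain ⟨s₀, hs₀, hs⟩ := GD_small hconv hGD y hε
      obtain ⟨t, ht, ht1, ht2, ht3⟩ : ∃ t, 0 < t ∧ t < t₀ ∧ t < π 0 ∧ t / (π 0 - t) ≤ s₀ := by
        refine ⟨min (t₀ / 2) (min (π 0 / 2) (s₀ * (π 0) / 2)), ?_, ?_, ?_, ?_⟩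
        · exact lt_min (by linarith) (lt_min (by linarith) (by positivity))
        · exact lt_of_le_of_lt (min_le_left _ _) (by linarith)
        · exact lt_of_le_of_lt ((min_le_right _ _).trans (min_le_left _ _)) (by linarith)
        · have hb : min (t₀ / 2) (min (π 0 / 2) (s₀ * (π 0) / 2)) ≤ π 0 / 2 :=
            (min_le_right _ _).trans (min_le_left _ _)
          have hc : min (t₀ / 2) (min (π 0 / 2) (s₀ * (π 0) / 2)) ≤ s₀ * (π 0) / 2 :=
            (min_le_right _ _).trans (min_le_right _ _)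
          rw [div_le_iff₀ (by linarith)]
          nlinarith
      refine ⟨t, ht, ht1, ?_⟩
      have e1 := persp_zero G v z π t hπ (by linarith)
      have e2 := persp_zero G v z π (-t) hπ (by linarith)
      rw [neg_smul, ← sub_eq_add_neg] at e2
      show persp G v z (π + t • Pi.single 0 1) + persp G v z (π - t • Pi.single 0 1) -
        2 * persp G v z π ≤ ε * t
      rw [e1, e2, hgx, ← hy]
      have hl : 0 < π 0 - t := by linarith
      set τ₂ : ℝ := t / (π 0 - t) with hτ₂
      have hτ₂p : 0 < τ₂ := div_pos ht hl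
      have e3 : -t / (π 0 + -t) = -τ₂ := by
        rw [hτ₂, neg_div, ← sub_eq_add_neg]
      rw [e3, neg_smul, sub_neg_eq_add, ← sub_eq_add_neg]
      have hsd : SD G y y τ₂ ≤ ε * τ₂ := hs τ₂ hτ₂p ht3
      have hcv : G (y - (t / (π 0 + t)) • y) ≤
          ((π 0 - t) / (π 0 + t)) * G (y - τ₂ • y) + (2 * t / (π 0 + t)) * G y := by
        have := hconv.2 (mem_univ (y - τ₂ • y)) (mem_univ y)
          (show 0 ≤ (π 0 - t) / (π 0 + t) by positivity)
          (show 0 ≤ 2 * t / (π 0 + t) by positivity) (by field_simp; ring)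
        rw [show ((π 0 - t) / (π 0 + t)) • (y - τ₂ • y) + (2 * t / (π 0 + t)) • y =
            y - (t / (π 0 + t)) • y by
          rw [smul_sub, smul_smul, sub_add_eq_add_sub, ← add_smul,
            show (π 0 - t) / (π 0 + t) + 2 * t / (π 0 + t) = 1 by field_simp; ring, one_smul,
            show (π 0 - t) / (π 0 + t) * τ₂ = t / (π 0 + t) by rw [hτ₂]; field_simp]] at this
        simpa only [smul_eq_mul] using this
      have hcv2 : (π 0 + t) * G (y - (t / (π 0 + t)) • y) ≤
          (π 0 - t) * G (y - τ₂ • y) + 2 * t * G y := by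
        have hp : 0 < π 0 + t := by linarith
        calc (π 0 + t) * G (y - (t / (π 0 + t)) • y) ≤
            (π 0 + t) * (((π 0 - t) / (π 0 + t)) * G (y - τ₂ • y) +
              (2 * t / (π 0 + t)) * G y) := mul_le_mul_of_nonneg_left hcv hp.le
          _ = _ := by field_simp
      have hfin : (π 0 - t) * SD G y y τ₂ ≤ ε * t := by
        calc (π 0 - t) * SD G y y τ₂ ≤ (π 0 - t) * (ε * τ₂) :=
              mul_le_mul_of_nonneg_left hsd hl.le
          _ = ε * t := by rw [hτ₂]; field_simp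
      unfold SD at hfin
      nlinarith [hfin, hcv2]
    · obtain ⟨s₀, hs₀, hs⟩ := GD_small hconv hGD (v i) hε
      refine ⟨min (t₀ / 2) (s₀ * π 0), lt_min (by linarith) (by positivity),
        lt_of_le_of_lt (min_le_left _ _) (by linarith), ?_⟩
      set t := min (t₀ / 2) (s₀ * π 0) with ht
      have htp : 0 < t := lt_min (by linarith) (by positivity)
      have e1 := persp_succ G v z π i t
      have e2 := persp_succ G v z π i (-t)
      rw [neg_smul, ← sub_eq_add_neg, neg_div, neg_smul, ← sub_eq_add_neg] at e2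
      show persp G v z (π + t • Pi.single i.succ 1) + persp G v z (π - t • Pi.single i.succ 1) -
        2 * persp G v z π ≤ ε * t
      rw [e1, e2, hgx, ← hy]
      have hsd : SD G y (v i) (t / π 0) ≤ ε * (t / π 0) := by
        refine hs _ (by positivity) ?_
        rw [div_le_iff₀ hπ]
        exact min_le_right _ _
      have : π 0 * SD G y (v i) (t / π 0) ≤ ε * t := by
        calc _ ≤ π 0 * (ε * (t / π 0)) := mul_le_mul_of_nonneg_left hsd hπ.le
          _ = ε * t := by field_simp
      unfold SD at this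
      linarith
  have hB : ∀ i : Fin (M + 1), ∀ t₀ > 0, ∃ t, 0 < t ∧ t < t₀ ∧
      |persp G v z (π + t • Pi.single i 1) - persp G v z π| ≤
        (|G 0| + 3 * L * (‖y‖ + ∑ i, ‖v i‖)) * t := by
    intro i t₀ ht₀
    refine ⟨t₀ / 2, by linarith, by linarith, ?_⟩
    set t := t₀ / 2 with ht
    have htp : 0 < t := by linarith
    refine Fin.cases ?_ (fun i => ?_) i
    · have e1 := persp_zero G v z π t hπ (by linarith)
      show |persp G v z (π + t • Pi.single 0 1) - persp G v z π| ≤ _
      rw [e1, hgx, ← hy]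
      have hp : 0 < π 0 + t := by linarith
      have h3 := hlip (y - (t / (π 0 + t)) • y) y
      rw [sub_sub_cancel_left, norm_neg, norm_smul, Real.norm_eq_abs,
        abs_of_pos (show 0 < t / (π 0 + t) by positivity)] at h3
      have h4 : |(π 0 + t) * G (y - (t / (π 0 + t)) • y) - π 0 * G y| ≤
          (π 0 + t) * |G (y - (t / (π 0 + t)) • y) - G y| + t * |G y| := by
        have : (π 0 + t) * G (y - (t / (π 0 + t)) • y) - π 0 * G y =
            (π 0 + t) * (G (y - (t / (π 0 + t)) • y) - G y) + t * G y := by ring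
        rw [this]
        refine (abs_add_le _ _).trans ?_
        rw [abs_mul, abs_mul, abs_of_pos hp, abs_of_pos htp]
      have h5 : (π 0 + t) * |G (y - (t / (π 0 + t)) • y) - G y| ≤ t * (L * ‖y‖) := by
        calc _ ≤ (π 0 + t) * (L * (t / (π 0 + t) * ‖y‖)) := mul_le_mul_of_nonneg_left h3 hp.le
          _ = t * (L * ‖y‖) := by field_simp
      have h6 : t * |G y| ≤ t * (|G 0| + L * ‖y‖) := mul_le_mul_of_nonneg_left hGy htp.le
      have h7 : 0 ≤ L * ‖y‖ := mul_nonneg hL (norm_nonneg _)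
      have h8 : 0 ≤ L * ∑ i, ‖v i‖ := mul_nonneg hL hS0
      nlinarith [mul_nonneg htp.le h7, mul_nonneg htp.le h8]
    · have e1 := persp_succ G v z π i t
      show |persp G v z (π + t • Pi.single i.succ 1) - persp G v z π| ≤ _
      rw [e1, hgx, ← hy]
      have h3 := hlip (y + (t / π 0) • v i) y
      rw [add_sub_cancel_left, norm_smul, Real.norm_eq_abs,
        abs_of_pos (show 0 < t / π 0 by positivity)] at h3
      have h4 : |π 0 * G (y + (t / π 0) • v i) - π 0 * G y| ≤ t * (L * ‖v i‖) := by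
        rw [← mul_sub, abs_mul, abs_of_pos hπ]
        calc _ ≤ π 0 * (L * (t / π 0 * ‖v i‖)) := mul_le_mul_of_nonneg_left h3 hπ.le
          _ = t * (L * ‖v i‖) := by field_simp
      have h5 : L * ‖v i‖ ≤ L * ∑ i, ‖v i‖ := mul_le_mul_of_nonneg_left (hS i) hL
      have h7 : 0 ≤ L * ‖y‖ := mul_nonneg hL (norm_nonneg _)
      have h8 : 0 ≤ L * ∑ i, ‖v i‖ := mul_nonneg hL hS0
      have h9 := abs_nonneg (G 0)
      nlinarith [mul_nonneg htp.le h7, mul_nonneg htp.le h8, mul_nonneg htp.le h9,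
        mul_le_mul_of_nonneg_left h5 htp.le]
  obtain ⟨ξ, hξ, hd⟩ := h2 (M + 1) D (fun s => persp G v z s) π
    (|G 0| + 3 * L * (‖y‖ + ∑ i, ‖v i‖)) hDo hDc hπ hgc hA hB
  refine ⟨ξ, hξ, fun η hη => ?_⟩
  obtain ⟨τ, hτ, h⟩ := hd η hη
  exact ⟨τ, hτ, fun u hu => h u hu⟩

end Pool.AP
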