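import Pool.Agent.Work.MP_6cbae3_ch.Interface

set_option autoImplicit false

namespace Pool.AP

open Filter Topology Set

/-- Block RB (helper64). -/
theorem blk_RB : Stmt_RB := by
  intro d φ h0 hc1 hc2 s s' hs
  set D : ℝ := ∑ i, s i * (s' - s) i with hD
  set C : ℝ := nsq (s' - s) with hC
  have hn : ∀ τ : ℝ, nsq (s + τ • (s' - s)) = nsq s + 2 * τ * D + τ ^ 2 * C := by
    intro τ
    rw [hD, hC]
    unfold nsq
    rw [Finset.mul_sum, Finset.mul_sum, ← Finset.sum_add_distrib, ← Finset.sum_add_distrib]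
    apply Finset.sum_congr rfl
    intro i _
    simp only [Pi.add_apply, Pi.smul_apply, Pi.sub_apply, smul_eq_mul]
    ring
  have hC0 : 0 ≤ C := by
    rw [hC]; unfold nsq; exact Finset.sum_nonneg fun i _ => sq_nonneg _
  have p1 : s' = s + (1 : ℝ) • (s' - s) := by rw [one_smul]; abel
  set u := s + (-1 : ℝ) • (s' - s) with hu
  set w := s + (7 : ℝ) • (s' - s) with hw
  have n1 : nsq s' = nsq s + 2 * 1 * D + 1 ^ 2 * C := by
    conv_lhs => rw [p1]
    exact hn 1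
  have nu : nsq u = nsq s + 2 * (-1) * D + (-1) ^ 2 * C := hn (-1)
  have nw : nsq w = nsq s + 2 * 7 * D + 7 ^ 2 * C := hn 7
  have m1 : (1 / 2 : ℝ) • s' + (1 / 2 : ℝ) • u = s := by
    rw [hu]
    ext i
    simp only [Pi.add_apply, Pi.smul_apply, Pi.sub_apply, smul_eq_mul]
    ring
  have m2 : (7 / 8 : ℝ) • u + (1 / 8 : ℝ) • w = s := by
    rw [hu, hw]
    ext i
    simp only [Pi.add_apply, Pi.smul_apply, Pi.sub_apply, smul_eq_mul]
    ring
  have e1 := hc1.2 (mem_univ s') (mem_univ u) (by norm_num : (0 : ℝ) ≤ 1 / 2)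
    (by norm_num : (0 : ℝ) ≤ 1 / 2) (by norm_num)
  rw [m1] at e1
  have e2 := hc2.2 (mem_univ u) (mem_univ w) (by norm_num : (0 : ℝ) ≤ 7 / 8)
    (by norm_num : (0 : ℝ) ≤ 1 / 8) (by norm_num)
  rw [m2] at e2
  simp only [smul_eq_mul] at e1 e2
  rw [n1, nu] at e1
  rw [nu, nw] at e2
  have hw0 := h0 w
  linarith

end Pool.AP
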