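import Pool.Agent.Work.MP_6cbae3_ch.Basic

/-! # MP_6cbae3_an: block RESP (helper89) -/

set_option autoImplicit false

namespace Pool.AP

open Filter Topology Set

/-- `E` is dense in `X × (A → ℝ)` -/
theorem resp_dense (hDEN : Stmt_DEN) {A : Type} [LinearOrder A] {D : Data A} (hD : D.Good) :
    Dense (D.E : Set (X × (A → ℝ))) := by
  rw [dense_iff_inter_open]
  rintro U hU ⟨u, hu⟩
  by_cases hA : Nonempty A
  · obtain ⟨γ⟩ := hA
    obtain ⟨α, -, h⟩ := hDEN A D hD (U ×ˢ univ) (hU.prod isOpen_univ) ⟨(u, 0), ⟨hu, mem_univ _⟩⟩ γ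
    exact ⟨D.eh (α, 0), h.1, (D.ehE (α, 0)).2⟩
  · exfalso
    obtain ⟨a, -⟩ := hD.idx.unb ∅ countable_empty
    exact hA ⟨a⟩

/-- the coordinate map -/
theorem resp_open {A : Type} {m : ℕ} (I : Fin m → A) (hI : Function.Injective I) :
    IsOpenMap (fun p : X × (A → ℝ) => ((p.1, fun i => p.2 (I i)) : Z m)) :=
  IsOpenMap.id.prodMap (isOpenMap_select I hI)

theorem resp_cont {A : Type} {m : ℕ} (I : Fin m → A) :
    Continuous (fun p : X × (A → ℝ) => ((p.1, fun i => p.2 (I i)) : Z m)) :=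
  continuous_fst.prodMk ((continuous_select (V := fun _ : A => ℝ) I).comp continuous_snd)

theorem blk_RESP (hDEN : Stmt_DEN) : Stmt_RESP := by
  intro A _ D hD m I hI s hs
  rw [mem_residual_iff] at hs
  obtain ⟨S, hSo, hSd, hSc, hSs⟩ := hs
  have hE := resp_dense hDEN hD
  have h3 : ∀ᶠ x in residual D.E, ∀ O ∈ S, D.pr I x ∈ O := by
    rw [eventually_countable_ball hSc]
    intro O hO
    have ho : IsOpen ((fun p : X × (A → ℝ) => ((p.1, fun i => p.2 (I i)) : Z m)) ⁻¹' O) :=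
      (hSo O hO).preimage (resp_cont I)
    have hd : Dense ((fun p : X × (A → ℝ) => ((p.1, fun i => p.2 (I i)) : Z m)) ⁻¹' O) :=
      (hSd O hO).preimage (resp_open I hI)
    refine residual_of_dense_open (ho.preimage continuous_subtype_val) ?_
    rw [dense_iff_inter_open]
    rintro U hU ⟨u, hu⟩
    obtain ⟨V, hV, rfl⟩ := isOpen_induced_iff.1 hU
    obtain ⟨w, hw1, hw2⟩ := hd.inter_open_nonempty V hV ⟨u.1, hu⟩
    obtain ⟨e, he1, he2⟩ := hE.inter_open_nonempty _ (hV.inter ho) ⟨w, hw1, hw2⟩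
    exact ⟨⟨e, he2⟩, he1.1, he1.2⟩
  filter_upwards [h3] with x hx
  exact hSs (mem_sInter.2 hx)

end Pool.AP
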