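import Pool.Agent.Work.MP_6cbae3_ch.Interface

set_option autoImplicit false

namespace Pool.AP

open Filter Topology Set

namespace SEPAaux

theorem exists_cyl_subset {U : Set K} (hU : IsOpen U) {p : K} (hp : p ∈ U) :
    ∃ k, cyl p k ⊆ U := by
  obtain ⟨I, u, hu, hsub⟩ := isOpen_pi_iff.1 hU p hp
  refine ⟨I.sup id + 1, fun p' hp' => hsub ?_⟩
  intro i hi
  have h1 : i < I.sup id + 1 := Nat.lt_succ_of_le (Finset.le_sup (f := id) hi)
  have h2 : p' i = p i := hp' i h1
  rw [h2]
  exact (hu i hi).2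

theorem osc (f : X) {δ : ℝ} (hδ : 0 < δ) : ∃ N, ∀ n, N ≤ n → ∀ p, ∀ p' ∈ cyl p n, |f p' - f p| < δ := by
  have h1 : ∀ p : K, ∃ k, cyl p k ⊆ {p' | |f p' - f p| < δ / 2} := fun p =>
    exists_cyl_subset (isOpen_lt (by fun_prop) continuous_const) (by simpa using half_pos hδ)
  choose k hk using h1
  obtain ⟨T, -, hT⟩ := (isCompact_univ : IsCompact (univ : Set K)).elim_nhds_subcover
    (fun p => cyl p (k p)) (fun p _ => (isClopen_cyl p (k p)).isOpen.mem_nhds (mem_cyl_self p _))
  refine ⟨T.sup k, fun n hn p p' hp' => ?_⟩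
  obtain ⟨q, hq, hpq⟩ := mem_iUnion₂.1 (hT (mem_univ p))
  have hle : k q ≤ n := (Finset.le_sup (f := k) hq).trans hn
  have h2 : p' ∈ cyl q (k q) := fun i hi => (hp' i (hi.trans_le hle)).trans (hpq i hi)
  have h3 := hk q hpq
  have h4 := hk q h2
  simp only [mem_ofPred_eq, abs_lt] at h3 h4 ⊢
  constructor <;> linarith [h3.1, h3.2, h4.1, h4.2]

theorem osc_list (w : List X) {δ : ℝ} (hδ : 0 < δ) :
    ∃ N, ∀ n, N ≤ n → ∀ f ∈ w, ∀ p, ∀ p' ∈ cyl p n, |f p' - f p| < δ := by
  induction w with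
  | nil => exact ⟨0, by simp⟩
  | cons g w ih =>
    obtain ⟨N₁, h₁⟩ := ih
    obtain ⟨N₂, h₂⟩ := osc g hδ
    refine ⟨max N₁ N₂, fun n hn f hf => ?_⟩
    rcases List.mem_cons.1 hf with rfl | hf
    · exact h₂ n ((le_max_right _ _).trans hn)
    · exact h₁ n ((le_max_left _ _).trans hn) f hf

/-- the point number `j` near `p` -/
def pt (N : ℕ) (p : K) (j : ℕ) : K := fun i => if i < N then p i else decide (i < N + j)

theorem pt_mem (N : ℕ) (p : K) (j : ℕ) : pt N p j ∈ cyl p N := fun i hi => by simp [pt, hi]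

/-- the counting function -/
noncomputable def g (N n : ℕ) (s : ℝ) : X :=
  ⟨fun p => s * ∑ i ∈ Finset.range n, if p (N + i) then (1 : ℝ) else 0, by
    refine continuous_const.mul (continuous_finsetSum _ fun i _ => ?_)
    have h : Continuous (fun b : Bool => if b then (1 : ℝ) else 0) := continuous_of_discreteTopology
    exact h.comp (continuous_apply (N + i))⟩

theorem g_apply (N n : ℕ) (s : ℝ) (p : K) :
    g N n s p = s * ∑ i ∈ Finset.range n, if p (N + i) then (1 : ℝ) else 0 := rfl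

theorem g_pt {N n : ℕ} {s : ℝ} {p : K} {j : ℕ} (hj : j ≤ n) : g N n s (pt N p j) = s * j := by
  rw [g_apply]
  congr 1
  have h1 : ∀ i ∈ Finset.range n, (if pt N p j (N + i) then (1 : ℝ) else 0) =
      if i < j then 1 else 0 := by
    intro i _
    simp [pt]
  rw [Finset.sum_congr rfl h1, ← Finset.sum_filter]
  have h2 : (Finset.range n).filter (fun i => i < j) = Finset.range j := by
    ext i; simp; omega
  rw [h2]
  simp

theorem norm_g (N n : ℕ) {s : ℝ} (hs : 0 ≤ s) : ‖g N n s‖ ≤ s * n := by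
  rw [ContinuousMap.norm_le _ (by positivity)]
  intro p
  rw [g_apply, Real.norm_eq_abs, abs_mul, abs_of_nonneg hs]
  refine mul_le_mul_of_nonneg_left ?_ hs
  rw [abs_of_nonneg (Finset.sum_nonneg fun i _ => by split_ifs <;> norm_num)]
  calc ∑ i ∈ Finset.range n, (if p (N + i) then (1 : ℝ) else 0)
      ≤ ∑ i ∈ Finset.range n, (1 : ℝ) := Finset.sum_le_sum fun i _ => by split_ifs <;> norm_num
    _ = n := by simp

end SEPAaux

open SEPAaux in
theorem blk_SEPA : Stmt_SEPA := by
  classical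
  intro w hw q k M hM x₀ ε hε
  set d := w.length with hd
  set M' : ℝ := 2 ^ (d + 1) * M / ε + M + 1 / ε with hM'
  have hM'pos : 0 < M' := by positivity
  obtain ⟨s', hs', hsM, Q', hQ'c, hQ'card, hQ'sep⟩ := hw q k M' hM'pos
  -- the number of points
  have h1 : s' < ε := by
    have h : s' * (1 / ε) ≤ s' * M' := by
      apply mul_le_mul_of_nonneg_left _ hs'.le
      have : 0 ≤ 2 ^ (d + 1) * M / ε + M := by positivity
      linarith
    have h' : s' * (1 / ε) < 1 := h.trans_lt hsM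
    rw [mul_one_div, div_lt_one hε] at h'
    exact h'
  set n : ℕ := ⌊ε / s'⌋₊ with hn
  have hn1 : 1 ≤ n := by
    rw [hn, Nat.one_le_floor_iff]
    exact (one_le_div hs').2 h1.le
  have hn2 : (n : ℝ) * s' ≤ ε := by
    have := Nat.floor_le (div_nonneg hε.le hs'.le)
    rw [← hn, le_div_iff₀ hs'] at this
    exact this
  have hn3 : ε / 2 ≤ n * s' := by
    have h2 : ε / s' < n + 1 := Nat.lt_floor_add_one _
    rw [div_lt_iff₀ hs'] at h2
    have h3 : (1 : ℝ) ≤ n := by exact_mod_cast hn1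
    nlinarith
  obtain ⟨N₁, hN₁⟩ := osc_list (x₀ :: w) (δ := s' / 4) (by positivity)
  set N := max N₁ k with hN
  have hosc := hN₁ N (le_max_left _ _)
  set x : X := x₀ + g N (n - 1) s' with hx
  -- values
  have hgpt : ∀ p : K, ∀ j < n, x (pt N p j) = x₀ (pt N p j) + s' * j := by
    intro p j hj
    rw [hx, ContinuousMap.add_apply, g_pt (by omega)]
  have hsep : ∀ p ∈ Q', ∀ p' ∈ Q', ∀ i < n, ∀ j < n, (p, i) ≠ (p', j) →
      ∃ f ∈ w ++ [x], s' / 2 < |f (pt N p i) - f (pt N p' j)| := by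
    intro p hp p' hp' i hi j hj hne
    by_cases hpp : p = p'
    · subst hpp
      have hij : i ≠ j := fun h => hne (by rw [h])
      refine ⟨x, by simp, ?_⟩
      rw [hgpt p i hi, hgpt p j hj]
      have h2 := hosc x₀ (by simp) p _ (pt_mem N p i)
      have h3 := hosc x₀ (by simp) p _ (pt_mem N p j)
      rw [abs_lt] at h2 h3
      rcases lt_or_gt_of_ne hij with hlt | hlt
      · have h4 : (i : ℝ) + 1 ≤ j := by exact_mod_cast hlt
        have h5 : s' * (i + 1) ≤ s' * j := mul_le_mul_of_nonneg_left h4 hs'.le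
        rw [lt_abs]; right; linarith [h2.1, h2.2, h3.1, h3.2]
      · have h4 : (j : ℝ) + 1 ≤ i := by exact_mod_cast hlt
        have h5 : s' * (j + 1) ≤ s' * i := mul_le_mul_of_nonneg_left h4 hs'.le
        rw [lt_abs]; left; linarith [h2.1, h2.2, h3.1, h3.2]
    · obtain ⟨f, hf, hff⟩ := hQ'sep p hp p' hp' hpp
      refine ⟨f, by simp [hf], ?_⟩
      have h2 := hosc f (by simp [hf]) p _ (pt_mem N p i)
      have h3 := hosc f (by simp [hf]) p' _ (pt_mem N p' j)
      rw [abs_lt] at h2 h3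
      rcases lt_abs.1 hff with h | h
      · rw [lt_abs]; left; linarith [h2.1, h2.2, h3.1, h3.2]
      · rw [lt_abs]; right; linarith [h2.1, h2.2, h3.1, h3.2]
  have hinj : Set.InjOn (fun a : K × ℕ => pt N a.1 a.2) (Q' ×ˢ Finset.range n : Finset (K × ℕ)) := by
    rintro ⟨p, i⟩ ha ⟨p', j⟩ hb hab
    by_contra hne
    simp only [Finset.coe_product, Finset.coe_range, mem_prod, Finset.mem_coe, mem_Iio] at ha hb hab
    obtain ⟨f, -, hf⟩ := hsep p ha.1 p' hb.1 i ha.2 j hb.2 hne
    rw [hab, sub_self, abs_zero] at hf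
    linarith
  refine ⟨x, ?_, s' / 2, by positivity, ?_, (Q' ×ˢ Finset.range n).image
    (fun a : K × ℕ => pt N a.1 a.2), ?_, ?_, ?_⟩
  · have h2 : x - x₀ = g N (n - 1) s' := by rw [hx]; abel
    rw [h2]
    refine (norm_g N (n - 1) hs'.le).trans_lt ?_
    have h3 : ((n - 1 : ℕ) : ℝ) = n - 1 := by push_cast [Nat.cast_sub hn1]; ring
    rw [h3]
    nlinarith
  · have h2 : s' * M ≤ s' * M' := by
      apply mul_le_mul_of_nonneg_left _ hs'.le
      have : 0 ≤ 2 ^ (d + 1) * M / ε + 1 / ε := by positivity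
      linarith
    have h3 : 0 < s' * M := by positivity
    linarith
  · intro p hp
    obtain ⟨⟨p', i⟩, ha, rfl⟩ := Finset.mem_image.1 hp
    simp only [Finset.mem_product, Finset.mem_range] at ha
    intro l hl
    have h2 : pt N p' i l = p' l := pt_mem N p' i l (hl.trans_le (le_max_right _ _))
    simp only
    rw [h2]
    exact hQ'c p' ha.1 l hl
  · rw [Finset.card_image_of_injOn hinj, Finset.card_product, Finset.card_range, List.length_append,
      List.length_singleton, ← hd]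
    push_cast
    have h2 : M * (s' / 2) ≤ (M' * s') * (ε / 2) / 2 ^ (d + 1) := by
      have h3 : 2 ^ (d + 1) * M / ε ≤ M' := by
        have : 0 ≤ M + 1 / ε := by positivity
        linarith
      have h4 : M * (s' / 2) = ((2 ^ (d + 1) * M / ε) * s') * (ε / 2) / 2 ^ (d + 1) := by
        field_simp
      rw [h4]
      gcongr
    refine h2.trans ?_
    have h5 : ((Q'.card : ℝ) * n) * (s' / 2) ^ (d + 1) =
        (Q'.card * s' ^ d) * (n * s') / 2 ^ (d + 1) := by
      rw [div_pow, pow_succ s' d]; ring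
    rw [h5]
    have h6 : 0 ≤ M' * s' := by positivity
    gcongr
  · intro p hp p' hp' hne
    obtain ⟨⟨a, i⟩, ha, rfl⟩ := Finset.mem_image.1 hp
    obtain ⟨⟨a', j⟩, ha', rfl⟩ := Finset.mem_image.1 hp'
    simp only [Finset.mem_product, Finset.mem_range] at ha ha'
    refine hsep a ha.1 a' ha'.1 i ha.2 j ha'.2 ?_
    intro h
    apply hne
    simp only [Prod.mk.injEq] at h
    simp only [h.1, h.2]

end Pool.AP
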