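import Pool.Agent.Work.MP_6cbae3_ch.Interface

/-! Block SEPI (helper70): invariance of the separation. -/

set_option autoImplicit false

namespace Pool.AP

open Filter Topology Set

theorem cyl_mono_sepi {q p : K} {k l : ℕ} (hkl : k ≤ l) (h : p ∈ cyl q l) : p ∈ cyl q k :=
  fun i hi => h i (lt_of_lt_of_le hi hkl)

theorem sepi_aux (w' : List X) : ∀ w : List X,
    (∀ f ∈ w, ∃ f' ∈ w', ∃ (a : ℝ) (k : ℕ), a ≠ 0 ∧
      ∀ q, ∀ p ∈ cyl q k, (f' - a • f) p = (f' - a • f) q) →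
    ∃ (k : ℕ) (c : ℝ), 0 < c ∧ c ≤ 1 ∧ ∀ f ∈ w, ∃ f' ∈ w', ∃ a : ℝ, c ≤ |a| ∧
      ∀ q, ∀ p ∈ cyl q k, (f' - a • f) p = (f' - a • f) q
  | [], _ => ⟨0, 1, one_pos, le_rfl, by simp⟩
  | g :: w, h => by
    obtain ⟨k, c, hc, hc1, hw⟩ := sepi_aux w' w fun f hf => h f (List.mem_cons_of_mem _ hf)
    obtain ⟨g', hg', a, k', ha, hl⟩ := h g List.mem_cons_self
    refine ⟨max k k', min c |a|, lt_min hc (abs_pos.2 ha), (min_le_left _ _).trans hc1, ?_⟩
    intro f hf
    rcases List.mem_cons.1 hf with rfl | hf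
    · exact ⟨g', hg', a, min_le_right _ _, fun q p hp =>
        hl q p (cyl_mono_sepi (le_max_right _ _) hp)⟩
    · obtain ⟨f', hf', a', ha', hl'⟩ := hw f hf
      exact ⟨f', hf', a', (min_le_left _ _).trans ha', fun q p hp =>
        hl' q p (cyl_mono_sepi (le_max_left _ _) hp)⟩

theorem blk_SEPI : Stmt_SEPI := by
  intro w w' hw hlen h q k M hM
  obtain ⟨k', c, hc, hc1, hw'⟩ := sepi_aux w' w h
  have hcd : (0 : ℝ) < c ^ w.length := pow_pos hc _
  have hcd1 : c ^ w.length ≤ 1 := pow_le_one₀ hc.le hc1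
  obtain ⟨s, hs, hsM, Q, hQ, hcard, hsep⟩ := hw q (max k k') (M / c ^ w.length) (div_pos hM hcd)
  have hMM : M ≤ M / c ^ w.length := by
    rw [le_div_iff₀ hcd]
    nlinarith
  refine ⟨c * s, mul_pos hc hs, ?_, Q, fun p hp => cyl_mono_sepi (le_max_left _ _) (hQ p hp),
    ?_, ?_⟩
  · calc c * s * M ≤ 1 * s * (M / c ^ w.length) := by gcongr
      _ = s * (M / c ^ w.length) := by ring
      _ < 1 := hsM
  · rw [← hlen]
    have e : M / c ^ w.length * s * c ^ w.length = M * s := by field_simp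
    calc M * (c * s) ≤ M * (1 * s) := by gcongr
      _ = M / c ^ w.length * s * c ^ w.length := by rw [e]; ring
      _ ≤ (Q.card * s ^ w.length) * c ^ w.length := by gcongr
      _ = Q.card * (c * s) ^ w.length := by rw [mul_pow]; ring
  · intro p hp p' hp' hne
    obtain ⟨f, hf, hlt⟩ := hsep p hp p' hp' hne
    obtain ⟨f', hf', a, ha, hl⟩ := hw' f hf
    refine ⟨f', hf', ?_⟩
    have h1 := hl q p (cyl_mono_sepi (le_max_right _ _) (hQ p hp))
    have h2 := hl q p' (cyl_mono_sepi (le_max_right _ _) (hQ p' hp'))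
    have e : f' p - f' p' = a * (f p - f p') := by
      simp only [ContinuousMap.sub_apply, ContinuousMap.smul_apply, smul_eq_mul] at h1 h2
      linarith
    rw [e, abs_mul]
    calc c * s < c * |f p - f p'| := by gcongr
      _ ≤ |a| * |f p - f p'| := by gcongr

end Pool.AP
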