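import Pool.Agent.Work.MP_6cbae3_ch.Basic

/-! # MP_6cbae3_an: block SEPN (helper7) -/

set_option autoImplicit false

namespace Pool.AP

open Filter Topology Set

theorem SepAt.congr {w : List X} {q q' : K} {k : ℕ} {M : ℝ} (h : SepAt w q k M)
    (hq : q' ∈ cyl q k) : SepAt w q' k M := by
  obtain ⟨s, hs, h1, Q, hQ, h2, h3⟩ := h
  exact ⟨s, hs, h1, Q, fun p hp => by rw [cyl_eq_of_mem hq]; exact hQ p hp, h2, h3⟩

theorem SepAt.anti {w : List X} {q : K} {k : ℕ} {M M' : ℝ} (h : SepAt w q k M)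
    (hM : M' ≤ M) : SepAt w q k M' := by
  obtain ⟨s, hs, h1, Q, hQ, h2, h3⟩ := h
  refine ⟨s, hs, lt_of_le_of_lt ?_ h1, Q, hQ, le_trans ?_ h2, h3⟩
  · exact mul_le_mul_of_nonneg_left hM hs.le
  · exact mul_le_mul_of_nonneg_right hM hs.le

/-- extension of a finite word by `false` -/
def ext (k : ℕ) (σ : Fin k → Bool) : K := fun i => if h : i < k then σ ⟨i, h⟩ else false

theorem mem_cyl_ext (q : K) (k : ℕ) : ext k (fun i => q i) ∈ cyl q k := by
  intro i hi
  simp [ext, hi]

theorem sep_iff (w : List X) : Sep w ↔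
    ∀ (k : ℕ) (σ : Fin k → Bool) (N : ℕ), SepAt w (ext k σ) k ((N : ℝ) + 1) := by
  constructor
  · intro h k σ N
    exact h _ _ _ (by positivity)
  · intro h q k M _
    obtain ⟨N, hN⟩ := exists_nat_gt M
    exact ((h k (fun i => q i) N).anti (by linarith)).congr (cyl_symm (mem_cyl_ext q k))

theorem isOpen_sepAt (w : List X) (n : ℕ) (q : K) (k : ℕ) (M : ℝ) :
    IsOpen {x : Fin n → X | SepAt (w ++ List.ofFn x) q k M} := by
  rw [isOpen_iff_forall_mem_open]
  rintro x ⟨s, hs, h1, Q, hQ, h2, h3⟩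
  refine ⟨⋂ p ∈ Q, ⋂ p' ∈ Q, {y : Fin n → X | p ≠ p' →
    ∃ f ∈ w ++ List.ofFn y, s < |f p - f p'|}, ?_, ?_, ?_⟩
  · intro y hy
    simp only [mem_iInter, mem_ofPred_eq] at hy
    exact ⟨s, hs, h1, Q, hQ, by simpa using h2, fun p hp p' hp' => hy p hp p' hp'⟩
  · refine isOpen_biInter_finset fun p _ => isOpen_biInter_finset fun p' _ => ?_
    by_cases hpp : p = p'
    · simp [hpp]
    · by_cases hw : ∃ f ∈ w, s < |f p - f p'|
      · obtain ⟨f, hf, hf'⟩ := hw
        convert isOpen_univ
        rw [eq_univ_iff_forall]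
        exact fun y _ => ⟨f, List.mem_append_left _ hf, hf'⟩
      · have : {y : Fin n → X | p ≠ p' → ∃ f ∈ w ++ List.ofFn y, s < |f p - f p'|} =
            ⋃ i : Fin n, {y | s < |y i p - y i p'|} := by
          ext y
          simp only [mem_ofPred_eq, mem_iUnion, List.mem_append, List.mem_ofFn]
          constructor
          · intro h
            obtain ⟨f, hf | ⟨i, rfl⟩, hlt⟩ := h hpp
            · exact absurd ⟨f, hf, hlt⟩ hw
            · exact ⟨i, hlt⟩
          · rintro ⟨i, hi⟩ _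
            exact ⟨y i, Or.inr ⟨i, rfl⟩, hi⟩
        rw [this]
        refine isOpen_iUnion fun i => isOpen_lt continuous_const ?_
        have hc : ∀ p : K, Continuous fun y : Fin n → X => y i p := fun p =>
          (ContinuousEvalConst.continuous_eval_const p).comp (continuous_apply i)
        exact ((hc p).sub (hc p')).abs
  · simp only [mem_iInter, mem_ofPred_eq]
    exact fun p hp p' hp' hne => h3 p hp p' hp' hne

theorem residual_sep (w : List X) (n : ℕ)
    (hd : ∀ (k : ℕ) (σ : Fin k → Bool) (N : ℕ),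
      Dense {x : Fin n → X | SepAt (w ++ List.ofFn x) (ext k σ) k ((N : ℝ) + 1)}) :
    ∀ᶠ x in residual (Fin n → X), Sep (w ++ List.ofFn x) := by
  simp only [sep_iff]
  refine eventually_countable_forall.2 fun k => eventually_countable_forall.2 fun σ =>
    eventually_countable_forall.2 fun N => ?_
  exact residual_of_dense_open (isOpen_sepAt w n _ _ _) (hd k σ N)

theorem dense_one (hA : Stmt_SEPA) (w : List X) (hw : Sep w) (x₀ : X) {ε : ℝ} (hε : 0 < ε) :
    ∃ x : X, ‖x - x₀‖ < ε ∧ Sep (w ++ [x]) := by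
  have hr : ∀ᶠ x in residual (Fin 1 → X), Sep (w ++ List.ofFn x) := by
    refine residual_sep w 1 fun k σ N => ?_
    rw [Metric.dense_iff]
    intro x r hr
    obtain ⟨y, hy, hy'⟩ := hA w hw (ext k σ) k ((N : ℝ) + 1) (by positivity) (x 0) r hr
    refine ⟨fun _ => y, ?_, ?_⟩
    · rw [Metric.mem_ball, dist_pi_lt_iff hr]
      intro i
      rw [Subsingleton.elim i 0, dist_eq_norm]
      exact hy
    · simpa using hy'
  have hdense : Dense {x : Fin 1 → X | Sep (w ++ List.ofFn x)} := dense_of_mem_residual hr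
  obtain ⟨x, hx, hx'⟩ := Metric.dense_iff.1 hdense (fun _ => x₀) ε hε
  refine ⟨x 0, ?_, ?_⟩
  · rw [Metric.mem_ball, dist_pi_lt_iff hε] at hx
    rw [← dist_eq_norm]
    exact hx 0
  · simpa using hx'

theorem dense_sep (hA : Stmt_SEPA) (n : ℕ) : ∀ w : List X, Sep w →
    Dense {x : Fin n → X | Sep (w ++ List.ofFn x)} := by
  induction n with
  | zero =>
    intro w hw
    convert dense_univ
    rw [eq_univ_iff_forall]
    intro x
    simpa using hw
  | succ n ih =>
    intro w hw
    rw [Metric.dense_iff]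
    intro x r hr
    obtain ⟨y, hy, hy'⟩ := dense_one hA w hw (x 0) hr
    obtain ⟨z, hz, hz'⟩ := Metric.dense_iff.1 (ih (w ++ [y]) hy') (fun i => x i.succ) r hr
    refine ⟨Fin.cons y z, ?_, ?_⟩
    · rw [Metric.mem_ball, dist_pi_lt_iff hr] at hz ⊢
      intro i
      refine Fin.cases ?_ (fun i => ?_) i
      · rw [Fin.cons_zero, dist_eq_norm]
        exact hy
      · rw [Fin.cons_succ]
        exact hz i
    · simp only [mem_ofPred_eq] at hz' ⊢
      rw [List.ofFn_succ]
      simp only [Fin.cons_zero, Fin.cons_succ]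
      rwa [List.append_assoc, List.singleton_append] at hz'

theorem blk_SEPN (hA : Stmt_SEPA) : Stmt_SEPN := by
  intro w n hw
  refine residual_sep w n fun k σ N => (dense_sep hA n w hw).mono fun x hx => ?_
  exact hx _ _ _ (by positivity)

end Pool.AP
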