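import Pool.Agent.Work.MP_6cbae3_ch.Interface

set_option autoImplicit false

namespace Pool.AP

open Filter Topology Set

/-- prescribed values at finitely many points of the Cantor set -/
theorem sepp_interp {A : Type} (e : A → K) (he : Function.Injective e) (I : Finset A)
    (x : A → ℝ) : ∃ f : X, ∀ a ∈ I, f (e a) = x a := by
  classical
  let s : Set K := e '' (I : Set A)
  have hs : s.Finite := I.finite_toSet.image e
  have : Finite s := hs.to_subtype
  have hex : ∀ p : s, ∃ a ∈ I, e a = p.1 := fun p => by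
    obtain ⟨a, ha, h⟩ := p.2
    exact ⟨a, ha, h⟩
  choose g hgI hg using hex
  let φ : C(s, ℝ) := ⟨fun p => x (g p), continuous_of_discreteTopology⟩
  obtain ⟨f, hf⟩ := ContinuousMap.exists_restrict_eq hs.isClosed φ
  refine ⟨f, fun a ha => ?_⟩
  have hp : e a ∈ s := ⟨a, ha, rfl⟩
  have h1 := DFunLike.congr_fun hf ⟨e a, hp⟩
  have h2 : g ⟨e a, hp⟩ = a := he (hg ⟨e a, hp⟩)
  have h3 : f (e a) = x (g ⟨e a, hp⟩) := h1
  rw [h3, h2]

/-- the evaluation map -/
def seppEval {A : Type} (e : A → K) (f : X) : A → ℝ := fun a => f (e a)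

theorem sepp_pi {A : Type} (e : A → K) (he : Function.Injective e) :
    TopologicalSpace.SeparableSpace (A → ℝ) := by
  have hc : Continuous (seppEval e) :=
    continuous_pi fun a => continuous_eval_const (F := X) (e a)
  have hd : DenseRange (seppEval e) := by
    rw [DenseRange, dense_iff_inter_open]
    rintro U hU ⟨x, hx⟩
    obtain ⟨I, u, hu, hIU⟩ := isOpen_pi_iff.1 hU x hx
    obtain ⟨f, hf⟩ := sepp_interp e he I x
    refine ⟨seppEval e f, hIU ?_, f, rfl⟩
    intro a ha
    have h := hf a ha
    change f (e a) ∈ u a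
    rw [h]
    exact (hu a ha).2
  exact hd.separableSpace hc

/-- SEPP: the product is separable. -/
theorem blk_SEPP : Stmt_SEPP := by
  intro A _ hI
  have hK : Cardinal.mk A ≤ Cardinal.mk K := by
    have h1 : Cardinal.mk K = Cardinal.continuum := by
      simp [K]
    rw [h1]
    exact hI.card.trans Cardinal.aleph_one_le_continuum
  obtain ⟨e⟩ := (Cardinal.le_def A K).1 hK
  have := sepp_pi e e.injective
  infer_instance

end Pool.AP
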