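import Pool.Agent.Work.MP_6cbae3_ch.Basic

/-! # MP_6cbae3_an: block SEPR (helper34) -/

set_option autoImplicit false

namespace Pool.AP

open Filter Topology Set

/-- the raw functions as a tuple -/
def rawT (k : ℕ) (y : Y0) : Fin (k + 1) → X := Fin.cons y.1 (fun i : Fin k => y.2.2 i)

theorem ofFn_rawT (k : ℕ) (y : Y0) : List.ofFn (rawT k y) = raw y k := by
  unfold rawT raw
  rw [List.ofFn_succ]
  simp only [Fin.cons_zero, Fin.cons_succ]
  congr 1
  apply List.ext_getElem
  · simp
  · intro i h1 h2
    simp

/-- `Fin.cons` is a homeomorphism -/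
def consH (k : ℕ) : X × (Fin k → X) ≃ₜ (Fin (k + 1) → X) where
  toFun p := Fin.cons p.1 p.2
  invFun f := (f 0, fun i => f i.succ)
  left_inv p := by
    simp only [Fin.cons_zero, Fin.cons_succ]
  right_inv f := by
    funext i
    refine Fin.cases ?_ (fun j => ?_) i
    · simp
    · simp
  continuous_toFun := by
    refine continuous_pi fun i => ?_
    refine Fin.cases ?_ (fun j => ?_) i
    · simp only [Fin.cons_zero]
      exact continuous_fst
    · simp only [Fin.cons_succ]
      exact (continuous_apply j).comp continuous_snd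
  continuous_invFun := by
    refine (continuous_apply 0).prodMk (continuous_pi fun i => continuous_apply _)

theorem stmt_SEPR_aux (k : ℕ) : Continuous (rawT k) ∧ IsOpenMap (rawT k) := by
  let g : Y0 → X × (Fin k → X) :=
    Prod.map id ((fun z : ℕ → X => fun i : Fin k => z i) ∘ Prod.snd)
  have hg : rawT k = (consH k) ∘ g := rfl
  have hc : Continuous g := by
    refine Continuous.prodMap continuous_id ?_
    exact (continuous_pi fun i : Fin k => continuous_apply (i : ℕ)).comp continuous_snd
  have ho : IsOpenMap g := by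
    refine IsOpenMap.prodMap IsOpenMap.id ?_
    exact (isOpenMap_select (V := fun _ : ℕ => X) (fun i : Fin k => (i : ℕ))
      Fin.val_injective).comp isOpenMap_snd
  rw [hg]
  exact ⟨(consH k).continuous.comp hc, (consH k).isOpenMap.comp ho⟩

/-- **Block SEPR.** -/
theorem blk_SEPR (hN : Stmt_SEPN) : Stmt_SEPR := by
  intro w hw
  rw [eventually_countable_forall]
  intro k
  obtain ⟨h1, h2⟩ := stmt_SEPR_aux k
  have h3 := residual_preimage h1 h2 (hN w (k + 1) hw)
  refine mem_of_superset h3 ?_
  intro y hy
  have hy' : Sep (w ++ List.ofFn (rawT k y)) := hy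
  rw [ofFn_rawT] at hy'
  exact hy'

end Pool.AP
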