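import Pool.Agent.Work.MP_6cbae3_ch.Basic

/-! # MP_6cbae3_an: block STAB (helper89) -/

set_option autoImplicit false

namespace Pool.AP

open Filter Topology Set

/-- a stage whose maximum point is pushed up by the indicator function of a cylinder -/
theorem stab_loc (b c x : X) (t : ℝ) (k : ℕ) {δ : ℝ} (hδ : 0 < δ) (x' : X) (t' : ℝ)
    (hx : ‖x' - (x + δ • cylf (loc b c x t) k)‖ < δ / (4 * (1 + ‖b‖)))
    (ht : |t' - t| < δ / (4 * (1 + ‖b‖))) : loc b c x' t' ∈ cyl (loc b c x t) k := by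
  by_contra hp
  set q := loc b c x t with hq
  set p := loc b c x' t' with hpdef
  have hb : 0 ≤ ‖b‖ := norm_nonneg b
  have h1 := loc_spec b c x t p
  rw [← hq] at h1
  have h2 := loc_spec b c x' t' q
  rw [← hpdef] at h2
  have hxp : |x' p - (x p + δ * cylf q k p)| < δ / (4 * (1 + ‖b‖)) := by
    have := (x' - (x + δ • cylf q k)).norm_coe_le_norm p
    simp only [ContinuousMap.sub_apply, ContinuousMap.add_apply, ContinuousMap.smul_apply,
      smul_eq_mul, Real.norm_eq_abs] at this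
    exact lt_of_le_of_lt this hx
  have hxq : |x' q - (x q + δ * cylf q k q)| < δ / (4 * (1 + ‖b‖)) := by
    have := (x' - (x + δ • cylf q k)).norm_coe_le_norm q
    simp only [ContinuousMap.sub_apply, ContinuousMap.add_apply, ContinuousMap.smul_apply,
      smul_eq_mul, Real.norm_eq_abs] at this
    exact lt_of_le_of_lt this hx
  rw [cylf_of_notMem hp] at hxp
  rw [cylf_of_mem (mem_cyl_self q k)] at hxq
  have hbp : |(t' - t) * b p| ≤ δ / (4 * (1 + ‖b‖)) * ‖b‖ := by
    rw [abs_mul]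
    exact mul_le_mul ht.le (b.norm_coe_le_norm p) (abs_nonneg _) (by positivity)
  have hbq : |(t' - t) * b q| ≤ δ / (4 * (1 + ‖b‖)) * ‖b‖ := by
    rw [abs_mul]
    exact mul_le_mul ht.le (b.norm_coe_le_norm q) (abs_nonneg _) (by positivity)
  have hδ4 : δ / (4 * (1 + ‖b‖)) + δ / (4 * (1 + ‖b‖)) * ‖b‖ = δ / 4 := by
    have : (1 + ‖b‖) ≠ 0 := by positivity
    field_simp
  rw [abs_lt] at hxp hxq
  rw [abs_le] at hbp hbq
  nlinarith [hxp.1, hxp.2, hxq.1, hxq.2, hbp.1, hbp.2, hbq.1, hbq.2]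

theorem blk_STAB : Stmt_STAB := by
  intro b c k
  constructor
  · rw [isOpen_iff_mem_nhds]
    rintro y ⟨ρ, hρ, h⟩
    have c1 : Continuous (fun y' : Y0 => ‖y'.1 - y.1‖) :=
      (continuous_fst.sub continuous_const).norm
    have c2 : Continuous (fun y' : Y0 => |y'.2.1 - y.2.1|) :=
      ((continuous_fst.comp continuous_snd).sub continuous_const).abs
    have hU : {y' : Y0 | ‖y'.1 - y.1‖ < ρ / 2 ∧ |y'.2.1 - y.2.1| < ρ / 2} ∈ 𝓝 y := by
      refine IsOpen.mem_nhds (IsOpen.inter ?_ ?_) ?_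
      · exact isOpen_lt c1 continuous_const
      · exact isOpen_lt c2 continuous_const
      · constructor
        · change ‖y.1 - y.1‖ < ρ / 2
          rw [sub_self, norm_zero]; linarith
        · change |y.2.1 - y.2.1| < ρ / 2
          rw [sub_self, abs_zero]; linarith
    filter_upwards [hU] with y' hy'
    refine ⟨ρ / 2, by linarith, fun y'' h1 h2 => ?_⟩
    have e1 : qq b c y'' ∈ cyl (qq b c y) k := by
      refine h y'' ?_ ?_
      · calc ‖y''.1 - y.1‖ = ‖(y''.1 - y'.1) + (y'.1 - y.1)‖ := by rw [sub_add_sub_cancel]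
          _ ≤ ‖y''.1 - y'.1‖ + ‖y'.1 - y.1‖ := norm_add_le _ _
          _ < ρ := by linarith [hy'.1]
      · calc |y''.2.1 - y.2.1| = |(y''.2.1 - y'.2.1) + (y'.2.1 - y.2.1)| := by
              rw [sub_add_sub_cancel]
          _ ≤ |y''.2.1 - y'.2.1| + |y'.2.1 - y.2.1| := abs_add_le _ _
          _ < ρ := by linarith [hy'.2]
    have e2 : qq b c y' ∈ cyl (qq b c y) k :=
      h y' (lt_trans hy'.1 (by linarith)) (lt_trans hy'.2 (by linarith))
    rw [cyl_eq_of_mem e2]
    exact e1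
  · rintro ⟨x, t, r⟩
    have ht : Tendsto (fun δ : ℝ => ((x + δ • cylf (loc b c x t) k, t, r) : Y0)) (𝓝[>] 0)
        (𝓝 (x, t, r)) := by
      have hc : Continuous (fun δ : ℝ => ((x + δ • cylf (loc b c x t) k, t, r) : Y0)) := by
        fun_prop
      have := hc.tendsto 0
      simp only [zero_smul, add_zero] at this
      exact this.mono_left nhdsWithin_le_nhds
    refine mem_closure_of_tendsto ht ?_
    filter_upwards [self_mem_nhdsWithin] with δ hδ
    have hδ0 : (0 : ℝ) < δ := hδ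
    have hb : 0 ≤ ‖b‖ := norm_nonneg b
    have hpos : 0 < δ / (4 * (1 + ‖b‖)) := by positivity
    refine ⟨δ / (4 * (1 + ‖b‖)), hpos, fun y' h1 h2 => ?_⟩
    have e1 : qq b c y' ∈ cyl (loc b c x t) k := stab_loc b c x t k hδ0 y'.1 y'.2.1 h1 h2
    have e2 : qq b c ((x + δ • cylf (loc b c x t) k, t, r) : Y0) ∈ cyl (loc b c x t) k := by
      refine stab_loc b c x t k hδ0 _ _ ?_ ?_
      · change ‖(x + δ • cylf (loc b c x t) k) - (x + δ • cylf (loc b c x t) k)‖ < _
        rw [sub_self, norm_zero]; exact hpos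
      · change |t - t| < _
        rw [sub_self, abs_zero]; exact hpos
    rw [cyl_eq_of_mem e2]
    exact e1

end Pool.AP
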