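import Pool.Agent.Work.MP_6cbae3_ch.Interface

/-! # Block STEP (helper65) -/

set_option autoImplicit false

namespace Pool.AP

open Filter Topology Set

theorem blk_STEP (h1 : Stmt_ENVL) (h2 : Stmt_ENVP) : Stmt_STEP := by
  intro m M G L κ R ρ b c v x₀ u₀ t₀ hG hκ hR hD B
  have hL : 0 ≤ L := hG.1
  set V : ℝ := ∑ i, ‖v i‖ with hV
  have hV0 : 0 ≤ V := Finset.sum_nonneg fun i _ => norm_nonneg _
  set W : ℝ := R * (3 / 2 * |B| + V + 2) + R * V with hW
  have hW0 : 0 ≤ W := by positivity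
  set C : ℝ := 2 * R + 2 * (1 + R * R) + (|G 0| + 3 * L * (W + V)) with hC
  have hC0 : 0 < C := by positivity
  refine ⟨C, hC0, ?_⟩
  intro x₁ u₁ σ t β θ p N hσ hβ hβ1 hθ hx₁ hu₁ hx hu ht hexp
  set x : X := (1 + σ) • x₁ + ∑ i, θ i • (v i).1 + β • cylf p N with hxdef
  set u : Fin m → ℝ := (1 + σ) • u₁ + ∑ i, θ i • (v i).2 with hudef
  obtain ⟨z, q, a, pc, hz, hmax, ha1, ha2, hpc, hGD, hSeen⟩ :=
    hD x u t hx hu ht (β / 2) (by positivity)
  have hσ' := abs_le.mp hσ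
  have h1σ : 1 / 2 ≤ 1 + σ := by linarith [hσ'.1]
  have h1σ0 : 0 < 1 + σ := by linarith
  have h1σ2 : 1 + σ ≤ 3 / 2 := by linarith [hσ'.2]
  have ha : 0 < a := lt_of_lt_of_le (by positivity) ha1
  -- location
  have hq : q ∈ cyl p N := by
    by_contra hq
    have e1 := hexp q hq
    have e2 := hmax p
    linarith
  -- decomposition
  set z₁ : Z m := (x₁, u₁) with hz₁
  have hxu : ((x, u) : Z m) = (1 + σ) • z₁ + ∑ i, θ i • v i + β • ((cylf p N, 0) : Z m) := by
    have e1 : (∑ i, θ i • v i : Z m) = (∑ i, θ i • (v i).1, ∑ i, θ i • (v i).2) := by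
      refine Prod.ext ?_ ?_
      · simp [Prod.fst_sum]
      · simp [Prod.snd_sum]
    rw [e1, hxdef, hudef]
    refine Prod.ext ?_ ?_
    · simp [hz₁]
    · simp [hz₁]
  set e' : Z m := z - (x, u) with he'
  set e'' : Z m := e' + β • ((cylf p N, 0) : Z m) with he''
  have hzdec : z = (1 + σ) • z₁ + ∑ i, θ i • v i + e'' := by
    have : z = (x, u) + e' := by rw [he']; abel
    rw [this, hxu, he'']
    abel
  have hcn : ‖((cylf p N, 0) : Z m)‖ ≤ 1 := by
    rw [Prod.norm_def]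
    simp only [norm_zero]
    exact max_le (norm_cylf_le p N) zero_le_one
  have he''n : ‖e''‖ ≤ 3 / 2 * β := by
    calc ‖e''‖ ≤ ‖e'‖ + ‖β • ((cylf p N, 0) : Z m)‖ := norm_add_le _ _
      _ ≤ β / 2 + β * 1 := by
          refine add_le_add hz.le ?_
          rw [norm_smul, Real.norm_eq_abs, abs_of_pos hβ]
          exact mul_le_mul_of_nonneg_left hcn hβ.le
      _ = 3 / 2 * β := by ring
  set e : Z m := (1 + σ)⁻¹ • e'' with he
  have hen : ‖e‖ ≤ 3 * β := by
    rw [he, norm_smul, Real.norm_eq_abs, abs_of_pos (inv_pos.mpr h1σ0)]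
    have : (1 + σ)⁻¹ ≤ 2 := by
      rw [inv_le_comm₀ h1σ0 (by norm_num)]
      linarith
    calc (1 + σ)⁻¹ * ‖e''‖ ≤ 2 * (3 / 2 * β) :=
          mul_le_mul this he''n (norm_nonneg _) (by norm_num)
      _ = 3 * β := by ring
  set lam : ℝ := (a * (1 + σ))⁻¹ with hlam
  have hlam0 : 0 < lam := by positivity
  set π : Fin (M + 1) → ℝ := Fin.cons lam (fun i => lam * (pc i + a * θ i)) with hπ
  have hπ0 : π 0 = lam := rfl
  have hπs : ∀ i : Fin M, π i.succ = lam * (pc i + a * θ i) := fun i => rfl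
  set w : Z m := a • z + ∑ i, pc i • v i with hw
  have hwdec : (π 0)⁻¹ • ((z₁ + e) + ∑ i : Fin M, π i.succ • v i) = w := by
    have hi : (π 0)⁻¹ = a * (1 + σ) := by rw [hπ0, hlam, inv_inv]
    have hs : ∑ i : Fin M, π i.succ • v i = lam • ∑ i, (pc i + a * θ i) • v i := by
      rw [Finset.smul_sum]
      refine Finset.sum_congr rfl fun i _ => ?_
      rw [hπs, smul_smul]
    have h3 : a * (1 + σ) * lam = 1 := by
      rw [hlam]; exact mul_inv_cancel₀ (by positivity)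
    have h4 : a * (1 + σ) * (1 + σ)⁻¹ = a := by
      rw [mul_assoc, mul_inv_cancel₀ h1σ0.ne', mul_one]
    have h5 : ∑ i, (pc i + a * θ i) • v i = ∑ i, pc i • v i + a • ∑ i, θ i • v i := by
      rw [Finset.smul_sum, ← Finset.sum_add_distrib]
      refine Finset.sum_congr rfl fun i _ => ?_
      rw [add_smul, smul_smul]
    calc (π 0)⁻¹ • ((z₁ + e) + ∑ i : Fin M, π i.succ • v i)
        = (a * (1 + σ)) • z₁ + (a * (1 + σ) * (1 + σ)⁻¹) • e'' +
            (a * (1 + σ) * lam) • ∑ i, (pc i + a * θ i) • v i := by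
          rw [hi, hs, he]
          simp only [smul_add, smul_smul]
      _ = (a * (1 + σ)) • z₁ + a • e'' + (∑ i, pc i • v i + a • ∑ i, θ i • v i) := by
          rw [h3, h4, h5, one_smul]
      _ = w := by
          rw [hw, hzdec]
          simp only [smul_add, smul_smul]
          abel
  have hlamR : lam ≤ 2 * R := by
    rw [hlam]
    have h6 : 1 / (2 * R) ≤ a * (1 + σ) := by
      calc 1 / (2 * R) = 1 / R * (1 / 2) := by field_simp
        _ ≤ a * (1 + σ) := mul_le_mul ha1 h1σ (by norm_num) ha.le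
    calc (a * (1 + σ))⁻¹ ≤ (1 / (2 * R))⁻¹ := inv_anti₀ (by positivity) h6
      _ = 2 * R := by simp
  have hlaml : 1 / (2 * R) < lam := by
    rw [hlam, one_div]
    refine inv_strictAnti₀ (by positivity) ?_
    calc a * (1 + σ) ≤ R * (3 / 2) := mul_le_mul ha2 h1σ2 h1σ0.le hR.le
      _ < 2 * R := by linarith
  -- bound for `w`
  have hθv : ‖∑ i, θ i • v i‖ ≤ V := by
    refine (norm_sum_le _ _).trans ?_
    refine Finset.sum_le_sum fun i _ => ?_
    rw [norm_smul, Real.norm_eq_abs]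
    calc |θ i| * ‖v i‖ ≤ 1 * ‖v i‖ := mul_le_mul_of_nonneg_right (hθ i) (norm_nonneg _)
      _ = ‖v i‖ := one_mul _
  have hz₁n : ‖z₁‖ ≤ |B| := by
    rw [hz₁, Prod.norm_def]
    exact max_le (hx₁.trans (le_abs_self B)) (hu₁.trans (le_abs_self B))
  have hzn : ‖z‖ ≤ 3 / 2 * |B| + V + 2 := by
    rw [hzdec]
    calc ‖(1 + σ) • z₁ + ∑ i, θ i • v i + e''‖
        ≤ ‖(1 + σ) • z₁‖ + ‖∑ i, θ i • v i‖ + ‖e''‖ := norm_add₃_le
      _ ≤ 3 / 2 * |B| + V + 2 := by
          refine add_le_add (add_le_add ?_ hθv) (he''n.trans (by linarith))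
          rw [norm_smul, Real.norm_eq_abs, abs_of_pos h1σ0]
          exact mul_le_mul h1σ2 hz₁n (norm_nonneg _) (by norm_num)
  have hwn : ‖w‖ ≤ W := by
    rw [hw, hW]
    refine (norm_add_le _ _).trans (add_le_add ?_ ?_)
    · rw [norm_smul, Real.norm_eq_abs, abs_of_pos ha]
      exact mul_le_mul ha2 hzn (norm_nonneg _) hR.le
    · refine (norm_sum_le _ _).trans ?_
      rw [hV, Finset.mul_sum]
      refine Finset.sum_le_sum fun i _ => ?_
      rw [norm_smul, Real.norm_eq_abs]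
      exact mul_le_mul_of_nonneg_right (hpc i) (norm_nonneg _)
  -- apply ENVL
  have hpos : 0 < 1 / (2 * R) := by positivity
  obtain ⟨s, hs1, hs2⟩ := h1 m M G L v (1 / (2 * R)) κ (z₁ + e) π q hG hpos
    (by rw [hπ0]; exact hlaml) (by rw [hwdec]; exact hGD) (by rw [hwdec]; exact hSeen)
  rw [hwdec] at hs1
  have hπb : ∀ i, |π i| ≤ 2 * R + 2 * (1 + R * R) := by
    intro i
    refine Fin.cases ?_ (fun i => ?_) i
    · rw [hπ0, abs_of_pos hlam0]
      nlinarith
    · rw [hπs, abs_mul, abs_of_pos hlam0]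
      have h7 : lam * a = (1 + σ)⁻¹ := by
        rw [hlam, mul_inv]
        field_simp
      have h8 : (1 + σ)⁻¹ ≤ 2 := by
        rw [inv_le_comm₀ h1σ0 (by norm_num)]
        linarith
      have h9 : |pc i + a * θ i| ≤ R + a := by
        refine (abs_add_le _ _).trans (add_le_add (hpc i) ?_)
        rw [abs_mul, abs_of_pos ha]
        calc a * |θ i| ≤ a * 1 := mul_le_mul_of_nonneg_left (hθ i) ha.le
          _ = a := mul_one a
      calc lam * |pc i + a * θ i| ≤ lam * (R + a) := mul_le_mul_of_nonneg_left h9 hlam0.le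
        _ = lam * R + lam * a := by ring
        _ ≤ 2 * R * R + 2 := by
            rw [h7]
            exact add_le_add (mul_le_mul_of_nonneg_right hlamR hR.le) h8
        _ ≤ 2 * R + 2 * (1 + R * R) := by linarith
  refine ⟨q, hq, s, fun i => ?_, ?_⟩
  · have h10 := hs1 i
    have h11 : |G 0| + 3 * L * (‖w‖ + ∑ i, ‖v i‖) ≤ |G 0| + 3 * L * (W + V) := by
      gcongr
    calc |s i| = |π i + (s i - π i)| := by ring_nf
      _ ≤ |π i| + |s i - π i| := abs_add_le _ _
      _ ≤ C := by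
          rw [hC]
          exact add_le_add (hπb i) (h10.trans h11)
  · intro δ hδ k₀
    obtain ⟨k, hk, hk2⟩ := hs2 δ hδ β hβ k₀
    refine ⟨k, hk, ?_⟩
    obtain ⟨-, -, -, hLip, -, -⟩ := h2 m M G L v (1 / (2 * R)) hG hpos
    have hLe : L * ‖e‖ ≤ L * (3 * β) := mul_le_mul_of_nonneg_left hen hL
    have g1 := hLip (z₁ + e + δ • (cylf q k, 0)) (z₁ + δ • (cylf q k, 0)) s
    have g2 := hLip (z₁ + e - δ • (cylf q k, 0)) (z₁ - δ • (cylf q k, 0)) s
    have g3 := hLip (z₁ + e) z₁ s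
    have f1 : z₁ + e + δ • ((cylf q k, 0) : Z m) - (z₁ + δ • (cylf q k, 0)) = e := by abel
    have f2 : z₁ + e - δ • ((cylf q k, 0) : Z m) - (z₁ - δ • (cylf q k, 0)) = e := by abel
    have f3 : z₁ + e - z₁ = e := by abel
    rw [f1] at g1
    rw [f2] at g2
    rw [f3] at g3
    have g1' := (abs_le.mp g1).2
    have g2' := (abs_le.mp g2).2
    have g3' := (abs_le.mp g3).1
    have hLβ : 0 ≤ L * β := mul_nonneg hL hβ.le
    nlinarith

end Pool.AP
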