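import Pool.Agent.Work.MP_6cbae3_ch.Basic

/-! # MP_6cbae3_an, block WVC: at stable stages the bumps depend continuously on the stage
(helper39) -/

set_option autoImplicit false

namespace Pool.AP

open Filter Topology Set

/-- the map `r ↦ r / (1 + ‖r‖)` is Lipschitz -/
theorem norm_scaled_sub_le (r s : X) : ‖(1 + ‖r‖)⁻¹ • r - (1 + ‖s‖)⁻¹ • s‖ ≤ 2 * ‖r - s‖ := by
  have hr : 0 ≤ ‖r‖ := norm_nonneg _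
  have hs : 0 ≤ ‖s‖ := norm_nonneg _
  have hr1 : (0 : ℝ) < 1 + ‖r‖ := by linarith
  have hs1 : (0 : ℝ) < 1 + ‖s‖ := by linarith
  have e : (1 + ‖r‖)⁻¹ • r - (1 + ‖s‖)⁻¹ • s =
      (1 + ‖r‖)⁻¹ • (r - s) + ((1 + ‖r‖)⁻¹ * (1 + ‖s‖)⁻¹ * (‖s‖ - ‖r‖)) • s := by
    have e1 : (1 + ‖r‖)⁻¹ * (1 + ‖s‖)⁻¹ * (‖s‖ - ‖r‖) = (1 + ‖r‖)⁻¹ - (1 + ‖s‖)⁻¹ := by
      field_simp
      ring
    rw [e1]
    module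
  rw [e]
  have h1 : ‖(1 + ‖r‖)⁻¹ • (r - s)‖ ≤ ‖r - s‖ := by
    rw [norm_smul, Real.norm_eq_abs, abs_of_pos (inv_pos.2 hr1)]
    have : (1 + ‖r‖)⁻¹ ≤ 1 := inv_le_one_of_one_le₀ (by linarith)
    exact mul_le_of_le_one_left (norm_nonneg _) this
  have h2 : ‖((1 + ‖r‖)⁻¹ * (1 + ‖s‖)⁻¹ * (‖s‖ - ‖r‖)) • s‖ ≤ ‖r - s‖ := by
    rw [norm_smul, Real.norm_eq_abs, abs_mul, abs_of_pos (mul_pos (inv_pos.2 hr1) (inv_pos.2 hs1))]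
    have h3 : |‖s‖ - ‖r‖| ≤ ‖r - s‖ := by
      rw [norm_sub_rev]; exact abs_norm_sub_norm_le s r
    have h4 : (1 + ‖r‖)⁻¹ * (1 + ‖s‖)⁻¹ * ‖s‖ ≤ 1 := by
      have a1 : (1 + ‖r‖)⁻¹ ≤ 1 := inv_le_one_of_one_le₀ (by linarith)
      have a2 : (1 + ‖s‖)⁻¹ * ‖s‖ ≤ 1 := by
        rw [inv_mul_le_iff₀ hs1]; linarith
      have a3 : 0 ≤ (1 + ‖s‖)⁻¹ * ‖s‖ := mul_nonneg (inv_nonneg.2 hs1.le) hs
      rw [mul_assoc]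
      calc _ ≤ 1 * ((1 + ‖s‖)⁻¹ * ‖s‖) := mul_le_mul_of_nonneg_right a1 a3
        _ ≤ 1 := by rw [one_mul]; exact a2
    calc (1 + ‖r‖)⁻¹ * (1 + ‖s‖)⁻¹ * |‖s‖ - ‖r‖| * ‖s‖
        = ((1 + ‖r‖)⁻¹ * (1 + ‖s‖)⁻¹ * ‖s‖) * |‖s‖ - ‖r‖| := by ring
      _ ≤ 1 * ‖r - s‖ := mul_le_mul h4 h3 (abs_nonneg _) zero_le_one
      _ = ‖r - s‖ := one_mul _
  have h3 := norm_add_le ((1 + ‖r‖)⁻¹ • (r - s))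
    (((1 + ‖r‖)⁻¹ * (1 + ‖s‖)⁻¹ * (‖s‖ - ‖r‖)) • s)
  linarith

theorem blk_WVC : Stmt_WVC := by
  intro b c k y hy
  obtain ⟨ρ, hρ, h⟩ := hy
  refine ⟨ρ, hρ, fun ε hε => ⟨ε / 2, half_pos hε, fun y' h1 h2 => ?_⟩⟩
  have hq := h y' h1 h2
  refine ⟨hq, fun i hi hr => ?_⟩
  unfold bump
  rw [cylf_congr hq hi.le]
  have e : ∀ r : X, ((2 : ℝ) ^ i * (1 + ‖r‖))⁻¹ • r = ((2 : ℝ) ^ i)⁻¹ • (1 + ‖r‖)⁻¹ • r := by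
    intro r
    rw [mul_inv, smul_smul]
  rw [add_sub_add_left_eq_sub, e, e, ← smul_sub, norm_smul, Real.norm_eq_abs]
  have h3 : |((2 : ℝ) ^ i)⁻¹| ≤ 1 := by
    rw [abs_of_pos (by positivity)]
    exact inv_le_one_of_one_le₀ (one_le_pow₀ (by norm_num))
  have h4 := norm_scaled_sub_le (y'.2.2 i) (y.2.2 i)
  calc _ ≤ 1 * (2 * ‖y'.2.2 i - y.2.2 i‖) := mul_le_mul h3 h4 (norm_nonneg _) zero_le_one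
    _ ≤ ε := by linarith

end Pool.AP
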