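import Pool.Agent.Work.MP_6cbae3_ch.Interface

set_option autoImplicit false

namespace Pool.AP

open Filter Topology Set

/-- Block ZZS (helper64). -/
theorem blk_ZZS : Stmt_ZZS := by
  classical
  intro n m k ι _ b c v y a d p j
  unfold zz
  rw [Fintype.sum_sum_type, Fintype.sum_sum_type, Fintype.sum_prod_type]
  rw [Fintype.sum_eq_add_sum_subtype_ne (fun l => a l • vx (y l)) j]
  simp only [wv, cf]
  rw [add_assoc, add_assoc]

end Pool.AP
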