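import Pool.Agent.Work.MP_6cbae3_ch.Interface

/-! # MP_6cbae3_an: basic lemmas (helper17) -/

set_option autoImplicit false

namespace Pool.AP

open Filter Topology Set

/-! ## Instances -/

instance instPolishX : PolishSpace X := polish_of
instance instPolishNX : PolishSpace (ℕ → X) := polish_of
instance instPolishRNX : PolishSpace (ℝ × (ℕ → X)) := polish_of
instance instPolishY0 : PolishSpace Y0 := polish_of
instance instPolishPt (m : ℕ) : PolishSpace (Pt m) := polish_of
instance instPolishNPt (n m : ℕ) : PolishSpace (Fin n → Pt m) := polish_of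
instance instPolishZ (m : ℕ) : PolishSpace (Z m) := polish_of
instance instPolishYR (S : Type) [Countable S] : PolishSpace (Y0 × (S → ℝ)) := polish_of
instance instPolishNYR (n : ℕ) (S : Type) [Countable S] : PolishSpace (Fin n → Y0 × (S → ℝ)) :=
  polish_of

/-! ## Cylinders -/

theorem cyl_anti {q : K} {k k' : ℕ} (h : k ≤ k') : cyl q k' ⊆ cyl q k :=
  fun _ hp i hi => hp i (lt_of_lt_of_le hi h)

theorem cyl_symm {p q : K} {k : ℕ} (h : p ∈ cyl q k) : q ∈ cyl p k := fun i hi => (h i hi).symm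

theorem cyl_eq_of_mem {p q : K} {k : ℕ} (h : p ∈ cyl q k) : cyl p k = cyl q k := by
  ext r
  exact ⟨fun hr i hi => (hr i hi).trans (h i hi), fun hr i hi => (hr i hi).trans (h i hi).symm⟩

theorem cyl_disjoint {p q : K} {k : ℕ} (h : p ∉ cyl q k) : Disjoint (cyl p k) (cyl q k) := by
  rw [Set.disjoint_left]
  intro r hr hr'
  exact h (fun i hi => (hr i hi).symm.trans (hr' i hi))

theorem cylf_congr {p q : K} {k i : ℕ} (h : p ∈ cyl q k) (hi : i ≤ k) : cylf p i = cylf q i := by
  ext r
  have e : cyl p i = cyl q i := cyl_eq_of_mem (cyl_anti hi h)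
  by_cases hr : r ∈ cyl p i
  · rw [cylf_of_mem hr, cylf_of_mem (e ▸ hr)]
  · rw [cylf_of_notMem hr, cylf_of_notMem (e ▸ hr)]

/-- continuous functions have small oscillation on small cylinders -/
theorem osc_unif (f : X) {ε : ℝ} (hε : 0 < ε) : ∃ k, ∀ q, ∀ p ∈ cyl q k, |f p - f q| < ε := by
  classical
  by_contra hcon
  push Not at hcon
  choose q p hp h using hcon
  obtain ⟨r, -, φ, hφ, hr⟩ := isCompact_univ.tendsto_subseq (fun n => mem_univ (q n))
  have hr' : Tendsto (p ∘ φ) atTop (𝓝 r) := by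
    rw [tendsto_pi_nhds] at hr ⊢
    intro i
    refine (hr i).congr' ?_
    filter_upwards [eventually_gt_atTop i] with n hn
    exact (hp (φ n) i (lt_of_lt_of_le hn (hφ.id_le n))).symm
  have h1 : Tendsto (fun n => |f (p (φ n)) - f (q (φ n))|) atTop (𝓝 |f r - f r|) :=
    (((f.continuous.tendsto r).comp hr').sub ((f.continuous.tendsto r).comp hr)).abs
  rw [sub_self, abs_zero] at h1
  obtain ⟨n, hn⟩ := (h1.eventually (gt_mem_nhds hε)).exists
  exact absurd hn (not_lt.2 (h (φ n)))

/-- finitely many functions -/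
theorem osc_list (w : List X) {ε : ℝ} (hε : 0 < ε) :
    ∃ k, ∀ f ∈ w, ∀ q, ∀ p ∈ cyl q k, |f p - f q| < ε := by
  induction w with
  | nil => exact ⟨0, by simp⟩
  | cons f w ih =>
    obtain ⟨k, hk⟩ := ih
    obtain ⟨k', hk'⟩ := osc_unif f hε
    refine ⟨max k k', ?_⟩
    intro g hg q p hp
    rcases List.mem_cons.1 hg with rfl | hg
    · exact hk' q p (cyl_anti (le_max_right _ _) hp)
    · exact hk g hg q p (cyl_anti (le_max_left _ _) hp)

/-- cylinders form a neighbourhood basis -/
theorem exists_cyl_subset {U : Set K} (hU : IsOpen U) {q : K} (hq : q ∈ U) :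
    ∃ k, cyl q k ⊆ U := by
  rw [isOpen_pi_iff] at hU
  obtain ⟨I, u, hu, hI⟩ := hU q hq
  refine ⟨I.sup id + 1, fun p hp => hI ?_⟩
  intro i hi
  rw [hp i (Nat.lt_succ_of_le (Finset.le_sup (f := id) hi))]
  exact (hu i hi).2

/-! ## Coordinate selections are open maps -/

/-- OPM: selecting coordinates by an injective map is open (and continuous). -/
theorem isOpenMap_select {S T : Type*} {V : T → Type*} [∀ t, TopologicalSpace (V t)] (g : S → T)
    (hg : Function.Injective g) : IsOpenMap (fun z : (∀ t, V t) => fun s => z (g s)) := by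
  classical
  intro U hU
  rw [isOpen_pi_iff]
  rintro w ⟨z, hz, rfl⟩
  rw [isOpen_pi_iff] at hU
  obtain ⟨I, u, hu, hI⟩ := hU z hz
  refine ⟨I.preimage g hg.injOn, fun s => u (g s), fun s hs => ?_, ?_⟩
  · rw [Finset.mem_preimage] at hs
    exact hu _ hs
  · intro w' hw'
    let z' : ∀ t, V t := fun t => if h : ∃ s, g s = t then h.choose_spec ▸ w' h.choose else z t
    have hz' : ∀ s, z' (g s) = w' s := by
      intro s
      have h : ∃ s', g s' = g s := ⟨s, rfl⟩
      have e : z' (g s) = h.choose_spec ▸ w' h.choose := dif_pos h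
      rw [e]
      have e2 : h.choose = s := hg h.choose_spec
      have gen : ∀ (s' : S) (hs' : g s' = g s) (hss : s' = s), (hs' ▸ w' s' : V (g s)) = w' s := by
        intro s' hs' hss
        subst hss
        rfl
      exact gen _ _ e2
    refine ⟨z', hI ?_, ?_⟩
    · intro t ht
      by_cases h : ∃ s, g s = t
      · obtain ⟨s, rfl⟩ := h
        rw [hz']
        exact hw' s (by simpa using ht)
      · have e : z' t = z t := dif_neg h
        rw [e]
        exact (hu t ht).2
    · funext s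
      exact hz' s

theorem continuous_select {S T : Type*} {V : T → Type*} [∀ t, TopologicalSpace (V t)] (g : S → T) :
    Continuous (fun z : (∀ t, V t) => fun s => z (g s)) :=
  continuous_pi fun s => continuous_apply (g s)

/-- residual sets pull back under continuous open maps -/
theorem residual_preimage {S T : Type*} [TopologicalSpace S] [TopologicalSpace T] {f : S → T}
    (hf : Continuous f) (ho : IsOpenMap f) {s : Set T} (hs : s ∈ residual T) :
    f ⁻¹' s ∈ residual S := tendsto_residual_of_isOpenMap hf ho hs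

/-! ## Second differences -/

section SD

variable {E : Type*} [AddCommGroup E] [Module ℝ E] {G : E → ℝ}

theorem SD_neg (z h : E) (t : ℝ) : SD G z (-h) t = SD G z h t := by
  unfold SD
  rw [smul_neg, ← sub_eq_add_neg, sub_neg_eq_add]
  ring

theorem SD_neg_right (z h : E) (t : ℝ) : SD G z h (-t) = SD G z h t := by
  unfold SD
  rw [neg_smul, ← sub_eq_add_neg, sub_neg_eq_add]
  ring

theorem SD_smul (z h : E) (a t : ℝ) : SD G z (a • h) t = SD G z h (t * a) := by
  unfold SD
  rw [smul_smul]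

/-- the second differences of `G (- ·)` -/
theorem SD_comp_neg (z h : E) (t : ℝ) : SD (fun x => G (-x)) (-z) h t = SD G z h t := by
  unfold SD
  simp only [neg_neg]
  rw [show -(-z + t • h) = z - t • h by abel, show -(-z - t • h) = z + t • h by abel]
  ring

theorem two_mul_le (hG : ConvexOn ℝ univ G) (z h : E) : 2 * G z ≤ G (z + h) + G (z - h) := by
  have := hG.2 (mem_univ (z + h)) (mem_univ (z - h)) (show (0 : ℝ) ≤ 1 / 2 by norm_num)
    (show (0 : ℝ) ≤ 1 / 2 by norm_num) (by norm_num)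
  rw [show (1 / 2 : ℝ) • (z + h) + (1 / 2 : ℝ) • (z - h) = z by
    rw [← smul_add, show z + h + (z - h) = (2 : ℝ) • z by rw [two_smul]; abel, smul_smul]
    norm_num] at this
  simp only [smul_eq_mul] at this
  linarith

theorem SD_nonneg (hG : ConvexOn ℝ univ G) (z h : E) (t : ℝ) : 0 ≤ SD G z h t := by
  have := two_mul_le hG z (t • h)
  unfold SD
  linarith

/-- the quotient `SD G z h t / t` is nondecreasing -/
theorem SD_mono (hG : ConvexOn ℝ univ G) (z h : E) {t t' : ℝ} (ht : 0 < t) (htt : t ≤ t') :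
    SD G z h t * t' ≤ SD G z h t' * t := by
  have ht' : 0 < t' := lt_of_lt_of_le ht htt
  have key : ∀ h : E, G (z + t • h) * t' ≤ G (z + t' • h) * t + G z * (t' - t) := by
    intro h
    have := hG.2 (mem_univ (z + t' • h)) (mem_univ z) (show (0 : ℝ) ≤ t / t' by positivity)
      (show (0 : ℝ) ≤ (t' - t) / t' from div_nonneg (by linarith) ht'.le)
      (by field_simp; ring)
    rw [show (t / t') • (z + t' • h) + ((t' - t) / t') • z = z + t • h by
      rw [smul_add, smul_smul, div_mul_cancel₀ _ ht'.ne', add_right_comm, ← add_smul,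
        show t / t' + (t' - t) / t' = 1 by field_simp; ring, one_smul]] at this
    simp only [smul_eq_mul] at this
    have h2 : G (z + t • h) * t' ≤ (t / t' * G (z + t' • h) + (t' - t) / t' * G z) * t' :=
      mul_le_mul_of_nonneg_right this ht'.le
    calc _ ≤ _ := h2
      _ = _ := by field_simp
  have h1 := key h
  have h2 := key (-h)
  simp only [smul_neg, ← sub_eq_add_neg] at h2
  unfold SD
  nlinarith [h1, h2]

theorem SD_add (hG : ConvexOn ℝ univ G) (z h h' : E) (t : ℝ) :
    SD G z (h + h') t ≤ (SD G z h (2 * t) + SD G z h' (2 * t)) / 2 := by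
  have key : ∀ h h' : E, G (z + t • (h + h')) ≤ (G (z + (2 * t) • h) + G (z + (2 * t) • h')) / 2 := by
    intro h h'
    have := hG.2 (mem_univ (z + (2 * t) • h)) (mem_univ (z + (2 * t) • h'))
      (show (0 : ℝ) ≤ 1 / 2 by norm_num) (show (0 : ℝ) ≤ 1 / 2 by norm_num) (by norm_num)
    rw [show (1 / 2 : ℝ) • (z + (2 * t) • h) + (1 / 2 : ℝ) • (z + (2 * t) • h') = z + t • (h + h') by
      module] at this
    simp only [smul_eq_mul] at this
    linarith
  have h1 := key h h'
  have h2 := key (-h) (-h')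
  rw [show z + t • (-h + -h') = z - t • (h + h') by module,
    show z + (2 * t) • (-h) = z - (2 * t) • h by module,
    show z + (2 * t) • (-h') = z - (2 * t) • h' by module] at h2
  unfold SD
  linarith

/-- Gâteaux differentiability controls all small second differences -/
theorem GD_small (hG : ConvexOn ℝ univ G) {z : E} (hz : GD G z) (h : E) {ε : ℝ} (hε : 0 < ε) :
    ∃ t₀ > 0, ∀ t, 0 < t → t ≤ t₀ → SD G z h t ≤ ε * t := by
  obtain ⟨t₀, ht₀, h0⟩ := hz h ε hε
  refine ⟨t₀, ht₀, fun t ht htt => ?_⟩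
  have := SD_mono hG z h ht htt
  have h2 : SD G z h t₀ * t ≤ ε * t₀ * t := mul_le_mul_of_nonneg_right h0 ht.le
  have h3 : SD G z h t * t₀ ≤ ε * t * t₀ := by nlinarith
  exact le_of_mul_le_mul_right h3 ht₀

end SD

section CL

variable {E : Type*} [NormedAddCommGroup E] [NormedSpace ℝ E] {G : E → ℝ} {L : ℝ}

theorem CL.continuous (hG : CL G L) : Continuous G := by
  have : LipschitzWith ⟨L, hG.1⟩ G :=
    LipschitzWith.of_dist_le_mul fun x y => by
      rw [Real.dist_eq, dist_eq_norm]; exact hG.2.2 x y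
  exact this.continuous

theorem CL.comp_neg (hG : CL G L) : CL (fun x => G (-x)) L := by
  refine ⟨hG.1, ⟨convex_univ, fun x _ y _ a b ha hb hab => ?_⟩, fun x y => ?_⟩
  · have := hG.2.1.2 (mem_univ (-x)) (mem_univ (-y)) ha hb hab
    simp only [smul_neg] at this
    simpa [neg_add, add_comm] using this
  · have := hG.2.2 (-x) (-y)
    rwa [← neg_sub', norm_neg] at this

theorem CL.SD_base (hG : CL G L) (z z' h : E) (t : ℝ) :
    |SD G z h t - SD G z' h t| ≤ 4 * L * ‖z - z'‖ := by
  have h1 := hG.2.2 (z + t • h) (z' + t • h)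
  have h2 := hG.2.2 (z - t • h) (z' - t • h)
  have h3 := hG.2.2 z z'
  rw [add_sub_add_right_eq_sub] at h1
  rw [sub_sub_sub_cancel_right] at h2
  rw [abs_le] at *
  unfold SD
  constructor <;> linarith [h1.1, h1.2, h2.1, h2.2, h3.1, h3.2]

theorem CL.SD_dir (hG : CL G L) (z h h' : E) (t : ℝ) :
    |SD G z h t - SD G z h' t| ≤ 2 * L * |t| * ‖h - h'‖ := by
  have h1 := hG.2.2 (z + t • h) (z + t • h')
  have h2 := hG.2.2 (z - t • h) (z - t • h')
  rw [add_sub_add_left_eq_sub, ← smul_sub, norm_smul, Real.norm_eq_abs] at h1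
  rw [sub_sub_sub_cancel_left, ← smul_sub, norm_smul, Real.norm_eq_abs, norm_sub_rev] at h2
  rw [abs_le] at *
  unfold SD
  constructor <;> linarith [h1.1, h1.2, h2.1, h2.2]

/-- `Seen` for `G (- ·)` -/
theorem Seen_comp_neg {m : ℕ} {G : Z m → ℝ} {κ : ℝ} {z : Z m} {q : K} (h : Seen G κ z q) :
    Seen (fun x => G (-x)) κ (-z) q := by
  intro t ht k₀
  obtain ⟨k, hk, h1⟩ := h t ht k₀
  exact ⟨k, hk, by rw [SD_comp_neg]; exact h1⟩

theorem GD_comp_neg {m : ℕ} {G : Z m → ℝ} {z : Z m} (h : GD G z) :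
    GD (fun x => G (-x)) (-z) := by
  intro h' ε hε
  obtain ⟨t, ht, h1⟩ := h h' ε hε
  exact ⟨t, ht, by rw [SD_comp_neg]; exact h1⟩

end CL

/-! ## The norm on `Z m` and small bumps -/

theorem norm_pair_zero {m : ℕ} (x : X) : ‖((x, 0) : Z m)‖ = ‖x‖ := by
  rw [Prod.norm_def]; simp

theorem norm_bump_sub_le (q : K) (r : ℕ → X) (k : ℕ) :
    ‖bump q r k - cylf q k‖ ≤ (2 : ℝ)⁻¹ ^ k := by
  unfold bump
  rw [add_sub_cancel_left, norm_smul, Real.norm_eq_abs, abs_inv]
  have h0 : 0 ≤ ‖r k‖ := norm_nonneg _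
  have h1 : (0 : ℝ) < 2 ^ k * (1 + ‖r k‖) := by positivity
  rw [abs_of_pos h1, inv_pow, ← div_eq_inv_mul, ← one_div, div_le_div_iff₀ h1 (by positivity)]
  nlinarith [pow_pos (show (0 : ℝ) < 2 by norm_num) k]

theorem norm_bump_le (q : K) (r : ℕ → X) (k : ℕ) : ‖bump q r k‖ ≤ 2 := by
  have h1 := norm_bump_sub_le q r k
  have h2 := norm_cylf_le q k
  have h3 : (2 : ℝ)⁻¹ ^ k ≤ 1 := pow_le_one₀ (by norm_num) (by norm_num)
  have : ‖bump q r k‖ ≤ ‖bump q r k - cylf q k‖ + ‖cylf q k‖ := by
    simpa using norm_add_le (bump q r k - cylf q k) (cylf q k)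
  linarith

end Pool.AP
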