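import Pool.Agent.Work.MP_6cbae3_ch.Basic

/-! # MP_6cbae3_an: more basic lemmas (helper17) -/

set_option autoImplicit false

namespace Pool.AP

open Filter Topology Set

theorem Sep_nil : Sep [] := by
  intro q k M hM
  refine ⟨1 / (M + 1), by positivity, ?_, {q}, ?_, ?_, ?_⟩
  · rw [div_mul_eq_mul_div, one_mul, div_lt_one (by linarith)]; linarith
  · intro p hp
    rw [Finset.mem_singleton.1 hp]
    exact mem_cyl_self q k
  · simp only [Finset.card_singleton, Nat.cast_one, List.length_nil, pow_zero, mul_one]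
    rw [mul_one_div, div_le_one (by linarith)]; linarith
  · intro p hp p' hp' hne
    rw [Finset.mem_singleton] at hp hp'
    exact absurd (hp.trans hp'.symm) hne

theorem card_sigma_le {ι : Type} {F : ι → Type} (h1 : Cardinal.mk ι ≤ Cardinal.aleph 1)
    (h2 : ∀ i, Cardinal.mk (F i) ≤ Cardinal.aleph 1) :
    Cardinal.mk (Σ i, F i) ≤ Cardinal.aleph 1 := by
  rw [Cardinal.mk_sigma]
  calc Cardinal.sum (fun i => Cardinal.mk (F i)) ≤ Cardinal.sum (fun _ : ι => Cardinal.aleph 1) :=
        Cardinal.sum_le_sum _ _ h2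
    _ = Cardinal.mk ι * Cardinal.aleph 1 := Cardinal.sum_const' _ _
    _ ≤ Cardinal.aleph 1 * Cardinal.aleph 1 := mul_le_mul_left h1 _
    _ = Cardinal.aleph 1 := Cardinal.mul_eq_self (Cardinal.aleph0_le_aleph 1)

theorem card_prod_le {S T : Type} (h1 : Cardinal.mk S ≤ Cardinal.aleph 1)
    (h2 : Cardinal.mk T ≤ Cardinal.aleph 1) : Cardinal.mk (S × T) ≤ Cardinal.aleph 1 := by
  rw [Cardinal.mk_prod, Cardinal.lift_id, Cardinal.lift_id]
  calc Cardinal.mk S * Cardinal.mk T ≤ Cardinal.aleph 1 * Cardinal.aleph 1 := mul_le_mul' h1 h2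
    _ = Cardinal.aleph 1 := Cardinal.mul_eq_self (Cardinal.aleph0_le_aleph 1)

theorem card_option_le {S : Type} (h1 : Cardinal.mk S ≤ Cardinal.aleph 1) :
    Cardinal.mk (Option S) ≤ Cardinal.aleph 1 := by
  rw [Cardinal.mk_option]
  calc Cardinal.mk S + 1 ≤ Cardinal.aleph 1 + Cardinal.aleph 1 :=
        add_le_add h1 (le_trans (Cardinal.one_le_aleph0) (Cardinal.aleph0_le_aleph 1))
    _ = Cardinal.aleph 1 := Cardinal.add_eq_self (Cardinal.aleph0_le_aleph 1)

theorem card_countable_le {S : Type} [Countable S] : Cardinal.mk S ≤ Cardinal.aleph 1 :=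
  le_trans Cardinal.mk_le_aleph0 (Cardinal.aleph0_le_aleph 1)

theorem card_finset_le {S : Type} (h1 : Cardinal.mk S ≤ Cardinal.aleph 1) :
    Cardinal.mk (Finset S) ≤ Cardinal.aleph 1 := by
  rcases finite_or_infinite S with h | h
  · have : Finite (Finset S) := inferInstance
    exact card_countable_le
  · rw [Cardinal.mk_finset_of_infinite]; exact h1

theorem Idx.countable_Iic {A : Type} [LinearOrder A] (hA : Idx A) (α : A) :
    (Iic α).Countable := by
  rw [← Iio_insert]
  exact (hA.cnt α).insert α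

/-- upper bounds of finite sets -/
theorem exists_ge_finset {A : Type} [LinearOrder A] (γ : A) (F : Finset A) :
    ∃ δ, γ ≤ δ ∧ ∀ i ∈ F, i ≤ δ := by
  classical
  refine ⟨(insert γ F).max' ⟨γ, Finset.mem_insert_self _ _⟩, ?_, ?_⟩
  · exact Finset.le_max' _ _ (Finset.mem_insert_self _ _)
  · intro i hi
    exact Finset.le_max' _ _ (Finset.mem_insert_of_mem hi)

/-- an open set of a product `S × (A → ℝ)` depends locally on finitely many coordinates -/
theorem exists_finset_cylinder {S A : Type} [TopologicalSpace S] {U : Set (S × (A → ℝ))}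
    (hU : IsOpen U) {p : S × (A → ℝ)} (hp : p ∈ U) :
    ∃ (F : Finset A) (V : Set (S × (F → ℝ))), IsOpen V ∧ (p.1, fun i : F => p.2 i) ∈ V ∧
      ∀ p' : S × (A → ℝ), (p'.1, fun i : F => p'.2 i) ∈ V → p' ∈ U := by
  classical
  rw [isOpen_prod_iff] at hU
  obtain ⟨u, v, hu, hv, hpu, hpv, huv⟩ := hU p.1 p.2 hp
  rw [isOpen_pi_iff] at hv
  obtain ⟨F, w, hw, hF⟩ := hv p.2 hpv
  refine ⟨F, u ×ˢ (Set.pi univ fun i : F => w i), ?_, ?_, ?_⟩
  · exact hu.prod (isOpen_set_pi Set.finite_univ fun i _ => (hw i i.2).1)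
  · exact ⟨hpu, fun i _ => (hw i i.2).2⟩
  · intro p' hp'
    exact huv ⟨hp'.1, hF fun i hi => hp'.2 ⟨i, hi⟩ (mem_univ _)⟩

/-- a sequence of open sets which is a basis -/
theorem exists_seq_basis (S : Type) [TopologicalSpace S] [SecondCountableTopology S] :
    ∃ B : ℕ → Set S, (∀ n, IsOpen (B n)) ∧
      ∀ U : Set S, IsOpen U → ∀ p ∈ U, ∃ n, p ∈ B n ∧ B n ⊆ U := by
  have hb := TopologicalSpace.isBasis_countableBasis S
  have hc := (TopologicalSpace.countable_countableBasis S)
  have hc' : (insert ∅ (TopologicalSpace.countableBasis S)).Countable := hc.insert _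
  obtain ⟨B, hB⟩ := hc'.exists_eq_range ⟨∅, Set.mem_insert _ _⟩
  refine ⟨B, fun n => ?_, fun U hU p hp => ?_⟩
  · have : B n ∈ insert ∅ (TopologicalSpace.countableBasis S) := hB ▸ Set.mem_range_self n
    rcases this with h | h
    · rw [h]; exact isOpen_empty
    · exact hb.isOpen h
  · obtain ⟨v, hv, hpv, hvU⟩ := hb.exists_subset_of_mem_open hp hU
    have : v ∈ Set.range B := hB ▸ Set.mem_insert_of_mem _ hv
    obtain ⟨n, rfl⟩ := this
    exact ⟨n, hpv, hvU⟩

end Pool.AP
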