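import Mathlib

/-! # The counterexample for MP_6cbae3_an: definitions (helper17)

`K` is the Cantor set, `X = C(K)`.  The space `E` is spanned by a sequence of length `ω₁` of
mutually generic vectors `x α` and by bump sequences at points `q α`, where
`q α` is a point at which `x α + t α * b + c` attains its maximum. -/

set_option autoImplicit false

namespace Pool.AP

open Filter Topology Set

/-! ## Polish spaces -/

theorem polish_of {S : Type*} [TopologicalSpace S] [SecondCountableTopology S]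
    [TopologicalSpace.IsCompletelyMetrizableSpace S] : PolishSpace S := { }

instance instPolishProd {S T : Type*} [TopologicalSpace S] [TopologicalSpace T] [PolishSpace S]
    [PolishSpace T] : PolishSpace (S × T) := polish_of

instance instPolishPi {ι : Type*} [Countable ι] {S : ι → Type*} [∀ i, TopologicalSpace (S i)]
    [∀ i, PolishSpace (S i)] : PolishSpace (∀ i, S i) := polish_of

/-! ## The space `X` -/

/-- the Cantor set -/
abbrev K : Type := ℕ → Bool

/-- the continuous functions on the Cantor set -/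
abbrev X : Type := C(K, ℝ)

/-- cylinders -/
def cyl (q : K) (k : ℕ) : Set K := {p | ∀ i < k, p i = q i}

theorem isClopen_cyl (q : K) (k : ℕ) : IsClopen (cyl q k) := by
  have : cyl q k = ⋂ i ∈ Finset.range k, {p : K | p i = q i} := by
    ext p; simp [cyl]
  rw [this]
  refine isClopen_biInter_finset fun i _ => ?_
  exact (isClopen_discrete ({q i} : Set Bool)).preimage (continuous_apply i)

theorem mem_cyl_self (q : K) (k : ℕ) : q ∈ cyl q k := fun _ _ => rfl

open Classical in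
/-- the indicator function of a cylinder -/
noncomputable def cylf (q : K) (k : ℕ) : X :=
  ⟨fun p => if p ∈ cyl q k then 1 else 0, by
    refine continuous_const.if ?_ continuous_const
    intro a ha
    have h : frontier {a : K | a ∈ cyl q k} = ∅ := (isClopen_cyl q k).frontier_eq
    rw [h] at ha
    exact absurd ha (Set.notMem_empty a)⟩

theorem cylf_of_mem {q p : K} {k : ℕ} (h : p ∈ cyl q k) : cylf q k p = 1 := if_pos h

theorem cylf_of_notMem {q p : K} {k : ℕ} (h : p ∉ cyl q k) : cylf q k p = 0 := if_neg h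

theorem norm_cylf_le (q : K) (k : ℕ) : ‖cylf q k‖ ≤ 1 := by
  rw [ContinuousMap.norm_le _ zero_le_one]
  intro p
  by_cases h : p ∈ cyl q k
  · rw [cylf_of_mem h]; norm_num
  · rw [cylf_of_notMem h]; norm_num

/-! ## Second differences -/

/-- symmetric second difference -/
noncomputable def SD {E : Type*} [AddCommGroup E] [Module ℝ E] (G : E → ℝ) (z h : E) (t : ℝ) : ℝ :=
  G (z + t • h) + G (z - t • h) - 2 * G z

/-- convex and Lipschitz -/
def CL {E : Type*} [NormedAddCommGroup E] [NormedSpace ℝ E] (G : E → ℝ) (L : ℝ) : Prop :=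
  0 ≤ L ∧ ConvexOn ℝ univ G ∧ ∀ x y, |G x - G y| ≤ L * ‖x - y‖

/-- the Gâteaux differentiability of a convex function, in terms of second differences -/
def GD {E : Type*} [AddCommGroup E] [Module ℝ E] (G : E → ℝ) (z : E) : Prop :=
  ∀ h, ∀ ε > 0, ∃ t > 0, SD G z h t ≤ ε * t

/-- the spaces on which the convex functions of the proof are defined -/
abbrev Z (m : ℕ) : Type := X × (Fin m → ℝ)

/-- the function `G` sees the point `q` from `z` -/
def Seen {m : ℕ} (G : Z m → ℝ) (κ : ℝ) (z : Z m) (q : K) : Prop :=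
  ∀ t > 0, ∀ k₀ : ℕ, ∃ k ≥ k₀, κ * t ≤ SD G z (cylf q k, 0) t

/-! ## Separation -/

/-- Many separated points: for arbitrarily large `M` there are a small `s > 0` and at least
`M * s ^ (1 - d)` points (`d` the number of functions) in the cylinder, any two of which are
separated by more than `s` by one of the functions. -/
def SepAt (w : List X) (q : K) (k : ℕ) (M : ℝ) : Prop :=
  ∃ s : ℝ, 0 < s ∧ s * M < 1 ∧ ∃ Q : Finset K,
    (∀ p ∈ Q, p ∈ cyl q k) ∧ M * s ≤ Q.card * s ^ w.length ∧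
    ∀ p ∈ Q, ∀ p' ∈ Q, p ≠ p' → ∃ f ∈ w, s < |f p - f p'|

/-- the generic behaviour of finitely many functions -/
def Sep (w : List X) : Prop := ∀ (q : K) (k : ℕ) (M : ℝ), 0 < M → SepAt w q k M

/-- separation by `b`, `c` and the first components of a finite family -/
def SepV {m : ℕ} {ι : Type} [Fintype ι] (b c : X) (v : ι → Z m) : Prop :=
  ∃ w : List X, Sep ([b, c] ++ w) ∧ w.length = Fintype.card ι ∧ ∀ f ∈ w, ∃ i, (v i).1 = f

/-! ## Locations and vectors -/

theorem exists_argmax (f : X) : ∃ q, ∀ p, f p ≤ f q := by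
  obtain ⟨q, -, hq⟩ := isCompact_univ.exists_isMaxOn (⟨fun _ => true, trivial⟩ :
    (univ : Set K).Nonempty) f.continuous.continuousOn
  exact ⟨q, fun p => hq (mem_univ p)⟩

/-- a point at which `x + t * b + c` attains its maximum -/
noncomputable def loc (b c x : X) (t : ℝ) : K := (exists_argmax (x + t • b + c)).choose

theorem loc_spec (b c x : X) (t : ℝ) (p : K) :
    x p + t * b p + c p ≤ x (loc b c x t) + t * b (loc b c x t) + c (loc b c x t) := by
  have := (exists_argmax (x + t • b + c)).choose_spec p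
  simp only [ContinuousMap.add_apply, ContinuousMap.smul_apply, smul_eq_mul] at this
  exact this

/-- the data of one stage: the vector `x`, the number `t`, the rough parts `r` -/
abbrev Y0 : Type := X × ℝ × (ℕ → X)

/-- the data of one stage together with the values of `m` functionals -/
abbrev Pt (m : ℕ) : Type := Y0 × (Fin m → ℝ)

/-- the location of a stage -/
noncomputable def qq (b c : X) (y : Y0) : K := loc b c y.1 y.2.1

/-- the rough bump number `k` at the point `q` -/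
noncomputable def bump (q : K) (r : ℕ → X) (k : ℕ) : X :=
  cylf q k + ((2 : ℝ) ^ k * (1 + ‖r k‖))⁻¹ • r k

/-- the main vector of a stage -/
def vx {m : ℕ} (y : Pt m) : Z m := (y.1.1, y.2)

/-- the bumps of a stage -/
noncomputable def vy {m : ℕ} (b c : X) (y : Pt m) (k : ℕ) : Z m :=
  (bump (qq b c y.1) y.1.2.2 k, 0)

/-- linear combinations of the vectors of `n` stages and of finitely many old vectors -/
noncomputable def zz {n m k : ℕ} {ι : Type} [Fintype ι] (b c : X) (v : ι → Z m)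
    (y : Fin n → Pt m) (a : Fin n → ℝ) (d : Fin n → Fin k → ℝ) (p : ι → ℝ) : Z m :=
  ∑ l, a l • vx (y l) + ∑ l, ∑ i, d l i • vy b c (y l) i + ∑ i, p i • v i

/-- the vectors of `n` stages except the main vector of the stage `j`, and the old vectors -/
noncomputable def wv {n m : ℕ} {ι : Type} (k : ℕ) (b c : X) (v : ι → Z m) (y : Fin n → Pt m)
    (j : Fin n) : {l : Fin n // l ≠ j} ⊕ (Fin n × Fin k) ⊕ ι → Z m
  | Sum.inl l => vx (y l)
  | Sum.inr (Sum.inl li) => vy b c (y li.1) li.2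
  | Sum.inr (Sum.inr i) => v i

/-- the coefficients belonging to `wv` -/
def cf {n k : ℕ} {ι : Type} (a : Fin n → ℝ) (d : Fin n → Fin k → ℝ) (p : ι → ℝ)
    (j : Fin n) : {l : Fin n // l ≠ j} ⊕ (Fin n × Fin k) ⊕ ι → ℝ
  | Sum.inl l => a l
  | Sum.inr (Sum.inl li) => d li.1 li.2
  | Sum.inr (Sum.inr i) => p i

/-- the location of a stage is stable up to level `k` -/
def Stab (b c : X) (k : ℕ) (y : Y0) : Prop :=
  ∃ ρ > 0, ∀ y' : Y0, ‖y'.1 - y.1‖ < ρ → |y'.2.1 - y.2.1| < ρ → qq b c y' ∈ cyl (qq b c y) k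

/-! ## The bad sets -/

/-- the bad tuples for the location `j` -/
def Bad {m : ℕ} {ι : Type} [Fintype ι] (n : ℕ) (b c : X) (G : Z m → ℝ) (v : ι → Z m) :
    Set (Fin n → Pt m) :=
  {y | ∃ (k : ℕ) (a : Fin n → ℝ) (d : Fin n → Fin k → ℝ) (p : ι → ℝ) (j : Fin n) (κ : ℝ),
    a ≠ 0 ∧ 0 < κ ∧ GD G (zz b c v y a d p) ∧ Seen G κ (zz b c v y a d p) (qq b c (y j).1)}

/-- the bad tuples with bounded coefficients such that the coefficient `j` is `≥ 1 / R` -/
def BadT {m : ℕ} {ι : Type} [Fintype ι] (n k : ℕ) (b c : X) (G : Z m → ℝ) (v : ι → Z m)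
    (κ R : ℝ) (j : Fin n) : Set (Fin n → Pt m) :=
  {y | ∃ (a : Fin n → ℝ) (d : Fin n → Fin k → ℝ) (p : ι → ℝ), 1 / R ≤ a j ∧
    (∀ l, |a l| ≤ R) ∧ (∀ l i, |d l i| ≤ R) ∧ (∀ i, |p i| ≤ R) ∧
    GD G (zz b c v y a d p) ∧ Seen G κ (zz b c v y a d p) (qq b c (y j).1)}

/-- the bad tuples with bounded coefficients such that the coefficient `j` is `0` and the
coefficient `l` is `≥ 1 / R` -/
def BadF {m : ℕ} {ι : Type} [Fintype ι] (n k : ℕ) (b c : X) (G : Z m → ℝ) (v : ι → Z m)
    (κ R : ℝ) (j l : Fin n) : Set (Fin n → Pt m) :=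
  {y | ∃ (a : Fin n → ℝ) (d : Fin n → Fin k → ℝ) (p : ι → ℝ), a j = 0 ∧ 1 / R ≤ a l ∧
    (∀ l, |a l| ≤ R) ∧ (∀ l i, |d l i| ≤ R) ∧ (∀ i, |p i| ≤ R) ∧
    GD G (zz b c v y a d p) ∧ Seen G κ (zz b c v y a d p) (qq b c (y j).1)}

/-- density of bad points, the location belongs to the vector with coefficient `a` -/
def DenseT {m : ℕ} {ι : Type} [Fintype ι] (G : Z m → ℝ) (κ R ρ : ℝ) (b c : X) (v : ι → Z m)
    (x₀ : X) (u₀ : Fin m → ℝ) (t₀ : ℝ) : Prop :=
  ∀ (x : X) (u : Fin m → ℝ) (t : ℝ), ‖x - x₀‖ < ρ → ‖u - u₀‖ < ρ → |t - t₀| < ρ → ∀ ε > 0,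
    ∃ (z : Z m) (q : K) (a : ℝ) (p : ι → ℝ),
      ‖z - (x, u)‖ < ε ∧ (∀ q', x q' + t * b q' + c q' ≤ x q + t * b q + c q + ε) ∧
      1 / R ≤ a ∧ a ≤ R ∧ (∀ i, |p i| ≤ R) ∧
      GD G (a • z + ∑ i, p i • v i) ∧ Seen G κ (a • z + ∑ i, p i • v i) q

/-- density of bad points, the location is independent of the vector with coefficient `a` -/
def DenseF {m : ℕ} {ι : Type} [Fintype ι] (G : Z m → ℝ) (κ R ρ : ℝ) (q₀ : K) (k₀ : ℕ)
    (v : ι → Z m) (z₀ : Z m) : Prop :=
  ∀ z, ‖z - z₀‖ < ρ → ∀ q ∈ cyl q₀ k₀, ∀ k ≥ k₀, ∀ ε > 0,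
    ∃ (z' : Z m) (q' : K) (a : ℝ) (p : ι → ℝ),
      ‖z' - z‖ < ε ∧ q' ∈ cyl q k ∧ 1 / R ≤ a ∧ a ≤ R ∧ (∀ i, |p i| ≤ R) ∧
      GD G (a • z' + ∑ i, p i • v i) ∧ Seen G κ (a • z' + ∑ i, p i • v i) q'

/-! ## The perspective and its Moreau envelope -/

/-- the square of the Euclidean norm -/
def nsq {d : ℕ} (s : Fin d → ℝ) : ℝ := ∑ i, s i ^ 2

/-- the perspective function: `s 0` is the scaling parameter -/
noncomputable def persp {m M : ℕ} (G : Z m → ℝ) (v : Fin M → Z m) (z : Z m)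
    (s : Fin (M + 1) → ℝ) : ℝ :=
  s 0 * G ((s 0)⁻¹ • (z + ∑ i : Fin M, s i.succ • v i))

/-- the Moreau envelope of the perspective function in the parameters -/
noncomputable def env {m M : ℕ} (G : Z m → ℝ) (v : Fin M → Z m) (l₀ : ℝ) (z : Z m)
    (s : Fin (M + 1) → ℝ) : ℝ :=
  ⨅ π : {π : Fin (M + 1) → ℝ // l₀ ≤ π 0}, (persp G v z π.1 + nsq (π.1 - s) / 2)

/-- the raw functions of a stage: `x, r 0, ..., r (k - 1)` -/
def raw (y : Y0) (k : ℕ) : List X := y.1 :: (List.range k).map y.2.2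

/-! ## The index set -/

/-- the index set is like `ω₁` -/
structure Idx (A : Type) [LinearOrder A] : Prop where
  card : Cardinal.mk A ≤ Cardinal.aleph 1
  wf : WellFoundedLT A
  cnt : ∀ a : A, (Iio a).Countable
  unb : ∀ S : Set A, S.Countable → ∃ a, ∀ s ∈ S, s < a
  srj : ∀ (T : Type) [Nonempty T], Cardinal.mk T ≤ Cardinal.aleph 1 →
    ∃ f : A → T, ∀ t γ, ∃ α, γ ≤ α ∧ f α = t

/-- **The hypothesis** (`cof(M) = ℵ₁`): in every Polish space there are at most `ℵ₁` meagre sets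
such that every meagre set is contained in one of them.  It follows from the continuum
hypothesis. -/
def CofM : Prop :=
  ∀ (Y : Type) [TopologicalSpace Y] [PolishSpace Y], ∃ F : Set (Set Y),
    Cardinal.mk F ≤ Cardinal.aleph 1 ∧ (∀ s ∈ F, IsMeagre s) ∧
      ∀ s : Set Y, IsMeagre s → ∃ t ∈ F, s ⊆ t

/-- iterated category quantifiers -/
def It {W : Type} [TopologicalSpace W] (Q : List W → Prop) : ℕ → List W → Prop
  | 0, s => Q s
  | k + 1, s => ∀ᶠ w in residual W, It Q k (s ++ [w])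

/-! ## Bounded sequences -/

/-- the bounded sequences of the direct sum topology -/
def TBdd {A : Type} (b : ℕ → (A × ℕ) →₀ ℝ) : Prop :=
  ∃ (F : Finset A) (C : ℝ), ∀ n, (∀ p ∈ (b n).support, p.1 ∈ F) ∧
    ∑ p ∈ (b n).support, |b n p| ≤ C

/-! ## The data -/

/-- the data from which `E` is constructed -/
structure Data (A : Type) where
  b : X
  c : X
  y : A → Y0
  ζ : A → A → ℝ
  kill : A → A × ℕ → ℝ
  τ : A → A

/-- the properties of the data -/
structure Data.Good {A : Type} [LinearOrder A] (D : Data A) : Prop where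
  idx : Idx A
  gp : ∀ (n : ℕ) (β : A) (M : Set (Fin n → Y0 × (Iio β → ℝ))), IsMeagre M →
    ∃ γ : A, ∀ a : Fin n → A, StrictMono a → (∀ i, γ ≤ a i) →
      (fun i => (D.y (a i), fun j : Iio β => D.ζ (a i) j)) ∉ M
  up : ∀ U : Set (Y0 × (A → ℝ)), IsOpen U → U.Nonempty → ∀ γ, ∃ α, γ ≤ α ∧ (D.y α, D.ζ α) ∈ U
  sp : ∀ l : List A, l.Pairwise (· < ·) → ∀ k, Sep ([D.b, D.c] ++ l.flatMap fun α => raw (D.y α) k)
  le : ∀ i, i ≤ D.τ i
  k1 : ∀ i β, ∃ C, ∀ k, |D.kill i (β, k)| ≤ C
  k2 : ∀ b : ℕ → (A × ℕ) →₀ ℝ, ¬ TBdd b → ∃ i, (∀ n, ∀ p ∈ (b n).support, p.1 < D.τ i) ∧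
    ¬ ∃ C, ∀ n, |(b n).sum fun p r => r * D.kill i p| ≤ C
  k3 : ∀ γ, ∃ i, γ ≤ i ∧ ∀ p, D.kill i p = 0

namespace Data

variable {A : Type} [LinearOrder A] (D : Data A)

/-- the point `q α` -/
noncomputable def q (α : A) : K := qq D.b D.c (D.y α)

/-- the first component of a basis vector -/
noncomputable def vecX (p : A × ℕ) : X :=
  if p.2 = 0 then (D.y p.1).1 else bump (D.q p.1) (D.y p.1).2.2 (p.2 - 1)

/-- the value of the functional `i` at a basis vector -/
noncomputable def phi (i : A) (p : A × ℕ) : ℝ :=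
  if p.1 < D.τ i then D.kill i p else if p.2 = 0 then D.ζ p.1 i else 0

/-- the basis vectors of `E` -/
noncomputable def eh (p : A × ℕ) : X × (A → ℝ) := (D.vecX p, fun i => D.phi i p)

/-- the parametrisation of `E` -/
noncomputable def J : ((A × ℕ) →₀ ℝ) →ₗ[ℝ] X × (A → ℝ) := Finsupp.linearCombination ℝ D.eh

/-- **The space `E`** -/
noncomputable def E : Submodule ℝ (X × (A → ℝ)) := LinearMap.range D.J

/-- the basis vectors as elements of `E` -/
noncomputable def ehE (p : A × ℕ) : D.E :=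
  ⟨D.eh p, ⟨Finsupp.single p 1, by simp [J]⟩⟩

/-- restriction of an element to finitely many functionals -/
def pr {m : ℕ} (I : Fin m → A) (x : D.E) : Z m := (x.1.1, fun i => x.1.2 (I i))

/-- the function on `E × ℝ` -/
noncomputable def F (p : D.E × ℝ) : ℝ :=
  (p.1.1.1 + p.2 • D.b + D.c) (loc D.b D.c p.1.1.1 p.2)

end Data

/-! ## Fréchet differentiability and Asplund spaces -/

section defs

variable {E : Type*} [AddCommGroup E] [Module ℝ E] [TopologicalSpace E]

/-- `f` is Fréchet differentiable at `x₀`: there is a continuous linear functional `f'` such that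
for every bounded set `B` and every `ε > 0` there is `δ > 0` with
`sup {|(f (x₀ + t x) - f x₀) / t - f' x| : x ∈ B} < ε` for `0 < |t| < δ`. -/
def FrechetDiffAt (f : E → ℝ) (x₀ : E) : Prop :=
  ∃ f' : E →L[ℝ] ℝ, ∀ B : Set E, Bornology.IsVonNBounded ℝ B → ∀ ε : ℝ, 0 < ε →
    ∃ δ : ℝ, 0 < δ ∧ ∀ t : ℝ, 0 < |t| → |t| < δ →
      ∃ r < ε, ∀ x ∈ B, |(f (x₀ + t • x) - f x₀) / t - f' x| ≤ r

variable (E) in
/-- `E` is Asplund: every continuous convex function on a nonempty open convex set `D` is Fréchet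
differentiable at all points of some dense `Gδ` subset of `D`. -/
def IsAsplund : Prop :=
  ∀ (D : Set E) (f : E → ℝ), D.Nonempty → IsOpen D → Convex ℝ D → ConvexOn ℝ D f →
    ContinuousOn f D → ∃ G ⊆ D, IsGδ G ∧ D ⊆ closure G ∧ ∀ x ∈ G, FrechetDiffAt f x

end defs

end Pool.AP
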