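import Pool.Agent.Work.MP_6cbae3_ch.Basic

/-! # MP_6cbae3_an: block FIXQ (helper33) -/

set_option autoImplicit false

namespace Pool.AP

open Filter Topology Set

/-- where `G` is Gâteaux differentiable and sees `q`, it sees rings around `q` -/
theorem ring_SD {m : ℕ} {G : Z m → ℝ} {L : ℝ} (hG : CL G L) {z : Z m} {q : K} {κ δ : ℝ}
    (hκ : 0 < κ) (hδ : 0 < δ) (hgd : GD G z) (hs : Seen G κ z q) (k : ℕ) :
    ∃ k' ≥ k, κ / 2 * δ ≤ SD G z (cylf q k - cylf q k', 0) δ := by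
  obtain ⟨t₀, ht₀, h0⟩ := GD_small hG.2.1 hgd ((cylf q k, 0) : Z m) (half_pos hκ)
  set s : ℝ := min t₀ δ with hsdef
  have hspos : 0 < s := lt_min ht₀ hδ
  obtain ⟨k', hk', h1⟩ := hs (s / 2) (half_pos hspos) k
  refine ⟨k', hk', ?_⟩
  have h2 := SD_add hG.2.1 z ((cylf q k, 0) : Z m) (-((cylf q k - cylf q k', 0) : Z m)) (s / 2)
  have e1 : ((cylf q k, 0) : Z m) + -((cylf q k - cylf q k', 0) : Z m) = (cylf q k', 0) := by
    rw [Prod.neg_mk, Prod.mk_add_mk, neg_zero, add_zero, neg_sub, add_sub_cancel]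
  rw [e1, SD_neg, show 2 * (s / 2) = s by ring] at h2
  have h3 := h0 s hspos (min_le_left _ _)
  have h4 := SD_mono hG.2.1 z ((cylf q k - cylf q k', 0) : Z m) hspos (min_le_right t₀ δ)
  have h5 : κ / 2 * s ≤ SD G z (cylf q k - cylf q k', 0) s := by linarith
  have h6 : κ / 2 * s * δ ≤ SD G z (cylf q k - cylf q k', 0) δ * s :=
    (mul_le_mul_of_nonneg_right h5 hδ.le).trans h4
  have h7 : κ / 2 * δ * s ≤ SD G z (cylf q k - cylf q k', 0) δ * s := by linarith
  exact le_of_mul_le_mul_right h7 hspos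

theorem fixq_nd (hGRD : Stmt_GRD) {m : ℕ} {G : Z m → ℝ} {L : ℝ} (q : K) (hG : CL G L) {κ : ℝ}
    (hκ : 0 < κ) : IsNowhereDense {z : Z m | GD G z ∧ Seen G κ z q} := by
  classical
  by_contra hnd
  have hne : (interior (closure {z : Z m | GD G z ∧ Seen G κ z q})).Nonempty :=
    Set.nonempty_iff_ne_empty.2 hnd
  obtain ⟨z0, hz0⟩ := hne
  obtain ⟨ρ, hρ, hball⟩ := Metric.isOpen_iff.1 isOpen_interior z0 hz0
  set δ : ℝ := ρ / 2 with hδdef
  have hδ : 0 < δ := half_pos hρ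
  obtain ⟨n, hn⟩ := exists_nat_gt (8 * L / κ)
  have hL := hG.1
  let P : ℕ → Z m → Prop := fun _ h =>
    h.2 = 0 ∧ (∀ p, |h.1 p| ≤ δ) ∧ ∃ k, ∀ p ∈ cyl q k, h.1 p = 0
  have hPn : ∀ i h, P i h → ‖h‖ ≤ δ := by
    rintro i ⟨f, u⟩ ⟨h1, h2, -⟩
    rw [Prod.norm_def]
    refine max_le ((ContinuousMap.norm_le _ hδ.le).2 fun p => h2 p) ?_
    simp only at h1
    rw [h1, norm_zero]; exact hδ.le
  have key := hGRD (Z m) 1 n (fun _ => G) z0 P (κ * δ / 4) (L * δ) ?_ ?_ ?_ ?_
  · have h1 : (n : ℝ) * (κ * δ / 4) ≤ 2 * L * δ := by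
      have : (2 : ℝ) * ((1 : ℕ) : ℝ) * (L * δ) = 2 * L * δ := by push_cast; ring
      rw [← this]; exact key
    have h2 : (n : ℝ) * κ ≤ 8 * L := by
      by_contra hcon
      push Not at hcon
      have := mul_lt_mul_of_pos_right hcon hδ
      linarith
    rw [div_lt_iff₀ hκ] at hn
    linarith
  · refine ⟨rfl, fun p => ?_, 0, fun p _ => rfl⟩
    simp only [Prod.fst_zero, ContinuousMap.zero_apply, abs_zero]
    exact hδ.le
  · intro ν h h'
    have := two_mul_le hG.2.1 (z0 + h) h'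
    rw [add_assoc, add_sub_assoc] at this
    exact this
  · intro i _ h hP
    have hPi := hP
    obtain ⟨h1, h2, k, hk⟩ := hP
    have hmem : z0 + h ∈ closure {z : Z m | GD G z ∧ Seen G κ z q} := by
      refine interior_subset (hball ?_)
      rw [Metric.mem_ball, dist_eq_norm, add_sub_cancel_left]
      exact lt_of_le_of_lt (hPn i h hPi) (half_lt_self hρ)
    have hεpos : 0 < κ * δ / (16 * (L + 1)) := by positivity
    obtain ⟨z, ⟨hgd, hsn⟩, hz⟩ := Metric.mem_closure_iff.1 hmem _ hεpos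
    rw [dist_eq_norm] at hz
    obtain ⟨k', hk', h3⟩ := ring_SD hG hκ hδ hgd hsn k
    have hr1 : ∀ p, p ∉ cyl q k → (cylf q k - cylf q k') p = 0 := by
      intro p hp
      rw [ContinuousMap.sub_apply, cylf_of_notMem hp,
        cylf_of_notMem (fun h => hp (cyl_anti hk' h)), sub_zero]
    have hr2 : ∀ p, p ∈ cyl q k' → (cylf q k - cylf q k') p = 0 := by
      intro p hp
      rw [ContinuousMap.sub_apply, cylf_of_mem hp, cylf_of_mem (cyl_anti hk' hp), sub_self]
    have hr3 : ∀ p, |(cylf q k - cylf q k') p| ≤ 1 := by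
      intro p
      by_cases hp : p ∈ cyl q k
      · by_cases hp' : p ∈ cyl q k'
        · rw [hr2 p hp', abs_zero]; exact zero_le_one
        · rw [ContinuousMap.sub_apply, cylf_of_mem hp, cylf_of_notMem hp', sub_zero, abs_one]
      · rw [hr1 p hp, abs_zero]; exact zero_le_one
    have hP1 : ∀ σ : ℝ, |σ| = δ → P (i + 1) (h + σ • ((cylf q k - cylf q k', 0) : Z m)) := by
      intro σ hσ
      refine ⟨?_, ?_, k', ?_⟩
      · rw [Prod.snd_add, Prod.smul_snd, h1, smul_zero, add_zero]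
      · intro p
        rw [Prod.fst_add, Prod.smul_fst, ContinuousMap.add_apply, ContinuousMap.smul_apply,
          smul_eq_mul]
        by_cases hp : p ∈ cyl q k
        · rw [hk p hp, zero_add, abs_mul, hσ]
          exact mul_le_of_le_one_right hδ.le (hr3 p)
        · rw [hr1 p hp, mul_zero, add_zero]; exact h2 p
      · intro p hp
        rw [Prod.fst_add, Prod.smul_fst, ContinuousMap.add_apply, ContinuousMap.smul_apply,
          smul_eq_mul, hr2 p hp, mul_zero, add_zero]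
        exact hk p (cyl_anti hk' hp)
    refine ⟨δ • ((cylf q k - cylf q k', 0) : Z m), 0, hP1 δ (abs_of_pos hδ), ?_, ?_⟩
    · have := hP1 (-δ) (by rw [abs_neg, abs_of_pos hδ])
      rwa [neg_smul, ← sub_eq_add_neg] at this
    · have h4 := hG.SD_base (z0 + h) z ((cylf q k - cylf q k', 0) : Z m) δ
      have h5 : 4 * L * ‖z0 + h - z‖ ≤ κ * δ / 4 := by
        have : 4 * L * ‖z0 + h - z‖ ≤ 4 * (L + 1) * (κ * δ / (16 * (L + 1))) := by
          apply mul_le_mul (by linarith) hz.le (norm_nonneg _) (by positivity)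
        refine this.trans (le_of_eq ?_)
        field_simp
        norm_num
      have h6 := (abs_le.1 (h4.trans h5)).1
      have h7 : κ * δ / 4 ≤ SD G (z0 + h) (cylf q k - cylf q k', 0) δ := by linarith
      unfold SD at h7
      simp only [add_sub_assoc, add_assoc] at h7 ⊢
      exact h7
  · intro h hP ν
    have h1 := (abs_le.1 (hG.2.2 (z0 + h) z0)).2
    rw [add_sub_cancel_left] at h1
    exact h1.trans (mul_le_mul_of_nonneg_left (hPn n h hP) hL)

theorem Seen.mono {m : ℕ} {G : Z m → ℝ} {κ κ' : ℝ} {z : Z m} {q : K} (h : Seen G κ z q)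
    (hk : κ' ≤ κ) : Seen G κ' z q := by
  intro t ht k₀
  obtain ⟨k, hk', h1⟩ := h t ht k₀
  exact ⟨k, hk', (mul_le_mul_of_nonneg_right hk ht.le).trans h1⟩

theorem blk_FIXQ (hGDR : Stmt_GDR) (hGRD : Stmt_GRD) : Stmt_FIXQ := by
  intro m G L q hG
  have h1 : ∀ n : ℕ, ∀ᶠ z in residual (Z m),
      z ∉ {z : Z m | GD G z ∧ Seen G (1 / ((n : ℝ) + 1)) z q} := by
    intro n
    exact (fixq_nd hGRD q hG (κ := 1 / ((n : ℝ) + 1)) (by positivity)).isMeagre
  have h2 := (eventually_countable_forall (l := residual (Z m))).2 h1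
  filter_upwards [h2, hGDR m G L hG] with z hz hgd κ hκ hs
  obtain ⟨n, hn⟩ := exists_nat_one_div_lt hκ
  exact hz n ⟨hgd, hs.mono hn.le⟩

end Pool.AP
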