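import Pool.Agent.Work.MP_6cbae3_ch.Basic

/-! # MP_6cbae3_an: block NDF (helper33) -/

set_option autoImplicit false

namespace Pool.AP

open Filter Topology Set

/-- two stages are near -/
def NearPt {m : ℕ} (ρ : ℝ) (N : ℕ) (y y' : Pt m) : Prop :=
  ‖y.1.1 - y'.1.1‖ < ρ ∧ |y.1.2.1 - y'.1.2.1| < ρ ∧ (∀ i < N, ‖y.1.2.2 i - y'.1.2.2 i‖ < ρ) ∧
    ‖y.2 - y'.2‖ < ρ

theorem isOpen_nearPt {m : ℕ} (ρ : ℝ) (N : ℕ) (y' : Pt m) :
    IsOpen {y : Pt m | NearPt ρ N y y'} := by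
  have h1 : IsOpen {y : Pt m | ‖y.1.1 - y'.1.1‖ < ρ} :=
    isOpen_lt (by fun_prop) continuous_const
  have h2 : IsOpen {y : Pt m | |y.1.2.1 - y'.1.2.1| < ρ} :=
    isOpen_lt (by fun_prop) continuous_const
  have h3 : IsOpen {y : Pt m | ∀ i < N, ‖y.1.2.2 i - y'.1.2.2 i‖ < ρ} := by
    have : {y : Pt m | ∀ i < N, ‖y.1.2.2 i - y'.1.2.2 i‖ < ρ} =
        ⋂ i ∈ Finset.range N, {y : Pt m | ‖y.1.2.2 i - y'.1.2.2 i‖ < ρ} := by
      ext y; simp
    rw [this]
    refine isOpen_biInter_finset fun i _ => isOpen_lt ?_ continuous_const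
    have : Continuous fun y : Pt m => y.1.2.2 i :=
      (continuous_apply i).comp (continuous_snd.comp (continuous_snd.comp continuous_fst))
    exact (this.sub continuous_const).norm
  have h4 : IsOpen {y : Pt m | ‖y.2 - y'.2‖ < ρ} :=
    isOpen_lt (by fun_prop) continuous_const
  exact h1.inter (h2.inter (h3.inter h4))

theorem nearPt_self {m : ℕ} {ρ : ℝ} (hρ : 0 < ρ) (N : ℕ) (y : Pt m) : NearPt ρ N y y := by
  refine ⟨?_, ?_, fun i _ => ?_, ?_⟩ <;> simpa using hρ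

theorem NearPt.mono {m : ℕ} {ρ ρ' : ℝ} {N N' : ℕ} {y y' : Pt m} (h : NearPt ρ N y y')
    (hρ : ρ ≤ ρ') (hN : N' ≤ N) : NearPt ρ' N' y y' :=
  ⟨h.1.trans_le hρ, h.2.1.trans_le hρ, fun i hi => (h.2.2.1 i (hi.trans_le hN)).trans_le hρ,
    h.2.2.2.trans_le hρ⟩

/-- neighbourhoods of one stage -/
theorem nearPt_basis {m : ℕ} (y0 : Pt m) {U : Set (Pt m)} (hU : U ∈ 𝓝 y0) :
    ∃ ρ > 0, ∃ N, ∀ y, NearPt ρ N y y0 → y ∈ U := by
  obtain ⟨⟨x0, t0, r0⟩, u0⟩ := y0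
  rw [mem_nhds_prod_iff] at hU
  obtain ⟨U1, hU1, U2, hU2, h12⟩ := hU
  rw [mem_nhds_prod_iff] at hU1
  obtain ⟨U3, hU3, U4, hU4, h34⟩ := hU1
  rw [mem_nhds_prod_iff] at hU4
  obtain ⟨U5, hU5, U6, hU6, h56⟩ := hU4
  obtain ⟨ρ2, hρ2, hb2⟩ := Metric.mem_nhds_iff.1 hU2
  obtain ⟨ρ3, hρ3, hb3⟩ := Metric.mem_nhds_iff.1 hU3
  obtain ⟨ρ5, hρ5, hb5⟩ := Metric.mem_nhds_iff.1 hU5
  rw [nhds_pi, Filter.mem_pi] at hU6
  obtain ⟨I, hI, t, ht, hsub⟩ := hU6
  have hch : ∀ i, ∃ ρ > 0, Metric.ball (r0 i) ρ ⊆ t i := fun i => Metric.mem_nhds_iff.1 (ht i)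
  choose ρ' hρ' hb' using hch
  obtain ⟨N, hN⟩ := hI.bddAbove
  have hmin : ∃ ρ6 > 0, ∀ i ∈ Finset.range (N + 1), ρ6 ≤ ρ' i := by
    obtain ⟨i0, -, hi0⟩ := (Finset.range (N + 1)).exists_min_image ρ' ⟨0, by simp⟩
    exact ⟨ρ' i0, hρ' i0, hi0⟩
  obtain ⟨ρ6, hρ6, hmin⟩ := hmin
  refine ⟨min (min ρ2 ρ3) (min ρ5 ρ6), lt_min (lt_min hρ2 hρ3) (lt_min hρ5 hρ6), N + 1, ?_⟩
  rintro ⟨⟨x, s, r⟩, u⟩ ⟨h1, h2, h3, h4⟩
  simp only at h1 h2 h3 h4
  refine h12 ⟨h34 ⟨hb3 ?_, h56 ⟨hb5 ?_, hsub ?_⟩⟩, hb2 ?_⟩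
  · rw [Metric.mem_ball, dist_eq_norm]
    exact h1.trans_le ((min_le_left _ _).trans (min_le_right _ _))
  · rw [Metric.mem_ball, Real.dist_eq]
    exact h2.trans_le ((min_le_right _ _).trans (min_le_left _ _))
  · intro i hi
    have hiN : i < N + 1 := Nat.lt_succ_of_le (hN hi)
    refine hb' i ?_
    rw [Metric.mem_ball, dist_eq_norm]
    exact (h3 i hiN).trans_le (((min_le_right _ _).trans (min_le_right _ _)).trans
      (hmin i (Finset.mem_range.2 hiN)))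
  · rw [Metric.mem_ball, dist_eq_norm]
    exact h4.trans_le ((min_le_left _ _).trans (min_le_left _ _))

/-- neighbourhoods of tuples -/
theorem nearPt_basis_tuple {n m : ℕ} (y0 : Fin n → Pt m) {U : Set (Fin n → Pt m)}
    (hU : U ∈ 𝓝 y0) : ∃ ρ > 0, ∃ N, ∀ y : Fin n → Pt m, (∀ l, NearPt ρ N (y l) (y0 l)) → y ∈ U := by
  rw [nhds_pi, Filter.mem_pi] at hU
  obtain ⟨I, -, t, ht, hsub⟩ := hU
  have hch : ∀ l, ∃ ρ > 0, ∃ N, ∀ y, NearPt ρ N y (y0 l) → y ∈ t l := fun l =>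
    nearPt_basis (y0 l) (ht l)
  choose ρ hρ N hN using hch
  rcases Nat.eq_zero_or_pos n with rfl | hn
  · refine ⟨1, one_pos, 0, fun y _ => hsub fun i _ => i.elim0⟩
  have hne : (Finset.univ : Finset (Fin n)).Nonempty := ⟨⟨0, hn⟩, Finset.mem_univ _⟩
  obtain ⟨i0, -, hi0⟩ := (Finset.univ : Finset (Fin n)).exists_min_image ρ hne
  refine ⟨ρ i0, hρ i0, Finset.univ.sup N, fun y hy => hsub fun l _ => hN l _ ?_⟩
  exact (hy l).mono (hi0 l (Finset.mem_univ _)) (Finset.le_sup (Finset.mem_univ l))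

theorem dense_iInter_finite {ι Y : Type*} [Finite ι] [TopologicalSpace Y] (s : ι → Set Y)
    (ho : ∀ i, IsOpen (s i)) (hd : ∀ i, Dense (s i)) : Dense (⋂ i, s i) := by
  classical
  cases nonempty_fintype ι
  have key : ∀ I : Finset ι, IsOpen (⋂ i ∈ I, s i) ∧ Dense (⋂ i ∈ I, s i) := by
    intro I
    induction I using Finset.induction_on with
    | empty => simp
    | insert i I _ ih =>
      rw [Finset.set_biInter_insert]
      exact ⟨(ho i).inter ih.1, (hd i).inter_of_isOpen_left ih.2 (ho i)⟩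
  have := (key Finset.univ).2
  simpa using this

/-- tuples with stable locations are dense -/
theorem dense_stab (hSTAB : Stmt_STAB) {n m : ℕ} (b c : X) (k : ℕ) :
    Dense {y : Fin n → Pt m | ∀ l, Stab b c k (y l).1} := by
  have e : {y : Fin n → Pt m | ∀ l, Stab b c k (y l).1} =
      ⋂ l, (fun y : Fin n → Pt m => (y l).1) ⁻¹' {y : Y0 | Stab b c k y} := by
    ext y; simp
  rw [e]
  have ho : ∀ l : Fin n, IsOpenMap (fun y : Fin n → Pt m => (y l).1) := fun l =>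
    isOpenMap_fst.comp (isOpenMap_eval l)
  refine dense_iInter_finite _ (fun l => ?_) (fun l => ?_)
  · exact (hSTAB b c k).1.preimage (continuous_fst.comp (continuous_apply l))
  · exact (hSTAB b c k).2.preimage (ho l)

/-- a bump moves the location -/
theorem loc_moves {b c : X} {x : X} {t : ℝ} {q q₀ : K} {k : ℕ} {β : ℝ}
    (hβ : 0 < β) (hmax : ∀ p, x p + t * b p + c p ≤ x q₀ + t * b q₀ + c q₀)
    (hq : x q₀ + t * b q₀ + c q₀ - β / 4 ≤ x q + t * b q + c q) {x' : X} {t' : ℝ}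
    (hx' : ‖x' - (x + β • cylf q k)‖ < β / 16) (ht' : |t' - t| * ‖b‖ ≤ β / 16) :
    loc b c x' t' ∈ cyl q k := by
  by_contra hcon
  set r := loc b c x' t' with hr
  have h1 := loc_spec b c x' t' q
  rw [← hr] at h1
  have hn : ∀ p, |(x' - (x + β • cylf q k)) p| < β / 16 := fun p => by
    have := (x' - (x + β • cylf q k)).norm_coe_le_norm p
    rw [Real.norm_eq_abs] at this
    exact this.trans_lt hx'
  have hb : ∀ p, |(t' - t) * b p| ≤ β / 16 := fun p => by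
    rw [abs_mul]
    refine le_trans (mul_le_mul_of_nonneg_left ?_ (abs_nonneg _)) ht'
    have := b.norm_coe_le_norm p
    rwa [Real.norm_eq_abs] at this
  have h2 := abs_lt.1 (hn q)
  have h3 := abs_lt.1 (hn r)
  simp only [ContinuousMap.sub_apply, ContinuousMap.add_apply, ContinuousMap.smul_apply,
    smul_eq_mul] at h2 h3
  rw [cylf_of_mem (mem_cyl_self q k)] at h2
  rw [cylf_of_notMem hcon] at h3
  have h4 := abs_le.1 (hb q)
  have h5 := abs_le.1 (hb r)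
  have h6 := hmax r
  linarith [h2.1, h3.2, h4.1, h5.2]

theorem blk_NDF (hCOREF : Stmt_COREF) (hSTAB : Stmt_STAB) (hWVC : Stmt_WVC) (hZZS : Stmt_ZZS) :
    Stmt_NDF := by
  classical
  intro n m k ι _ b c G L κ R v j l hjl hG hκ hR
  by_contra hnd
  have hne : (interior (closure (BadF n k b c G v κ R j l))).Nonempty :=
    Set.nonempty_iff_ne_empty.2 hnd
  obtain ⟨y0, hy0, hstab⟩ := (dense_stab (n := n) (m := m) hSTAB b c k).inter_open_nonempty _
    isOpen_interior hne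
  obtain ⟨ρ₁, hρ₁, N₁, hU⟩ := nearPt_basis_tuple y0 (isOpen_interior.mem_nhds hy0)
  have hw : ∀ l' : Fin n, ∃ ρ₀ > 0, ∀ ε > 0, ∃ ρ > 0, ∀ y' : Y0,
      ‖y'.1 - (y0 l').1.1‖ < ρ₀ → |y'.2.1 - (y0 l').1.2.1| < ρ₀ →
      qq b c y' ∈ cyl (qq b c (y0 l').1) k ∧
      ∀ i < k, ‖y'.2.2 i - (y0 l').1.2.2 i‖ < ρ →
        ‖bump (qq b c y') y'.2.2 i - bump (qq b c (y0 l').1) (y0 l').1.2.2 i‖ ≤ ε :=
    fun l' => hWVC b c k (y0 l').1 (hstab l')
  choose ρw hρw hw using hw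
  -- one bound for all
  have hmin : ∃ ρ > 0, ρ ≤ ρ₁ ∧ ∀ l', ρ ≤ ρw l' := by
    obtain ⟨i0, -, hi0⟩ := (Finset.univ : Finset (Fin n)).exists_min_image ρw ⟨j, Finset.mem_univ _⟩
    exact ⟨min ρ₁ (ρw i0), lt_min hρ₁ (hρw i0), min_le_left _ _,
      fun l' => (min_le_right _ _).trans (hi0 l' (Finset.mem_univ _))⟩
  obtain ⟨ρ, hρ, hρρ₁, hρρw⟩ := hmin
  set x0 : X := (y0 j).1.1 with hx0
  set t0 : ℝ := (y0 j).1.2.1 with ht0
  set q₀ : K := qq b c (y0 j).1 with hq₀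
  set β : ℝ := ρ / 4 with hβdef
  have hβ : 0 < β := by positivity
  obtain ⟨k₀, hk₀⟩ := osc_unif (x0 + t0 • b + c) (show 0 < β / 4 by positivity)
  have hmax : ∀ p, x0 p + t0 * b p + c p ≤ x0 q₀ + t0 * b q₀ + c q₀ := loc_spec b c x0 t0
  set v' : {l' : Fin n // l' ≠ l} ⊕ (Fin n × Fin k) ⊕ ι → Z m := wv k b c v y0 l with hv'
  refine hCOREF m ({l' : Fin n // l' ≠ l} ⊕ (Fin n × Fin k) ⊕ ι) G L κ R (ρ / 4) q₀ k₀ v'
    (vx (y0 l)) hG hκ hR (by positivity) ?_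
  intro z hz q hq k' hk' ε hε
  -- number of indices
  set Nn : ℝ := ((Fintype.card ({l' : Fin n // l' ≠ l} ⊕ (Fin n × Fin k) ⊕ ι) : ℕ) : ℝ) with hNn
  have hNn0 : 0 ≤ Nn := by rw [hNn]; positivity
  set ε₁ : ℝ := ε / (2 * (R * (Nn * R) + 1)) with hε₁
  have hden : 0 < 2 * (R * (Nn * R) + 1) := by positivity
  have hε₁pos : 0 < ε₁ := div_pos hε hden
  -- radii for the bumps
  have hw2 : ∃ ρ₂ > 0, ∀ l' : Fin n, ∀ y' : Y0,
      ‖y'.1 - (y0 l').1.1‖ < ρw l' → |y'.2.1 - (y0 l').1.2.1| < ρw l' →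
      ∀ i < k, ‖y'.2.2 i - (y0 l').1.2.2 i‖ < ρ₂ →
        ‖bump (qq b c y') y'.2.2 i - bump (qq b c (y0 l').1) (y0 l').1.2.2 i‖ ≤ ε₁ := by
    have := fun l' => hw l' ε₁ hε₁pos
    choose ρ' hρ' hw' using this
    obtain ⟨i0, -, hi0⟩ := (Finset.univ : Finset (Fin n)).exists_min_image ρ' ⟨j, Finset.mem_univ _⟩
    exact ⟨ρ' i0, hρ' i0, fun l' y' h1 h2 i hi h3 =>
      (hw' l' y' h1 h2).2 i hi (h3.trans_le (hi0 l' (Finset.mem_univ _)))⟩
  obtain ⟨ρ₂, hρ₂, hw2⟩ := hw2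
  -- the target tuple
  set y1 : Fin n → Pt m := fun l' =>
    if l' = l then ((z.1, (y0 l).1.2), z.2)
    else if l' = j then ((x0 + β • cylf q k', (y0 j).1.2), (y0 j).2) else y0 l' with hy1
  have hy1l : y1 l = ((z.1, (y0 l).1.2), z.2) := by simp [hy1]
  have hy1j : y1 j = ((x0 + β • cylf q k', (y0 j).1.2), (y0 j).2) := by simp [hy1, hjl]
  have hy1o : ∀ l', l' ≠ l → l' ≠ j → y1 l' = y0 l' := by
    intro l' h1 h2; simp [hy1, h1, h2]
  have hz1 : ‖z.1 - (y0 l).1.1‖ < ρ / 4 := lt_of_le_of_lt (norm_fst_le (z - vx (y0 l))) hz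
  have hz2 : ‖z.2 - (y0 l).2‖ < ρ / 4 := lt_of_le_of_lt (norm_snd_le (z - vx (y0 l))) hz
  have hbn : ‖β • cylf q k'‖ ≤ β := by
    rw [norm_smul, Real.norm_eq_abs, abs_of_pos hβ]
    exact mul_le_of_le_one_right hβ.le (norm_cylf_le q k')
  have hρ4 : ρ / 4 < ρ := by linarith
  have hnear : ∀ l', NearPt (ρ / 2) N₁ (y1 l') (y0 l') := by
    intro l'
    have hρ2 : 0 < ρ / 2 := by positivity
    by_cases h1 : l' = l
    · rw [h1, hy1l]
      refine ⟨hz1.trans (by linarith), by simpa using hρ2, fun i _ => by simpa using hρ2,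
        hz2.trans (by linarith)⟩
    by_cases h2 : l' = j
    · rw [h2, hy1j]
      refine ⟨?_, by simpa using hρ2, fun i _ => by simpa using hρ2, by simpa using hρ2⟩
      simp only
      rw [← hx0, add_sub_cancel_left]
      exact hbn.trans_lt (by rw [hβdef]; linarith)
    · rw [hy1o l' h1 h2]; exact nearPt_self hρ2 _ _
  have hy1U : y1 ∈ closure (BadF n k b c G v κ R j l) :=
    interior_subset (hU y1 fun l' => (hnear l').mono (by linarith) le_rfl)
  -- a small radius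
  set s : ℝ := min (min (ρ / 4) (ε / 2)) (min (min ρ₂ ε₁) (β / (32 * (‖b‖ + 1)))) with hs
  have hbpos : 0 < ‖b‖ + 1 := by positivity
  have hspos : 0 < s :=
    lt_min (lt_min (by positivity) (by positivity)) (lt_min (lt_min hρ₂ hε₁pos) (by positivity))
  have hs1 : s ≤ ρ / 4 := (min_le_left _ _).trans (min_le_left _ _)
  have hs2 : s ≤ ε / 2 := (min_le_left _ _).trans (min_le_right _ _)
  have hs3 : s ≤ ρ₂ := (min_le_right _ _).trans ((min_le_left _ _).trans (min_le_left _ _))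
  have hs4 : s ≤ ε₁ := (min_le_right _ _).trans ((min_le_left _ _).trans (min_le_right _ _))
  have hs5 : s ≤ β / (32 * (‖b‖ + 1)) := (min_le_right _ _).trans (min_le_right _ _)
  have hVo : IsOpen {y : Fin n → Pt m | ∀ l', NearPt s (max N₁ k) (y l') (y1 l')} := by
    have e : {y : Fin n → Pt m | ∀ l', NearPt s (max N₁ k) (y l') (y1 l')} =
        ⋂ l', (fun y : Fin n → Pt m => y l') ⁻¹' {y : Pt m | NearPt s (max N₁ k) y (y1 l')} := by
      ext y; simp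
    rw [e]
    exact isOpen_iInter_of_finite fun l' => (isOpen_nearPt _ _ _).preimage (continuous_apply l')
  obtain ⟨y, hyV, hyB⟩ := mem_closure_iff.1 hy1U _ hVo fun l' => nearPt_self hspos _ _
  obtain ⟨a, d, p, haj, hal, haR, hdR, hpR, hgd, hseen⟩ := hyB
  -- closeness of `y` to `y0`
  have hyx : ∀ l', ‖(y l').1.1 - (y0 l').1.1‖ < ρw l' := by
    intro l'
    have h1 := (hyV l').1
    have h2 := (hnear l').1
    have h3 : ‖(y l').1.1 - (y0 l').1.1‖ ≤ ‖(y l').1.1 - (y1 l').1.1‖ +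
      ‖(y1 l').1.1 - (y0 l').1.1‖ := norm_sub_le_norm_sub_add_norm_sub _ _ _
    have := hρρw l'
    linarith
  have ht1 : ∀ l', (y1 l').1.2 = (y0 l').1.2 := by
    intro l'
    by_cases h1 : l' = l
    · rw [h1, hy1l]
    by_cases h2 : l' = j
    · rw [h2, hy1j]
    · rw [hy1o l' h1 h2]
  have hyt : ∀ l', |(y l').1.2.1 - (y0 l').1.2.1| < s := by
    intro l'
    have h1 := (hyV l').2.1
    rwa [ht1] at h1
  have hyt' : ∀ l', |(y l').1.2.1 - (y0 l').1.2.1| < ρw l' := fun l' =>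
    (hyt l').trans_le (hs1.trans (by have := hρρw l'; linarith))
  have hyr : ∀ l', ∀ i < k, ‖(y l').1.2.2 i - (y0 l').1.2.2 i‖ < ρ₂ := by
    intro l' i hi
    have h1 := (hyV l').2.2.1 i (hi.trans_le (le_max_right _ _))
    rw [ht1] at h1
    exact h1.trans_le hs3
  -- the location
  have hloc : qq b c (y j).1 ∈ cyl q k' := by
    have hqq : cyl q k' ⊆ cyl q₀ k₀ := (cyl_anti hk').trans (cyl_eq_of_mem hq).le
    have ho := hk₀ q₀ q hq
    rw [abs_lt] at ho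
    simp only [ContinuousMap.add_apply, ContinuousMap.smul_apply, smul_eq_mul] at ho
    refine loc_moves (q₀ := q₀) (x := x0) (t := t0) hβ hmax (by linarith [ho.1]) ?_ ?_
    · have h1 := (hyV j).1
      rw [hy1j] at h1
      refine h1.trans_le (hs5.trans ?_)
      rw [div_le_div_iff₀ (by positivity) (by norm_num)]
      nlinarith [norm_nonneg b]
    · have h1 := (hyt j).le.trans hs5
      calc |(y j).1.2.1 - t0| * ‖b‖ ≤ β / (32 * (‖b‖ + 1)) * (‖b‖ + 1) :=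
            mul_le_mul h1 (by linarith) (norm_nonneg _) (by positivity)
        _ = β / 32 := by field_simp
        _ ≤ β / 16 := by linarith
  -- closeness of the other vectors
  have hwv : ∀ i, ‖cf a d p l i • (wv k b c v y l i - v' i)‖ ≤ R * ε₁ := by
    have hgen : ∀ (r : ℝ) (w : Z m), |r| ≤ R → ‖w‖ ≤ ε₁ → ‖r • w‖ ≤ R * ε₁ := by
      intro r w h1 h2
      rw [norm_smul, Real.norm_eq_abs]
      exact mul_le_mul h1 h2 (norm_nonneg _) hR.le
    rintro (⟨l', hl'⟩ | ⟨l', i⟩ | i)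
    · by_cases h2 : l' = j
      · have : cf a d p l (Sum.inl ⟨l', hl'⟩) = 0 := by
          change a l' = 0
          rw [h2]; exact haj
        rw [this, zero_smul, norm_zero]
        positivity
      · refine hgen _ _ (haR l') ?_
        change ‖vx (y l') - vx (y0 l')‖ ≤ ε₁
        have h3 := hyV l'
        rw [hy1o l' hl' h2] at h3
        unfold vx
        rw [Prod.mk_sub_mk, Prod.norm_def]
        exact max_le (h3.1.le.trans hs4) (h3.2.2.2.le.trans hs4)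
    · refine hgen _ _ (hdR l' i) ?_
      change ‖vy b c (y l') i - vy b c (y0 l') i‖ ≤ ε₁
      unfold vy
      rw [Prod.mk_sub_mk, sub_zero, norm_pair_zero]
      exact hw2 l' (y l').1 (hyx l') (hyt' l') i i.2 (hyr l' i i.2)
    · refine hgen _ _ (hpR i) ?_
      change ‖v i - v i‖ ≤ ε₁
      rw [sub_self, norm_zero]; exact hε₁pos.le
  have halpos : 0 < a l := lt_of_lt_of_le (by positivity) hal
  have hainv : (a l)⁻¹ ≤ R := by
    rw [inv_le_comm₀ halpos hR, ← one_div]; exact hal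
  refine ⟨vx (y l) + (a l)⁻¹ • ∑ i, cf a d p l i • (wv k b c v y l i - v' i), qq b c (y j).1,
    a l, fun i => cf a d p l i, ?_, hloc, hal, (le_abs_self _).trans (haR l), ?_, ?_⟩
  · have h1 : ‖vx (y l) - z‖ < ε / 2 := by
      have h3 := hyV l
      rw [hy1l] at h3
      have : vx (y l) - z = ((y l).1.1 - z.1, (y l).2 - z.2) := rfl
      rw [this, Prod.norm_def]
      exact max_lt (h3.1.trans_le hs2) (h3.2.2.2.trans_le hs2)
    have h2 : ‖(a l)⁻¹ • ∑ i, cf a d p l i • (wv k b c v y l i - v' i)‖ ≤ R * (Nn * (R * ε₁)) := by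
      rw [norm_smul, Real.norm_eq_abs, abs_of_pos (inv_pos.2 halpos)]
      refine mul_le_mul hainv ?_ (norm_nonneg _) hR.le
      refine (norm_sum_le _ _).trans ?_
      refine (Finset.sum_le_card_nsmul _ _ _ fun i _ => hwv i).trans (le_of_eq ?_)
      rw [nsmul_eq_mul, Finset.card_univ]
    have h3 : R * (Nn * (R * ε₁)) < ε / 2 := by
      rw [hε₁, show R * (Nn * (R * (ε / (2 * (R * (Nn * R) + 1))))) =
        (R * (Nn * R)) * ε / (2 * (R * (Nn * R) + 1)) by ring, div_lt_div_iff₀ hden two_pos]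
      nlinarith
    calc ‖vx (y l) + (a l)⁻¹ • ∑ i, cf a d p l i • (wv k b c v y l i - v' i) - z‖
        = ‖(vx (y l) - z) + (a l)⁻¹ • ∑ i, cf a d p l i • (wv k b c v y l i - v' i)‖ := by
          congr 1; abel
      _ ≤ _ := norm_add_le _ _
      _ < ε / 2 + ε / 2 := by linarith
      _ = ε := by ring
  · rintro (⟨l', hl'⟩ | ⟨l', i⟩ | i)
    · exact haR l'
    · exact hdR l' i
    · exact hpR i
  · have e : a l • (vx (y l) + (a l)⁻¹ • ∑ i, cf a d p l i • (wv k b c v y l i - v' i)) +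
        ∑ i, cf a d p l i • v' i = zz b c v y a d p := by
      rw [hZZS n m k ι b c v y a d p l, smul_add, smul_smul, mul_inv_cancel₀ halpos.ne', one_smul,
        add_assoc, ← Finset.sum_add_distrib]
      congr 1
      refine Finset.sum_congr rfl fun i _ => ?_
      rw [smul_sub, sub_add_cancel]
    rw [e]
    exact ⟨hgd, hseen⟩

end Pool.AP
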