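import Pool.Agent.Work.MP_6cbae3_ch.Final0
import Pool.Agent.Work.MP_6cbae3_ch.B_ASPL
import Pool.Agent.Work.MP_6cbae3_ch.B_BAI
import Pool.Agent.Work.MP_6cbae3_ch.B_BDD
import Pool.Agent.Work.MP_6cbae3_ch.B_BSE
import Pool.Agent.Work.MP_6cbae3_ch.B_CCC
import Pool.Agent.Work.MP_6cbae3_ch.B_CF1
import Pool.Agent.Work.MP_6cbae3_ch.B_CFN
import Pool.Agent.Work.MP_6cbae3_ch.B_CHC
import Pool.Agent.Work.MP_6cbae3_ch.B_CLOSE
import Pool.Agent.Work.MP_6cbae3_ch.B_CONT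
import Pool.Agent.Work.MP_6cbae3_ch.B_COREF
import Pool.Agent.Work.MP_6cbae3_ch.B_CORET
import Pool.Agent.Work.MP_6cbae3_ch.B_CORTI
import Pool.Agent.Work.MP_6cbae3_ch.B_DEN
import Pool.Agent.Work.MP_6cbae3_ch.B_ENVL
import Pool.Agent.Work.MP_6cbae3_ch.B_ENVP
import Pool.Agent.Work.MP_6cbae3_ch.B_EXPO
import Pool.Agent.Work.MP_6cbae3_ch.B_EXTN
import Pool.Agent.Work.MP_6cbae3_ch.B_FDC
import Pool.Agent.Work.MP_6cbae3_ch.B_GDR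
import Pool.Agent.Work.MP_6cbae3_ch.B_GEN
import Pool.Agent.Work.MP_6cbae3_ch.B_GOODN
import Pool.Agent.Work.MP_6cbae3_ch.B_GRD
import Pool.Agent.Work.MP_6cbae3_ch.B_GSQ
import Pool.Agent.Work.MP_6cbae3_ch.B_IDX
import Pool.Agent.Work.MP_6cbae3_ch.B_KIL
import Pool.Agent.Work.MP_6cbae3_ch.B_KILLM
import Pool.Agent.Work.MP_6cbae3_ch.B_KU
import Pool.Agent.Work.MP_6cbae3_ch.B_KUL
import Pool.Agent.Work.MP_6cbae3_ch.B_M1
import Pool.Agent.Work.MP_6cbae3_ch.B_M1A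
import Pool.Agent.Work.MP_6cbae3_ch.B_NDIF
import Pool.Agent.Work.MP_6cbae3_ch.B_NDT
import Pool.Agent.Work.MP_6cbae3_ch.B_NET
import Pool.Agent.Work.MP_6cbae3_ch.B_NM
import Pool.Agent.Work.MP_6cbae3_ch.B_OLDV
import Pool.Agent.Work.MP_6cbae3_ch.B_PCV
import Pool.Agent.Work.MP_6cbae3_ch.B_PSM
import Pool.Agent.Work.MP_6cbae3_ch.B_RB
import Pool.Agent.Work.MP_6cbae3_ch.B_RESP
import Pool.Agent.Work.MP_6cbae3_ch.B_SEPA
import Pool.Agent.Work.MP_6cbae3_ch.B_SEPI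
import Pool.Agent.Work.MP_6cbae3_ch.B_SEPN
import Pool.Agent.Work.MP_6cbae3_ch.B_SEPP
import Pool.Agent.Work.MP_6cbae3_ch.B_SEPR
import Pool.Agent.Work.MP_6cbae3_ch.B_STAB
import Pool.Agent.Work.MP_6cbae3_ch.B_STEP
import Pool.Agent.Work.MP_6cbae3_ch.B_WVC
import Pool.Agent.Work.MP_6cbae3_ch.B_ZZS
import Pool.Agent.Work.MP_6cbae3_ch.FIXQ
import Pool.Agent.Work.MP_6cbae3_ch.NDF

/-! # MP_6cbae3_an: all blocks together (helper17) -/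

set_option autoImplicit false

namespace Pool.AP

theorem p_SEPN : Stmt_SEPN := blk_SEPN blk_SEPA
theorem p_SEPR : Stmt_SEPR := blk_SEPR p_SEPN
theorem p_KUL : Stmt_KUL := blk_KUL blk_KU
theorem p_GSQ : Stmt_GSQ := blk_GSQ p_KUL blk_GEN p_SEPR p_SEPN
theorem p_KIL : Stmt_KIL := blk_KIL blk_KILLM
theorem p_NM : Stmt_NM := blk_NM blk_CCC blk_SEPP blk_DEN
theorem p_BAI : Stmt_BAI := blk_BAI p_NM
theorem p_RESP : Stmt_RESP := blk_RESP blk_DEN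
theorem p_FDC : Stmt_FDC := blk_FDC blk_BDD
theorem p_FIXQ : Stmt_FIXQ := blk_FIXQ blk_GDR blk_GRD
theorem p_CFN : Stmt_CFN := blk_CFN blk_CF1
theorem p_PSM : Stmt_PSM := blk_PSM blk_PCV p_CFN
theorem p_ENVP : Stmt_ENVP := blk_ENVP blk_PCV
theorem p_ENVL : Stmt_ENVL := blk_ENVL blk_PCV p_PSM p_ENVP
theorem p_STEP : Stmt_STEP := blk_STEP p_ENVL p_ENVP
theorem p_CORET : Stmt_CORET := blk_CORET blk_EXPO p_STEP p_ENVP blk_RB blk_NET blk_GRD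
theorem p_CORTI : Stmt_CORTI := blk_CORTI p_CORET
theorem p_COREF : Stmt_COREF := blk_COREF blk_GRD blk_NET
theorem p_BSE : Stmt_BSE := blk_BSE p_SEPN blk_SEPI
theorem p_NDT : Stmt_NDT := blk_NDT p_CORTI blk_STAB blk_WVC blk_ZZS p_BSE
theorem p_NDF : Stmt_NDF := blk_NDF p_COREF blk_STAB blk_WVC blk_ZZS
theorem p_GOODN : Stmt_GOODN := blk_GOODN p_NDT p_NDF
theorem p_OLDV : Stmt_OLDV := blk_OLDV blk_SEPI
theorem p_CLOSE : Stmt_CLOSE := blk_CLOSE p_GOODN blk_CLO p_OLDV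
theorem p_M1 : Stmt_M1 := blk_M1 blk_M1A p_CLOSE blk_GDR p_FIXQ p_RESP
theorem p_ASPL : Stmt_ASPL := blk_ASPL blk_EXTN p_M1 p_FDC p_BAI blk_SEPP blk_CCC blk_DEN

theorem p_FINAL : Stmt_FINAL :=
  final_of blk_CHC blk_IDX p_GSQ p_KIL p_BAI p_ASPL p_NM blk_CONT blk_NDIF

end Pool.AP
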