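import Pool.Agent.Work.MP_6cbae3_ch.Basic2

/-! # MP_6cbae3_an: the assembly (helper17) -/

set_option autoImplicit false

namespace Pool.AP

open Filter Topology Set

theorem exists_data (hGSQ : Stmt_GSQ) (hKIL : Stmt_KIL) (hC : CofM) (A : Type) [LinearOrder A]
    (hA : Idx A) : ∃ D : Data A, D.Good := by
  obtain ⟨b, c, y, ζ, hgp, hup, hsp⟩ := hGSQ hC A hA
  obtain ⟨kill, τ, hle, hk1, hk2, hk3⟩ := hKIL hC A hA
  exact ⟨⟨b, c, y, ζ, kill, τ⟩, ⟨hA, hgp, hup, hsp, hle, hk1, hk2, hk3⟩⟩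

/-- `E × ℝ` is not Asplund -/
theorem not_asplund (hNM : Stmt_NM) (hCONT : Stmt_CONT) (hNDIF : Stmt_NDIF) {A : Type}
    [LinearOrder A] (D : Data A) (hD : D.Good) : ¬ IsAsplund (D.E × ℝ) := by
  intro h
  obtain ⟨hconv, hcont⟩ := hCONT A D
  obtain ⟨G, -, hG, hGd, hGF⟩ := h univ D.F univ_nonempty isOpen_univ convex_univ hconv
    hcont.continuousOn
  have hdense : Dense G := fun x => hGd (mem_univ x)
  obtain ⟨O, hO, hOG⟩ := hG.eq_iInter_nat
  have hOd : ∀ n, IsOpen (O n) ∧ Dense (O n) := by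
    intro n
    refine ⟨hO n, hdense.mono ?_⟩
    rw [hOG]
    exact iInter_subset O n
  obtain ⟨α, -, hα⟩ := hNM A D hD O hOd univ isOpen_univ univ_nonempty
  refine hNDIF A D hD α (hGF _ ?_)
  rw [hOG]
  exact mem_iInter.2 hα

theorem final_of (hCHC : Stmt_CHC) (hIDX : Stmt_IDX) (hGSQ : Stmt_GSQ) (hKIL : Stmt_KIL)
    (hBAI : Stmt_BAI) (hASPL : Stmt_ASPL) (hNM : Stmt_NM) (hCONT : Stmt_CONT)
    (hNDIF : Stmt_NDIF) : Stmt_FINAL := by
  refine ⟨hCHC, fun hC => ?_⟩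
  obtain ⟨A, _, hA⟩ := hIDX
  obtain ⟨D, hD⟩ := exists_data hGSQ hKIL hC A hA
  exact ⟨D.E, inferInstance, inferInstance, inferInstance, inferInstance, inferInstance,
    inferInstance, inferInstance, hBAI A D hD, hASPL A D hD, not_asplund hNM hCONT hNDIF D hD⟩

end Pool.AP
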