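import Pool.Agent.Work.MP_6cbae3_ch.Defs

/-! # The counterexample for MP_6cbae3_an: statements of the blocks (helper17)

Block `X` proves `theorem blk_X : Stmt_X` or `theorem blk_X (h1 : Stmt_Y) ... : Stmt_X`. -/

set_option autoImplicit false

namespace Pool.AP

open Filter Topology Set

/-! ## Tools -/

/-- GRD: greedy growth of a sum of convex functions. -/
def Stmt_GRD : Prop :=
  ∀ (E : Type) [AddCommGroup E] (N n : ℕ) (g : Fin N → E → ℝ) (z : E) (P : ℕ → E → Prop)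
    (κ B : ℝ), P 0 0 →
    (∀ ν (h h' : E), 2 * g ν (z + h) ≤ g ν (z + (h + h')) + g ν (z + (h - h'))) →
    (∀ i < n, ∀ h, P i h → ∃ (h' : E) (ν : Fin N), P (i + 1) (h + h') ∧ P (i + 1) (h - h') ∧
      κ ≤ g ν (z + (h + h')) + g ν (z + (h - h')) - 2 * g ν (z + h)) →
    (∀ h, P n h → ∀ ν, g ν (z + h) - g ν z ≤ B) → n * κ ≤ 2 * N * B

/-- NET: finite nets in boxes. -/
def Stmt_NET : Prop :=
  ∀ (d : ℕ) (C μ : ℝ), 0 < μ → μ ≤ C → ∃ (N : ℕ) (ν : Fin N → Fin d → ℝ),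
    (N : ℝ) ≤ (4 * C / μ) ^ d ∧ ∀ s : Fin d → ℝ, (∀ i, |s i| ≤ C) → ∃ j, ∀ i, |s i - ν j i| ≤ μ

/-- CF1: a convex function of one variable with small second differences has a derivative. -/
def Stmt_CF1 : Prop :=
  ∀ (r : ℝ) (g : ℝ → ℝ), 0 < r → ConvexOn ℝ (Ioo (-r) r) g →
    (∀ ε > 0, ∃ t, 0 < t ∧ t < r ∧ g t + g (-t) - 2 * g 0 ≤ ε * t) →
    ∃ ξ : ℝ, ∀ η > 0, ∃ τ, 0 < τ ∧ τ < r ∧ ∀ t, |t| ≤ τ → g t ≤ g 0 + ξ * t + η * |t|

/-- CFN: a convex function of finitely many variables with small second differences in the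
coordinate directions is differentiable; bound for the gradient. -/
def Stmt_CFN : Prop :=
  ∀ (d : ℕ) (D : Set (Fin d → ℝ)) (g : (Fin d → ℝ) → ℝ) (x : Fin d → ℝ) (C : ℝ),
    IsOpen D → Convex ℝ D → x ∈ D → ConvexOn ℝ D g →
    (∀ i, ∀ ε > 0, ∀ t₀ > 0, ∃ t, 0 < t ∧ t < t₀ ∧
      g (x + t • Pi.single i 1) + g (x - t • Pi.single i 1) - 2 * g x ≤ ε * t) →
    (∀ i, ∀ t₀ > 0, ∃ t, 0 < t ∧ t < t₀ ∧ |g (x + t • Pi.single i 1) - g x| ≤ C * t) →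
    ∃ ξ : Fin d → ℝ, (∀ i, |ξ i| ≤ C) ∧ ∀ η > 0, ∃ τ > 0, ∀ u : Fin d → ℝ, (∀ i, |u i| ≤ τ) →
      x + u ∈ D ∧ |g (x + u) - g x - ∑ i, ξ i * u i| ≤ η * ∑ i, |u i|

/-- RB: a nonnegative function whose second derivative is bounded by `2` does not drop fast. -/
def Stmt_RB : Prop :=
  ∀ (d : ℕ) (φ : (Fin d → ℝ) → ℝ), (∀ s, 0 ≤ φ s) → ConvexOn ℝ univ (fun s => φ s + nsq s) →
    ConvexOn ℝ univ (fun s => nsq s - φ s) → ∀ s s', nsq (s' - s) ≤ φ s / 52 → φ s / 2 ≤ φ s'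

/-! ## Perspective and envelope -/

/-- PCV: the perspective is convex, Lipschitz in `z` and bounded below. -/
def Stmt_PCV : Prop :=
  ∀ (m M : ℕ) (G : Z m → ℝ) (L : ℝ) (v : Fin M → Z m), CL G L →
    ConvexOn ℝ {x : Z m × (Fin (M + 1) → ℝ) | 0 < x.2 0} (fun x => persp G v x.1 x.2) ∧
    (∀ z z' s, 0 < s 0 → |persp G v z s - persp G v z' s| ≤ L * ‖z - z'‖) ∧
    ∀ z s, 0 < s 0 → -(|G 0| * s 0 + L * ‖z‖ + L * ∑ i : Fin M, |s i.succ| * ‖v i‖) ≤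
      persp G v z s

/-- ENVP: elementary properties of the envelope. -/
def Stmt_ENVP : Prop :=
  ∀ (m M : ℕ) (G : Z m → ℝ) (L : ℝ) (v : Fin M → Z m) (l₀ : ℝ), CL G L → 0 < l₀ →
    (∀ z s π, l₀ ≤ π 0 → env G v l₀ z s ≤ persp G v z π + nsq (π - s) / 2) ∧
    (∀ z s, ∀ η > 0, ∃ π, l₀ ≤ π 0 ∧ persp G v z π + nsq (π - s) / 2 ≤ env G v l₀ z s + η) ∧
    (∀ z h s, 2 * env G v l₀ z s ≤ env G v l₀ (z + h) s + env G v l₀ (z - h) s) ∧
    (∀ z z' s, |env G v l₀ z s - env G v l₀ z' s| ≤ L * ‖z - z'‖) ∧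
    (∀ z, ConvexOn ℝ univ (fun s => env G v l₀ z s)) ∧
    (∀ z, ConvexOn ℝ univ (fun s => nsq s / 2 - env G v l₀ z s))

/-- PSM: the perspective is differentiable in the parameters where `G` is; bound. -/
def Stmt_PSM : Prop :=
  ∀ (m M : ℕ) (G : Z m → ℝ) (L : ℝ) (v : Fin M → Z m) (z : Z m) (π : Fin (M + 1) → ℝ),
    CL G L → 0 < π 0 → GD G ((π 0)⁻¹ • (z + ∑ i : Fin M, π i.succ • v i)) →
    ∃ ξ : Fin (M + 1) → ℝ,
      (∀ i, |ξ i| ≤ |G 0| + 3 * L * (‖(π 0)⁻¹ • (z + ∑ i : Fin M, π i.succ • v i)‖ +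
        ∑ i, ‖v i‖)) ∧
      ∀ η > 0, ∃ τ > 0, ∀ u : Fin (M + 1) → ℝ, (∀ i, |u i| ≤ τ) →
        0 < (π + u) 0 ∧
        |persp G v z (π + u) - persp G v z π - ∑ i, ξ i * u i| ≤ η * ∑ i, |u i|

/-- ENVL: where `G` sees the point `q`, the envelope grows near a suitable parameter `s`. -/
def Stmt_ENVL : Prop :=
  ∀ (m M : ℕ) (G : Z m → ℝ) (L : ℝ) (v : Fin M → Z m) (l₀ κ : ℝ) (z : Z m)
    (π : Fin (M + 1) → ℝ) (q : K), CL G L → 0 < l₀ → l₀ < π 0 →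
    GD G ((π 0)⁻¹ • (z + ∑ i : Fin M, π i.succ • v i)) →
    Seen G κ ((π 0)⁻¹ • (z + ∑ i : Fin M, π i.succ • v i)) q →
    ∃ s : Fin (M + 1) → ℝ,
      (∀ i, |s i - π i| ≤ |G 0| + 3 * L * (‖(π 0)⁻¹ • (z + ∑ i : Fin M, π i.succ • v i)‖ +
        ∑ i, ‖v i‖)) ∧
      ∀ δ > 0, ∀ η > 0, ∀ k₀, ∃ k ≥ k₀, κ * δ - η ≤
        env G v l₀ (z + δ • (cylf q k, 0)) s + env G v l₀ (z - δ • (cylf q k, 0)) s -
          2 * env G v l₀ z s

/-! ## The core lemmas -/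

/-- EXPO: exposing the points of a separated set. -/
def Stmt_EXPO : Prop :=
  ∀ (M : ℕ) (w : Fin M → X) (b c x₀ : X) (t₀ ρ : ℝ), 0 < ρ →
    ∃ (q₀ : K) (k₁ : ℕ) (ε : ℝ) (x₁ : X), 0 < ε ∧ ‖x₁ - x₀‖ ≤ ρ ∧
      ∀ (Q : Finset K) (s : ℝ), 0 < s → (∀ p ∈ Q, p ∈ cyl q₀ k₁) →
        (∀ p ∈ Q, ∀ p' ∈ Q, p ≠ p' → ∃ f ∈ [b, c] ++ List.ofFn w, s < |f p - f p'|) →
        ∃ N : ℕ, (∀ p ∈ Q, ∀ p' ∈ Q, p ≠ p' → Disjoint (cyl p N) (cyl p' N)) ∧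
          ∀ β > 0, ∀ p ∈ Q, ∃ (σ t : ℝ) (θ : Fin M → ℝ), |σ| ≤ ρ ∧ |σ| ≤ 1 / 2 ∧
            |t - t₀| ≤ ρ ∧ (∀ i, |θ i| ≤ ρ) ∧
            ∀ h : X, (∀ p', |h p'| ≤ ε * s ^ 2) →
              (∀ p', h p' ≠ 0 → ∃ p'' ∈ Q, p'' ≠ p ∧ p' ∈ cyl p'' N) →
              ∀ p', p' ∉ cyl p N →
                ((1 + σ) • (x₁ + h) + ∑ i, θ i • w i + β • cylf p N) p' + t * b p' + c p' + β ≤
                ((1 + σ) • (x₁ + h) + ∑ i, θ i • w i + β • cylf p N) p + t * b p + c p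

/-- STEP: one step of the growth argument. -/
def Stmt_STEP : Prop :=
  ∀ (m M : ℕ) (G : Z m → ℝ) (L κ R ρ : ℝ) (b c : X) (v : Fin M → Z m) (x₀ : X)
    (u₀ : Fin m → ℝ) (t₀ : ℝ), CL G L → 0 < κ → 0 < R → DenseT G κ R ρ b c v x₀ u₀ t₀ →
    ∀ B : ℝ, ∃ C > 0, ∀ (x₁ : X) (u₁ : Fin m → ℝ) (σ t β : ℝ) (θ : Fin M → ℝ) (p : K) (N : ℕ),
      |σ| ≤ 1 / 2 → 0 < β → β ≤ 1 → (∀ i, |θ i| ≤ 1) → ‖x₁‖ ≤ B → ‖u₁‖ ≤ B →
      ‖((1 + σ) • x₁ + ∑ i, θ i • (v i).1 + β • cylf p N) - x₀‖ < ρ →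
      ‖((1 + σ) • u₁ + ∑ i, θ i • (v i).2) - u₀‖ < ρ → |t - t₀| < ρ →
      (∀ p', p' ∉ cyl p N →
        ((1 + σ) • x₁ + ∑ i, θ i • (v i).1 + β • cylf p N) p' + t * b p' + c p' + β ≤
        ((1 + σ) • x₁ + ∑ i, θ i • (v i).1 + β • cylf p N) p + t * b p + c p) →
      ∃ q ∈ cyl p N, ∃ s : Fin (M + 1) → ℝ, (∀ i, |s i| ≤ C) ∧ ∀ δ > 0, ∀ k₀, ∃ k ≥ k₀,
        κ * δ - (16 * L + 1) * β ≤ env G v (1 / (2 * R)) ((x₁, u₁) + δ • (cylf q k, 0)) s +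
          env G v (1 / (2 * R)) ((x₁, u₁) - δ • (cylf q k, 0)) s -
          2 * env G v (1 / (2 * R)) (x₁, u₁) s

/-- CORET: bad points cannot be dense if the location belongs to the moving vector. -/
def Stmt_CORET : Prop :=
  ∀ (m M : ℕ) (G : Z m → ℝ) (L κ R ρ : ℝ) (b c : X) (v : Fin M → Z m) (x₀ : X)
    (u₀ : Fin m → ℝ) (t₀ : ℝ), CL G L → 0 < κ → 0 < R → 0 < ρ → SepV b c v →
    ¬ DenseT G κ R ρ b c v x₀ u₀ t₀

/-- CORTI: the same for arbitrary finite index types. -/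
def Stmt_CORTI : Prop :=
  ∀ (m : ℕ) (ι : Type) [Fintype ι] (G : Z m → ℝ) (L κ R ρ : ℝ) (b c : X) (v : ι → Z m) (x₀ : X)
    (u₀ : Fin m → ℝ) (t₀ : ℝ), CL G L → 0 < κ → 0 < R → 0 < ρ → SepV b c v →
    ¬ DenseT G κ R ρ b c v x₀ u₀ t₀

/-- COREF: bad points cannot be dense if the location is independent of the moving vector. -/
def Stmt_COREF : Prop :=
  ∀ (m : ℕ) (ι : Type) [Fintype ι] (G : Z m → ℝ) (L κ R ρ : ℝ) (q₀ : K) (k₀ : ℕ)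
    (v : ι → Z m) (z₀ : Z m), CL G L → 0 < κ → 0 < R → 0 < ρ → ¬ DenseF G κ R ρ q₀ k₀ v z₀

/-- GDR: generic Gâteaux differentiability. -/
def Stmt_GDR : Prop :=
  ∀ (m : ℕ) (G : Z m → ℝ) (L : ℝ), CL G L → ∀ᶠ z in residual (Z m), GD G z

/-- FIXQ: a fixed point is generically not seen. -/
def Stmt_FIXQ : Prop :=
  ∀ (m : ℕ) (G : Z m → ℝ) (L : ℝ) (q : K), CL G L →
    ∀ᶠ z in residual (Z m), ∀ κ > 0, ¬ Seen G κ z q

/-! ## Bad tuples are meagre -/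

/-- STAB: stable locations are open and dense. -/
def Stmt_STAB : Prop :=
  ∀ (b c : X) (k : ℕ), IsOpen {y : Y0 | Stab b c k y} ∧ Dense {y : Y0 | Stab b c k y}

/-- ZZS: splitting a linear combination. -/
def Stmt_ZZS : Prop :=
  ∀ (n m k : ℕ) (ι : Type) [Fintype ι] (b c : X) (v : ι → Z m) (y : Fin n → Pt m)
    (a : Fin n → ℝ) (d : Fin n → Fin k → ℝ) (p : ι → ℝ) (j : Fin n),
    zz b c v y a d p = a j • vx (y j) + ∑ i, cf a d p j i • wv k b c v y j i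

/-- WVC: at stable stages the bumps depend continuously on the stage. -/
def Stmt_WVC : Prop :=
  ∀ (b c : X) (k : ℕ) (y : Y0), Stab b c k y → ∃ ρ₀ > 0, ∀ ε > 0, ∃ ρ > 0, ∀ y' : Y0,
    ‖y'.1 - y.1‖ < ρ₀ → |y'.2.1 - y.2.1| < ρ₀ → qq b c y' ∈ cyl (qq b c y) k ∧
    ∀ i < k, ‖y'.2.2 i - y.2.2 i‖ < ρ →
      ‖bump (qq b c y') y'.2.2 i - bump (qq b c y) y.2.2 i‖ ≤ ε

/-- BSE: there are many tuples which are separated together with the old vectors. -/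
def Stmt_BSE : Prop :=
  ∀ (n m k : ℕ) (ι : Type) [Fintype ι] (b c : X) (v : ι → Z m) (j : Fin n), SepV b c v →
    ∀ᶠ y in residual (Fin n → Pt m), SepV b c (wv k b c v y j)

/-- NDT: bad tuples of the first kind are nowhere dense. -/
def Stmt_NDT : Prop :=
  ∀ (n m k : ℕ) (ι : Type) [Fintype ι] (b c : X) (G : Z m → ℝ) (L κ R : ℝ) (v : ι → Z m)
    (j : Fin n), CL G L → 0 < κ → 0 < R → SepV b c v → IsNowhereDense (BadT n k b c G v κ R j)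

/-- NDF: bad tuples of the second kind are nowhere dense. -/
def Stmt_NDF : Prop :=
  ∀ (n m k : ℕ) (ι : Type) [Fintype ι] (b c : X) (G : Z m → ℝ) (L κ R : ℝ) (v : ι → Z m)
    (j l : Fin n), j ≠ l → CL G L → 0 < κ → 0 < R → IsNowhereDense (BadF n k b c G v κ R j l)

/-- GOODN: the bad tuples form a meagre set. -/
def Stmt_GOODN : Prop :=
  ∀ (n m : ℕ) (ι : Type) [Fintype ι] (b c : X) (G : Z m → ℝ) (L : ℝ) (v : ι → Z m),
    CL G L → SepV b c v → IsMeagre (Bad n b c G v)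

/-! ## Separation -/

/-- SEPA: one more function near a given one. -/
def Stmt_SEPA : Prop :=
  ∀ (w : List X), Sep w → ∀ (q : K) (k : ℕ) (M : ℝ), 0 < M → ∀ (x₀ : X), ∀ ε > 0,
    ∃ x : X, ‖x - x₀‖ < ε ∧ SepAt (w ++ [x]) q k M

/-- SEPN: generic functions are separated. -/
def Stmt_SEPN : Prop :=
  ∀ (w : List X) (n : ℕ), Sep w → ∀ᶠ x in residual (Fin n → X), Sep (w ++ List.ofFn x)

/-- SEPR: the raw functions of a generic stage are separated. -/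
def Stmt_SEPR : Prop :=
  ∀ (w : List X), Sep w → ∀ᶠ y in residual Y0, ∀ k, Sep (w ++ raw y k)

/-- SEPI: invariance of the separation. -/
def Stmt_SEPI : Prop :=
  ∀ (w w' : List X), Sep w → w.length = w'.length →
    (∀ f ∈ w, ∃ f' ∈ w', ∃ (a : ℝ) (k : ℕ), a ≠ 0 ∧
      ∀ q, ∀ p ∈ cyl q k, (f' - a • f) p = (f' - a • f) q) → Sep w'

/-! ## Category -/

/-- KU: the easy direction of the Kuratowski-Ulam theorem. -/
def Stmt_KU : Prop :=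
  ∀ (Y W : Type) [TopologicalSpace Y] [TopologicalSpace W] [SecondCountableTopology W]
    (s : Set (Y × W)), s ∈ residual (Y × W) → ∀ᶠ y in residual Y, ∀ᶠ w in residual W, (y, w) ∈ s

/-- KUL: the iterated version. -/
def Stmt_KUL : Prop :=
  ∀ (W : Type) [TopologicalSpace W] [PolishSpace W] (n : ℕ) (M : Set (Fin n → W)),
    IsMeagre M → ∀ (Q : List W → Prop) (s : List W), (∀ x, x ∉ M → Q (s ++ List.ofFn x)) →
      It Q n s

/-- GEN: recursion for generic sequences. -/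
def Stmt_GEN : Prop :=
  ∀ (A : Type) [LinearOrder A], Idx A → ∀ (Y : Type) [TopologicalSpace Y] [BaireSpace Y]
    (U : A → Set Y), (∀ α, IsOpen (U α) ∧ (U α).Nonempty) →
    ∀ P : A → List (A × Y) → Prop, (∀ γ, P γ []) →
      (∀ γ l α, γ ≤ α → (∀ p ∈ l, γ ≤ p.1 ∧ p.1 < α) → (l.map Prod.fst).Pairwise (· < ·) →
        P γ l → ∀ᶠ w in residual Y, P γ (l ++ [(α, w)])) →
      ∃ w : A → Y, (∀ α, w α ∈ U α) ∧ ∀ γ (l : List A), (∀ a ∈ l, γ ≤ a) →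
        l.Pairwise (· < ·) → P γ (l.map fun a => (a, w a))

/-- GSQ: the generic sequence. -/
def Stmt_GSQ : Prop :=
  CofM → ∀ (A : Type) [LinearOrder A], Idx A → ∃ (b c : X) (y : A → Y0) (ζ : A → A → ℝ),
    (∀ (n : ℕ) (β : A) (M : Set (Fin n → Y0 × (Iio β → ℝ))), IsMeagre M →
      ∃ γ : A, ∀ a : Fin n → A, StrictMono a → (∀ i, γ ≤ a i) →
        (fun i => (y (a i), fun j : Iio β => ζ (a i) j)) ∉ M) ∧
    (∀ U : Set (Y0 × (A → ℝ)), IsOpen U → U.Nonempty → ∀ γ, ∃ α, γ ≤ α ∧ (y α, ζ α) ∈ U) ∧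
    (∀ l : List A, l.Pairwise (· < ·) → ∀ k, Sep ([b, c] ++ l.flatMap fun α => raw (y α) k))

/-- the values of a killing functional -/
noncomputable def kap {S : Type} (θ : S → ℝ × (ℕ → ℝ)) (β : S) (k : ℕ) : ℝ :=
  (θ β).1 * ((θ β).2 k / (1 + |(θ β).2 k|))

/-- KILLM: a sequence which is unbounded is killed by generic functionals. -/
def Stmt_KILLM : Prop :=
  ∀ (A : Type) [LinearOrder A] (α : A) (b : ℕ → (A × ℕ) →₀ ℝ), (Iio α).Countable →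
    (∀ n, ∀ p ∈ (b n).support, p.1 < α) → ¬ TBdd b →
    IsMeagre {θ : Iio α → ℝ × (ℕ → ℝ) | ∃ C, ∀ n,
      |(b n).sum fun p r => r * if h : p.1 < α then kap θ ⟨p.1, h⟩ p.2 else 0| ≤ C}

/-- KIL: the killing functionals. -/
def Stmt_KIL : Prop :=
  CofM → ∀ (A : Type) [LinearOrder A], Idx A → ∃ (kill : A → A × ℕ → ℝ) (τ : A → A),
    (∀ i, i ≤ τ i) ∧ (∀ i β, ∃ C, ∀ k, |kill i (β, k)| ≤ C) ∧
    (∀ b : ℕ → (A × ℕ) →₀ ℝ, ¬ TBdd b → ∃ i, (∀ n, ∀ p ∈ (b n).support, p.1 < τ i) ∧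
      ¬ ∃ C, ∀ n, |(b n).sum fun p r => r * kill i p| ≤ C) ∧
    (∀ γ, ∃ i, γ ≤ i ∧ ∀ p, kill i p = 0)

/-- IDX: the index set exists. -/
def Stmt_IDX : Prop := ∃ (A : Type) (_ : LinearOrder A), Idx A

/-- CHC: the continuum hypothesis implies the hypothesis. -/
def Stmt_CHC : Prop := (Cardinal.aleph 1 : Cardinal.{0}) = Cardinal.continuum → CofM

/-! ## The space `E` -/

/-- DEN: the main vectors are dense, unboundedly often. -/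
def Stmt_DEN : Prop :=
  ∀ (A : Type) [LinearOrder A] (D : Data A), D.Good →
    ∀ U : Set ((X × (A → ℝ)) × ℝ), IsOpen U → U.Nonempty → ∀ γ, ∃ α, γ ≤ α ∧
      (D.eh (α, 0), (D.y α).2.1) ∈ U

/-- INJ: the basis vectors are linearly independent. -/
def Stmt_INJ : Prop :=
  ∀ (A : Type) [LinearOrder A] (D : Data A), D.Good → Function.Injective D.J

/-- SEPP: the product is separable. -/
def Stmt_SEPP : Prop :=
  ∀ (A : Type) [LinearOrder A], Idx A → TopologicalSpace.SeparableSpace ((X × (A → ℝ)) × ℝ)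

/-- CCC: countable subfamilies with dense union. -/
def Stmt_CCC : Prop :=
  ∀ (S : Type) [TopologicalSpace S] [TopologicalSpace.SeparableSpace S] (T : Set S)
    (ι : Type) (V : ι → Set S), Dense T → (∀ i, IsOpen (V i)) →
    ∃ J : Set ι, J.Countable ∧ ∀ x ∈ ⋃ i, V i, x ∈ closure (T ∩ ⋃ i ∈ J, V i)

/-- NM: the points `(x α, t α)` meet every countable intersection of dense open sets. -/
def Stmt_NM : Prop :=
  ∀ (A : Type) [LinearOrder A] (D : Data A), D.Good →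
    ∀ O : ℕ → Set (D.E × ℝ), (∀ n, IsOpen (O n) ∧ Dense (O n)) →
    ∀ U : Set (D.E × ℝ), IsOpen U → U.Nonempty →
      ∃ α, (D.ehE (α, 0), (D.y α).2.1) ∈ U ∧ ∀ n, (D.ehE (α, 0), (D.y α).2.1) ∈ O n

/-- BAI: `E` is a Baire space. -/
def Stmt_BAI : Prop :=
  ∀ (A : Type) [LinearOrder A] (D : Data A), D.Good → BaireSpace D.E

/-- RESP: residual sets pull back to residual sets. -/
def Stmt_RESP : Prop :=
  ∀ (A : Type) [LinearOrder A] (D : Data A), D.Good → ∀ (m : ℕ) (I : Fin m → A),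
    Function.Injective I → ∀ s ∈ residual (Z m), {x | D.pr I x ∈ s} ∈ residual D.E

/-- BDD: bounded sets have bounded coefficients. -/
def Stmt_BDD : Prop :=
  ∀ (A : Type) [LinearOrder A] (D : Data A), D.Good → ∀ B : Set D.E,
    Bornology.IsVonNBounded ℝ B → ∃ (F : Finset A) (C : ℝ), ∀ x ∈ B, ∃ a : (A × ℕ) →₀ ℝ,
      D.J a = x ∧ (∀ p ∈ a.support, p.1 ∈ F) ∧ ∑ p ∈ a.support, |a p| ≤ C

/-- CLO: closing off. -/
def Stmt_CLO : Prop :=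
  ∀ (A : Type) [LinearOrder A], Idx A → ∀ (α₀ : A) (γ : Finset A → ℕ → A),
    ∃ α, α₀ ≤ α ∧ ∀ F : Finset A, (∀ a ∈ F, a < α) → ∀ k, γ F k ≤ α

/-- OLDV: blocks of old vectors are separated. -/
def Stmt_OLDV : Prop :=
  ∀ (A : Type) [LinearOrder A] (D : Data A), D.Good → ∀ (m : ℕ) (I : Fin m → A)
    (F : Finset A) (k : ℕ),
    SepV D.b D.c (fun i : F × Fin (k + 1) => D.pr I (D.ehE (i.1.1, i.2.1)))

/-- CLOSE: a stage above which everything is generic. -/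
def Stmt_CLOSE : Prop :=
  ∀ (A : Type) [LinearOrder A] (D : Data A), D.Good → ∀ (m : ℕ) (I : Fin m → A)
    (G : Z m → ℝ) (L : ℝ), Function.Injective I → CL G L →
    ∃ α₀ : A, (∀ i, D.τ (I i) ≤ α₀) ∧ ∀ (F : Finset A) (k n : ℕ), (∀ a ∈ F, a < α₀) →
      ∀ a : Fin n → A, StrictMono a → (∀ i, α₀ ≤ a i) →
        (fun i => ((D.y (a i), fun j => D.ζ (a i) (I j)) : Pt m)) ∉
          Bad n D.b D.c G (fun i : F × Fin (k + 1) => D.pr I (D.ehE (i.1.1, i.2.1)))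

/-- M1A: an element of `E` in terms of old and new stages. -/
def Stmt_M1A : Prop :=
  ∀ (A : Type) [LinearOrder A] (D : Data A), D.Good → ∀ (m : ℕ) (I : Fin m → A) (α₀ η : A),
    (∀ i, D.τ (I i) ≤ α₀) → α₀ ≤ η → ∀ e : (A × ℕ) →₀ ℝ,
    (∃ p, α₀ ≤ p ∧ e (p, 0) ≠ 0) → ∃ (F : Finset A) (k n : ℕ) (a : Fin n → A) (j : Fin n)
      (r : Fin n → ℝ) (d : Fin n → Fin k → ℝ) (p : F × Fin (k + 1) → ℝ),
      (∀ a ∈ F, a < α₀) ∧ StrictMono a ∧ (∀ i, α₀ ≤ a i) ∧ a j = η ∧ r ≠ 0 ∧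
      D.pr I ⟨D.J e, ⟨e, rfl⟩⟩ =
        zz D.b D.c (fun i : F × Fin (k + 1) => D.pr I (D.ehE (i.1.1, i.2.1)))
          (fun i => ((D.y (a i), fun j => D.ζ (a i) (I j)) : Pt m)) r d p

/-- M1: generically all conditions for differentiability hold. -/
def Stmt_M1 : Prop :=
  ∀ (A : Type) [LinearOrder A] (D : Data A), D.Good → ∀ (m : ℕ) (I : Fin m → A)
    (G : Z m → ℝ) (L : ℝ), Function.Injective I → CL G L →
    ∀ᶠ x in residual D.E, GD G (D.pr I x) ∧ ∀ η, ∀ κ > 0, ¬ Seen G κ (D.pr I x) (D.q η)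

/-- FDC: the conditions imply Fréchet differentiability. -/
def Stmt_FDC : Prop :=
  ∀ (A : Type) [LinearOrder A] (D : Data A), D.Good → ∀ (m : ℕ) (I : Fin m → A)
    (G : Z m → ℝ) (L : ℝ), CL G L → ∀ x : D.E, GD G (D.pr I x) →
    (∀ η, ∀ κ > 0, ¬ Seen G κ (D.pr I x) (D.q η)) → FrechetDiffAt (fun x => G (D.pr I x)) x

/-- EXTN: local extension. -/
def Stmt_EXTN : Prop :=
  ∀ (A : Type) [LinearOrder A] (D : Data A) (S : Set D.E) (f : D.E → ℝ), IsOpen S →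
    ConvexOn ℝ S f → ContinuousOn f S → ∀ x₀ ∈ S, ∃ (m : ℕ) (I : Fin m → A) (G : Z m → ℝ)
      (L : ℝ) (W : Set D.E), Function.Injective I ∧ CL G L ∧ IsOpen W ∧ x₀ ∈ W ∧ W ⊆ S ∧
      ∀ x ∈ W, f x = G (D.pr I x)

/-- ASPL: `E` is Asplund. -/
def Stmt_ASPL : Prop :=
  ∀ (A : Type) [LinearOrder A] (D : Data A), D.Good → IsAsplund D.E

/-- CONT: the function on `E × ℝ` is convex and continuous. -/
def Stmt_CONT : Prop :=
  ∀ (A : Type) [LinearOrder A] (D : Data A), ConvexOn ℝ univ D.F ∧ Continuous D.F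

/-- NDIF: it is not Fréchet differentiable at `(x α, t α)`. -/
def Stmt_NDIF : Prop :=
  ∀ (A : Type) [LinearOrder A] (D : Data A), D.Good → ∀ α,
    ¬ FrechetDiffAt D.F (D.ehE (α, 0), (D.y α).2.1)

/-- FINAL -/
def Stmt_FINAL : Prop :=
  ((Cardinal.aleph 1 : Cardinal.{0}) = Cardinal.continuum → CofM) ∧ (CofM →
    ∃ (E : Type) (_ : AddCommGroup E) (_ : Module ℝ E) (_ : TopologicalSpace E)
      (_ : IsTopologicalAddGroup E) (_ : ContinuousSMul ℝ E),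
      T2Space E ∧ LocallyConvexSpace ℝ E ∧ BaireSpace E ∧ IsAsplund E ∧ ¬ IsAsplund (E × ℝ))

end Pool.AP
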